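import Mathlib
set_option autoImplicit false

/-!
# Extreme rays and edges of polyhedral cones

The cone of a list `E` of equations and a list `J` of inequalities, in a real vector space. Rows are
elements of a type `ρ`, with a linear functional `φ r` for every row `r`.
-/

namespace Pool.Agent.Y644.QS

variable {ρ V : Type*} [AddCommGroup V] [Module ℝ V] (φ : ρ → V →ₗ[ℝ] ℝ)

/-- the cone `E = 0`, `J ≤ 0` -/
def InC (E J : List ρ) (h : V) : Prop := (∀ r ∈ E, φ r h = 0) ∧ ∀ r ∈ J, φ r h ≤ 0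

/-- extreme rays -/
structure Ext (E J : List ρ) (v : V) : Prop where
  mem : InC φ E J v
  ne : v ≠ 0
  ker : ∀ h, (∀ r ∈ E, φ r h = 0) → (∀ r ∈ J, φ r v = 0 → φ r h = 0) → ∃ s : ℝ, h = s • v

/-- the rows tight at `v` and `w` have the kernel spanned by `v` and `w` -/
def Adj (E J : List ρ) (v w : V) : Prop :=
  ∀ h, (∀ r ∈ E, φ r h = 0) → (∀ r ∈ J, φ r v = 0 → φ r w = 0 → φ r h = 0) →
    ∃ a b : ℝ, h = a • v + b • w

/-- the value `c / τ` increases from `v` to `w` -/
def Up (τ c : V →ₗ[ℝ] ℝ) (v w : V) : Prop := c v * τ w < c w * τ v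

variable {φ} {E J : List ρ} {v w h : V}

theorem Ext.smul (hv : Ext φ E J v) {s : ℝ} (hs : 0 < s) : Ext φ E J (s • v) := by
  refine ⟨⟨fun r hr => ?_, fun r hr => ?_⟩, ?_, fun h h1 h2 => ?_⟩
  · rw [map_smul, hv.mem.1 r hr, smul_zero]
  · rw [map_smul, smul_eq_mul]
    exact mul_nonpos_of_nonneg_of_nonpos hs.le (hv.mem.2 r hr)
  · exact smul_ne_zero hs.ne' hv.ne
  · obtain ⟨t, ht⟩ := hv.ker h h1 fun r hr h0 => h2 r hr (by rw [map_smul, h0, smul_zero])
    refine ⟨t / s, ?_⟩
    rw [smul_smul, div_mul_cancel₀ _ hs.ne', ht]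

theorem Adj.smul_right (h : Adj φ E J v w) {s : ℝ} (hs : s ≠ 0) : Adj φ E J v (s • w) := by
  intro x h1 h2
  obtain ⟨a, b, hab⟩ := h x h1 fun r hr h0 h0' => h2 r hr h0 (by rw [map_smul, h0', smul_zero])
  refine ⟨a, b / s, ?_⟩
  rw [smul_smul, div_mul_cancel₀ _ hs, hab]

theorem Adj.smul_left (h : Adj φ E J v w) {s : ℝ} (hs : s ≠ 0) : Adj φ E J (s • v) w := by
  intro x h1 h2
  obtain ⟨a, b, hab⟩ := h x h1 fun r hr h0 h0' => h2 r hr (by rw [map_smul, h0, smul_zero]) h0'
  refine ⟨a / s, b, ?_⟩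
  rw [smul_smul, div_mul_cancel₀ _ hs, hab]

theorem Up.smul_right {τ c : V →ₗ[ℝ] ℝ} (h : Up τ c v w) {s : ℝ} (hs : 0 < s) :
    Up τ c v (s • w) := by
  unfold Up at *
  simp only [map_smul, smul_eq_mul]
  nlinarith

theorem Up.smul_left {τ c : V →ₗ[ℝ] ℝ} (h : Up τ c v w) {s : ℝ} (hs : 0 < s) :
    Up τ c (s • v) w := by
  unfold Up at *
  simp only [map_smul, smul_eq_mul]
  nlinarith

theorem Up.not_smul {τ c : V →ₗ[ℝ] ℝ} (h : Up τ c v w) : ¬ ∃ s : ℝ, w = s • v := by
  rintro ⟨s, rfl⟩
  unfold Up at h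
  simp only [map_smul, smul_eq_mul] at h
  linarith [mul_comm (c v) (s * τ v), mul_comm (s * c v) (τ v), mul_assoc s (τ v) (c v),
    mul_assoc s (c v) (τ v), mul_comm (c v) (τ v)]

/-- passing to a face -/
theorem InC.of_face {F : ρ} (hF : F ∈ J) {J' : List ρ} (hJ : ∀ r ∈ J, r = F ∨ r ∈ J')
    (h : InC φ (F :: E) J' v) : InC φ E J v := by
  refine ⟨fun r hr => h.1 r (List.mem_cons_of_mem _ hr), fun r hr => ?_⟩
  rcases hJ r hr with rfl | h'
  · exact (h.1 r (by simp)).le
  · exact h.2 r h'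

theorem InC.to_face {F : ρ} {J' : List ρ} (hJ' : ∀ r ∈ J', r ∈ J) (h : InC φ E J v)
    (h0 : φ F v = 0) : InC φ (F :: E) J' v := by
  refine ⟨fun r hr => ?_, fun r hr => h.2 r (hJ' r hr)⟩
  rcases List.mem_cons.1 hr with rfl | h'
  · exact h0
  · exact h.1 r h'

theorem Ext.of_face {F : ρ} (hF : F ∈ J) {J' : List ρ} (hJ : ∀ r ∈ J, r = F ∨ r ∈ J')
    (hJ' : ∀ r ∈ J', r ∈ J) (h : Ext φ (F :: E) J' v) : Ext φ E J v := by
  refine ⟨h.mem.of_face hF hJ, h.ne, fun x h1 h2 => ?_⟩
  refine h.ker x (fun r hr => ?_) fun r hr h0 => h2 r (hJ' r hr) h0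
  rcases List.mem_cons.1 hr with rfl | h'
  · exact h2 r hF (h.mem.1 r (by simp))
  · exact h1 r h'

theorem Ext.to_face {F : ρ} {J' : List ρ} (hJ : ∀ r ∈ J, r = F ∨ r ∈ J')
    (hJ' : ∀ r ∈ J', r ∈ J) (h : Ext φ E J v) (h0 : φ F v = 0) : Ext φ (F :: E) J' v := by
  refine ⟨h.mem.to_face hJ' h0, h.ne, fun x h1 h2 => ?_⟩
  refine h.ker x (fun r hr => h1 r (List.mem_cons_of_mem _ hr)) fun r hr h0' => ?_
  rcases hJ r hr with rfl | h'
  · exact h1 r (by simp)
  · exact h2 r h' h0'

theorem Adj.of_face {F : ρ} (hF : F ∈ J) {J' : List ρ} (hJ' : ∀ r ∈ J', r ∈ J)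
    (h : Adj φ (F :: E) J' v w) (hv : φ F v = 0) (hw : φ F w = 0) : Adj φ E J v w := by
  intro x h1 h2
  refine h x (fun r hr => ?_) fun r hr h0 h0' => h2 r (hJ' r hr) h0 h0'
  rcases List.mem_cons.1 hr with rfl | h'
  · exact h2 r hF hv hw
  · exact h1 r h'

/-- passing from a relaxation to the cone -/
theorem Ext.of_relax {S : List ρ} (hS : ∀ r ∈ S, r ∈ J) (h : Ext φ E S v) (hv : InC φ E J v) :
    Ext φ E J v :=
  ⟨hv, h.ne, fun x h1 h2 => h.ker x h1 fun r hr h0 => h2 r (hS r hr) h0⟩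

theorem Adj.of_relax {S : List ρ} (hS : ∀ r ∈ S, r ∈ J) (h : Adj φ E S v w) : Adj φ E J v w :=
  fun x h1 h2 => h x h1 fun r hr h0 h0' => h2 r (hS r hr) h0 h0'

theorem InC.to_relax {S : List ρ} (hS : ∀ r ∈ S, r ∈ J) (h : InC φ E J v) : InC φ E S v :=
  ⟨h.1, fun r hr => h.2 r (hS r hr)⟩

theorem Ext.to_relax {S : List ρ} (hS : ∀ r ∈ S, r ∈ J) (h : Ext φ E J v)
    (ht : ∀ r ∈ J, φ r v = 0 → r ∈ S) : Ext φ E S v :=
  ⟨h.mem.to_relax hS, h.ne, fun x h1 h2 => h.ker x h1 fun r hr h0 => h2 r (ht r hr h0) h0⟩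

/-! ### The other end of an edge -/

theorem blocked_row {r : ρ} : φ r ((-φ r v) • h + (φ r h) • v) = 0 := by
  simp only [map_add, map_smul, smul_eq_mul]
  ring

theorem blocked_up {τ c : V →ₗ[ℝ] ℝ} {a b : ℝ} (ha : 0 < a) (hu : Up τ c v h) :
    Up τ c v (a • h + b • v) := by
  unfold Up at *
  simp only [map_add, map_smul, smul_eq_mul]
  nlinarith

theorem blocked_ext (hE : ∀ r ∈ E, φ r v = 0) (hE' : ∀ r ∈ E, φ r h = 0)
    (hind : ¬ ∃ s : ℝ, h = s • v) (hadj : Adj φ E J v h) {r : ρ} (hr : r ∈ J) (hrv : φ r v < 0)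
    (hok : ∀ q ∈ J, φ q ((-φ r v) • h + (φ r h) • v) ≤ 0) :
    Ext φ E J ((-φ r v) • h + (φ r h) • v) ∧ Adj φ E J v ((-φ r v) • h + (φ r h) • v) := by
  have ha : 0 < -φ r v := by linarith
  refine ⟨⟨⟨fun e he => ?_, hok⟩, fun h0 => ?_, fun x h1 h2 => ?_⟩, fun x h1 h2 => ?_⟩
  · simp [map_add, map_smul, hE e he, hE' e he]
  · apply hind
    refine ⟨(φ r h) / (φ r v), ?_⟩
    have h1 : (φ r v) • h = (φ r h) • v := by
      have := eq_neg_of_add_eq_zero_left h0
      rw [neg_smul, neg_inj] at this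
      exact this
    calc h = (φ r v)⁻¹ • ((φ r v) • h) := by rw [smul_smul, inv_mul_cancel₀ hrv.ne, one_smul]
      _ = _ := by rw [h1, smul_smul, div_eq_inv_mul]
  · obtain ⟨a, b, rfl⟩ := hadj x h1 fun q hq h0 h0' =>
      h2 q hq (by simp [map_add, map_smul, h0, h0'])
    have h3 := h2 r hr blocked_row
    simp only [map_add, map_smul, smul_eq_mul] at h3
    refine ⟨b / (-φ r v), ?_⟩
    rw [smul_add, smul_smul, smul_smul, div_mul_cancel₀ _ ha.ne', add_comm]
    congr 2
    have := hrv.ne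
    field_simp
    linarith
  · obtain ⟨a, b, rfl⟩ := hadj x h1 fun q hq h0 h0' =>
      h2 q hq h0 (by simp [map_add, map_smul, h0, h0'])
    refine ⟨a - b * (φ r h) / (-φ r v), b / (-φ r v), ?_⟩
    rw [smul_add, smul_smul, smul_smul, div_mul_cancel₀ _ ha.ne', add_left_comm, ← add_smul,
      add_comm]
    congr 2
    ring

theorem exists_max {l : List ρ} {p : ρ → Prop} (f : ρ → ℝ) (hex : ∃ r ∈ l, p r) :
    ∃ r ∈ l, p r ∧ ∀ q ∈ l, p q → f q ≤ f r := by
  induction l with
  | nil => simp at hex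
  | cons a l ih =>
    by_cases h : ∃ r ∈ l, p r
    · obtain ⟨r, hr, h1, h2⟩ := ih h
      by_cases ha : p a ∧ f r < f a
      · refine ⟨a, by simp, ha.1, fun q hq hp => ?_⟩
        rcases List.mem_cons.1 hq with rfl | hq
        · exact le_rfl
        · exact (h2 q hq hp).trans ha.2.le
      · refine ⟨r, by simp [hr], h1, fun q hq hp => ?_⟩
        rcases List.mem_cons.1 hq with rfl | hq
        · by_contra hlt
          exact ha ⟨hp, not_le.1 hlt⟩
        · exact h2 q hq hp
    · have ha : p a := by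
        obtain ⟨r, hr, hp⟩ := hex
        rcases List.mem_cons.1 hr with rfl | hr
        · exact hp
        · exact absurd ⟨r, hr, hp⟩ h
      refine ⟨a, by simp, ha, fun q hq hp => ?_⟩
      rcases List.mem_cons.1 hq with rfl | hq
      · exact le_rfl
      · exact absurd ⟨q, hq, hp⟩ h

theorem exists_blocked (hv : InC φ E J v) (hT : ∀ q ∈ J, φ q v = 0 → φ q h ≤ 0)
    (hex : ∃ r ∈ J, φ r v < 0) :
    ∃ r ∈ J, φ r v < 0 ∧ ∀ q ∈ J, φ q ((-φ r v) • h + (φ r h) • v) ≤ 0 := by
  obtain ⟨r, hr, h1, h2⟩ := exists_max (fun r => φ r h / (-φ r v)) hex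
  refine ⟨r, hr, h1, fun q hq => ?_⟩
  simp only [map_add, map_smul, smul_eq_mul]
  rcases lt_or_eq_of_le (hv.2 q hq) with h3 | h3
  · have h4 := h2 q hq h3
    have h5 : 0 < -φ r v := by linarith
    have h6 : 0 < -φ q v := by linarith
    rw [div_le_div_iff₀ h6 h5] at h4
    nlinarith
  · have := hT q hq h3
    rw [h3]
    nlinarith

/-- the other end of a truncated edge of a relaxation -/
theorem blocked_relax {τ c : V →ₗ[ℝ] ℝ} {S : List ρ} (hS : ∀ r ∈ S, r ∈ J) (hv : InC φ E S v)
    (hu : Ext φ E S h) (hup : Up τ c v h) {r : ρ} (hrv : φ r v < 0)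
    (hok : ∀ q ∈ J, φ q ((-φ r v) • h + (φ r h) • v) ≤ 0) : 0 ≤ φ r h := by
  by_contra hlt
  rw [not_le] at hlt
  obtain ⟨s, hs⟩ := hu.ker v hv.1 fun q hq h0 => by
    have h1 := hok q (hS q hq)
    have h2 := hv.2 q hq
    simp only [map_add, map_smul, smul_eq_mul, h0, mul_zero, zero_add] at h1
    nlinarith
  have hs0 : s ≠ 0 := by
    rintro rfl
    rw [zero_smul] at hs
    rw [hs, map_zero] at hrv
    exact lt_irrefl _ hrv
  exact hup.not_smul ⟨s⁻¹, by rw [hs, smul_smul, inv_mul_cancel₀ hs0, one_smul]⟩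

/-- a face of the local cone which is minimal with respect to `g > 0` is an edge -/
theorem greedy_adj (hv : Ext φ E J v) {g : V →ₗ[ℝ] ℝ}
    (hE : ∀ r ∈ E, φ r h = 0) (hT : ∀ q ∈ J, φ q v = 0 → φ q h ≤ 0) (hg : 0 < g h)
    (hmax : ∀ r ∈ J, φ r v = 0 → φ r h < 0 → ∀ z, (∀ e ∈ E, φ e z = 0) →
      (∀ q ∈ J, φ q v = 0 → φ q h = 0 → φ q z = 0) → (∀ q ∈ J, φ q v = 0 → φ q z ≤ 0) →
      φ r z = 0 → g z ≤ 0) : Adj φ E J v h := by
  intro x h1 h2
  -- the component along `h` is removed
  have key : ∀ y, (∀ e ∈ E, φ e y = 0) → (∀ q ∈ J, φ q v = 0 → φ q h = 0 → φ q y = 0) →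
      g y = 0 → (∃ q ∈ J, φ q v = 0 ∧ 0 < φ q y) → False := by
    intro y y1 y2 y3 ⟨q0, hq0, hq1, hq2⟩
    obtain ⟨r, hr, ⟨hr1, hr2⟩, hr3⟩ := exists_max (p := fun r => φ r v = 0 ∧ 0 < φ r y)
      (fun r => φ r h / φ r y) ⟨q0, hq0, hq1, hq2⟩
    have hrh : φ r h < 0 := by
      refine lt_of_le_of_ne (hT r hr hr1) fun h0 => ?_
      have := y2 r hr hr1 h0
      linarith
    set s := (-φ r h) / φ r y with hs
    have hs0 : 0 < s := div_pos (by linarith) hr2
    have := hmax r hr hr1 hrh (h + s • y) (fun e he => by simp [hE e he, y1 e he])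
      (fun q hq a b => by simp [b, y2 q hq a b]) (fun q hq a => ?_) ?_
    · simp only [map_add, map_smul, y3, smul_zero, add_zero] at this
      linarith
    · simp only [map_add, map_smul, smul_eq_mul]
      by_cases hqy : 0 < φ q y
      · have h4 := hr3 q hq ⟨a, hqy⟩
        rw [div_le_div_iff₀ hqy hr2] at h4
        have h5 : s * φ q y = (-φ r h) * φ q y / φ r y := by rw [hs]; ring
        rw [h5]
        have h6 : (-φ r h) * φ q y / φ r y ≤ -φ q h := by
          rw [div_le_iff₀ hr2]; linarith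
        linarith
      · have := hT q hq a
        have : s * φ q y ≤ 0 := mul_nonpos_of_nonneg_of_nonpos hs0.le (not_lt.1 hqy)
        linarith
    · simp only [map_add, map_smul, smul_eq_mul, hs]
      rw [div_mul_cancel₀ _ hr2.ne']
      ring
  set y := x - (g x / g h) • h with hy
  have y1 : ∀ e ∈ E, φ e y = 0 := fun e he => by simp [hy, h1 e he, hE e he]
  have y2 : ∀ q ∈ J, φ q v = 0 → φ q h = 0 → φ q y = 0 := fun q hq a b => by
    simp [hy, h2 q hq a b, b]
  have y3 : g y = 0 := by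
    simp only [hy, map_sub, map_smul, smul_eq_mul]
    rw [div_mul_cancel₀ _ hg.ne', sub_self]
  have y4 : ∀ q ∈ J, φ q v = 0 → φ q y = 0 := by
    intro q hq a
    rcases lt_trichotomy (φ q y) 0 with h0 | h0 | h0
    · exact (key (-y) (fun e he => by simp [y1 e he]) (fun q hq a b => by simp [y2 q hq a b])
        (by simp [y3]) ⟨q, hq, a, by simpa using h0⟩).elim
    · exact h0
    · exact (key y y1 y2 y3 ⟨q, hq, a, h0⟩).elim
  obtain ⟨s, hs⟩ := hv.ker y y1 y4
  refine ⟨s, g x / g h, ?_⟩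
  rw [← hs, hy]
  abel

/-- a pointed cone has an extreme ray on which `g` is positive, if it has such a point -/
theorem exists_ext (hpt : ∀ h, (∀ r ∈ E, φ r h = 0) → (∀ r ∈ J, φ r h = 0) → h = 0)
    {g : V →ₗ[ℝ] ℝ} {z : V} (hz : InC φ E J z) (hg : 0 < g z) :
    ∃ u, Ext φ E J u ∧ 0 < g u := by
  classical
  obtain ⟨n, hn⟩ : ∃ n, n = (J.filter fun r => decide (φ r z < 0)).length := ⟨_, rfl⟩
  induction n using Nat.strong_induction_on generalizing z with
  | _ n ih =>
    by_cases hk : ∀ y, (∀ r ∈ E, φ r y = 0) → (∀ r ∈ J, φ r z = 0 → φ r y = 0) →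
        ∃ s : ℝ, y = s • z
    · exact ⟨z, ⟨hz, fun h => by rw [h, map_zero] at hg; exact lt_irrefl _ hg, hk⟩, hg⟩
    push Not at hk
    obtain ⟨x, x1, x2, x3⟩ := hk
    set y := x - (g x / g z) • z with hy
    have y1 : ∀ e ∈ E, φ e y = 0 := fun e he => by simp [hy, x1 e he, hz.1 e he]
    have y2 : ∀ q ∈ J, φ q z = 0 → φ q y = 0 := fun q hq a => by simp [hy, x2 q hq a, a]
    have y3 : g y = 0 := by
      simp only [hy, map_sub, map_smul, smul_eq_mul]
      rw [div_mul_cancel₀ _ hg.ne', sub_self]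
    have y4 : y ≠ 0 := fun h => x3 (g x / g z) (by rw [hy, sub_eq_zero] at h; exact h)
    -- a row which is positive on `y` or on `-y`
    have key : ∀ y, (∀ e ∈ E, φ e y = 0) → (∀ q ∈ J, φ q z = 0 → φ q y = 0) → g y = 0 →
        (∃ q ∈ J, 0 < φ q y) → ∃ u, Ext φ E J u ∧ 0 < g u := by
      intro y y1 y2 y3 ⟨q0, hq0, hq1⟩
      obtain ⟨r, hr, hr1, hr3⟩ := exists_max (p := fun r => 0 < φ r y)
        (fun r => φ r z / φ r y) ⟨q0, hq0, hq1⟩
      have hrz : φ r z < 0 := by
        refine lt_of_le_of_ne (hz.2 r hr) fun h0 => ?_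
        have := y2 r hr h0
        linarith
      set s := (-φ r z) / φ r y with hs
      have hs0 : 0 < s := div_pos (by linarith) hr1
      have hz' : InC φ E J (z + s • y) := by
        refine ⟨fun e he => by simp [hz.1 e he, y1 e he], fun q hq => ?_⟩
        simp only [map_add, map_smul, smul_eq_mul]
        by_cases hqy : 0 < φ q y
        · have h4 := hr3 q hq hqy
          rw [div_le_div_iff₀ hqy hr1] at h4
          have h5 : s * φ q y = (-φ r z) * φ q y / φ r y := by rw [hs]; ring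
          rw [h5]
          have h6 : (-φ r z) * φ q y / φ r y ≤ -φ q z := by
            rw [div_le_iff₀ hr1]; linarith
          linarith
        · have := hz.2 q hq
          have : s * φ q y ≤ 0 := mul_nonpos_of_nonneg_of_nonpos hs0.le (not_lt.1 hqy)
          linarith
      have hg' : 0 < g (z + s • y) := by
        simp only [map_add, map_smul, y3, smul_zero, add_zero]; exact hg
      have hr0 : φ r (z + s • y) = 0 := by
        simp only [map_add, map_smul, smul_eq_mul, hs]
        rw [div_mul_cancel₀ _ hr1.ne']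
        ring
      refine ih _ ?_ hz' hg' rfl
      rw [hn]
      have hsub : ∀ x ∈ J, decide (φ x (z + s • y) < 0) = true → decide (φ x z < 0) = true := by
        intro x hx h
        rw [decide_eq_true_iff] at h ⊢
        refine lt_of_le_of_ne (hz.2 x hx) fun h0 => ?_
        have := y2 x hx h0
        simp [h0, this] at h
      have hlt : ∀ {l : List ρ}, (∀ x ∈ l, decide (φ x (z + s • y) < 0) = true →
          decide (φ x z < 0) = true) → r ∈ l →
          (l.filter fun x => decide (φ x (z + s • y) < 0)).length <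
            (l.filter fun x => decide (φ x z < 0)).length := by
        intro l
        have hle : ∀ {l : List ρ}, (∀ x ∈ l, decide (φ x (z + s • y) < 0) = true →
            decide (φ x z < 0) = true) →
          (l.filter fun x => decide (φ x (z + s • y) < 0)).length ≤
            (l.filter fun x => decide (φ x z < 0)).length := by
          intro l
          induction l with
          | nil => simp
          | cons a l ih =>
            intro h
            have h1 := ih fun x hx => h x (by simp [hx])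
            have h2 := h a (by simp)
            rw [List.filter_cons, List.filter_cons]
            cases hp : decide (φ a (z + s • y) < 0)
            · cases hq : decide (φ a z < 0) <;>
                simp only [if_true, Bool.false_eq_true, if_false, List.length_cons] <;> omega
            · simp only [h2 hp, if_true, List.length_cons]
              omega
        induction l with
        | nil => simp
        | cons a l ih =>
          intro h hra
          have h1 := fun x hx => h x (List.mem_cons_of_mem a hx)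
          have h2 := h a (by simp)
          rw [List.filter_cons, List.filter_cons]
          rcases List.mem_cons.1 hra with rfl | hra
          · have e1 : decide (φ r (z + s • y) < 0) = false := by simp [hr0]
            have e2 : decide (φ r z < 0) = true := by simpa using hrz
            simp only [e1, e2, if_true, Bool.false_eq_true, if_false, List.length_cons]
            have := hle h1
            omega
          · have h3 := ih h1 hra
            cases hp : decide (φ a (z + s • y) < 0)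
            · cases hq : decide (φ a z < 0) <;>
                simp only [if_true, Bool.false_eq_true, if_false, List.length_cons] <;> omega
            · simp only [h2 hp, if_true, List.length_cons]
              omega
      exact hlt hsub hr
    by_cases hp : ∃ q ∈ J, 0 < φ q y
    · exact key y y1 y2 y3 hp
    · push Not at hp
      refine key (-y) (fun e he => by simp [y1 e he]) (fun q hq a => by simp [y2 q hq a])
        (by simp [y3]) ?_
      by_contra hcon
      push Not at hcon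
      refine y4 (hpt y y1 fun q hq => le_antisymm (hp q hq) ?_)
      have := hcon q hq
      rw [map_neg] at this
      linarith

/-- an improving path above the rows of `S` does not leave the cone -/
theorem rest_mem {J' S : List ρ} (hJ : ∀ r ∈ J, r ∈ S ∨ r ∈ J') {g : V →ₗ[ℝ] ℝ}
    (hS : ∀ F ∈ S, ∀ z, InC φ E J z → φ F z = 0 → g z ≤ 0) {x y : V} (hx : InC φ E J x)
    (hgx : 0 < g x) (hy : InC φ E J' y) (hgy : 0 < g y) : InC φ E J y := by
  by_contra hcon
  have hneg : ∀ q ∈ J, q ∈ S → φ q x < 0 := fun q hq hqS => by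
    refine lt_of_le_of_ne (hx.2 q hq) fun h0 => ?_
    have := hS q hqS x hx h0
    linarith
  have hex : ∃ r ∈ J, 0 < φ r y := by
    by_contra h
    push Not at h
    exact hcon ⟨hy.1, h⟩
  obtain ⟨r, hr, hr1, hr2⟩ := exists_max (p := fun r => 0 < φ r y)
    (fun r => φ r y / (-φ r x)) hex
  have hin : ∀ q ∈ J, 0 < φ q y → q ∈ S := fun q hq h0 => by
    rcases hJ q hq with h | h
    · exact h
    · have := hy.2 q h
      linarith
  have hrx := hneg r hr (hin r hr hr1)
  set t := φ r y / (-φ r x) with ht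
  have ht0 : 0 < t := div_pos hr1 (by linarith)
  have hz : InC φ E J (y + t • x) := by
    refine ⟨fun e he => by simp [hx.1 e he, hy.1 e he], fun q hq => ?_⟩
    simp only [map_add, map_smul, smul_eq_mul]
    by_cases hqy : 0 < φ q y
    · have h4 := hr2 q hq hqy
      have h5 : 0 < -φ q x := by have := hneg q hq (hin q hq hqy); linarith
      have h6 : φ q y ≤ t * (-φ q x) := by
        rw [ht]
        rwa [div_le_iff₀ h5] at h4
      linarith
    · have : t * φ q x ≤ 0 := mul_nonpos_of_nonneg_of_nonpos ht0.le (hx.2 q hq)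
      linarith
  have h0 : φ r (y + t • x) = 0 := by
    simp only [map_add, map_smul, smul_eq_mul, ht]
    have := hrx.ne
    field_simp
    ring
  have := hS r (hin r hr hr1) _ hz h0
  simp only [map_add, map_smul, smul_eq_mul] at this
  have : 0 < t * g x := mul_pos ht0 hgx
  linarith

end Pool.Agent.Y644.QS
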