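import Pool.Agent.Y644.QS.RelInt
import Pool.Agent.Y644.QS.Geom
import Pool.Agent.H687R2.LLLPoly
set_option autoImplicit false

/-!
# The building blocks of the algorithm

Points are integer vectors in homogeneous coordinates; the last coordinate is `tau`. A linear
program is given by the objective row `c` (whose last entry is arbitrary), the equations `E` and the
inequalities `J`.
-/

namespace Pool.Agent.Y644.QS

open scoped InnerProductSpace
open Pool.Agent.H687R2.LLL Pool.Agent.NPC

/-- the last coordinate -/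
def tau (c : List ℤ) : List ℤ := unitV c.length (c.length - 1)

/-- the number of doublings of a coordinate -/
def tpar (E J : List (List ℤ)) : ℕ := (2 * sz (E, J) + 2) * (E.length + J.length) + 1

/-- a relatively interior point of the cone `E = 0`, `J ≤ 0`, `g ≥ 0` -/
def face (c : List ℤ) (E J : List (List ℤ)) (g : List ℤ) : List ℤ :=
  relint c.length (tpar E (negV g :: J)) (fixR c.length E) (fixR c.length (negV g :: J))

/-- is `g` positive somewhere on the cone? -/
def feas (c : List ℤ) (E J : List (List ℤ)) (g : List ℤ) : Bool :=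
  decide (0 < dot g (face c E J g))

/-- the point of the ray from `h` in the direction `v` on the row `r` -/
def blockV (v h r : List ℤ) : List ℤ := comb (-(dot r v)) h (-(dot r h)) v

/-- candidates for the other end of the edge -/
def otherC (J : List (List ℤ)) (v h : List ℤ) : List (List ℤ) :=
  ((J.filter fun r => decide (dot r v < 0)).map fun r => blockV v h r).filter fun w =>
    J.all fun q => decide (dot q w ≤ 0)

/-- the other end of the edge from `v` in the direction of `h` -/
def other (J : List (List ℤ)) (v h : List ℤ) : List ℤ := (otherC J v h).head?.getD []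

/-- the rows tight at `w` -/
def tight (J : List (List ℤ)) (w : List ℤ) : List (List ℤ) := J.filter fun r => decide (dot r w = 0)

/-- the normalised representative of an extreme ray -/
def normV (c : List ℤ) (E J : List (List ℤ)) (w : List ℤ) : List ℤ :=
  (proj (gs (fixR c.length (E ++ tight J w))) (if 0 < dot (tau c) w then tau c else c)).1

/-- make rows tight as long as `g` is positive somewhere -/
def greedy (c : List ℤ) (E T : List (List ℤ)) (g : List ℤ) : List (List ℤ) :=
  T.foldr (fun r E' => if feas c (r :: E') T g = true then r :: E' else E') E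

/-- the functional `τ(v) c - c(v) τ` -/
def gain (c v : List ℤ) : List ℤ := comb (dot (tau c) v) c (dot c v) (tau c)

/-- an improving edge -/
def improve (c : List ℤ) (E J : List (List ℤ)) (v : List ℤ) : Option (List ℤ) :=
  if feas c E (tight J v) (gain c v) = true then
    some (normV c E J (other J v (face c (greedy c E (tight J v) (gain c v)) (tight J v)
      (gain c v))))
  else none

/-- the row as a functional -/
noncomputable def rf (N : ℕ) (r : List ℤ) : EuclideanSpace ℝ (Fin N) →ₗ[ℝ] ℝ :=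
  (innerSL ℝ (lv N r)).toLinearMap

theorem rf_apply (N : ℕ) (r : List ℤ) (h : EuclideanSpace ℝ (Fin N)) :
    rf N r h = ⟪lv N r, h⟫_ℝ := rfl

theorem rf_dot {N : ℕ} {r w : List ℤ} (hr : r.length = N) (hw : w.length = N) :
    rf N r (lv N w) = (dot r w : ℤ) := by rw [rf_apply, dot_eq hr hw]

theorem rf_negV (N : ℕ) (r : List ℤ) (h : EuclideanSpace ℝ (Fin N)) :
    rf N (negV r) h = - rf N r h := by rw [rf_apply, rf_apply, lv_negV, inner_neg_left]

theorem length_tau (c : List ℤ) : (tau c).length = c.length := length_unitV _ _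

theorem rf_comb {N : ℕ} {u v : List ℤ} (hu : u.length = N) (hv : v.length = N) (a b : ℤ)
    (h : EuclideanSpace ℝ (Fin N)) :
    rf N (comb a u b v) h = a * rf N u h - b * rf N v h := by
  rw [rf_apply, rf_apply, rf_apply, lv_comb hu hv, inner_sub_left, inner_smul_left,
    inner_smul_left]
  simp

theorem Len.cons {N : ℕ} {L : List (List ℤ)} (h : Len N L) {r : List ℤ} (hr : r.length = N) :
    Len N (r :: L) := by
  intro x hx
  rcases List.mem_cons.1 hx with rfl | hx
  · exact hr
  · exact h x hx

theorem Len.append {N : ℕ} {L L' : List (List ℤ)} (h : Len N L) (h' : Len N L') :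
    Len N (L ++ L') := by
  intro x hx
  rcases List.mem_append.1 hx with hx | hx
  · exact h x hx
  · exact h' x hx

theorem Len.filter {N : ℕ} {L : List (List ℤ)} (h : Len N L) (p : List ℤ → Bool) :
    Len N (L.filter p) := fun x hx => h x (List.mem_filter.1 hx).1

/-! ### Norm bounds -/

theorem norm_lv_le (N : ℕ) (r : List ℤ) : ‖lv N r‖ ≤ (nrm r : ℝ) := by
  have h1 : ‖lv N r‖ ^ 2 ≤ (nrm r : ℝ) ^ 2 := by
    rw [normSq_eq]
    calc ∑ i, (lv N r i) ^ 2 ≤ (∑ i : Fin N, |lv N r i|) ^ 2 := by
          rw [pow_two (∑ i : Fin N, |lv N r i|), Finset.sum_mul]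
          refine Finset.sum_le_sum fun i _ => ?_
          rw [← sq_abs, pow_two]
          exact mul_le_mul_of_nonneg_left (Finset.single_le_sum (f := fun i => |lv N r i|)
            (fun i _ => abs_nonneg _) (Finset.mem_univ i)) (abs_nonneg _)
      _ ≤ (nrm r : ℝ) ^ 2 := by
          refine pow_le_pow_left₀ (Finset.sum_nonneg fun i _ => abs_nonneg _) ?_ 2
          have h2 : ∀ i : Fin N, |lv N r i| = ((r.getD i 0).natAbs : ℝ) := fun i => by
            rw [lv_apply, Nat.cast_natAbs, Int.cast_abs]
          rw [Finset.sum_congr rfl fun i _ => h2 i]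
          rw [← Nat.cast_sum]
          have h3 : ∀ (N : ℕ) (r : List ℤ), ∑ i : Fin N, (r.getD i 0).natAbs ≤ nrm r := by
            intro N
            induction N with
            | zero => simp
            | succ N ih =>
              intro r
              cases r with
              | nil => simp
              | cons a r =>
                rw [Fin.sum_univ_succ]
                have := ih r
                simp only [Fin.val_zero, List.getD_cons_zero, Fin.val_succ, List.getD_cons_succ,
                  nrm_cons]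
                omega
          exact_mod_cast h3 N r
  exact (abs_le_of_sq_le_sq' h1 (Nat.cast_nonneg _)).2

theorem norm_lv_lt {N : ℕ} {r : List ℤ} : ‖lv N r‖ ≤ 2 ^ sz r :=
  (norm_lv_le N r).trans (by exact_mod_cast (nrm_lt r).le)

theorem normSq_lv_le {N b : ℕ} {r : List ℤ} (h : sz r ≤ b) : ‖lv N r‖ ^ 2 ≤ 2 ^ (2 * b) := by
  have h1 := norm_lv_lt (N := N) (r := r)
  have h2 : (2 : ℝ) ^ sz r ≤ 2 ^ b := pow_le_pow_right₀ (by norm_num) h
  calc ‖lv N r‖ ^ 2 ≤ (2 ^ b) ^ 2 := pow_le_pow_left₀ (norm_nonneg _) (h1.trans h2) 2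
    _ = 2 ^ (2 * b) := by rw [← pow_mul, mul_comm]

theorem tpar_spec {N : ℕ} {E J : List (List ℤ)} (hE : Len N E) (hJ : Len N J) :
    gprod (N + (N + J.length)) (sys E J) < 2 ^ tpar E J := by
  have h1 : ∀ r ∈ E, ‖lv N r‖ ^ 2 ≤ 2 ^ (2 * sz (E, J)) := fun r hr => normSq_lv_le (by
    have := sz_le_of_mem hr
    rw [sz_pair]; omega)
  have h2 : ∀ r ∈ J, ‖lv N r‖ ^ 2 ≤ 2 ^ (2 * sz (E, J)) := fun r hr => normSq_lv_le (by
    have := sz_le_of_mem hr
    rw [sz_pair]; omega)
  refine (gprod_sys_le hE hJ h1 h2).trans_lt ?_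
  exact pow_lt_pow_right₀ (by norm_num) (by unfold tpar; omega)

theorem face_spec {c : List ℤ} {E J : List (List ℤ)} {g : List ℤ} (hE : Len c.length E)
    (hJ : Len c.length J) (hg : g.length = c.length) :
    (face c E J g).length = c.length ∧ InC (rf c.length) E J (lv c.length (face c E J g)) ∧
      ((∃ h, InC (rf c.length) E J h ∧ 0 < rf c.length g h) →
        0 < rf c.length g (lv c.length (face c E J g))) := by
  have hJ' : Len c.length (negV g :: J) := hJ.cons (length_negV hg)
  unfold face
  rw [fixR_eq hE, fixR_eq hJ']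
  obtain ⟨h1, h2, h3, h4⟩ := relint_spec hE hJ' (tpar_spec hE hJ')
  refine ⟨h1, ⟨h2, fun r hr => h3 r (by simp [hr])⟩, ?_⟩
  rintro ⟨h, hh, hp⟩
  have h5 := h3 (negV g) (by simp)
  rw [← rf_apply, rf_negV] at h5
  refine lt_of_le_of_ne (by exact neg_nonpos.1 h5) fun h0 => ?_
  have h6 := h4 h hh.1 (fun r hr => ?_) (negV g) (by simp) (by
    rw [← rf_apply, rf_negV]
    exact neg_eq_zero.2 h0.symm)
  · rw [← rf_apply, rf_negV] at h6
    linarith
  · rcases List.mem_cons.1 hr with rfl | hr
    · rw [← rf_apply, rf_negV]; linarith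
    · exact hh.2 r hr

theorem feas_iff {c : List ℤ} {E J : List (List ℤ)} {g : List ℤ} (hE : Len c.length E)
    (hJ : Len c.length J) (hg : g.length = c.length) :
    feas c E J g = true ↔ ∃ h, InC (rf c.length) E J h ∧ 0 < rf c.length g h := by
  obtain ⟨h1, h2, h3⟩ := face_spec hE hJ hg
  have e : feas c E J g = true ↔ 0 < rf c.length g (lv c.length (face c E J g)) := by
    rw [feas, decide_eq_true_iff, rf_dot hg h1]
    exact Int.cast_pos.symm
  rw [e]
  exact ⟨fun h => ⟨_, h2, h⟩, h3⟩

theorem feas_pos {c : List ℤ} {E J : List (List ℤ)} {g : List ℤ} (hE : Len c.length E)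
    (hJ : Len c.length J) (hg : g.length = c.length) (h : feas c E J g = true) :
    0 < rf c.length g (lv c.length (face c E J g)) :=
  (face_spec hE hJ hg).2.2 ((feas_iff hE hJ hg).1 h)

/-! ### The other end -/

theorem lv_blockV {N : ℕ} {v h r : List ℤ} (hv : v.length = N) (hh : h.length = N)
    (hr : r.length = N) : lv N (blockV v h r) =
      (-(rf N r (lv N v))) • lv N h + (rf N r (lv N h)) • lv N v := by
  rw [blockV, lv_comb hh hv, rf_dot hr hv, rf_dot hr hh]
  push_cast
  rw [neg_smul (((dot r h : ℤ) : ℝ)), sub_neg_eq_add]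

theorem length_blockV {N : ℕ} {v h r : List ℤ} (hv : v.length = N) (hh : h.length = N) :
    (blockV v h r).length = N := length_comb hh hv _ _

theorem other_spec {N : ℕ} {J : List (List ℤ)} (hJ : Len N J) {E : List (List ℤ)} {v h : List ℤ}
    (hv : v.length = N) (hh : h.length = N) (hvC : InC (rf N) E J (lv N v))
    (hT : ∀ q ∈ J, rf N q (lv N v) = 0 → rf N q (lv N h) ≤ 0)
    (hex : ∃ r ∈ J, rf N r (lv N v) < 0) :
    (other J v h).length = N ∧ ∃ r ∈ J, rf N r (lv N v) < 0 ∧
      lv N (other J v h) = (-(rf N r (lv N v))) • lv N h + (rf N r (lv N h)) • lv N v ∧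
      ∀ q ∈ J, rf N q ((-(rf N r (lv N v))) • lv N h + (rf N r (lv N h)) • lv N v) ≤ 0 := by
  have hne : otherC J v h ≠ [] := by
    obtain ⟨r, hr, h1, h2⟩ := exists_blocked hvC hT hex
    apply List.ne_nil_of_mem (a := blockV v h r)
    rw [otherC, List.mem_filter]
    refine ⟨List.mem_map.2 ⟨r, List.mem_filter.2 ⟨hr, ?_⟩, rfl⟩, ?_⟩
    · rw [rf_dot (hJ r hr) hv] at h1
      simpa using (by exact_mod_cast h1 : dot r v < 0)
    · rw [List.all_eq_true]
      intro q hq
      have h3 := h2 q hq
      rw [← lv_blockV hv hh (hJ r hr), rf_dot (hJ q hq) (length_blockV hv hh)] at h3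
      simpa using (by exact_mod_cast h3 : dot q (blockV v h r) ≤ 0)
  obtain ⟨w, hw⟩ : ∃ w, (otherC J v h).head? = some w := by
    cases hc : otherC J v h with
    | nil => exact absurd hc hne
    | cons w l => exact ⟨w, rfl⟩
  have hw' : w ∈ otherC J v h := List.mem_of_head? hw
  have e : other J v h = w := by rw [other, hw]; rfl
  rw [otherC, List.mem_filter, List.mem_map] at hw'
  obtain ⟨⟨r, hr, rfl⟩, h2⟩ := hw'
  rw [List.mem_filter] at hr
  rw [List.all_eq_true] at h2
  rw [e]
  have h1 : rf N r (lv N v) < 0 := by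
    rw [rf_dot (hJ r hr.1) hv]
    exact_mod_cast (by simpa using hr.2 : dot r v < 0)
  refine ⟨length_blockV hv hh, r, hr.1, h1, lv_blockV hv hh (hJ r hr.1), fun q hq => ?_⟩
  rw [← lv_blockV hv hh (hJ r hr.1), rf_dot (hJ q hq) (length_blockV hv hh)]
  exact_mod_cast (by simpa using h2 q hq : dot q (blockV v h r) ≤ 0)

/-! ### Normalisation -/

theorem mem_tight {N : ℕ} {J : List (List ℤ)} (hJ : Len N J) {w : List ℤ} (hw : w.length = N)
    {r : List ℤ} : r ∈ tight J w ↔ r ∈ J ∧ rf N r (lv N w) = 0 := by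
  rw [tight, List.mem_filter, decide_eq_true_iff]
  refine and_congr_right fun hr => ?_
  rw [rf_dot (hJ r hr) hw]
  exact Int.cast_eq_zero.symm

theorem Len.tight {N : ℕ} {J : List (List ℤ)} (hJ : Len N J) (w : List ℤ) : Len N (tight J w) :=
  hJ.filter _

/-- the projection of a vector `x` with `⟪x, w⟫ > 0` is a positive multiple of the extreme ray -/
theorem proj_ext {N : ℕ} {E J T : List (List ℤ)} (hE : Len N E) (hJ : Len N J)
    {w : EuclideanSpace ℝ (Fin N)} {x : List ℤ} (hx : x.length = N)
    (hT : ∀ r, r ∈ T ↔ r ∈ J ∧ rf N r w = 0) (hext : Ext (rf N) E J w)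
    (hpos : 0 < rf N x w) :
    ∃ D : ℕ, 0 < D ∧ (D : ℝ) ≤ gprod N (E ++ T) ∧
      (proj (gs (E ++ T)) x).1.length = N ∧
      lv N (proj (gs (E ++ T)) x).1 = (D : ℝ) • PB N (E ++ T) (lv N x) ∧
      ∃ s : ℝ, 0 < s ∧ lv N (proj (gs (E ++ T)) x).1 = s • w := by
  have hB : Len N (E ++ T) := hE.append fun r hr => hJ r ((hT r).1 hr).1
  obtain ⟨D, hD, h1, h2⟩ := gs_proj hB
  obtain ⟨h3, h4⟩ := h2 x hx
  refine ⟨D, hD, h1, h3, h4, ?_⟩
  have hrow : ∀ r ∈ E ++ T, rf N r (PB N (E ++ T) (lv N x)) = 0 := fun r hr => by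
    rw [rf_apply, real_inner_comm]
    exact PB_row hr _
  obtain ⟨s, hs⟩ := hext.ker (PB N (E ++ T) (lv N x))
    (fun r hr => hrow r (List.mem_append_left _ hr))
    (fun r hr h0 => hrow r (List.mem_append_right _ ((hT r).2 ⟨hr, h0⟩)))
  have hw0 : ∀ r ∈ E ++ T, ⟪lv N r, w⟫_ℝ = 0 := fun r hr => by
    rcases List.mem_append.1 hr with hr | hr
    · exact hext.mem.1 r hr
    · exact ((hT r).1 hr).2
  have h5 := PB_inner_of_rows hw0 (lv N x)
  rw [hs, inner_smul_left] at h5
  simp only [conj_trivial] at h5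
  have h6 : 0 < s * ⟪w, w⟫_ℝ := by rw [h5]; exact hpos
  have h7 : 0 < ⟪w, w⟫_ℝ := real_inner_self_pos.2 hext.ne
  have hs0 : 0 < s := (mul_pos_iff_of_pos_right h7).1 h6
  refine ⟨D * s, mul_pos (by exact_mod_cast hD) hs0, ?_⟩
  rw [h4, hs, smul_smul]

theorem normV_spec {c : List ℤ} {E J : List (List ℤ)} (hE : Len c.length E) (hJ : Len c.length J)
    {w : List ℤ} (hw : w.length = c.length) (hext : Ext (rf c.length) E J (lv c.length w))
    (hpos : 0 < rf c.length (tau c) (lv c.length w) ∨ 0 < rf c.length c (lv c.length w)) :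
    (normV c E J w).length = c.length ∧
      ∃ s : ℝ, 0 < s ∧ lv c.length (normV c E J w) = s • lv c.length w := by
  unfold normV
  rw [fixR_eq (hE.append (hJ.tight _))]
  split_ifs with h
  · obtain ⟨_, _, _, h1, _, h2⟩ := proj_ext hE hJ (length_tau c) (fun r => mem_tight hJ hw) hext (by
      rw [rf_dot (length_tau c) hw]; exact_mod_cast h)
    exact ⟨h1, h2⟩
  · obtain ⟨_, _, _, h1, _, h2⟩ := proj_ext hE hJ rfl (fun r => mem_tight hJ hw) hext (by
      rcases hpos with h0 | h0
      · rw [rf_dot (length_tau c) hw] at h0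
        exact absurd (by exact_mod_cast h0) h
      · exact h0)
    exact ⟨h1, h2⟩

end Pool.Agent.Y644.QS
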