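import Pool.Agent.Y644.QS.Geom
set_option autoImplicit false

/-!
# Extreme rays of the homogenisation and vertices, edges, unbounded edges of a polyhedron
-/

namespace Pool.Agent.Y644.QS

variable {ρ V X : Type*} [AddCommGroup V] [Module ℝ V] [NormedAddCommGroup X] [NormedSpace ℝ X]
  [FiniteDimensional ℝ X] (φ : ρ → V →ₗ[ℝ] ℝ) (e : (X × ℝ) ≃ₗ[ℝ] V) (J : List ρ)

/-- the polyhedron -/
def PP : Set X := {x | ∀ r ∈ J, φ r (e (x, 1)) ≤ 0}

/-- the last coordinate is nonnegative -/
def HasTau (φ : ρ → V →ₗ[ℝ] ℝ) (e : (X × ℝ) ≃ₗ[ℝ] V) (J : List ρ) : Prop :=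
  ∃ r ∈ J, ∀ x t, φ r (e (x, t)) = -t

variable {φ e J}

omit [FiniteDimensional ℝ X] in
theorem inC_iff {x : X} : InC φ [] J (e (x, 1)) ↔ x ∈ PP φ e J :=
  ⟨fun h => h.2, fun h => ⟨by simp, h⟩⟩

omit [FiniteDimensional ℝ X] in
theorem e_split (x y : X) (a b s t : ℝ) :
    e (a • x + b • y, a * s + b * t) = a • e (x, s) + b • e (y, t) := by
  rw [← map_smul, ← map_smul, ← map_add]
  rfl

theorem exists_eps {J : List ρ} {a b : ρ → ℝ} (h : ∀ r ∈ J, b r < 0 ∨ (b r ≤ 0 ∧ a r = 0)) :
    ∃ ε : ℝ, 0 < ε ∧ ∀ r ∈ J, b r + ε * |a r| ≤ 0 := by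
  induction J with
  | nil => exact ⟨1, one_pos, by simp⟩
  | cons q J ih =>
    obtain ⟨ε, h0, h1⟩ := ih fun r hr => h r (by simp [hr])
    rcases h q (by simp) with hq | ⟨hq, hq0⟩
    · refine ⟨min ε (-b q / (|a q| + 1)), lt_min h0 (div_pos (by linarith) (by positivity)),
        fun r hr => ?_⟩
      rcases List.mem_cons.1 hr with rfl | hr
      · have h2 : min ε (-b r / (|a r| + 1)) * |a r| ≤ -b r / (|a r| + 1) * |a r| :=
          mul_le_mul_of_nonneg_right (min_le_right _ _) (abs_nonneg _)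
        have h3 : -b r / (|a r| + 1) * |a r| ≤ -b r := by
          rw [div_mul_eq_mul_div, div_le_iff₀ (by positivity)]
          have := abs_nonneg (a r)
          nlinarith
        linarith
      · have h2 : min ε (-b q / (|a q| + 1)) * |a r| ≤ ε * |a r| :=
          mul_le_mul_of_nonneg_right (min_le_left _ _) (abs_nonneg _)
        have := h1 r hr
        linarith
    · refine ⟨ε, h0, fun r hr => ?_⟩
      rcases List.mem_cons.1 hr with rfl | hr
      · rw [hq0, abs_zero, mul_zero, add_zero]; exact hq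
      · exact h1 r hr

/-- vertices are extreme rays -/
theorem ext_of_extreme {v : X} (hv : v ∈ Set.extremePoints ℝ (PP φ e J)) :
    Ext φ [] J (e (v, 1)) := by
  refine ⟨inC_iff.2 hv.1, fun h0 => ?_, fun h _ h2 => ?_⟩
  · have h1 := (map_eq_zero_iff e e.injective).1 h0
    simp at h1
  · obtain ⟨⟨y, s⟩, rfl⟩ := e.surjective h
    refine ⟨s, ?_⟩
    set d := y - s • v with hd
    have hdy : y = s • v + d := by rw [hd]; abel
    have hey : e (y, s) = s • e (v, 1) + e (d, 0) := by
      rw [← map_smul, ← map_add, hdy]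
      simp
    have hd0 : ∀ r ∈ J, φ r (e (v, 1)) = 0 → φ r (e (d, 0)) = 0 := fun r hr h0 => by
      have := h2 r hr h0
      rw [hey, map_add, map_smul, h0, smul_zero, zero_add] at this
      exact this
    obtain ⟨ε, e0, e1⟩ := exists_eps (J := J) (a := fun r => φ r (e (d, 0)))
      (b := fun r => φ r (e (v, 1))) fun r hr => by
        rcases (hv.1 r hr).lt_or_eq with h3 | h3
        · exact Or.inl h3
        · exact Or.inr ⟨h3.le, hd0 r hr h3⟩
    have hmem : ∀ a : ℝ, |a| ≤ ε → v + a • d ∈ PP φ e J := by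
      intro a ha r hr
      have h4 : e (v + a • d, 1) = e (v, 1) + a • e (d, 0) := by
        rw [← map_smul, ← map_add]
        simp
      rw [h4, map_add, map_smul, smul_eq_mul]
      have h5 := e1 r hr
      have h6 : a * φ r (e (d, 0)) ≤ ε * |φ r (e (d, 0))| :=
        (le_abs_self _).trans (by
          rw [abs_mul]; exact mul_le_mul_of_nonneg_right ha (abs_nonneg _))
      linarith
    have h7 := hv.2 (hmem (-ε) (by rw [abs_neg, abs_of_pos e0]))
      (hmem ε (by rw [abs_of_pos e0])) (by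
        refine ⟨1 / 2, 1 / 2, by norm_num, by norm_num, by norm_num, ?_⟩
        module)
    have h8 : ε • d = 0 := by
      have h10 : v + (-ε) • d = v := h7
      rw [add_eq_left, neg_smul, neg_eq_zero] at h10
      exact h10
    have h9 : d = 0 := (smul_eq_zero.1 h8).resolve_left e0.ne'
    rw [hey, h9]
    have : e ((0 : X), (0 : ℝ)) = 0 := map_zero e
    rw [this, add_zero]

/-- extreme rays with positive last coordinate are vertices -/
theorem extreme_of_ext {x : X} (h : Ext φ [] J (e (x, 1))) :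
    x ∈ Set.extremePoints ℝ (PP φ e J) := by
  refine ⟨inC_iff.1 h.mem, fun x₁ h1 x₂ h2 hx => ?_⟩
  obtain ⟨a, b, ha, hb, hab, rfl⟩ := hx
  have hs : e (a • x₁ + b • x₂, 1) = a • e (x₁, 1) + b • e (x₂, 1) := by
    rw [← e_split]
    simp [hab]
  obtain ⟨s, hs'⟩ := h.ker (e (x₁, 1)) (by simp) fun r hr h0 => by
    have h3 := h1 r hr
    have h4 := h2 r hr
    rw [hs, map_add, map_smul, map_smul, smul_eq_mul, smul_eq_mul] at h0
    have h5 : a * φ r (e (x₁, 1)) ≤ 0 := mul_nonpos_of_nonneg_of_nonpos ha.le h3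
    have h6 : b * φ r (e (x₂, 1)) ≤ 0 := mul_nonpos_of_nonneg_of_nonpos hb.le h4
    have h7 : a * φ r (e (x₁, 1)) = 0 := by linarith
    exact (mul_eq_zero.1 h7).resolve_left ha.ne'
  rw [← map_smul] at hs'
  have h8 := e.injective hs'
  have h9 : (1 : ℝ) = s * 1 := congrArg Prod.snd h8
  have h10 : x₁ = s • (a • x₁ + b • x₂) := congrArg Prod.fst h8
  rw [mul_one] at h9
  rw [← h9, one_smul] at h10
  exact h10

/-- the functional for a list of rows -/
noncomputable def rowSum (φ : ρ → V →ₗ[ℝ] ℝ) (T : List ρ) : V →ₗ[ℝ] ℝ := (T.map φ).sum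

theorem rowSum_apply (T : List ρ) (h : V) : rowSum φ T h = (T.map fun r => φ r h).sum := by
  unfold rowSum
  induction T with
  | nil => simp
  | cons a T ih => simp [ih]

theorem rowSum_nonpos {T : List ρ} {h : V} (hT : ∀ r ∈ T, φ r h ≤ 0) : rowSum φ T h ≤ 0 := by
  induction T with
  | nil => simp [rowSum]
  | cons a T ih =>
    have h2 : rowSum φ (a :: T) h = φ a h + rowSum φ T h := by simp [rowSum]
    have h3 := ih fun r hr => hT r (by simp [hr])
    have h4 := hT a (by simp)
    linarith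

theorem rowSum_eq_zero {T : List ρ} {h : V} (hT : ∀ r ∈ T, φ r h ≤ 0) :
    rowSum φ T h = 0 ↔ ∀ r ∈ T, φ r h = 0 := by
  induction T with
  | nil => simp [rowSum]
  | cons a T ih =>
    have h1 := ih fun r hr => hT r (by simp [hr])
    have h2 : rowSum φ (a :: T) h = φ a h + rowSum φ T h := by simp [rowSum]
    have h3 := hT a (by simp)
    have h4 := rowSum_nonpos (φ := φ) (T := T) (h := h) fun r hr => hT r (by simp [hr])
    rw [h2]
    constructor
    · intro h5 r hr
      rcases List.mem_cons.1 hr with rfl | hr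
      · linarith
      · exact h1.1 (by linarith) r hr
    · intro h5
      rw [h5 a (by simp), h1.2 fun r hr => h5 r (by simp [hr]), add_zero]

/-- the face of the polyhedron where the rows `T` are tight is exposed -/
theorem exposed_of_tight {T : List ρ} (hT : ∀ r ∈ T, r ∈ J) {S : Set X}
    (hS : S = {x ∈ PP φ e J | ∀ r ∈ T, φ r (e (x, 1)) = 0}) : IsExposed ℝ (PP φ e J) S := by
  rintro ⟨x, hx⟩
  set l : X →ₗ[ℝ] ℝ := (rowSum φ T).comp (e.toLinearMap.comp (LinearMap.inl ℝ X ℝ)) with hl
  have hl1 : ∀ y, l y = rowSum φ T (e (y, 1)) - rowSum φ T (e (0, 1)) := by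
    intro y
    have : e (y, 1) = e (y, 0) + e (0, 1) := by
      rw [← map_add]; simp
    rw [this, map_add]
    simp [hl]
  refine ⟨LinearMap.toContinuousLinearMap l, ?_⟩
  rw [hS]
  have hle : ∀ y ∈ PP φ e J, rowSum φ T (e (y, 1)) ≤ 0 := fun y hy =>
    rowSum_nonpos fun r hr => hy r (hT r hr)
  have hx0 : x ∈ PP φ e J ∧ ∀ r ∈ T, φ r (e (x, 1)) = 0 := by rw [hS] at hx; exact hx
  have hxz : rowSum φ T (e (x, 1)) = 0 :=
    (rowSum_eq_zero fun r hr => hx0.1 r (hT r hr)).2 hx0.2
  ext z
  simp only [Set.mem_ofPred_eq, LinearMap.coe_toContinuousLinearMap']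
  refine and_congr_right fun hz => ?_
  rw [← rowSum_eq_zero (φ := φ) fun r hr => hz r (hT r hr)]
  constructor
  · intro h y hy
    rw [hl1, hl1, h]
    have := hle y hy
    linarith
  · intro h
    have h1 := h x hx0.1
    rw [hl1, hl1, hxz] at h1
    exact le_antisymm (hle z hz) (by linarith)

/-- edges -/
theorem edge_exposed {x y : X} (hx : Ext φ [] J (e (x, 1))) (hy : Ext φ [] J (e (y, 1)))
    (hadj : Adj φ [] J (e (x, 1)) (e (y, 1))) :
    IsExposed ℝ (PP φ e J) (segment ℝ x y) := by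
  classical
  refine exposed_of_tight (T := J.filter fun r =>
    decide (φ r (e (x, 1)) = 0 ∧ φ r (e (y, 1)) = 0)) (fun r hr => (List.mem_filter.1 hr).1) ?_
  have hxe := extreme_of_ext hx
  have hye := extreme_of_ext hy
  ext z
  simp only [Set.mem_ofPred_eq, List.mem_filter, decide_eq_true_eq, and_imp]
  constructor
  · rintro ⟨a, b, ha, hb, hab, rfl⟩
    have hs : e (a • x + b • y, 1) = a • e (x, 1) + b • e (y, 1) := by
      rw [← e_split]; simp [hab]
    refine ⟨fun r hr => ?_, fun r hr h1 h2 => ?_⟩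
    · rw [hs, map_add, map_smul, map_smul, smul_eq_mul, smul_eq_mul]
      have h5 := mul_nonpos_of_nonneg_of_nonpos ha (hxe.1 r hr)
      have h6 := mul_nonpos_of_nonneg_of_nonpos hb (hye.1 r hr)
      linarith
    · rw [hs, map_add, map_smul, map_smul, h1, h2, smul_zero, smul_zero, add_zero]
  · rintro ⟨hz, h1⟩
    obtain ⟨a, b, hab⟩ := hadj (e (z, 1)) (by simp) fun r hr h2 h3 => h1 r hr h2 h3
    have h4 : e (z, 1) = e (a • x + b • y, a * 1 + b * 1) := by rw [hab, ← e_split]
    have h5 := e.injective h4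
    simp only [mul_one, Prod.mk.injEq] at h5
    obtain ⟨rfl, hab1⟩ := h5
    by_cases hb0 : b < 0
    · -- `x` is between `z` and `y`
      have ha0 : 0 < a := by linarith
      have h6 : a • x + b • y = x := hxe.2 hz hye.1 ⟨1 / a, -b / a, by positivity,
        div_pos (by linarith) ha0, by
        rw [← add_div]; rw [div_eq_one_iff_eq ha0.ne']; linarith, by
        rw [smul_add, smul_smul, smul_smul, add_assoc, ← add_smul, one_div,
          inv_mul_cancel₀ ha0.ne', one_smul, show a⁻¹ * b + -b / a = 0 by ring, zero_smul,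
          add_zero]⟩
      rw [h6]
      exact left_mem_segment ℝ x y
    by_cases ha0 : a < 0
    · have hb1 : 0 < b := by linarith
      have h6 : a • x + b • y = y := hye.2 hz hxe.1 ⟨1 / b, -a / b, by positivity,
        div_pos (by linarith) hb1, by
        rw [← add_div]; rw [div_eq_one_iff_eq hb1.ne']; linarith, by
        rw [smul_add, smul_smul, smul_smul, add_right_comm, ← add_smul, one_div,
          inv_mul_cancel₀ hb1.ne', one_smul, show b⁻¹ * a + -a / b = 0 by ring, zero_smul,
          zero_add]⟩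
      rw [h6]
      exact right_mem_segment ℝ x y
    · exact ⟨a, b, by linarith, by linarith, by linarith, rfl⟩

/-- unbounded edges -/
theorem ray_exposed {x d : X} (hx : Ext φ [] J (e (x, 1)))
    (hd : Ext φ [] J (e (d, 0))) (hadj : Adj φ [] J (e (x, 1)) (e (d, 0))) :
    IsExposed ℝ (PP φ e J) {z | ∃ t : ℝ, 0 ≤ t ∧ z = x + t • d} := by
  classical
  refine exposed_of_tight (T := J.filter fun r =>
    decide (φ r (e (x, 1)) = 0 ∧ φ r (e (d, 0)) = 0)) (fun r hr => (List.mem_filter.1 hr).1) ?_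
  have hxe := extreme_of_ext hx
  ext z
  simp only [Set.mem_ofPred_eq, List.mem_filter, decide_eq_true_eq, and_imp]
  have hs : ∀ t : ℝ, e (x + t • d, 1) = e (x, 1) + t • e (d, 0) := fun t => by
    rw [← map_smul, ← map_add]; simp
  constructor
  · rintro ⟨t, ht, rfl⟩
    refine ⟨fun r hr => ?_, fun r hr h1 h2 => ?_⟩
    · rw [hs, map_add, map_smul, smul_eq_mul]
      have h5 := mul_nonpos_of_nonneg_of_nonpos ht (hd.mem.2 r hr)
      have h6 := hxe.1 r hr
      linarith
    · rw [hs, map_add, map_smul, h1, h2, smul_zero, add_zero]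
  · rintro ⟨hz, h1⟩
    obtain ⟨a, b, hab⟩ := hadj (e (z, 1)) (by simp) fun r hr h2 h3 => h1 r hr h2 h3
    have h4 : e (z, 1) = e (a • x + b • d, a * 1 + b * 0) := by rw [hab, ← e_split]
    have h5 := e.injective h4
    simp only [mul_one, mul_zero, add_zero, Prod.mk.injEq] at h5
    obtain ⟨rfl, rfl⟩ := h5
    rw [one_smul] at hz ⊢
    by_cases hb0 : b < 0
    · -- `x` is between `z` and `x + d`
      have hxd : x + (1 : ℝ) • d ∈ PP φ e J := by
        intro r hr
        rw [hs, map_add, map_smul, smul_eq_mul]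
        have h5 := hd.mem.2 r hr
        have h6 := hxe.1 r hr
        linarith
      have h1b : 0 < 1 - b := by linarith
      have h6 : x + b • d = x := hxe.2 hz hxd ⟨1 / (1 - b), -b / (1 - b), by positivity,
        div_pos (by linarith) h1b, by
        rw [← add_div]; rw [div_eq_one_iff_eq h1b.ne']; ring, by
        rw [smul_add, smul_add, smul_smul, smul_smul, one_div]
        have e1 : (1 - b)⁻¹ • x + ((1 - b)⁻¹ * b) • d + ((-b / (1 - b)) • x +
            (-b / (1 - b) * 1) • d) = ((1 - b)⁻¹ + -b / (1 - b)) • x +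
              ((1 - b)⁻¹ * b + -b / (1 - b) * 1) • d := by
          rw [add_smul, add_smul]; abel
        rw [e1, show (1 - b)⁻¹ * b + -b / (1 - b) * 1 = 0 by ring, zero_smul, add_zero,
          show (1 - b)⁻¹ + -b / (1 - b) = (1 - b) * (1 - b)⁻¹ by ring,
          mul_inv_cancel₀ h1b.ne', one_smul]⟩
      exact ⟨0, le_rfl, by rw [h6]; simp⟩
    · exact ⟨b, by linarith, rfl⟩

end Pool.Agent.Y644.QS
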