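import Pool.Agent.Y644.QS.Machine
set_option autoImplicit false

/-!
# Few rows more than the dimension

If there are at most `e` rows more than the dimension, then the current vertex and an optimal
vertex are on a common facet as long as the dimension is at least `e + 2`, and the machine goes to
such a facet, whose top is the optimum.
-/

namespace Pool.Agent.Y644.QS

open scoped InnerProductSpace
open Pool.Agent.H687R2.LLL Pool.Agent.NPC

variable {c : List ℤ}

theorem finrank_kerE_cons (E : List (List ℤ)) (F : List ℤ) :
    Module.finrank ℝ (kerE c E) ≤ Module.finrank ℝ (kerE c (F :: E)) + 1 := by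
  set g : kerE c E →ₗ[ℝ] ℝ := (rf c.length F).comp (kerE c E).subtype with hg
  have h1 := LinearMap.finrank_range_add_finrank_ker g
  have h2 : Module.finrank ℝ (LinearMap.range g) ≤ 1 := by
    have := Submodule.finrank_le (LinearMap.range g)
    rwa [Module.finrank_self] at this
  have h3 : Module.finrank ℝ (LinearMap.ker g) ≤ Module.finrank ℝ (kerE c (F :: E)) := by
    rw [← Submodule.finrank_map_subtype_eq]
    refine Submodule.finrank_mono ?_
    rintro x ⟨y, hy, rfl⟩
    intro r hr
    rcases List.mem_cons.1 hr with rfl | hr
    · exact hy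
    · exact y.2 r hr
  omega

theorem finrank_kerE_append (E : List (List ℤ)) (T : List (List ℤ)) :
    Module.finrank ℝ (kerE c E) ≤ Module.finrank ℝ (kerE c (T ++ E)) + T.length := by
  induction T with
  | nil => simp
  | cons F T ih =>
    have := finrank_kerE_cons (c := c) (T ++ E) F
    rw [List.cons_append, List.length_cons]
    omega

/-- an extreme ray has enough tight rows -/
theorem Ext.le_tight {E J : List (List ℤ)} {w : EuclideanSpace ℝ (Fin c.length)}
    (h : Ext (rf c.length) E J w) (T : List (List ℤ))
    (hT : ∀ r ∈ J, rf c.length r w = 0 → r ∈ T) :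
    Module.finrank ℝ (kerE c E) ≤ T.length + 1 := by
  have h1 := finrank_kerE_append (c := c) E T
  have h2 : Module.finrank ℝ (kerE c (T ++ E)) ≤ 1 := by
    have h3 : kerE c (T ++ E) ≤ Submodule.span ℝ {w} := by
      intro x hx
      obtain ⟨s, hs⟩ := h.ker x (fun r hr => hx r (List.mem_append_right _ hr))
        fun r hr h0 => hx r (List.mem_append_left _ (hT r hr h0))
      rw [hs]
      exact Submodule.smul_mem _ _ (Submodule.mem_span_singleton_self _)
    refine (Submodule.finrank_mono h3).trans ?_
    exact (finrank_span_le_card ({w} : Set (EuclideanSpace ℝ (Fin c.length)))).trans (by simp)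
  omega

/-- the facet has the same top as the polyhedron -/
theorem facet_phase_top {B L : ℕ} {E I : List (List ℤ)} {v : List ℤ} {P0 : List (List ℤ)}
    {st : List Frame} (hE : Len c.length E) (hI : Len c.length I) {F : List ℤ} (hF : F ∈ I)
    (hcall : Result c (F :: E) (I.filter fun r => !decide (r = F)) v P0
      (Sum.inr (E, I, upper' c E (jl c I) I) :: st) B L (callF c E I (v :: P0) st F))
    (hopt : ∀ w : List ℤ, w.length = c.length → Ext (rf c.length) E (jl c I) (lv c.length w) →
      0 < rf c.length (tau c) (lv c.length w) →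
      Top c (F :: E) (jl c (I.filter fun r => !decide (r = F))) w → Top c E (jl c I) w) :
    Result c E I v P0 st (B + 1) L (callF c E I (v :: P0) st F) := by
  set J := jl c I with hJdef
  have hJ : Len c.length J := hI.jl
  have hτJ : negV (tau c) ∈ J := tau_mem_jl c I
  have hFJ : F ∈ J := mem_jl.2 (Or.inr hF)
  obtain ⟨f1, f2⟩ := facet_rows (c := c) (I := I) (F := F)
  obtain ⟨Q, j1, hj1, q2, q3, q4, q5⟩ := hcall
  have hg : Good c E J (Q ++ [v]) := q3.of_face hFJ f1 f2
  obtain ⟨w, Pw, hw⟩ := good_cons hg
  have hwh := hg
  rw [hw] at hwh q4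
  have hwl := hwh.head.1
  have hwE := hwh.head.2
  have hwp : hdp (Q ++ v :: P0) = w := by
    have h1 : Q ++ v :: P0 = (Q ++ [v]) ++ P0 := by simp
    rw [h1, hw]
    rfl
  have hstep : step c (Sum.inr (Q ++ v :: P0), Sum.inr (E, I, upper' c E (jl c I) I) :: st) =
      stepTop c E I (upper' c E (jl c I) I) st (Q ++ v :: P0) := rfl
  have hfin : improve c E (jl c I) w = none ∧ Top c E J w := by
    rcases hwh.head_or hτJ with hwτ | ⟨hwτ, hwc⟩
    · have h1 := hopt w hwl hwE hwτ q4
      exact ⟨improve_top hE hJ hwl hτJ hwE hwτ h1, h1⟩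
    · exact ⟨improve_ray hE hJ hwl hτJ hwτ hwc, top_ray hτJ hwτ hwc⟩
  refine ⟨Q, j1 + 1, by omega, iter_add q2 ?_, hg, by rw [hw]; exact hfin.2, by omega⟩
  rw [Function.iterate_one, hstep, stepTop, hwp, hfin.1]
  rfl

theorem length_filter_and {α : Type} (p q : α → Bool) (l : List α) :
    (l.filter p).length + (l.filter q).length ≤
      l.length + (l.filter fun x => p x && q x).length := by
  induction l with
  | nil => simp
  | cons a l ih =>
    simp only [List.filter_cons]
    cases p a <;> cases q a <;> simp only [if_true, Bool.false_eq_true, if_false,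
      List.length_cons, Bool.and_true, Bool.and_false] <;> omega

theorem bnd_mono_left {D D' k : ℕ} (h : D ≤ D') : bnd D k ≤ bnd D' k := by
  unfold bnd
  refine Nat.mul_le_mul_left _ ?_
  have h1 : Nat.choose (D + Nat.size k) D = Nat.choose (D + Nat.size k) (Nat.size k) := by
    rw [Nat.choose_symm_add]
  have h2 : Nat.choose (D' + Nat.size k) D' = Nat.choose (D' + Nat.size k) (Nat.size k) := by
    rw [Nat.choose_symm_add]
  rw [h1, h2]
  exact Nat.choose_le_choose _ (by omega)

/-- the bound with a small excess of the number of rows over the dimension -/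
theorem run_excess (hc : 0 < c.length) (e k : ℕ) :
    ∀ (d : ℕ) (E I : List (List ℤ)) (v : List ℤ) (P0 : List (List ℤ)) (st : List Frame),
    I.length = k → k ≤ d + e → Module.finrank ℝ (kerE c E) = d + 1 → Len c.length E →
    Len c.length I → Vx c E (jl c I) v →
    Result c E I v P0 st (2 * k + bnd (e + 1) (2 * e + 1)) (2 * k + bnd (e + 1) (2 * e + 1))
      (Sum.inl (E, I, v :: P0), st) := by
  induction k using Nat.strong_induction_on with
  | _ k ih =>
    intro d E I v P0 st hIk hke hd hE hI hv
    have hrun := run_call hc k d E I v P0 st hIk.le (by unfold DimLe; omega) hE hI hv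
    by_cases hde : d ≤ e + 1
    · have h1 : bnd d k ≤ bnd (e + 1) (2 * e + 1) := (bnd_mono_left hde).trans
        (bnd_mono (by omega))
      exact hrun.mono (by omega) (by omega)
    push Not at hde
    have hJ : Len c.length (jl c I) := hI.jl
    have hτJ : negV (tau c) ∈ jl c I := tau_mem_jl c I
    have hIJ : ∀ r ∈ I, r ∈ jl c I := fun r hr => mem_jl.2 (Or.inr hr)
    have hdot : ∀ r ∈ I, ∀ {x : List ℤ}, x.length = c.length →
        (dot r x = 0 ↔ rf c.length r (lv c.length x) = 0) := fun r hr x hx => by
      rw [rf_dot (hI r hr) hx]; exact Int.cast_eq_zero.symm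
    have hτ0 : 0 < dot (tau c) v := by
      have := hv.pos
      rw [rf_dot (length_tau c) hv.len] at this
      exact_mod_cast this
    have hhd : hdp (v :: P0) = v := rfl
    -- an optimal extreme ray
    obtain ⟨Q, -, -, -, g1, g2, -⟩ := hrun
    obtain ⟨w, Pw, hw⟩ := good_cons g1
    rw [hw] at g1 g2
    have hwl := g1.head.1
    have hwE := g1.head.2
    have hwor := g1.head_or hτJ
    -- the numbers of tight rows
    have hTv : d ≤ (tight I v).length := by
      have := hv.ext.le_tight (tight I v) fun r hr h0 => by
        rcases mem_jl.1 hr with rfl | hr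
        · rw [rf_negV] at h0
          have := hv.pos
          linarith
        · exact (mem_tight hI hv.len).2 ⟨hr, h0⟩
      omega
    have hTw : d - 1 ≤ (tight I w).length := by
      have := hwE.le_tight (negV (tau c) :: tight I w) fun r hr h0 => by
        rcases mem_jl.1 hr with rfl | hr
        · simp
        · exact List.mem_cons_of_mem _ ((mem_tight hI hwl).2 ⟨hr, h0⟩)
      rw [List.length_cons] at this
      omega
    have hcom := length_filter_and (fun r => decide (dot r v = 0)) (fun r => decide (dot r w = 0)) I
    have h1 : 0 < (I.filter fun r => decide (dot r v = 0) && decide (dot r w = 0)).length := by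
      unfold tight at hTv hTw
      omega
    obtain ⟨F, hF⟩ := List.exists_mem_of_length_pos h1
    obtain ⟨hFI, hF2⟩ := List.mem_filter.1 hF
    rw [Bool.and_eq_true, decide_eq_true_iff, decide_eq_true_iff] at hF2
    -- the facet `F` contains the current vertex and the optimum
    have hab := above_zero hc hE hJ (hIJ F hFI) hv.ext hv.pos ((hdot F hFI hv.len).1 hF2.1)
    rw [above_iff hE hJ _ _ (hI F hFI)] at hab
    obtain ⟨x, hx, hxb⟩ := hab
    have hFtop : F ∈ topF c E (jl c I) I v := by
      refine mem_topF hE hJ hτJ hIJ hFI hF2.1 (x := x) (y := lv c.length w)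
        (hx.of_face (hIJ F hFI) fun r hr => Or.inr hr) hxb
        (hwE.mem.to_face (fun r hr => hr) ((hdot F hFI hwl).1 hF2.2)) hwor g2
    obtain ⟨F', hF', hpick⟩ := pickF_top hFtop
    obtain ⟨hFI', hF'2⟩ := List.mem_filter.1 hF'
    rw [Bool.and_eq_true, decide_eq_true_iff] at hF'2
    have hFv' := (hdot F' hFI' hv.len).1 hF'2.1
    -- the step to the facet
    have htn : tight I v ≠ [] := List.ne_nil_of_length_pos (by omega)
    have hstep : step c (Sum.inl (E, I, v :: P0), st) = callF c E I (v :: P0) st F' := by
      change stepCall c E I (v :: P0) st = _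
      rw [stepCall, if_neg]
      · rw [hhd, hpick]
        rfl
      · rw [hhd]
        have h3 : (tight I v).isEmpty = false := by
          rw [List.isEmpty_eq_false_iff]; exact htn
        simp [hτ0, h3]
    obtain ⟨f1, f2⟩ := facet_rows (c := c) (I := I) (F := F')
    have hlt := length_filter_lt hFI'
    have hv' : Vx c (F' :: E) (jl c (I.filter fun r => !decide (r = F'))) v :=
      ⟨hv.len, hv.ext.to_face f1 f2 hFv', hv.pos⟩
    have hk1 : 0 < k := by
      rw [← hIk]; exact List.length_pos_of_mem hFI
    have hfr := finrank_kerE_cons (c := c) E F'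
    have hfr2 : Module.finrank ℝ (kerE c (F' :: E)) ≤ Module.finrank ℝ (kerE c E) :=
      Submodule.finrank_mono fun x hx r hr => hx r (List.mem_cons_of_mem _ hr)
    have hcall : Result c (F' :: E) (I.filter fun r => !decide (r = F')) v P0
        (Sum.inr (E, I, upper' c E (jl c I) I) :: st)
        (2 * (k - 1) + bnd (e + 1) (2 * e + 1)) (2 * (k - 1) + bnd (e + 1) (2 * e + 1))
        (callF c E I (v :: P0) st F') := by
      have := ih (I.filter fun r => !decide (r = F')).length (by omega)
        (Module.finrank ℝ (kerE c (F' :: E)) - 1) (F' :: E)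
        (I.filter fun r => !decide (r = F')) v P0 (Sum.inr (E, I, upper' c E (jl c I) I) :: st)
        rfl (by omega) (by omega) (hE.cons (hI F' hFI')) (hI.filter _) hv'
      exact this.mono (by omega) (by omega)
    have := facet_phase_top hE hI hFI' hcall fun w w1 w2 w3 w4 =>
      topF_spec hc hE hJ hτJ hIJ hF' w1 w2 w3 fun h hh => by
        have := w4 h (hh.to_relax f2)
        rw [rf_gain w1]
        linarith
    exact (this.trans (i := 1) (by rw [Function.iterate_one, hstep]) le_rfl).mono (by omega)
      (by omega)

end Pool.Agent.Y644.QS
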