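import Pool.Agent.Y644.QS.Cone
import Pool.Agent.Y644.QS.Dim
import Pool.Agent.H532R2.RatPoly
set_option autoImplicit false

/-!
# Rational linear programs and integer rows
-/

namespace Pool.Agent.Y644.QS

open scoped InnerProductSpace
open Pool.Agent.H687R2.LLL Pool.Agent.NPC Pool.Agent.NPC.H532.RP

/-- homogeneous coordinates -/
noncomputable def eN {n N : ℕ} (hN : N = n + 1) :
    ((Fin n → ℝ) × ℝ) ≃ₗ[ℝ] EuclideanSpace ℝ (Fin N) where
  toFun p := WithLp.toLp 2 fun i => if h : (i : ℕ) < n then p.1 ⟨i, h⟩ else p.2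
  map_add' p q := by
    ext i
    by_cases h : (i : ℕ) < n <;> simp [h]
  map_smul' s p := by
    ext i
    by_cases h : (i : ℕ) < n <;> simp [h]
  invFun h := (fun j => h ⟨j, by omega⟩, h ⟨n, by omega⟩)
  left_inv p := by
    ext j
    · simp
    · simp
  right_inv h := by
    ext i
    by_cases hi : (i : ℕ) < n
    · simp [hi]
    · have h2 := i.2
      have h1 : i = ⟨n, by omega⟩ := Fin.ext (by simp; omega)
      simp only [hi, dite_false]
      exact congrArg h.ofLp h1.symm

variable {n N : ℕ} (hN : N = n + 1)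

theorem rf_eN (r : List ℤ) (x : Fin n → ℝ) (t : ℝ) :
    rf N r (eN hN (x, t)) = ∑ j : Fin n, (r.getD j 0 : ℝ) * x j + (r.getD n 0 : ℝ) * t := by
  subst hN
  rw [rf_apply, PiLp.inner_apply, Fin.sum_univ_castSucc]
  simp [eN, lv_apply, mul_comm]

theorem lv_eN (w : List ℤ) : lv N w = eN hN (fun j : Fin n => (w.getD j 0 : ℝ), (w.getD n 0 : ℝ)) := by
  ext i
  rw [lv_apply]
  by_cases hi : (i : ℕ) < n
  · simp [eN, hi]
  · have : (i : ℕ) = n := by have := i.2; omega
    simp [eN, this]

theorem rf_unitV {N j : ℕ} (hj : j < N) (h : EuclideanSpace ℝ (Fin N)) :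
    rf N (unitV N j) h = h ⟨j, hj⟩ := by
  rw [rf_apply]
  exact inner_unitV ⟨j, hj⟩ h

/-- integer multiples of rational rows -/
def zrow (l : List ℚ) : List ℤ := l.map fun q => zq (l.map Rat.den).prod q

/-- the positive factor -/
def zden (l : List ℚ) : ℕ := (l.map Rat.den).prod

theorem zden_pos (l : List ℚ) : 0 < zden l := by
  unfold zden
  refine Nat.pos_of_ne_zero fun h => ?_
  rw [List.prod_eq_zero_iff] at h
  obtain ⟨q, -, hq⟩ := List.mem_map.1 h
  exact q.den_nz hq

theorem length_zrow (l : List ℚ) : (zrow l).length = l.length := by simp [zrow]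

theorem getD_zrow (l : List ℚ) (i : ℕ) :
    (((zrow l).getD i 0 : ℤ) : ℚ) = zden l * l.getD i 0 := by
  unfold zrow
  rw [List.getD_eq_getElem?_getD, List.getD_eq_getElem?_getD, List.getElem?_map]
  cases hq : l[i]? with
  | none => simp
  | some q =>
    simp only [Option.map_some, Option.getD_some]
    refine zq_cast ?_
    exact List.dvd_prod (List.mem_map.2 ⟨q, List.mem_of_getElem? hq, rfl⟩)

theorem getD_zrow' (l : List ℚ) (i : ℕ) :
    (((zrow l).getD i 0 : ℤ) : ℝ) = zden l * (l.getD i 0 : ℚ) := by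
  have := congrArg (Rat.cast : ℚ → ℝ) (getD_zrow l i)
  push_cast at this
  exact this

theorem getD_ofFn_append {n : ℕ} (a : Fin n → ℚ) (q : ℚ) (j : Fin n) :
    (List.ofFn a ++ [q]).getD j 0 = a j := by
  rw [List.getD_eq_getElem _ _ (by simp)]
  rw [List.getElem_append_left (by simp)]
  simp

theorem getD_ofFn_append_last {n : ℕ} (a : Fin n → ℚ) (q : ℚ) :
    (List.ofFn a ++ [q]).getD n 0 = q := by
  rw [List.getD_eq_getElem _ _ (by simp)]
  rw [List.getElem_append_right (by simp)]
  simp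

theorem rf_zrow (a : Fin n → ℚ) (q : ℚ) (x : Fin n → ℝ) (t : ℝ) :
    rf N (zrow (List.ofFn a ++ [q])) (eN hN (x, t)) =
      (zden (List.ofFn a ++ [q]) : ℝ) * (∑ j, (a j : ℝ) * x j + q * t) := by
  rw [rf_eN, getD_zrow', getD_ofFn_append_last, mul_add, Finset.mul_sum]
  congr 1
  · refine Finset.sum_congr rfl fun j _ => ?_
    rw [getD_zrow', getD_ofFn_append, mul_assoc]
  · rw [mul_assoc]

/-! ### Linear programs -/

/-- the input: `A`, `b`, `c`, and the start vertex -/
abbrev Inp : Type := List (List ℚ) × List ℚ × List ℚ × List ℚ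

/-- the objective row -/
def crow (x : Inp) : List ℤ := zrow (x.2.2.1 ++ [0])

/-- the rows of `A x ≤ b` -/
def rowsA (x : Inp) : List (List ℤ) := (x.1.zip x.2.1).map fun p => zrow (p.1 ++ [-p.2])

/-- the rows of `x ≥ 0` -/
def rowsN (x : Inp) : List (List ℤ) :=
  (List.range x.2.2.1.length).map fun j => negV (unitV (x.2.2.1.length + 1) j)

/-- all rows -/
def rowsI (x : Inp) : List (List ℤ) := rowsA x ++ rowsN x

/-- the start vertex -/
def startV (x : Inp) : List ℤ := zrow (x.2.2.2 ++ [1])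

variable {m n : ℕ}

/-- the input as lists -/
def inp (A : Fin m → Fin n → ℚ) (b : Fin m → ℚ) (c v : Fin n → ℚ) : Inp :=
  (List.ofFn fun i => List.ofFn (A i), List.ofFn b, List.ofFn c, List.ofFn v)

/-- the polyhedron `A x ≤ b`, `x ≥ 0` -/
def polyhedron (A : Fin m → Fin n → ℚ) (b : Fin m → ℚ) : Set (Fin n → ℝ) :=
  {x | (∀ i, ∑ j, (A i j : ℝ) * x j ≤ b i) ∧ ∀ j, 0 ≤ x j}

/-- the objective function -/
noncomputable def obj (c : Fin n → ℚ) (x : Fin n → ℝ) : ℝ := ∑ j, (c j : ℝ) * x j

/-- rational vectors as real vectors -/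
noncomputable def re (x : Fin n → ℚ) : Fin n → ℝ := fun j => (x j : ℝ)

variable {A : Fin m → Fin n → ℚ} {b : Fin m → ℚ} {c v : Fin n → ℚ}

theorem length_crow : (crow (inp A b c v)).length = n + 1 := by
  simp [crow, inp, length_zrow]

theorem mem_rowsA {r : List ℤ} : r ∈ rowsA (inp A b c v) ↔
    ∃ i : Fin m, r = zrow (List.ofFn (A i) ++ [-b i]) := by
  unfold rowsA inp
  rw [List.mem_map]
  constructor
  · rintro ⟨p, hp, rfl⟩
    obtain ⟨i, hi, rfl⟩ := List.getElem_of_mem hp
    have hi' : i < m := by simpa using hi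
    exact ⟨⟨i, hi'⟩, by simp⟩
  · rintro ⟨i, rfl⟩
    refine ⟨(List.ofFn (A i), b i), ?_, rfl⟩
    rw [List.mem_iff_getElem]
    exact ⟨i, by simp, by simp⟩

theorem mem_rowsN {r : List ℤ} : r ∈ rowsN (inp A b c v) ↔
    ∃ j < n, r = negV (unitV (n + 1) j) := by
  unfold rowsN inp
  simp only [List.mem_map, List.mem_range, List.length_ofFn]
  exact exists_congr fun j => and_congr_right fun _ => eq_comm

theorem length_rowsI : (rowsI (inp A b c v)).length = m + n := by
  simp [rowsI, rowsA, rowsN, inp]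

theorem len_rowsI : Len (crow (inp A b c v)).length (rowsI (inp A b c v)) := by
  intro r hr
  rw [length_crow]
  rcases List.mem_append.1 hr with hr | hr
  · obtain ⟨i, rfl⟩ := mem_rowsA.1 hr
    simp [length_zrow]
  · obtain ⟨j, -, rfl⟩ := mem_rowsN.1 hr
    exact length_negV (length_unitV _ _)

theorem rf_tau {C : List ℤ} (hN : C.length = n + 1) (x : Fin n → ℝ) (t : ℝ) :
    rf C.length (tau C) (eN hN (x, t)) = t := by
  rw [tau, rf_unitV (by omega)]
  simp [eN, hN]

theorem rf_crow (x : Fin n → ℝ) (t : ℝ) :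
    rf (crow (inp A b c v)).length (crow (inp A b c v)) (eN length_crow (x, t)) =
      (zden (List.ofFn c ++ [0]) : ℝ) * obj c x := by
  have := rf_zrow (length_crow (A := A) (b := b) (c := c) (v := v)) c 0 x t
  rw [Rat.cast_zero, zero_mul, add_zero] at this
  exact this

/-- the cone over the polyhedron -/
theorem jl_nonpos_iff (x : Fin n → ℝ) (t : ℝ) :
    (∀ r ∈ jl (crow (inp A b c v)) (rowsI (inp A b c v)),
      rf (crow (inp A b c v)).length r (eN length_crow (x, t)) ≤ 0) ↔
    0 ≤ t ∧ (∀ i, ∑ j, (A i j : ℝ) * x j ≤ b i * t) ∧ ∀ j, 0 ≤ x j := by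
  have hA : ∀ i, rf (crow (inp A b c v)).length (zrow (List.ofFn (A i) ++ [-b i]))
      (eN length_crow (x, t)) ≤ 0 ↔ ∑ j, (A i j : ℝ) * x j ≤ b i * t := fun i => by
    rw [rf_zrow]
    have h0 : (0 : ℝ) < zden (List.ofFn (A i) ++ [-b i]) := by exact_mod_cast zden_pos _
    push_cast
    constructor
    · intro h
      have := nonpos_of_mul_nonpos_right h h0
      linarith
    · intro h
      exact mul_nonpos_of_nonneg_of_nonpos h0.le (by linarith)
  have hN : ∀ j (hj : j < n), rf (crow (inp A b c v)).length (negV (unitV (n + 1) j))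
      (eN length_crow (x, t)) = - x ⟨j, hj⟩ := fun j hj => by
    rw [rf_negV]
    have h1 : unitV (n + 1) j = unitV (crow (inp A b c v)).length j := by rw [length_crow]
    rw [h1, rf_unitV (by rw [length_crow]; omega)]
    simp [eN, hj]
  constructor
  · intro h
    refine ⟨?_, fun i => (hA i).1 (h _ (mem_jl.2 (Or.inr (List.mem_append_left _
      (mem_rowsA.2 ⟨i, rfl⟩))))), fun j => ?_⟩
    · have := h _ (tau_mem_jl _ _)
      rw [rf_negV, rf_tau] at this
      linarith
    · have := h _ (mem_jl.2 (Or.inr (List.mem_append_right _ (mem_rowsN.2 ⟨j, j.2, rfl⟩))))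
      rw [hN j j.2] at this
      simpa using this
  · rintro ⟨h1, h2, h3⟩ r hr
    rcases mem_jl.1 hr with rfl | hr
    · rw [rf_negV, rf_tau]
      linarith
    · rcases List.mem_append.1 hr with hr | hr
      · obtain ⟨i, rfl⟩ := mem_rowsA.1 hr
        exact (hA i).2 (h2 i)
      · obtain ⟨j, hj, rfl⟩ := mem_rowsN.1 hr
        rw [hN j hj]
        have := h3 ⟨j, hj⟩
        linarith

theorem PP_eq : PP (rf (crow (inp A b c v)).length) (eN length_crow)
    (jl (crow (inp A b c v)) (rowsI (inp A b c v))) = polyhedron A b := by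
  ext x
  refine (jl_nonpos_iff x 1).trans ?_
  simp only [mul_one, polyhedron, Set.mem_ofPred_eq]
  exact ⟨fun h => h.2, fun h => ⟨zero_le_one, h⟩⟩

end Pool.Agent.Y644.QS
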