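import Pool.Agent.Y644.QS.PolyBase
import Pool.Agent.ER.Rat
set_option autoImplicit false

/-!
# Quasi-polynomial time
-/

namespace Pool.Agent.Y644.QS

open Turing

/-- A function on bit strings is computable in quasi-polynomial time: some Turing machine (in the
sense of Mathlib) computes it, with time bound `2 ^ (C (log₂ L + 1) ^ 2)` on inputs of length
`L`. -/
def QuasiPolyTime (f : List Bool → List Bool) : Prop :=
  ∃ (M : TM2ComputableInTime (id : List Bool → List Bool) (id : List Bool → List Bool) f) (C : ℕ),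
    ∀ L, M.time L ≤ 2 ^ (C * (Nat.log 2 L + 1) ^ 2)

end Pool.Agent.Y644.QS

namespace Pool.Agent.NPC.Y644

open Pool.Agent.Y644.QS

/-- quasi-polynomially bounded functions -/
def QB (h : ℕ → ℕ) : Prop := ∃ k, ∀ L, h L ≤ 2 ^ (k * (Nat.log 2 L + 1) ^ 2)

theorem poly_eval_le (p : Polynomial ℕ) : ∃ c, ∀ n, p.eval n ≤ (n + 2) ^ c := by
  induction p using Polynomial.induction_on' with
  | add p q hp hq =>
    obtain ⟨a, ha⟩ := hp
    obtain ⟨b, hb⟩ := hq
    refine ⟨a + b + 1, fun n => ?_⟩
    rw [Polynomial.eval_add, pow_succ]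
    have h1 : (n + 2) ^ a ≤ (n + 2) ^ (a + b) := Nat.pow_le_pow_right (by omega) (by omega)
    have h2 : (n + 2) ^ b ≤ (n + 2) ^ (a + b) := Nat.pow_le_pow_right (by omega) (by omega)
    have h3 := ha n
    have h4 := hb n
    have h5 : (n + 2) ^ (a + b) * 2 ≤ (n + 2) ^ (a + b) * (n + 2) :=
      Nat.mul_le_mul_left _ (by omega)
    omega
  | monomial k c =>
    refine ⟨c + k, fun n => ?_⟩
    rw [Polynomial.eval_monomial, pow_add]
    refine Nat.mul_le_mul ?_ (Nat.pow_le_pow_left (by omega) k)
    exact (Nat.lt_two_pow_self).le.trans (Nat.pow_le_pow_left (by omega) c)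

theorem QB.mono {h h' : ℕ → ℕ} (hh : QB h) (hle : ∀ L, h' L ≤ h L) : QB h' := by
  obtain ⟨k, hk⟩ := hh
  exact ⟨k, fun L => (hle L).trans (hk L)⟩

theorem QB.pow {h : ℕ → ℕ} (hh : QB h) (c : ℕ) : QB (fun L => h L ^ c) := by
  obtain ⟨k, hk⟩ := hh
  refine ⟨k * c, fun L => ?_⟩
  calc h L ^ c ≤ (2 ^ (k * (Nat.log 2 L + 1) ^ 2)) ^ c := Nat.pow_le_pow_left (hk L) c
    _ = _ := by rw [← pow_mul]; congr 1; ring

theorem QB.add {h g : ℕ → ℕ} (hh : QB h) (hg : QB g) : QB (fun L => h L + g L) := by
  obtain ⟨k, hk⟩ := hh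
  obtain ⟨l, hl⟩ := hg
  refine ⟨k + l + 1, fun L => ?_⟩
  set z := (Nat.log 2 L + 1) ^ 2 with hz
  have hz1 : 1 ≤ z := Nat.one_le_pow _ _ (by omega)
  have h1 : 2 ^ (k * z) ≤ 2 ^ ((k + l) * z) := Nat.pow_le_pow_right (by norm_num) (by nlinarith)
  have h2 : 2 ^ (l * z) ≤ 2 ^ ((k + l) * z) := Nat.pow_le_pow_right (by norm_num) (by nlinarith)
  calc h L + g L ≤ 2 ^ ((k + l) * z) + 2 ^ ((k + l) * z) :=
        Nat.add_le_add ((hk L).trans h1) ((hl L).trans h2)
    _ = 2 ^ ((k + l) * z + 1) := by rw [pow_succ]; ring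
    _ ≤ 2 ^ ((k + l + 1) * z) := Nat.pow_le_pow_right (by norm_num) (by nlinarith)

theorem QB.mul {h g : ℕ → ℕ} (hh : QB h) (hg : QB g) : QB (fun L => h L * g L) := by
  obtain ⟨k, hk⟩ := hh
  obtain ⟨l, hl⟩ := hg
  refine ⟨k + l, fun L => ?_⟩
  rw [add_mul, pow_add]
  exact Nat.mul_le_mul (hk L) (hl L)

theorem QB.const (c : ℕ) : QB (fun _ => c) := by
  refine ⟨c, fun L => ?_⟩
  have h1 : 1 ≤ (Nat.log 2 L + 1) ^ 2 := Nat.one_le_pow _ _ (by omega)
  exact (Nat.lt_two_pow_self).le.trans (Nat.pow_le_pow_right (by norm_num) (by nlinarith))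

theorem le_log (L : ℕ) : L + 2 ≤ 2 ^ (Nat.log 2 L + 2) := by
  have h := Nat.lt_pow_succ_log_self (b := 2) (by norm_num) L
  rw [pow_succ] at h ⊢
  rw [pow_succ]
  have : 0 < 2 ^ Nat.log 2 L := by positivity
  omega

theorem QB.id : QB (fun L => L) := by
  refine ⟨2, fun L => ?_⟩
  have h := le_log L
  refine le_trans (show L ≤ L + 2 by omega) (h.trans (Nat.pow_le_pow_right (by norm_num) ?_))
  nlinarith

theorem QB.poly {h : ℕ → ℕ} (hh : QB h) (p : Polynomial ℕ) : QB (fun L => p.eval (h L)) := by
  obtain ⟨c, hc⟩ := poly_eval_le p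
  exact ((hh.add (QB.const 2)).pow c).mono fun L => hc (h L)

/-- `P ^ (4 log P)` is quasi-polynomial for a polynomial `P` -/
theorem QB.powlog (p : Polynomial ℕ) :
    QB (fun L => (p.eval L + 1) ^ (4 * Nat.size (p.eval L) + 1)) := by
  obtain ⟨c, hc⟩ := poly_eval_le (p + 1)
  refine ⟨(c * 2) * (8 * c + 5), fun L => ?_⟩
  set z := Nat.log 2 L + 1 with hz
  have h1 : p.eval L + 1 ≤ 2 ^ (c * (2 * z)) := by
    have := hc L
    rw [Polynomial.eval_add, Polynomial.eval_one] at this
    refine this.trans ?_
    calc (L + 2) ^ c ≤ (2 ^ (Nat.log 2 L + 2)) ^ c := Nat.pow_le_pow_left (le_log L) c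
      _ = 2 ^ ((Nat.log 2 L + 2) * c) := by rw [← pow_mul]
      _ ≤ _ := Nat.pow_le_pow_right (by norm_num) (by nlinarith)
  have h2 : Nat.size (p.eval L) ≤ c * (2 * z) := Nat.size_le.2 (by omega)
  calc (p.eval L + 1) ^ (4 * Nat.size (p.eval L) + 1)
      ≤ (2 ^ (c * (2 * z))) ^ (4 * (c * (2 * z)) + 1) :=
        (Nat.pow_le_pow_left h1 _).trans (Nat.pow_le_pow_right (by positivity) (by omega))
    _ = 2 ^ (c * (2 * z) * (4 * (c * (2 * z)) + 1)) := by rw [← pow_mul]
    _ ≤ 2 ^ ((c * 2) * (8 * c + 5) * z ^ 2) := by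
        refine Nat.pow_le_pow_right (by norm_num) ?_
        have hz1 : 1 ≤ z := by omega
        have h3 : 4 * (c * (2 * z)) + 1 ≤ (8 * c + 5) * z := by nlinarith
        calc c * (2 * z) * (4 * (c * (2 * z)) + 1) ≤ c * (2 * z) * ((8 * c + 5) * z) :=
              Nat.mul_le_mul_left _ h3
          _ = _ := by ring

theorem sz_replicate (n : ℕ) : sz (List.replicate n ()) = 2 * n + 1 := by
  induction n with
  | zero => rfl
  | succ n ih => rw [List.replicate_succ, sz_list_cons, sz_unit, ih]; ring

/-- one multiplication step of the padding -/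
def padStep (s : List Bool × List Unit × List Unit) : List Bool × List Unit × List Unit :=
  (s.1, s.2.1, s.2.1.flatMap fun _ => s.2.2)

theorem poly_padStep : Poly padStep := by
  unfold padStep
  have h : Poly (fun s : List Bool × List Unit × List Unit => s.2.1.flatMap fun _ => s.2.2) :=
    Poly.flatMap (F := fun (s : List Bool × List Unit × List Unit) _ => s.2.2) (by fun_prop)
      (by fun_prop)
  fun_prop

theorem padStep_iter (x : List Bool) (m n k : ℕ) :
    padStep^[k] (x, List.replicate m (), List.replicate n ()) =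
      (x, List.replicate m (), List.replicate (m ^ k * n) ()) := by
  induction k with
  | zero => simp
  | succ k ih =>
    rw [Function.iterate_succ_apply', ih, padStep]
    simp only [Prod.mk.injEq, true_and]
    rw [List.eq_replicate_iff]
    refine ⟨?_, fun _ _ => rfl⟩
    rw [List.length_flatMap]
    simp [pow_succ]
    ring

/-- A polynomial-time function of an input padded to length `m ^ size m` is computable in
quasi-polynomial time. -/
theorem quasi_main {β : Type} [TEnc β] {m : List Bool → ℕ} (hm : UPoly m)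
    {g : List Bool × List Unit → β} (hg : Poly g) :
    QuasiPolyTime (fun x => bits (g (x, List.replicate (m x ^ sz (m x)) ()))) := by
  have hmP : Poly m := hm.toPoly
  -- the program
  have h1 : PC (fun x : List Bool => x) T.enc (fun x => T.node (toT (m x))
      (toT (x, List.replicate (m x) (), [()]))) := by
    have h2 : Poly (fun x : List Bool => (x, List.replicate (m x) (), [()])) := by
      have h3 : Poly (fun x : List Bool => List.replicate (m x) ()) := hm
      fun_prop
    have h4 : PC (bits : List Bool → List Bool) T.enc (fun x => T.node (toT (m x))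
      (toT (x, List.replicate (m x) (), [()]))) := PC.node hmP h2
    exact PC.comp (g := fun x => T.node (toT (m x)) (toT (x, List.replicate (m x) (), [()])))
      (f := fun x => x) h4 PC.rawIn
  have h3 : Poly (fun s : List Bool × List Unit × List Unit => g (s.1, s.2.2)) :=
    Poly.comp (g := g) (f := fun s : List Bool × List Unit × List Unit => (s.1, s.2.2)) hg
      (by fun_prop)
  obtain ⟨u', hu'⟩ := h1.length_le
  obtain ⟨c1, r1, hc1⟩ := h1
  obtain ⟨c2, r2, hc2⟩ := poly_padStep
  obtain ⟨c3, r3, hc3⟩ := h3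
  obtain ⟨w, hw⟩ := Poly.sz_le (show Poly (fun a => List.replicate (m a) ()) from hm)
  have hxsz : ∀ x : List Bool, sz x ≤ 4 * x.length + 1 := fun x => sz_listBool_le x
  have hmw : ∀ x, m x ≤ (w.comp (4 * Polynomial.X + 1)).eval x.length := by
    intro x
    have h4 := hw x
    rw [sz_replicate] at h4
    rw [Polynomial.eval_comp]
    have h5 := eval_mono w (hxsz x)
    simp only [Polynomial.eval_add, Polynomial.eval_mul, Polynomial.eval_X, Polynomial.eval_one,
      Polynomial.eval_ofNat]
    omega
  set P := w.comp (4 * Polynomial.X + 1) with hP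
  -- bound for the sizes
  set Bf : ℕ → ℕ := fun L => (4 * L + 1) + (2 * P.eval L + 1) +
    (2 * (P.eval L + 1) ^ (4 * Nat.size (P.eval L) + 1) + 1) + 2 with hBf
  have hBQ : QB Bf := by
    have e1 : QB (fun L => P.eval L) := QB.id.poly P
    have e2 := QB.powlog P
    exact ((((((QB.const 4).mul QB.id).add (QB.const 1)).add
      (((QB.const 2).mul e1).add (QB.const 1))).add
      (((QB.const 2).mul e2).add (QB.const 1))).add (QB.const 2))
  have hsize : ∀ x : List Bool, ∀ k ≤ sz (m x), (bits (padStep^[k]
      (x, List.replicate (m x) (), [()]))).length ≤ Bf x.length := by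
    intro x k hk
    have e0 : ([()] : List Unit) = List.replicate 1 () := rfl
    rw [e0, padStep_iter, bits_length, sz_pair, sz_pair, sz_replicate, sz_replicate]
    have e1 := hxsz x
    have e2 := hmw x
    have e3 : m x ^ k * 1 ≤ (P.eval x.length + 1) ^ (4 * Nat.size (P.eval x.length) + 1) := by
      rw [mul_one]
      have e4 : k ≤ 4 * Nat.size (P.eval x.length) + 1 := by
        have := sz_nat_le (m x)
        have := Nat.size_le_size e2
        omega
      exact (Nat.pow_le_pow_left (by omega) k).trans (Nat.pow_le_pow_right (by omega) e4)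
    simp only [hBf]
    omega
  set prog := Cmd.seq c1 (Cmd.seq split (Cmd.seq (Cmd.loop 1 (Cmd.seq (Cmd.pop 1) (ev c2))) c3))
    with hprog
  set time : ℕ → ℕ := fun L => r1.eval L + ((5 * u'.eval L + 3) +
    (((r2.eval (Bf L) + 2) * u'.eval L + 1) + r3.eval (Bf L))) with htime
  have htQ : QB time := by
    have e1 := hBQ.poly r2
    have e2 := hBQ.poly r3
    have e3 := QB.id.poly r1
    have e4 := QB.id.poly u'
    exact e3.add ((((QB.const 5).mul e4).add (QB.const 3)).add
      ((((e1.add (QB.const 2)).mul e4).add (QB.const 1)).add e2))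
  have hrun : ∀ x : List Bool, Runs prog (inp x)
      (inp (bits (g (x, List.replicate (m x ^ sz (m x)) ())))) (time x.length) := by
    intro x
    have a1 := hc1 x
    have a2 := split_runs (toT (m x)) (toT (x, List.replicate (m x) (), [()]))
    have a3 := loop_runs (eb := bits) (f := padStep) hc2 (Bf x.length) (toT (m x)).enc.reverse
      (x, List.replicate (m x) (), [()]) (fun k hk => hsize x k (by
        rw [List.length_reverse] at hk
        exact hk))
    have e0 : padStep^[(toT (m x)).enc.reverse.length] (x, List.replicate (m x) (), [()]) =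
        (x, List.replicate (m x) (), List.replicate (m x ^ sz (m x)) ()) := by
      have e1 : ([()] : List Unit) = List.replicate 1 () := rfl
      rw [e1, padStep_iter, List.length_reverse, mul_one]
      rfl
    rw [e0] at a3
    have a4 := hc3 (x, List.replicate (m x) (), List.replicate (m x ^ sz (m x)) ())
    rw [inp_eq_st, inp_eq_st] at a1 a4
    rw [inp_eq_st, inp_eq_st]
    refine (a1.seq (a2.seq (a3.seq a4))).mono ?_
    simp only [htime]
    have b1 : (toT (m x)).size ≤ u'.eval x.length := by
      have := hu' x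
      simp only [T.enc, List.length_cons, List.length_append] at this
      unfold T.size
      omega
    have b2 : (bits (x, List.replicate (m x) (), List.replicate (m x ^ sz (m x)) ())).length ≤
        Bf x.length := by
      have := hsize x (sz (m x)) le_rfl
      have e1 : ([()] : List Unit) = List.replicate 1 () := rfl
      rw [e1, padStep_iter, mul_one] at this
      exact this
    have b3 := eval_mono r3 b2
    have b4 : (toT (m x)).enc.reverse.length ≤ u'.eval x.length := by
      rw [List.length_reverse]; exact b1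
    have b5 := Nat.mul_le_mul_left (r2.eval (Bf x.length) + 2) b4
    omega
  -- the machine
  have key : ∀ x : List Bool, ∃ t, t ≤ time x.length + 1 ∧
      Nonempty (Turing.TM2OutputsInTime (prog.map (Fin.ofNat (prog.bd + 1))).toTM x
        (some (bits (g (x, List.replicate (m x ^ sz (m x)) ())))) t) := by
    intro x
    obtain ⟨t, ht, hr⟩ := hrun x
    have h1 := hr.restrict (n := prog.bd) (by omega)
    refine ⟨t + 1, by omega, toTM_outputs ?_⟩
    convert! h1 using 1
    · funext i
      by_cases hi : i = 0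
      · subst hi; simp [inp]
      · have : (i : ℕ) ≠ 0 := fun h => hi (Fin.ext h)
        simp [inp, hi, this]
    · funext i
      by_cases hi : i = 0
      · subst hi; simp [inp]
      · have : (i : ℕ) ≠ 0 := fun h => hi (Fin.ext h)
        simp [inp, hi, this]
  have hT := htQ.add (QB.const 1)
  obtain ⟨C, hC⟩ := hT
  refine ⟨{ tm := (prog.map (Fin.ofNat (prog.bd + 1))).toTM
            inputAlphabet := Equiv.refl Bool
            outputAlphabet := Equiv.refl Bool
            time := fun L => time L + 1
            outputsFun := ?_ }, C, fun L => hC L⟩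
  intro x
  have hx := key x
  have ht := hx.choose_spec.1
  have hm := hx.choose_spec.2.some
  exact outputs_conv (List.map_id x).symm (List.map_id _).symm ht hm

end Pool.Agent.NPC.Y644
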