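import Pool.Agent.Y644.QS.PolyFinal
import Pool.Agent.Y644.QS.Quasi
set_option autoImplicit false

/-!
# The algorithm
-/

namespace Pool.Agent.Y644.QS

open Pool.Agent.H687R2.LLL Pool.Agent.NPC Pool.Agent.NPC.H532.RP

/-- the algorithm, run for `K` steps of the machine -/
def lpRun (x : Inp) (K : ℕ) : Outp := lpOut x.2.2.1.length
  (Sum.elim (fun _ => ([] : List (List ℤ))) (fun p => p)
    ((step (crow x))^[K] ((Sum.inl ([], rowsI x, [startV x]), []) : State)).1)

/-- the algorithm on bit strings -/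
def lpBits (x : List Bool) (K : ℕ) : Outp := (unbits Inp x).elim ([], none) fun y => lpRun y K

/-- the bound for the number of steps -/
def stepsB (m n : ℕ) : ℕ := min (bnd n (m + n)) (2 * (m + n) + bnd (m + 1) (2 * m + 1))

theorem step_fixed (c : List ℤ) (p : List (List ℤ)) (k : ℕ) :
    (step c)^[k] ((Sum.inr p, []) : State) = (Sum.inr p, []) := by
  induction k with
  | zero => rfl
  | succ k ih => rw [Function.iterate_succ_apply', ih]; rfl

theorem finrank_kerE_nil (c : List ℤ) : Module.finrank ℝ (kerE c []) = c.length := by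
  have : kerE c [] = ⊤ := by
    rw [eq_top_iff]
    intro x _ r hr
    simp at hr
  rw [this, finrank_top, finrank_euclideanSpace, Fintype.card_fin]

variable {m n : ℕ} {A : Fin m → Fin n → ℚ} {b : Fin m → ℚ} {c v : Fin n → ℚ}

theorem run_result (hv : re v ∈ Set.extremePoints ℝ (polyhedron A b)) :
    Result (crow (inp A b c v)) [] (rowsI (inp A b c v)) (startV (inp A b c v)) [] []
      (stepsB m n) (stepsB m n)
      (Sum.inl ([], rowsI (inp A b c v), [startV (inp A b c v)]), []) := by
  have hc : 0 < (crow (inp A b c v)).length := by rw [length_crow]; omega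
  have hE : Len (crow (inp A b c v)).length [] := fun r hr => by simp at hr
  have hfr : Module.finrank ℝ (kerE (crow (inp A b c v)) []) = n + 1 := by
    rw [finrank_kerE_nil, length_crow]
  have h1 := run_call hc (m + n) n [] (rowsI (inp A b c v)) (startV (inp A b c v)) [] []
    length_rowsI.le (by unfold DimLe; omega) hE len_rowsI (start_vx hv)
  have h2 := run_excess hc m (m + n) n [] (rowsI (inp A b c v)) (startV (inp A b c v)) [] []
    length_rowsI (by omega) hfr hE len_rowsI (start_vx hv)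
  unfold stepsB
  rcases le_total (bnd n (m + n)) (2 * (m + n) + bnd (m + 1) (2 * m + 1)) with h | h
  · rw [min_eq_left h]; exact h1
  · rw [min_eq_right h]; exact h2

/-- the algorithm is correct -/
theorem lpRun_spec (hv : re v ∈ Set.extremePoints ℝ (polyhedron A b)) :
    ∃ (N : ℕ) (x : ℕ → Fin n → ℚ) (d : Option (Fin n → ℚ)),
      (∀ K, stepsB m n ≤ K → lpRun (inp A b c v) K =
        ((List.range (N + 1)).map (fun k => List.ofFn (x k)), d.map List.ofFn)) ∧
      IsSimplexPath (polyhedron A b) c v N x d ∧ N ≤ stepsB m n := by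
  obtain ⟨Q, j, hj, h1, h2, h3, h4⟩ := run_result (c := c) hv
  obtain ⟨N, x, d, g1, g2, g3⟩ := lpOut_spec rfl h2 h3
  refine ⟨N, x, d, fun K hK => ?_, g2, g3.trans h4⟩
  have h5 : (step (crow (inp A b c v)))^[K]
      ((Sum.inl ([], rowsI (inp A b c v), [startV (inp A b c v)]), []) : State) =
      (Sum.inr (Q ++ [startV (inp A b c v)]), []) := by
    obtain ⟨i, rfl⟩ := Nat.exists_eq_add_of_le (hj.trans hK)
    rw [add_comm, Function.iterate_add_apply, h1, step_fixed]
  unfold lpRun
  rw [h5]
  have h6 : (inp A b c v).2.2.1.length = n := by simp [inp]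
  rw [h6]
  exact g1

theorem lpBits_inp (K : ℕ) : lpBits (bits (inp A b c v)) K = lpRun (inp A b c v) K := by
  unfold lpBits
  rw [unbits_bits]
  rfl

/-! ### The bounds -/

theorem wt_le (k : ℕ) : wt k ≤ 8 * k + 1 := by
  unfold wt
  split_ifs <;> omega

theorem choose_le_two_pow (a b : ℕ) : Nat.choose (a + b) a ≤ 2 ^ (a + b) := by
  rw [← Nat.sum_range_choose]
  exact Finset.single_le_sum (f := fun i => Nat.choose (a + b) i) (fun i _ => Nat.zero_le _)
    (Finset.mem_range.2 (by omega))

theorem choose_le_pow' (a s : ℕ) : Nat.choose (a + s) a ≤ (a + s) ^ s := by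
  rw [Nat.choose_symm_add]
  exact Nat.choose_le_pow _ _

theorem size_le_log (k : ℕ) : Nat.size k ≤ Nat.log 2 k + 1 := by
  rw [Nat.size_le]
  exact Nat.lt_pow_succ_log_self (by norm_num) k

/-- the bound is at most quasi-polynomial -/
theorem bnd_le_pow {n k L : ℕ} (hn : n ≤ L) (hk : k ≤ L) :
    bnd n k ≤ (16 * L + 16) ^ (Nat.size L + 1) := by
  unfold bnd
  have h1 := wt_le k
  have h2 := choose_le_pow' n (Nat.size k)
  have h3 : Nat.size k ≤ Nat.size L := Nat.size_le_size hk
  have h4 : Nat.size L ≤ L := by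
    rw [Nat.size_le]; exact Nat.lt_two_pow_self
  calc wt k * Nat.choose (n + Nat.size k) n
      ≤ (16 * L + 16) * (16 * L + 16) ^ (Nat.size L) := by
        refine Nat.mul_le_mul (by omega) (h2.trans ?_)
        exact (Nat.pow_le_pow_left (by omega) _).trans (Nat.pow_le_pow_right (by omega) h3)
    _ = _ := by rw [pow_succ]; ring

/-- the polynomial bounds -/
def Kc (C L : ℕ) : ℕ := 2 * L + (16 * L + 16) * (256 * (L + 1) ^ (5 * C + 1))

theorem two_pow_log_mul {C L : ℕ} (hL : 0 < L) : 2 ^ (C * Nat.log 2 L) ≤ L ^ C := by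
  rw [mul_comm, pow_mul]
  exact Nat.pow_le_pow_left (Nat.pow_log_le_self 2 hL.ne') C

theorem stepsB_le_of_dim {m n C L : ℕ} (hL : m + n < L) (h : n ≤ C * Nat.log 2 L) :
    stepsB m n ≤ Kc C L := by
  have hL0 : 0 < L := by omega
  refine (min_le_left _ _).trans ?_
  unfold bnd Kc
  have h1 := wt_le (m + n)
  have h2 := choose_le_two_pow n (Nat.size (m + n))
  have h3 : Nat.size (m + n) ≤ Nat.log 2 L + 1 :=
    (Nat.size_le_size hL.le).trans (size_le_log L)
  have h4 : 2 ^ (n + Nat.size (m + n)) ≤ L ^ C * (2 * L) := by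
    calc 2 ^ (n + Nat.size (m + n)) ≤ 2 ^ (C * Nat.log 2 L + (Nat.log 2 L + 1)) :=
          Nat.pow_le_pow_right (by norm_num) (by omega)
      _ = 2 ^ (C * Nat.log 2 L) * (2 ^ Nat.log 2 L * 2) := by rw [pow_add, pow_succ]
      _ ≤ L ^ C * (L * 2) := Nat.mul_le_mul (two_pow_log_mul hL0)
          (Nat.mul_le_mul_right _ (Nat.pow_log_le_self 2 hL0.ne'))
      _ = _ := by ring
  have h5 : L ^ C * (2 * L) ≤ 256 * (L + 1) ^ (5 * C + 1) := by
    have h6 : L ^ C ≤ (L + 1) ^ (5 * C) :=
      (Nat.pow_le_pow_left (by omega) C).trans (Nat.pow_le_pow_right (by omega) (by omega))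
    calc L ^ C * (2 * L) ≤ (L + 1) ^ (5 * C) * (256 * (L + 1)) := Nat.mul_le_mul h6 (by omega)
      _ = _ := by rw [pow_succ]; ring
  refine le_trans (Nat.mul_le_mul (show wt (m + n) ≤ 16 * L + 16 by omega)
    ((h2.trans h4).trans h5)) (Nat.le_add_left _ _)

theorem stepsB_le_of_con {m n C L : ℕ} (hL : m + n < L) (h : Nat.log 2 m ^ 2 ≤ C * Nat.log 2 L) :
    stepsB m n ≤ Kc C L := by
  have hL0 : 0 < L := by omega
  refine (min_le_right _ _).trans ?_
  unfold bnd Kc
  have h1 := wt_le (2 * m + 1)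
  set l := Nat.log 2 m with hl
  have hml : m < 2 ^ (l + 1) := Nat.lt_pow_succ_log_self (by norm_num) m
  have h3 : Nat.size (2 * m + 1) ≤ l + 2 := by
    rw [Nat.size_le, pow_succ]
    omega
  have h2 := choose_le_pow' (m + 1) (Nat.size (2 * m + 1))
  have h4 : m + 1 + Nat.size (2 * m + 1) ≤ 2 ^ (l + 2) := by
    have h5 : l + 1 < 2 ^ (l + 1) := Nat.lt_two_pow_self
    rw [pow_succ]
    omega
  have h5 : (m + 1 + Nat.size (2 * m + 1)) ^ Nat.size (2 * m + 1) ≤
      256 * (L + 1) ^ (5 * C + 1) := by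
    calc (m + 1 + Nat.size (2 * m + 1)) ^ Nat.size (2 * m + 1)
        ≤ (2 ^ (l + 2)) ^ (l + 2) := (Nat.pow_le_pow_left h4 _).trans
          (Nat.pow_le_pow_right (by positivity) h3)
      _ = 2 ^ ((l + 2) * (l + 2)) := by rw [← pow_mul]
      _ ≤ 2 ^ (8 + 5 * (C * Nat.log 2 L)) := by
          refine Nat.pow_le_pow_right (by norm_num) ?_
          have h7 : l ≤ l ^ 2 + 1 := by nlinarith
          nlinarith
      _ = 256 * (2 ^ (C * Nat.log 2 L)) ^ 5 := by
          rw [pow_add, ← pow_mul, mul_comm 5]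
          norm_num
      _ ≤ 256 * (L ^ C) ^ 5 := Nat.mul_le_mul_left _
          (Nat.pow_le_pow_left (two_pow_log_mul hL0) 5)
      _ ≤ _ := by
          refine Nat.mul_le_mul_left _ ?_
          rw [← pow_mul]
          exact (Nat.pow_le_pow_left (Nat.le_succ L) _).trans
            (Nat.pow_le_pow_right (by omega) (by omega))
  exact Nat.add_le_add (by omega) (Nat.mul_le_mul (by omega) (h2.trans h5))

theorem le_sz_inp : m + n < sz (inp A b c v) := by
  have h1 := length_lt_sz (List.ofFn b)
  have h2 := length_lt_sz (List.ofFn c)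
  rw [List.length_ofFn] at h1 h2
  unfold inp
  rw [sz_pair, sz_pair, sz_pair]
  omega

end Pool.Agent.Y644.QS

namespace Pool.Agent.NPC.Y644

open Pool.Agent.Y644.QS Pool.Agent.H687R2.LLL Pool.Agent.NPC.H532.RP

theorem poly_lpRun {α : Type} [TEnc α] {x : α → Inp} {K : α → ℕ} (hx : Poly x) (hK : UPoly K) :
    Poly (fun a => lpRun (x a) (K a)) := by
  unfold lpRun
  have h1 : Poly (fun a => (step (crow (x a)))^[K a]
      ((Sum.inl ([], rowsI (x a), [startV (x a)]), []) : State)) :=
    poly_run (poly_crow.comp hx) (poly_rowsI.comp hx) (poly_startV.comp hx) hK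
  have h2 : Poly (fun a => ((step (crow (x a)))^[K a]
      ((Sum.inl ([], rowsI (x a), [startV (x a)]), []) : State)).1) := Poly.fst h1
  have h3 : Poly (fun a => Sum.elim (fun _ => ([] : List (List ℤ))) (fun p => p)
    ((step (crow (x a)))^[K a]
      ((Sum.inl ([], rowsI (x a), [startV (x a)]), []) : State)).1) :=
    Poly.sumElim (g := fun _ _ => ([] : List (List ℤ))) (h := fun _ p => p) h2
      (Poly.const _) (Poly.snd Poly.id)
  exact poly_lpOut (by fun_prop) h3

theorem poly_lpBits {α : Type} [TEnc α] {x : α → List Bool} {K : α → ℕ} (hx : Poly x)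
    (hK : UPoly K) : Poly (fun a => lpBits (x a) (K a)) := by
  unfold lpBits
  have h1 : Poly (fun a => unbits Inp (x a)) := poly_unbits.comp hx
  have h2 : Poly (fun p : α × Inp => lpRun p.2 (K p.1)) :=
    poly_lpRun (Poly.snd Poly.id) (by fun_prop)
  exact Poly.optElim (h := fun a y => lpRun y (K a)) h1 (Poly.const _) h2

theorem UPoly_pow {α : Type} [TEnc α] {f : α → ℕ} (hf : UPoly f) (k : ℕ) :
    UPoly (fun a => f a ^ k) := by
  induction k with
  | zero => simp only [pow_zero]; exact UPoly.const 1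
  | succ k ih => simp only [pow_succ]; exact UPoly.mul ih hf

/-- the algorithm runs in quasi-polynomial time -/
theorem quasi_lp : QuasiPolyTime (fun x =>
    bits (lpBits x ((16 * x.length + 16) ^ sz (16 * x.length + 16)))) := by
  have h1 : UPoly (fun x : List Bool => 16 * x.length + 16) := by fun_prop
  have h2 : Poly (fun p : List Bool × List Unit => lpBits p.1 p.2.length) :=
    poly_lpBits (by fun_prop) (by fun_prop)
  have h3 := quasi_main h1 h2
  simpa only [List.length_replicate] using h3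

theorem poly_lp (C : ℕ) : PolyTime (fun x => bits (lpBits x (Kc C x.length))) := by
  refine polyTime_bits (poly_lpBits Poly.id ?_)
  unfold Kc
  have h1 : UPoly (fun x : List Bool => (x.length + 1) ^ (5 * C + 1)) :=
    UPoly_pow (by fun_prop) _
  fun_prop

variable {m n : ℕ} {A : Fin m → Fin n → ℚ} {b : Fin m → ℚ} {c v : Fin n → ℚ}

theorem stepsB_le_main {L : ℕ} (hL : m + n < L) :
    stepsB m n ≤ (16 * L + 16) ^ sz (16 * L + 16) := by
  refine (min_le_left _ _).trans ((bnd_le_pow (L := L) (by omega) (by omega)).trans ?_)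
  refine Nat.pow_le_pow_right (by omega) ?_
  refine le_trans ?_ (size_le_sz _)
  have h1 : Nat.size (2 * L) ≤ Nat.size (16 * L + 16) := Nat.size_le_size (by omega)
  have h2 : Nat.size (2 * L) = Nat.size L + 1 := by
    rw [size_half (by omega)]
    simp
  omega

/-- the sizes of the vertices are polynomially bounded -/
theorem exists_vertex_bound : ∃ q : Polynomial ℕ, ∀ (m n : ℕ) (A : Fin m → Fin n → ℚ)
    (b : Fin m → ℚ) (c v : Fin n → ℚ), re v ∈ Set.extremePoints ℝ (polyhedron A b) →
    (bits (Pool.Agent.Y644.QS.inp A b c v)).length ≤ q.eval (bits (List.ofFn fun i => List.ofFn (A i), List.ofFn b,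
      List.ofFn c)).length := by
  have hH : Poly (fun p : List ℚ × List ℤ => (List.range p.1.length).map fun j =>
      mkRat (p.2.getD j 0) (p.2.getD p.1.length 0).toNat) := by
    have h0 : UPoly (fun p : List ℚ × List ℤ => p.1.length) := by fun_prop
    have h1 : Poly (fun p : (List ℚ × List ℤ) × ℕ => mkRat (p.1.2.getD p.2 0)
      (p.1.2.getD p.1.1.length 0).toNat) := by fun_prop
    exact Poly.map (F := fun (p : List ℚ × List ℤ) j => mkRat (p.2.getD j 0)
      (p.2.getD p.1.length 0).toNat) h0.range h1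
  obtain ⟨qH, hqH⟩ := hH.sz_le
  obtain ⟨pV, hpV⟩ := normV_bound
  obtain ⟨qC, hqC⟩ := poly_crow.sz_le
  have hJ : Poly (fun x : Inp => rowsJ x) := by
    unfold rowsJ
    have h1 := poly_crow
    have h2 := poly_rowsI
    exact poly_jl h1 h2
  obtain ⟨qJ, hqJ⟩ := hJ.sz_le
  refine ⟨Polynomial.X + 1 + qH.comp (Polynomial.X + (pV.comp (qC.comp (Polynomial.X + 2) + 1 +
    qJ.comp (Polynomial.X + 2))) + 1), ?_⟩
  intro m n A b c v hv
  set C := crow (Pool.Agent.Y644.QS.inp A b c v) with hC
  set J := rowsJ (Pool.Agent.Y644.QS.inp A b c v) with hJ'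
  set w := normV C [] J (startV (Pool.Agent.Y644.QS.inp A b c v)) with hw
  have hvx := start_vx (c := c) hv
  have hJl : Len C.length J := Len.jl len_rowsI
  obtain ⟨w1, s, hs, w2⟩ := normV_spec (c := C) (E := []) (J := J) (fun r hr => by simp at hr) hJl
    hvx.len hvx.ext (Or.inl hvx.pos)
  rw [← hw] at w1 w2
  have hn : C.length = n + 1 := length_crow
  have hco : ∀ j ≤ n, (w.getD j 0 : ℝ) = s * ((startV (Pool.Agent.Y644.QS.inp A b c v)).getD j 0 : ℝ) := by
    intro j hj
    have := congrArg (fun h : EuclideanSpace ℝ (Fin C.length) => h ⟨j, by omega⟩) w2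
    simpa [lv_apply] using this
  have hw0 : 0 < w.getD n 0 := by
    have h1 := hco n le_rfl
    have h2 : (0 : ℝ) < (startV (Pool.Agent.Y644.QS.inp A b c v)).getD n 0 := by exact_mod_cast getD_startV
    have h3 : (0 : ℝ) < w.getD n 0 := by rw [h1]; exact mul_pos hs h2
    exact_mod_cast h3
  have hxq : xq n w = v := by
    rw [← xq_startV (A := A) (b := b) (c := c) (v := v)]
    funext j
    have h1 := hco j j.2.le
    have h2 := hco n le_rfl
    have h3 : (0 : ℝ) < (startV (Pool.Agent.Y644.QS.inp A b c v)).getD n 0 := by exact_mod_cast getD_startV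
    have h4 : ((xq n w j : ℚ) : ℝ) = ((xq n (startV (Pool.Agent.Y644.QS.inp A b c v)) j : ℚ) : ℝ) := by
      unfold xq
      push_cast
      rw [h1, h2, mul_div_mul_left _ _ hs.ne']
    exact_mod_cast h4
  have hlist : List.ofFn v = (List.range (List.ofFn c).length).map fun j =>
      mkRat (w.getD j 0) (w.getD (List.ofFn c).length 0).toNat := by
    rw [List.length_ofFn, ← ofFn_xq hw0, hxq]
  have e1 := hqH (List.ofFn c, w)
  simp only at e1
  rw [← hlist] at e1
  have e2 := hpV C [] J (startV (Pool.Agent.Y644.QS.inp A b c v))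
  rw [← hw] at e2
  set L := sz (List.ofFn fun i => List.ofFn (A i), List.ofFn b, List.ofFn c) with hL
  have hL' : L = sz (List.ofFn fun i => List.ofFn (A i)) + (sz (List.ofFn b) +
    sz (List.ofFn c) + 1) + 1 := by rw [hL, sz_pair, sz_pair]
  have hx : sz ((List.ofFn fun i => List.ofFn (A i), List.ofFn b, List.ofFn c, []) : Inp) ≤
      L + 2 := by
    rw [sz_pair, sz_pair, sz_pair, sz_list_nil]
    omega
  have e3 : sz C ≤ qC.eval (L + 2) := by
    have := hqC (List.ofFn fun i => List.ofFn (A i), List.ofFn b, List.ofFn c, [])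
    exact this.trans (eval_mono qC hx)
  have e4 : sz J ≤ qJ.eval (L + 2) := by
    have := hqJ (List.ofFn fun i => List.ofFn (A i), List.ofFn b, List.ofFn c, [])
    exact this.trans (eval_mono qJ hx)
  rw [bits_length, bits_length]
  have e5 : sz w ≤ pV.eval (qC.eval (L + 2) + 1 + qJ.eval (L + 2)) := by
    refine e2.trans (eval_mono pV ?_)
    rw [sz_list_nil]
    omega
  have e6 : sz (List.ofFn c) ≤ L := by omega
  have e7 : sz (List.ofFn v) ≤ qH.eval (L + pV.eval (qC.eval (L + 2) + 1 + qJ.eval (L + 2)) + 1) := by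
    refine e1.trans (eval_mono qH ?_)
    rw [sz_pair]
    omega
  simp only [Polynomial.eval_add, Polynomial.eval_comp, Polynomial.eval_X, Polynomial.eval_one,
    Polynomial.eval_ofNat]
  unfold Pool.Agent.Y644.QS.inp
  rw [sz_pair, sz_pair, sz_pair]
  rw [← hL]
  omega

end Pool.Agent.NPC.Y644
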