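import Pool.Agent.Y644.QS.MaxSupp
set_option autoImplicit false

/-!
# A version of the algorithm which is polynomially bounded for all inputs
-/

namespace Pool.Agent.Y644.QS

open Pool.Agent.H687R2.LLL

/-- adjust the length of a row -/
def fixL (N : ℕ) (r : List ℤ) : List ℤ := (List.range N).map fun i => r.getD i 0

/-- adjust the lengths of all rows -/
def fixR (N : ℕ) (L : List (List ℤ)) : List (List ℤ) := L.map fun r => fixL N r

/-- all rows have the right length -/
def Len (N : ℕ) (L : List (List ℤ)) : Prop := ∀ r ∈ L, r.length = N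

theorem fixL_eq {N : ℕ} {r : List ℤ} (hr : r.length = N) : fixL N r = r := by
  subst hr
  apply List.ext_getElem
  · simp [fixL]
  · intro i h1 h2
    simp only [fixL, List.getElem_map, List.getElem_range]
    rw [List.getD_eq_getElem _ _ h2]

theorem length_fixL (N : ℕ) (r : List ℤ) : (fixL N r).length = N := by simp [fixL]

theorem len_fixR (N : ℕ) (L : List (List ℤ)) : Len N (fixR N L) := by
  intro r hr
  rw [fixR, List.mem_map] at hr
  obtain ⟨a, _, rfl⟩ := hr
  exact length_fixL N a

theorem fixR_eq {N : ℕ} {L : List (List ℤ)} (h : Len N L) : fixR N L = L := by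
  have h1 : L.map (fun r => fixL N r) = L.map id := List.map_congr_left fun r hr => fixL_eq (h r hr)
  rw [fixR, h1, List.map_id]

/-- one round -/
def roundF (K t : ℕ) (B : List (List ℤ)) (s : List ℤ × List ℕ) : List ℤ × List ℕ :=
  roundWith K t (gs (fixR K (rowsOf K t B s.1 s.2)))
    (pc K t (gs (fixR K (rowsOf K t B s.1 s.2))) s.2) s

/-- the solution found at the end -/
def outpF (K t : ℕ) (B : List (List ℤ)) (s : List ℤ × List ℕ) : List ℤ :=
  mulV s.1 (proj (gs (fixR K (rowsOf K t B s.1 s.2)))
    (pc K t (gs (fixR K (rowsOf K t B s.1 s.2))) s.2)).1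

/-- a solution of maximal support of `B y = 0`, `y ≥ 0` -/
def maxsuppF (K t : ℕ) (B : List (List ℤ)) : List ℤ :=
  outpF K t B ((roundF K t B)^[K * t + 1] (List.replicate K 1, List.replicate K 0))

theorem len_rowsOf {K t : ℕ} {B : List (List ℤ)} (hB : Len K B) {S : List ℤ} (hS : S.length = K)
    (e : List ℕ) : Len K (rowsOf K t B S e) := by
  intro r hr
  rw [rowsOf, List.mem_append, List.mem_map, List.mem_map] at hr
  rcases hr with ⟨a, ha, rfl⟩ | ⟨j, _, rfl⟩
  · exact length_mulV (hB a ha) hS
  · exact length_unitV _ _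

theorem length_roundWith {K t : ℕ} {acc : List (List ℤ × ℕ)} {c : List ℤ} {s : List ℤ × List ℕ}
    (hs : s.1.length = K) : (roundWith K t acc c s).1.length = K := by
  unfold roundWith
  cases bad K t s.2 (proj acc c).1 with
  | none => exact hs
  | some i =>
    simp only [Option.elim_some]
    cases pick K t s.2 c with
    | none => exact hs
    | some j => simp [halve]

theorem iter_roundF {K t : ℕ} {B : List (List ℤ)} (hB : Len K B) (s : List ℤ × List ℕ)
    (hs : s.1.length = K) (n : ℕ) : (roundF K t B)^[n] s = (QS.round K t B)^[n] s ∧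
      ((QS.round K t B)^[n] s).1.length = K := by
  induction n with
  | zero => exact ⟨rfl, hs⟩
  | succ n ih =>
    rw [Function.iterate_succ_apply', Function.iterate_succ_apply', ih.1]
    refine ⟨?_, length_roundWith ih.2⟩
    have h1 := ih.2
    generalize (QS.round K t B)^[n] s = x at h1
    unfold roundF QS.round
    rw [fixR_eq (len_rowsOf hB h1 _)]

theorem maxsuppF_eq {K t : ℕ} {B : List (List ℤ)} (hB : Len K B) :
    maxsuppF K t B = maxsupp K t B := by
  obtain ⟨h1, h2⟩ := iter_roundF (t := t) hB (List.replicate K 1, List.replicate K 0) (by simp)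
    (K * t + 1)
  unfold maxsuppF maxsupp
  rw [h1]
  unfold outpF outp
  rw [fixR_eq (len_rowsOf hB h2 _)]

end Pool.Agent.Y644.QS
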