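import Pool.Agent.Y644.QS.Improve
set_option autoImplicit false

/-!
# The facets with the highest tops
-/

namespace Pool.Agent.Y644.QS

open scoped InnerProductSpace
open Pool.Agent.H687R2.LLL Pool.Agent.NPC

/-- a bound for the bit length of the values of the vertices -/
def bpar (c : List ℤ) (E J : List (List ℤ)) : ℕ := 2 * sz (c, E, J) * (E.length + J.length + 1)

theorem bpar_pos (c : List ℤ) (E J : List (List ℤ)) : 0 < bpar c E J :=
  Nat.mul_pos (Nat.mul_pos (by norm_num) (sz_pos _)) (Nat.succ_pos _)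

/-- the precision -/
def kpar (c : List ℤ) (E J : List (List ℤ)) : ℕ := 2 * bpar c E J + 1

/-- the functional `c - θ τ` for the threshold `θ = (s - 2 ^ (2 K)) / 2 ^ K` -/
def thr (c : List ℤ) (K s : ℕ) : List ℤ := comb (2 ^ K) c ((s : ℤ) - 2 ^ (2 * K)) (tau c)

/-- does the facet `F` reach above the threshold? -/
def above (c : List ℤ) (E J : List (List ℤ)) (K s : ℕ) (F : List ℤ) : Bool :=
  feas c (F :: E) J (thr c K s)

/-- the facets that reach above the threshold -/
def aset (c : List ℤ) (E J I : List (List ℤ)) (K s : ℕ) : List (List ℤ) :=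
  I.filter fun F => above c E J K s F

/-- do at least half of the facets reach above the threshold? -/
def half (c : List ℤ) (E J I : List (List ℤ)) (K s : ℕ) : Bool :=
  decide (I.length ≤ 2 * (aset c E J I K s).length)

/-- the largest such threshold -/
def hsearch (c : List ℤ) (E J I : List (List ℤ)) (K : ℕ) : ℕ :=
  (List.range (2 * K + 1)).foldr
    (fun i s => if half c E J I K (s + 2 ^ min i (2 * K)) = true then s + 2 ^ min i (2 * K)
      else s) 0

/-- the upper facets -/
def upper (c : List ℤ) (E J I : List (List ℤ)) : List (List ℤ) :=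
  aset c E J I (kpar c E J) (hsearch c E J I (kpar c E J))

/-- the facets strictly above the lowest top of the upper facets -/
def upper' (c : List ℤ) (E J I : List (List ℤ)) : List (List ℤ) :=
  aset c E J I (kpar c E J) (hsearch c E J I (kpar c E J) + 1)

/-- the largest threshold below the optimum -/
def tsearch (c : List ℤ) (E J : List (List ℤ)) (K : ℕ) : ℕ :=
  (List.range (2 * K + 1)).foldr
    (fun i s => if feas c E J (thr c K (s + 2 ^ min i (2 * K))) = true then
      s + 2 ^ min i (2 * K) else s) 0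

/-- the facets containing `v` which have the same top as the polyhedron -/
def topF (c : List ℤ) (E J I : List (List ℤ)) (v : List ℤ) : List (List ℤ) :=
  I.filter fun r => decide (dot r v = 0) &&
    above c E J (kpar c E J) (tsearch c E J (kpar c E J)) r

theorem tsearch_eq (c : List ℤ) (E J : List (List ℤ)) (K : ℕ) :
    tsearch c E J K = (List.range (2 * K + 1)).foldr
      (fun i s => if (fun s => feas c E J (thr c K s)) (s + 2 ^ i) = true then s + 2 ^ i else s)
      0 := by
  unfold tsearch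
  refine List.foldr_ext _ _ _ fun i hi s => ?_
  rw [List.mem_range] at hi
  rw [min_eq_left (by omega)]

theorem hsearch_eq (c : List ℤ) (E J I : List (List ℤ)) (K : ℕ) :
    hsearch c E J I K = (List.range (2 * K + 1)).foldr
      (fun i s => if half c E J I K (s + 2 ^ i) = true then s + 2 ^ i else s) 0 := by
  unfold hsearch
  refine List.foldr_ext _ _ _ fun i hi s => ?_
  rw [List.mem_range] at hi
  rw [min_eq_left (by omega)]

theorem binary_search {A : ℕ → Bool} (hA : ∀ s s', s ≤ s' → A s' = true → A s = true) (m : ℕ) :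
    ∀ s0 s, s = (List.range m).foldr
      (fun i s => if A (s + 2 ^ i) = true then s + 2 ^ i else s) s0 →
      (A s = true ∨ s = s0) ∧ s0 ≤ s ∧ s < s0 + 2 ^ m ∧
        ∀ s', s0 ≤ s' → s' < s0 + 2 ^ m → A s' = true → s' ≤ s := by
  induction m with
  | zero =>
    rintro s0 s rfl
    refine ⟨Or.inr rfl, le_rfl, by simp, fun s' h1 h2 _ => ?_⟩
    rw [pow_zero] at h2
    exact Nat.le_of_lt_succ h2
  | succ m ih =>
    rintro s0 s rfl
    rw [List.range_succ, List.foldr_append, List.foldr_cons, List.foldr_nil]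
    split_ifs with hc
    · obtain ⟨h1, h2, h3, h4⟩ := ih (s0 + 2 ^ m) _ rfl
      refine ⟨?_, by omega, by rw [pow_succ]; omega, fun s' h5 h6 h7 => ?_⟩
      · rcases h1 with h1 | h1
        · exact Or.inl h1
        · left; rw [h1]; exact hc
      · by_cases h8 : s0 + 2 ^ m ≤ s'
        · exact h4 s' h8 (by rw [pow_succ] at h6; omega) h7
        · omega
    · obtain ⟨h1, h2, h3, h4⟩ := ih s0 _ rfl
      refine ⟨h1, h2, by rw [pow_succ]; omega, fun s' h5 h6 h7 => ?_⟩
      by_cases h8 : s0 + 2 ^ m ≤ s'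
      · exact absurd (hA _ _ h8 h7) hc
      · exact h4 s' h5 (by omega) h7

/-! ### Arithmetic -/

section Arith

variable {a t y z a' t' p q p' q' k θ b : ℝ}

theorem arith_below (ht : 0 < t) (hz : 0 ≤ z) (hq : 0 < q) (hk : 0 < k) (h1 : t * y - a * z ≤ 0)
    (h2 : a * q = p * t) (h3 : 0 < k * y - θ * z) : θ * q < k * p := by
  have e1 : t * (y * q) ≤ t * (p * z) := by
    have := mul_le_mul_of_nonneg_right h1 hq.le
    have e : a * z * q = t * (p * z) := by
      calc a * z * q = a * q * z := by ring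
        _ = _ := by rw [h2]; ring
    linarith
  have e2 : y * q ≤ p * z := le_of_mul_le_mul_left e1 ht
  have e3 : (θ * q) * z < (k * p) * z := by
    have e4 : k * (y * q) ≤ k * (p * z) := mul_le_mul_of_nonneg_left e2 hk.le
    have e5 : 0 < (k * y - θ * z) * q := mul_pos h3 hq
    linarith
  exact lt_of_mul_lt_mul_right e3 hz

theorem arith_zero (ht : 0 < t) (hq : 1 ≤ q) (h2 : a * q = p * t) (hb : 0 ≤ b)
    (hp : -b ≤ p) (hbk : b < k) : 0 < a + k * t := by
  have h5 : 0 ≤ a + b * t := by
    by_contra hneg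
    push Not at hneg
    have h6 : (a + b * t) * q < 0 := mul_neg_of_neg_of_pos hneg (by linarith)
    have h7 : (a + b * t) * q = (p + b * q) * t := by rw [add_mul, h2]; ring
    have h8 : 0 ≤ p + b * q := by nlinarith
    have := mul_nonneg h8 ht.le
    linarith
  have := mul_lt_mul_of_pos_right hbk ht
  linarith

theorem arith_gap (ht : 0 < t) (ht' : 0 < t') (hq : 0 < q) (hq' : 0 < q') (h2 : a * q = p * t)
    (h2' : a' * q' = p' * t') (h : 0 < t * a' - a * t') : 0 < p' * q - p * q' := by
  have h6 : 0 < (p' * q - p * q') * (t * t') := by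
    have h7 : (p' * q - p * q') * (t * t') = (t * a' - a * t') * (q * q') := by
      linear_combination (-(q : ℝ) * t) * h2' + (q' * t' : ℝ) * h2
    rw [h7]
    exact mul_pos h (mul_pos hq hq')
  exact (mul_pos_iff_of_pos_right (mul_pos ht ht')).1 h6

theorem arith_between (ht' : 0 < t') (hq : 0 < q) (hq' : 0 < q') (hk : 0 < k)
    (h2' : a' * q' = p' * t') (h6 : 1 ≤ p' * q - p * q') (h9 : θ * q < k * p)
    (h11 : q * q' < k) : 0 < k * a' - (θ + 1) * t' := by
  have h12 : (θ + 1) * q' < k * p' := by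
    have h13 : ((θ + 1) * q') * q < (k * p') * q := by
      have h14 : θ * q * q' < k * p * q' := mul_lt_mul_of_pos_right h9 hq'
      have h15 : k * 1 ≤ k * (p' * q - p * q') := mul_le_mul_of_nonneg_left h6 hk.le
      linarith
    exact lt_of_mul_lt_mul_right h13 hq.le
  have h16 : 0 < (k * a' - (θ + 1) * t') * q' := by
    have h17 : (k * a' - (θ + 1) * t') * q' = (k * p' - (θ + 1) * q') * t' := by
      linear_combination (k : ℝ) * h2'
    rw [h17]
    exact mul_pos (by linarith) ht'
  exact (mul_pos_iff_of_pos_right hq').1 h16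

end Arith

variable {c : List ℤ} {E J I : List (List ℤ)} {w : List ℤ}

theorem norm_tau (hc : 0 < c.length) : ‖lv c.length (tau c)‖ = 1 :=
  norm_unitV (K := c.length) ⟨c.length - 1, by omega⟩

/-- the values of the vertices are rationals of bounded height -/
theorem val_bound (hc : 0 < c.length) (hE : Len c.length E) (hJ : Len c.length J)
    {w : EuclideanSpace ℝ (Fin c.length)} (hext : Ext (rf c.length) E J w)
    (hτ : 0 < rf c.length (tau c) w) :
    ∃ p q : ℤ, 0 < q ∧ (q : ℝ) ≤ 2 ^ bpar c E J ∧ |(p : ℝ)| ≤ 2 ^ bpar c E J ∧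
      rf c.length c w * q = p * rf c.length (tau c) w := by
  classical
  set T := J.filter fun r => decide (rf c.length r w = 0) with hTdef
  have hT : ∀ r, r ∈ T ↔ r ∈ J ∧ rf c.length r w = 0 := fun r => by
    rw [hTdef, List.mem_filter, decide_eq_true_iff]
  obtain ⟨D, hD, h1, h2, h3, s, hs, h4⟩ := proj_ext hE hJ (length_tau c) hT hext hτ
  set y := (proj (gs (E ++ T)) (tau c)).1
  set b := 2 * sz (c, E, J) with hb
  have hnorm : ‖lv c.length y‖ ≤ D := by
    rw [h3, norm_smul, Real.norm_eq_abs, Nat.abs_cast]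
    have := PB_norm_le (B := E ++ T) (lv c.length (tau c))
    rw [norm_tau hc] at this
    nlinarith [(Nat.cast_nonneg D : (0 : ℝ) ≤ D)]
  have hD2 : (D : ℝ) ≤ 2 ^ (b * (E.length + J.length)) := by
    refine h1.trans ((gprod_le (b := b) fun r hr => ?_).trans ?_)
    · refine normSq_lv_le ?_
      rw [sz_pair, sz_pair]
      rcases List.mem_append.1 hr with hr | hr
      · have := sz_le_of_mem hr
        omega
      · have := sz_le_of_mem ((hT r).1 hr).1
        omega
    · refine pow_le_pow_right₀ (by norm_num) (Nat.mul_le_mul_left _ ?_)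
      rw [List.length_append]
      have : T.length ≤ J.length := List.length_filter_le _ _
      omega
  have hbb : bpar c E J = b * (E.length + J.length) + b := by unfold bpar; ring
  have hle : (2 : ℝ) ^ (b * (E.length + J.length)) ≤ 2 ^ bpar c E J :=
    pow_le_pow_right₀ (by norm_num) (by omega)
  refine ⟨dot c y, dot (tau c) y, ?_, ?_, ?_, ?_⟩
  · have : (0 : ℝ) < (dot (tau c) y : ℤ) := by
      rw [← rf_dot (length_tau c) h2, h4, map_smul, smul_eq_mul]
      exact mul_pos hs hτ
    exact_mod_cast this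
  · rw [← rf_dot (length_tau c) h2, rf_apply]
    refine (real_inner_le_norm _ _).trans ?_
    rw [norm_tau hc, one_mul]
    exact hnorm.trans (hD2.trans hle)
  · rw [← rf_dot (N := c.length) rfl h2, rf_apply]
    refine (abs_real_inner_le_norm _ _).trans ?_
    have h5 : ‖lv c.length c‖ ≤ 2 ^ b := (norm_lv_lt).trans (pow_le_pow_right₀ (by norm_num) (by
      rw [hb, sz_pair]; omega))
    calc ‖lv c.length c‖ * ‖lv c.length y‖ ≤ 2 ^ b * 2 ^ (b * (E.length + J.length)) :=
          mul_le_mul h5 (hnorm.trans hD2) (norm_nonneg _) (by positivity)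
      _ = 2 ^ bpar c E J := by rw [hbb, ← pow_add, add_comm]
  · rw [← rf_dot (length_tau c) h2, ← rf_dot (N := c.length) rfl h2, h4, map_smul, map_smul,
      smul_eq_mul, smul_eq_mul]
    ring

theorem length_thr (c : List ℤ) (K s : ℕ) : (thr c K s).length = c.length :=
  length_comb rfl (length_tau c) _ _

theorem rf_thr (c : List ℤ) (K s : ℕ) (h : EuclideanSpace ℝ (Fin c.length)) :
    rf c.length (thr c K s) h = 2 ^ K * rf c.length c h -
      ((s : ℝ) - 2 ^ (2 * K)) * rf c.length (tau c) h := by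
  rw [thr, rf_comb rfl (length_tau c)]
  push_cast
  ring


/-- the faces as cones -/
theorem above_iff (hE : Len c.length E) (hJ : Len c.length J) (K s : ℕ) {F : List ℤ}
    (hF : F.length = c.length) : above c E J K s F = true ↔
      ∃ h, InC (rf c.length) (F :: E) J h ∧ 0 < rf c.length (thr c K s) h :=
  feas_iff (hE.cons hF) hJ (length_thr c K s)

theorem tau_nonneg (hτJ : negV (tau c) ∈ J) {h : EuclideanSpace ℝ (Fin c.length)}
    (hh : InC (rf c.length) E J h) : 0 ≤ rf c.length (tau c) h := by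
  have := hh.2 _ hτJ
  rw [rf_negV] at this
  linarith

theorem above_anti (hE : Len c.length E) (hJ : Len c.length J) (hτJ : negV (tau c) ∈ J)
    (K : ℕ) {s s' : ℕ} (hs : s ≤ s') {F : List ℤ}
    (hF : F.length = c.length) (h : above c E J K s' F = true) : above c E J K s F = true := by
  rw [above_iff hE hJ K _ hF] at h ⊢
  obtain ⟨h, hh, hp⟩ := h
  refine ⟨h, hh, hp.trans_le ?_⟩
  rw [rf_thr, rf_thr]
  have h1 := tau_nonneg hτJ hh
  have h2 : (s : ℝ) ≤ s' := by exact_mod_cast hs
  nlinarith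

theorem length_filter_mono {α : Type} {p q : α → Bool} {l : List α}
    (h : ∀ x ∈ l, p x = true → q x = true) : (l.filter p).length ≤ (l.filter q).length := by
  induction l with
  | nil => simp
  | cons a l ih =>
    have h1 := ih fun x hx => h x (by simp [hx])
    rw [List.filter_cons, List.filter_cons]
    have := h a (by simp)
    cases hp : p a
    · cases hq : q a <;> simp only [if_true, Bool.false_eq_true, if_false, List.length_cons] <;>
        omega
    · simp only [this hp, if_true, List.length_cons]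
      omega

/-- a vertex lies above the lowest threshold -/
theorem above_zero (hc : 0 < c.length) (hE : Len c.length E) (hJ : Len c.length J)
    {F : List ℤ} {v : EuclideanSpace ℝ (Fin c.length)} (hF : F ∈ J)
    (v2 : Ext (rf c.length) E J v) (v3 : 0 < rf c.length (tau c) v)
    (v4 : rf c.length F v = 0) : above c E J (kpar c E J) 0 F = true := by
  have hKβ : kpar c E J = 2 * bpar c E J + 1 := rfl
  rw [above_iff hE hJ _ _ (hJ F hF)]
  refine ⟨v, v2.mem.to_face (fun r hr => hr) v4, ?_⟩
  obtain ⟨p, q, q0, q1, p1, hpq⟩ := val_bound hc hE hJ v2 v3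
  rw [rf_thr]
  have hq : (1 : ℝ) ≤ q := by exact_mod_cast q0
  have hp2 := (abs_le.1 p1).1
  have hbK : (2 : ℝ) ^ bpar c E J < 2 ^ kpar c E J := pow_lt_pow_right₀ (by norm_num) (by omega)
  have h6 := arith_zero v3 hq hpq (by positivity) hp2 hbK
  have h2K : (2 : ℝ) ^ (2 * kpar c E J) = 2 ^ kpar c E J * 2 ^ kpar c E J := by
    rw [two_mul, pow_add]
  rw [Nat.cast_zero, h2K]
  have h7 : (0 : ℝ) < 2 ^ kpar c E J := by positivity
  have h8 := mul_pos h7 h6
  linarith

/-- the specification of the upper facets -/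
theorem half_spec (hE : Len c.length E) (hJ : Len c.length J)
    (hτJ : negV (tau c) ∈ J) (hI : ∀ F ∈ I, F ∈ J) :
    (I.length ≤ 2 * (upper c E J I).length ∨
      ∀ F ∈ I, above c E J (kpar c E J) 0 F = true → F ∈ upper c E J I) ∧
      (hsearch c E J I (kpar c E J) + 1 < 2 ^ (2 * kpar c E J + 1) →
        2 * (upper' c E J I).length < I.length) ∧
      hsearch c E J I (kpar c E J) < 2 ^ (2 * kpar c E J + 1) := by
  set K := kpar c E J with hK
  have hanti : ∀ s s', s ≤ s' → half c E J I K s' = true → half c E J I K s = true := by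
    intro s s' hs h
    unfold half at *
    rw [decide_eq_true_iff] at *
    have : (aset c E J I K s').length ≤ (aset c E J I K s).length :=
      length_filter_mono fun F hF => above_anti hE hJ hτJ K hs (hJ F (hI F hF))
    omega
  obtain ⟨b1, -, b3, b4⟩ := binary_search hanti (2 * K + 1) 0 _ (hsearch_eq c E J I K)
  refine ⟨?_, fun h => ?_, by omega⟩
  · rcases b1 with b1 | b1
    · left
      unfold half at b1
      rw [decide_eq_true_iff] at b1
      exact b1
    · right
      intro F hF h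
      unfold upper
      rw [← hK, b1]
      exact List.mem_filter.2 ⟨hF, h⟩
  · by_contra hcon
    have h1 : half c E J I K (hsearch c E J I K + 1) = true := by
      unfold half
      rw [decide_eq_true_iff]
      exact not_lt.1 hcon
    have := b4 _ (Nat.zero_le _) (by omega) h1
    omega

theorem tsearch_spec (hE : Len c.length E) (hJ : Len c.length J) (hτJ : negV (tau c) ∈ J)
    (K : ℕ) : tsearch c E J K < 2 ^ (2 * K + 1) ∧
      ∀ s < 2 ^ (2 * K + 1), feas c E J (thr c K s) = true → s ≤ tsearch c E J K := by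
  have hanti : ∀ s s', s ≤ s' → feas c E J (thr c K s') = true →
      feas c E J (thr c K s) = true := by
    intro s s' hs h
    rw [feas_iff hE hJ (length_thr _ _ _)] at h ⊢
    obtain ⟨h, hh, hp⟩ := h
    refine ⟨h, hh, hp.trans_le ?_⟩
    rw [rf_thr, rf_thr]
    have h1 := tau_nonneg hτJ hh
    have h2 : (s : ℝ) ≤ s' := by exact_mod_cast hs
    nlinarith
  obtain ⟨-, -, b3, b4⟩ := binary_search (A := fun s => feas c E J (thr c K s)) hanti
    (2 * K + 1) 0 _ (tsearch_eq c E J K)
  exact ⟨by omega, fun s h1 h2 => b4 s (Nat.zero_le _) (by omega) h2⟩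

theorem hsearch_le_tsearch (hE : Len c.length E) (hJ : Len c.length J)
    (hτJ : negV (tau c) ∈ J) (hI : ∀ F ∈ I, F ∈ J) (hne : I ≠ []) :
    hsearch c E J I (kpar c E J) ≤ tsearch c E J (kpar c E J) := by
  set K := kpar c E J with hK
  have hanti : ∀ s s', s ≤ s' → half c E J I K s' = true → half c E J I K s = true := by
    intro s s' hs h
    unfold half at *
    rw [decide_eq_true_iff] at *
    have : (aset c E J I K s').length ≤ (aset c E J I K s).length :=
      length_filter_mono fun F hF => above_anti hE hJ hτJ K hs (hJ F (hI F hF))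
    omega
  obtain ⟨b1, -, b3, -⟩ := binary_search hanti (2 * K + 1) 0 _ (hsearch_eq c E J I K)
  rcases b1 with b1 | b1
  · unfold half at b1
    rw [decide_eq_true_iff] at b1
    have h1 := List.length_pos_of_ne_nil hne
    have h2 : 0 < (aset c E J I K (hsearch c E J I K)).length := by omega
    obtain ⟨F, hF⟩ := List.exists_mem_of_length_pos h2
    obtain ⟨hFI, hFf⟩ := List.mem_filter.1 hF
    rw [above_iff hE hJ _ _ (hJ F (hI F hFI))] at hFf
    obtain ⟨x, hx, hxp⟩ := hFf
    refine (tsearch_spec hE hJ hτJ K).2 _ (by omega) ?_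
    exact (feas_iff hE hJ (length_thr _ _ _)).2
      ⟨x, hx.of_face (hI F hFI) fun r hr => Or.inr hr, hxp⟩
  · rw [b1]; exact Nat.zero_le _

/-- the top `w` of a facet above the threshold `s`: what is above `w` is above `s + 1` -/
theorem gap_spec (hc : 0 < c.length) (hE : Len c.length E) (hJ : Len c.length J)
    (hτJ : negV (tau c) ∈ J) {s : ℕ} (hsl : s < 2 ^ (2 * kpar c E J + 1))
    {x w : EuclideanSpace ℝ (Fin c.length)} {v : List ℤ} (hvw : lv c.length v = w)
    (w1 : v.length = c.length) (hx : InC (rf c.length) E J x)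
    (hxp : 0 < rf c.length (thr c (kpar c E J) s) x)
    (hxw : rf c.length (gain c v) x ≤ 0)
    (w2 : Ext (rf c.length) E J w) (w3 : 0 < rf c.length (tau c) w) :
    s + 1 < 2 ^ (2 * kpar c E J + 1) ∧
    ∀ E2 : List (List ℤ), (∀ r ∈ E, r ∈ E2) → (∀ u, Ext (rf c.length) E2 J u →
      Ext (rf c.length) E J u) → ∀ h, InC (rf c.length) E2 J h → 0 < rf c.length (gain c v) h →
        ∃ u, InC (rf c.length) E2 J u ∧ 0 < rf c.length (thr c (kpar c E J) (s + 1)) u := by
  subst hvw
  set β := bpar c E J with hβ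
  set K := kpar c E J with hK
  have hKβ : K = 2 * β + 1 := rfl
  have h2K : (2 : ℝ) ^ (2 * K) = 2 ^ K * 2 ^ K := by rw [two_mul, pow_add]
  have hβK : (2 : ℝ) ^ K = 2 ^ β * 2 ^ β * 2 := by rw [hKβ, pow_succ, two_mul, pow_add]
  obtain ⟨p, q, q0, q1, p1, hpq⟩ := val_bound hc hE hJ w2 w3
  rw [← hβ] at q1 p1
  have hq : (1 : ℝ) ≤ q := by exact_mod_cast q0
  have hp2 := abs_le.1 p1
  rw [rf_gain w1] at hxw
  rw [rf_thr] at hxp
  have hsw : ((s : ℝ) - 2 ^ (2 * K)) * q < 2 ^ K * p :=
    arith_below w3 (tau_nonneg hτJ hx) (by linarith) (by positivity) hxw hpq hxp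
  have hb6 : (2 : ℝ) ≤ 2 ^ β := by
    calc (2 : ℝ) = 2 ^ 1 := by norm_num
      _ ≤ 2 ^ β := pow_le_pow_right₀ (by norm_num) (bpar_pos c E J)
  refine ⟨?_, ?_⟩
  · by_contra hcon
    have h1 : s + 1 = 2 ^ (2 * K + 1) := by omega
    have h2 : (s : ℝ) - 2 ^ (2 * K) = 2 ^ K * 2 ^ K - 1 := by
      have : ((s + 1 : ℕ) : ℝ) = 2 ^ (2 * K + 1) := by rw [h1]; push_cast; rfl
      rw [Nat.cast_succ, pow_succ] at this
      rw [← h2K]
      linarith
    rw [h2] at hsw
    have h0 : (0 : ℝ) < 2 ^ K := by positivity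
    have h3 : (2 : ℝ) ^ K * p ≤ 2 ^ K * 2 ^ β := mul_le_mul_of_nonneg_left hp2.2 h0.le
    have h7 : (2 : ℝ) ^ β * 2 ≤ 2 ^ K := by
      rw [← pow_succ]; exact pow_le_pow_right₀ (by norm_num) (by omega)
    have h8 : (2 : ℝ) ^ K * (2 ^ β * 2) ≤ 2 ^ K * 2 ^ K := mul_le_mul_of_nonneg_left h7 h0.le
    have h9 : (4 : ℝ) ≤ 2 ^ K := by linarith
    have h10 : (2 : ℝ) * 4 ≤ 2 ^ β * 2 ^ K := mul_le_mul hb6 h9 (by norm_num) (by positivity)
    have h11 : (2 : ℝ) ^ K * 2 ^ K - 1 ≤ (2 ^ K * 2 ^ K - 1) * q := by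
      have h12 : (0 : ℝ) ≤ 2 ^ K * 2 ^ K - 1 := by linarith
      have := mul_le_mul_of_nonneg_left hq h12
      linarith
    linarith
  intro E2 hEE hE2 h hh hpos
  -- an extreme ray above `w`
  obtain ⟨u, u0, huw⟩ := exists_ext (φ := rf c.length) (E := E2) (J := J)
    (g := rf c.length (gain c v)) (fun y y1 y2 => by
      obtain ⟨s, hs⟩ := w2.ker y (fun r hr => y1 r (hEE r hr)) fun r hr _ => y2 r hr
      have h1 := y2 _ hτJ
      rw [rf_negV, hs, map_smul, smul_eq_mul, neg_eq_zero] at h1
      rcases mul_eq_zero.1 h1 with h2 | h2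
      · rw [hs, h2, zero_smul]
      · exact absurd h2 w3.ne') hh hpos
  have u2 : Ext (rf c.length) E J u := hE2 u u0
  have u3 := u0.mem
  rw [rf_gain w1] at huw
  have u4 : 0 < rf c.length (tau c) u ∨ (rf c.length (tau c) u = 0 ∧
      0 < rf c.length c u) := by
    rcases (tau_nonneg hτJ u3).lt_or_eq with h1 | h1
    · exact Or.inl h1
    · right
      rw [← h1, mul_zero, sub_zero] at huw
      exact ⟨h1.symm, (mul_pos_iff_of_pos_left w3).1 huw⟩
  refine ⟨_, u3, ?_⟩
  rw [rf_thr]
  rcases u4 with u4 | ⟨u4, u6⟩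
  · obtain ⟨p', q', q0', q1', p1', hpq'⟩ := val_bound hc hE hJ u2 u4
    rw [← hβ] at q1' p1'
    have hq' : (1 : ℝ) ≤ q' := by exact_mod_cast q0'
    have h5 : 0 < (p' * q - p * q' : ℤ) := by
      have := arith_gap w3 u4 (by linarith) (by linarith) hpq hpq' huw
      exact_mod_cast this
    have h6 : (1 : ℝ) ≤ p' * q - p * q' := by exact_mod_cast h5
    have h11 : (q : ℝ) * q' < 2 ^ K := by
      have h12 : (q : ℝ) * q' ≤ 2 ^ β * 2 ^ β :=
        mul_le_mul q1 q1' (by linarith) (by positivity)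
      have h13 : (0 : ℝ) < 2 ^ β * 2 ^ β := by positivity
      rw [hβK]
      linarith
    have := arith_between u4 (by linarith) (by linarith) (by positivity) hpq' h6 hsw h11
    push_cast
    linarith
  · rw [u4, mul_zero, sub_zero]
    exact mul_pos (by positivity) u6

/-- the top of an upper facet is above all facets that are not strictly upper -/
theorem upper_spec (hc : 0 < c.length) (hE : Len c.length E) (hJ : Len c.length J)
    (hτJ : negV (tau c) ∈ J) (hI : ∀ F ∈ I, F ∈ J) {F w : List ℤ} (hF : F ∈ upper c E J I)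
    (w1 : w.length = c.length) (w2 : Ext (rf c.length) E J (lv c.length w))
    (w3 : 0 < rf c.length (tau c) (lv c.length w))
    (w4 : ∀ h, InC (rf c.length) (F :: E) J h → rf c.length (gain c w) h ≤ 0) :
    hsearch c E J I (kpar c E J) + 1 < 2 ^ (2 * kpar c E J + 1) ∧
    ∀ F' ∈ I, F' ∉ upper' c E J I →
        ∀ h, InC (rf c.length) (F' :: E) J h → rf c.length (gain c w) h ≤ 0 := by
  have hsl := (half_spec hE hJ hτJ hI).2.2
  obtain ⟨hFI, hFf⟩ := List.mem_filter.1 hF
  rw [above_iff hE hJ _ _ (hJ F (hI F hFI))] at hFf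
  obtain ⟨x, hx, hxp⟩ := hFf
  obtain ⟨g1, g2⟩ := gap_spec hc hE hJ hτJ hsl rfl w1
    (hx.of_face (hI F hFI) fun r hr => Or.inr hr) hxp (w4 x hx) w2 w3
  refine ⟨g1, fun F' hF' hnot h hh => ?_⟩
  by_contra hpos
  push Not at hpos
  have hFJ := hI F' hF'
  obtain ⟨u, u1, u2⟩ := g2 (F' :: E) (fun r hr => List.mem_cons_of_mem _ hr)
    (fun u hu => hu.of_face hFJ (fun r hr => Or.inr hr) fun r hr => hr) h hh hpos
  apply hnot
  refine List.mem_filter.2 ⟨hF', ?_⟩
  rw [above_iff hE hJ _ _ (hJ F' (hI F' hF'))]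
  exact ⟨u, u1, u2⟩

/-- the top of a facet in `topF` is optimal -/
theorem topF_spec (hc : 0 < c.length) (hE : Len c.length E) (hJ : Len c.length J)
    (hτJ : negV (tau c) ∈ J) (hI : ∀ F ∈ I, F ∈ J) {v F w : List ℤ} (hF : F ∈ topF c E J I v)
    (w1 : w.length = c.length) (w2 : Ext (rf c.length) E J (lv c.length w))
    (w3 : 0 < rf c.length (tau c) (lv c.length w))
    (w4 : ∀ h, InC (rf c.length) (F :: E) J h → rf c.length (gain c w) h ≤ 0) :
    Top c E J w := by
  obtain ⟨hsl, hsm⟩ := tsearch_spec hE hJ hτJ (kpar c E J)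
  obtain ⟨hFI, hFf⟩ := List.mem_filter.1 hF
  rw [Bool.and_eq_true, above_iff hE hJ _ _ (hJ F (hI F hFI))] at hFf
  obtain ⟨x, hx, hxp⟩ := hFf.2
  obtain ⟨g1, g2⟩ := gap_spec hc hE hJ hτJ hsl rfl w1
    (hx.of_face (hI F hFI) fun r hr => Or.inr hr) hxp (w4 x hx) w2 w3
  rw [top_iff w1]
  rintro ⟨h, hh, hpos⟩
  obtain ⟨u, u1, u2⟩ := g2 E (fun r hr => hr) (fun u hu => hu) h hh hpos
  have := hsm _ g1 ((feas_iff hE hJ (length_thr _ _ _)).2 ⟨u, u1, u2⟩)
  omega

/-- a facet containing `v` and an optimal point is in `topF` -/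
theorem mem_topF (hE : Len c.length E) (hJ : Len c.length J)
    (hτJ : negV (tau c) ∈ J) (hI : ∀ F ∈ I, F ∈ J) {v F : List ℤ} (hFI : F ∈ I)
    (hFv : dot F v = 0) {x y : EuclideanSpace ℝ (Fin c.length)}
    (hx : InC (rf c.length) E J x)
    (hxb : 0 < rf c.length (thr c (kpar c E J) 0) x)
    (hy : InC (rf c.length) (F :: E) J y)
    (hy2 : 0 < rf c.length (tau c) y ∨ (rf c.length (tau c) y = 0 ∧ 0 < rf c.length c y))
    (htop : ∀ h, InC (rf c.length) E J h → rf c.length c h * rf c.length (tau c) y ≤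
      rf c.length c y * rf c.length (tau c) h) :
    F ∈ topF c E J I v := by
  classical
  have hanti : ∀ s s', s ≤ s' → feas c E J (thr c (kpar c E J) s') = true →
      feas c E J (thr c (kpar c E J) s) = true := by
    intro s s' hs h
    rw [feas_iff hE hJ (length_thr _ _ _)] at h ⊢
    obtain ⟨h, hh, hp⟩ := h
    refine ⟨h, hh, hp.trans_le ?_⟩
    rw [rf_thr, rf_thr]
    have h1 := tau_nonneg hτJ hh
    have h2 : (s : ℝ) ≤ s' := by exact_mod_cast hs
    nlinarith
  obtain ⟨b1, -, -, -⟩ := binary_search (A := fun s => feas c E J (thr c (kpar c E J) s)) hanti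
    (2 * kpar c E J + 1) 0 _ (tsearch_eq c E J (kpar c E J))
  have hf : feas c E J (thr c (kpar c E J) (tsearch c E J (kpar c E J))) = true := by
    rcases b1 with b1 | b1
    · exact b1
    · rw [b1, feas_iff hE hJ (length_thr _ _ _)]
      exact ⟨x, hx, hxb⟩
  rw [feas_iff hE hJ (length_thr _ _ _)] at hf
  obtain ⟨z, hz, hzp⟩ := hf
  refine List.mem_filter.2 ⟨hFI, ?_⟩
  rw [Bool.and_eq_true, above_iff hE hJ _ _ (hJ F (hI F hFI)), decide_eq_true_iff]
  refine ⟨hFv, y, hy, ?_⟩
  rw [rf_thr] at hzp ⊢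
  have h1 := htop z hz
  have h2 := tau_nonneg hτJ hz
  rcases hy2 with h3 | ⟨h3, h4⟩
  · -- compare at the same height
    rcases h2.lt_or_eq with h5 | h5
    · have h6 : 0 < (2 ^ kpar c E J * rf c.length c y -
        ((tsearch c E J (kpar c E J) : ℝ) - 2 ^ (2 * kpar c E J)) * rf c.length (tau c) y) *
          rf c.length (tau c) z := by
        have h7 : (0 : ℝ) < 2 ^ kpar c E J := by positivity
        have h8 := mul_le_mul_of_nonneg_left h1 h7.le
        have h9 := mul_pos hzp h3
        nlinarith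
      exact (mul_pos_iff_of_pos_right h5).1 h6
    · rw [← h5, mul_zero] at h1
      rw [← h5, mul_zero, sub_zero] at hzp
      have h7 : (0 : ℝ) < 2 ^ kpar c E J := by positivity
      have h8 : 0 < rf c.length c z := (mul_pos_iff_of_pos_left h7).1 hzp
      have := mul_pos h8 h3
      linarith
  · rw [h3, mul_zero, sub_zero]
    exact mul_pos (by positivity) h4

end Pool.Agent.Y644.QS
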