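import Pool.Agent.Y644.QS.Alg
set_option autoImplicit false

/-!
# Improving edges
-/

namespace Pool.Agent.Y644.QS

open scoped InnerProductSpace
open Pool.Agent.H687R2.LLL Pool.Agent.NPC

/-- `w` is an extreme ray joined to `v` by an improving edge -/
structure Step (c : List ℤ) (E J : List (List ℤ)) (v w : List ℤ) : Prop where
  len : w.length = c.length
  pos : 0 < rf c.length (tau c) (lv c.length v)
  ext : Ext (rf c.length) E J (lv c.length w)
  adj : Adj (rf c.length) E J (lv c.length v) (lv c.length w)
  up : Up (rf c.length (tau c)) (rf c.length c) (lv c.length v) (lv c.length w)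

/-- `w` is optimal -/
def Top (c : List ℤ) (E J : List (List ℤ)) (w : List ℤ) : Prop :=
  ∀ h, InC (rf c.length) E J h → rf c.length c h * rf c.length (tau c) (lv c.length w) ≤
    rf c.length c (lv c.length w) * rf c.length (tau c) h

theorem length_gain (c v : List ℤ) : (gain c v).length = c.length :=
  length_comb rfl (length_tau c) _ _

theorem rf_gain {c v : List ℤ} (hv : v.length = c.length) (h : EuclideanSpace ℝ (Fin c.length)) :
    rf c.length (gain c v) h = rf c.length (tau c) (lv c.length v) * rf c.length c h -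
      rf c.length c (lv c.length v) * rf c.length (tau c) h := by
  rw [gain, rf_comb rfl (length_tau c), rf_dot (length_tau c) hv, rf_dot rfl hv]

theorem gain_pos_iff {c v : List ℤ} (hv : v.length = c.length)
    (h : EuclideanSpace ℝ (Fin c.length)) : 0 < rf c.length (gain c v) h ↔
      Up (rf c.length (tau c)) (rf c.length c) (lv c.length v) h := by
  rw [rf_gain hv, Up]
  constructor <;> intro h <;> linarith

theorem top_iff {c v : List ℤ} (hv : v.length = c.length) {E J : List (List ℤ)} :
    Top c E J v ↔ ¬ ∃ h, InC (rf c.length) E J h ∧ 0 < rf c.length (gain c v) h := by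
  rw [Top]
  push Not
  refine forall_congr' fun h => imp_congr_right fun _ => ?_
  rw [rf_gain hv]
  constructor <;> intro h <;> linarith

section

variable {c : List ℤ} {E T : List (List ℤ)} {g : List ℤ}

theorem greedy_spec (hE : Len c.length E) (hT : Len c.length T) (L : List (List ℤ))
    (hL : ∀ r ∈ L, r ∈ T) (hf : feas c E T g = true) :
    ∀ G, G = L.foldr (fun r E' => if feas c (r :: E') T g = true then r :: E' else E') E →
    Len c.length G ∧ (∀ e ∈ E, e ∈ G) ∧ (∀ r ∈ G, r ∈ E ∨ r ∈ L) ∧ feas c G T g = true ∧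
      ∀ r ∈ L, r ∈ G ∨ ∃ E', Len c.length E' ∧ (∀ x ∈ E', x ∈ G) ∧
        ¬ feas c (r :: E') T g = true := by
  induction L with
  | nil =>
    rintro G rfl
    exact ⟨hE, fun e he => he, fun r hr => Or.inl hr, hf, by simp⟩
  | cons a L ih =>
    rintro G rfl
    obtain ⟨h1, h2, h3, h4, h5⟩ := ih (fun r hr => hL r (by simp [hr])) _ rfl
    rw [List.foldr_cons]
    set G' := L.foldr (fun r E' => if feas c (r :: E') T g = true then r :: E' else E') E
    split_ifs with hc
    · refine ⟨h1.cons (hT a (hL a (by simp))), fun e he => List.mem_cons_of_mem _ (h2 e he), ?_,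
        hc, ?_⟩
      · intro r hr
        rcases List.mem_cons.1 hr with rfl | hr
        · exact Or.inr (by simp)
        · rcases h3 r hr with h | h
          · exact Or.inl h
          · exact Or.inr (by simp [h])
      · intro r hr
        rcases List.mem_cons.1 hr with rfl | hr
        · exact Or.inl (by simp)
        · rcases h5 r hr with h | ⟨E', e1, e2, e3⟩
          · exact Or.inl (by simp [h])
          · exact Or.inr ⟨E', e1, fun x hx => List.mem_cons_of_mem _ (e2 x hx), e3⟩
    · refine ⟨h1, h2, ?_, h4, ?_⟩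
      · intro r hr
        rcases h3 r hr with h | h
        · exact Or.inl h
        · exact Or.inr (by simp [h])
      · intro r hr
        rcases List.mem_cons.1 hr with rfl | hr
        · exact Or.inr ⟨G', h1, fun x hx => hx, hc⟩
        · exact h5 r hr

variable {J : List (List ℤ)} {v w : List ℤ}

/-- an extreme ray above a vertex has `τ > 0` or `c > 0` -/
theorem pos_or {E J : List (List ℤ)} (hJ : negV (tau c) ∈ J)
    {x y : EuclideanSpace ℝ (Fin c.length)} (hx : InC (rf c.length) E J x)
    (hup : Up (rf c.length (tau c)) (rf c.length c) y x) (hy : 0 < rf c.length (tau c) y) :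
    0 ≤ rf c.length (tau c) x ∧ (0 < rf c.length (tau c) x ∨ 0 < rf c.length c x) := by
  have h0 := hx.2 _ hJ
  rw [rf_negV] at h0
  have h1 : 0 ≤ rf c.length (tau c) x := by linarith
  refine ⟨h1, ?_⟩
  rcases h1.lt_or_eq with h | h
  · exact Or.inl h
  · right
    unfold Up at hup
    rw [← h, mul_zero] at hup
    exact (mul_pos_iff_of_pos_right hy).1 hup

theorem improve_none (hE : Len c.length E) (hJ : Len c.length J) (hv : v.length = c.length)
    (h : improve c E J v = none) : Top c E J v := by
  unfold improve at h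
  split_ifs at h with hf
  rw [feas_iff hE (hJ.tight _) (length_gain c v)] at hf
  rw [top_iff hv]
  rintro ⟨x, hx, hp⟩
  exact hf ⟨x, ⟨hx.1, fun r hr => hx.2 r (List.mem_filter.1 hr).1⟩, hp⟩

theorem improve_ray (hE : Len c.length E) (hJ : Len c.length J) (hv : v.length = c.length)
    (hτJ : negV (tau c) ∈ J) (h0 : rf c.length (tau c) (lv c.length v) = 0)
    (hc : 0 < rf c.length c (lv c.length v)) : improve c E J v = none := by
  unfold improve
  rw [if_neg]
  rw [feas_iff hE (hJ.tight _) (length_gain c v)]
  rintro ⟨x, hx, hp⟩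
  rw [rf_gain hv, h0, zero_mul, zero_sub] at hp
  have h1 : negV (tau c) ∈ tight J v := by
    rw [mem_tight hJ hv]
    exact ⟨hτJ, by rw [rf_negV, h0, neg_zero]⟩
  have h2 := hx.2 _ h1
  rw [rf_negV] at h2
  nlinarith

theorem improve_some (hE : Len c.length E) (hJ : Len c.length J) (hv : v.length = c.length)
    (hτJ : negV (tau c) ∈ J) (hext : Ext (rf c.length) E J (lv c.length v))
    (hτ : 0 < rf c.length (tau c) (lv c.length v)) (h : improve c E J v = some w) :
    Step c E J v w := by
  unfold improve at h
  split_ifs at h with hf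
  rw [Option.some.injEq] at h
  set T := tight J v with hT
  set g := gain c v with hg
  have hgl : g.length = c.length := length_gain c v
  have hTl : Len c.length T := hJ.filter _
  obtain ⟨h1, h2, h3, h4, h5⟩ := greedy_spec hE hTl T (fun r hr => hr) hf _ rfl
  change Len c.length (greedy c E T g) at h1
  set G := greedy c E T g with hG
  obtain ⟨f1, f2, -⟩ := face_spec h1 hTl hgl
  have f3 := feas_pos h1 hTl hgl h4
  set x := face c G T g with hx
  have hxE : ∀ r ∈ E, rf c.length r (lv c.length x) = 0 := fun r hr => f2.1 r (h2 r hr)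
  have hxT : ∀ q ∈ J, rf c.length q (lv c.length v) = 0 → rf c.length q (lv c.length x) ≤ 0 :=
    fun q hq h0 => f2.2 q ((mem_tight hJ hv).2 ⟨hq, h0⟩)
  have hup : Up (rf c.length (tau c)) (rf c.length c) (lv c.length v) (lv c.length x) :=
    (gain_pos_iff hv _).1 f3
  have hadj : Adj (rf c.length) E J (lv c.length v) (lv c.length x) := by
    refine greedy_adj hext (g := rf c.length g) hxE hxT f3 fun r hr r1 r2 z z1 z2 z3 z4 => ?_
    have hrT : r ∈ T := (mem_tight hJ hv).2 ⟨hr, r1⟩
    rcases h5 r hrT with h | ⟨E', e1, e2, e3⟩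
    · have := f2.1 r h
      rw [this] at r2
      exact absurd r2 (lt_irrefl _)
    · rw [feas_iff (e1.cons (hTl r hrT)) hTl hgl] at e3
      push Not at e3
      refine e3 z ⟨fun e he => ?_, fun q hq => ?_⟩
      · rcases List.mem_cons.1 he with rfl | he
        · exact z4
        · rcases h3 e (e2 e he) with h | h
          · exact z1 e h
          · have := (mem_tight hJ hv).1 h
            exact z2 e this.1 this.2 (f2.1 e (e2 e he))
      · have := (mem_tight hJ hv).1 hq
        exact z3 q this.1 this.2
  have hex : ∃ r ∈ J, rf c.length r (lv c.length v) < 0 :=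
    ⟨_, hτJ, by rw [rf_negV]; linarith⟩
  obtain ⟨o1, r, hr, hrv, o2, o3⟩ := other_spec hJ hv f1 hext.mem hxT hex
  obtain ⟨b1, b2⟩ := blocked_ext hext.mem.1 hxE hup.not_smul hadj hr hrv o3
  have b3 := blocked_up (b := rf c.length r (lv c.length x)) (neg_pos.2 hrv) hup
  rw [← o2] at b1 b2 b3
  obtain ⟨n1, s, hs, n2⟩ := normV_spec hE hJ o1 b1 (pos_or hτJ b1.mem b3 hτ).2
  rw [h] at n1 n2
  exact ⟨n1, hτ, by rw [n2]; exact b1.smul hs, by rw [n2]; exact b2.smul_right hs.ne',
    by rw [n2]; exact b3.smul_right hs⟩

end

end Pool.Agent.Y644.QS
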