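import Pool.Agent.Y644.QS.Path
set_option autoImplicit false

/-!
# The recursive algorithm as an explicit stack machine

A call `(E, I, P)` extends the improving path `P` (in reverse order) to the optimum of the
polyhedron `E = 0`, `I ≤ 0`. The facets are ordered by their tops. If the current vertex is on no
upper facet, we follow a path in the relaxation without the upper facets, until it reaches an upper
facet `F`; then we go to the top of `F`, take an improving edge, and drop all facets below.
-/

namespace Pool.Agent.Y644.QS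

open scoped InnerProductSpace
open Pool.Agent.H687R2.LLL Pool.Agent.NPC

/-- stack frames: waiting for a path in a relaxation (with the data `E, I, P`), or for a path in
a facet (with the data `E, I, B`) -/
abbrev Frame : Type := (List (List ℤ) × List (List ℤ) × List (List ℤ)) ⊕
  (List (List ℤ) × List (List ℤ) × List (List ℤ))

/-- states: a call or a returned path, with the stack -/
abbrev State : Type := ((List (List ℤ) × List (List ℤ) × List (List ℤ)) ⊕ List (List ℤ)) ×
  List Frame

/-- the head of a path -/
def hdp (p : List (List ℤ)) : List ℤ := p.head?.getD []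

/-- an upper facet containing `v`, if possible with the same top as the polyhedron -/
def pickF (c : List ℤ) (E I : List (List ℤ)) (v : List ℤ) : Option (List ℤ) :=
  (topF c E (jl c I) I v ++
    (upper c E (jl c I) I).filter fun r => decide (dot r v = 0)).head?

/-- the call in the facet `F` -/
def callF (c : List ℤ) (E I P : List (List ℤ)) (st : List Frame) (F : List ℤ) : State :=
  (Sum.inl (F :: E, I.filter (fun r => !decide (r = F)), P),
    Sum.inr (E, I, upper' c E (jl c I) I) :: st)

/-- the rows below the upper facets -/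
def lower (c : List ℤ) (E I : List (List ℤ)) : List (List ℤ) :=
  I.filter fun r => !decide (r ∈ upper c E (jl c I) I)

/-- a call -/
def stepCall (c : List ℤ) (E I P : List (List ℤ)) (st : List Frame) : State :=
  if ((tight I (hdp P)).isEmpty || !decide (0 < dot (tau c) (hdp P))) = true then (Sum.inr P, st)
  else (pickF c E I (hdp P)).elim (Sum.inl (E, lower c E I, [hdp P]), Sum.inl (E, I, P) :: st)
    fun F => callF c E I P st F

/-- a path in a relaxation has been computed and truncated to `q` -/
def stepLoopQ (c : List ℤ) (E I P : List (List ℤ)) (st : List Frame)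
    (q : List (List ℤ) × Bool) : State :=
  if q.2 = true then (pickF c E I (hdp q.1)).elim (Sum.inr P, st)
    fun F => callF c E I (q.1 ++ P.tail) st F
  else (Sum.inr (q.1 ++ P.tail), st)

/-- a path in a facet has been computed -/
def stepTop (c : List ℤ) (E I B : List (List ℤ)) (st : List Frame) (p : List (List ℤ)) : State :=
  (improve c E (jl c I) (hdp p)).elim (Sum.inr p, st) fun u => (Sum.inl (E, B, u :: p), st)

/-- one step of the machine -/
def step (c : List ℤ) : State → State
  | (Sum.inl (E, I, P), st) => stepCall c E I P st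
  | (Sum.inr p, []) => (Sum.inr p, [])
  | (Sum.inr p, Sum.inl (E, I, P) :: st) => stepLoopQ c E I P st (trunc c E I (lower c E I) p)
  | (Sum.inr p, Sum.inr (E, I, B) :: st) => stepTop c E I B st p

/-! ### The bound for the number of steps -/

/-- the weight of the number of inequalities -/
def wt (k : ℕ) : ℕ := if k = 0 then 1 else 8 * k - 1

/-- the bound for the number of steps, for dimension `D` and `k` inequalities -/
def bnd (D k : ℕ) : ℕ := wt k * Nat.choose (D + Nat.size k) D

theorem wt_mono {k l : ℕ} (h : k ≤ l) : wt k ≤ wt l := by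
  unfold wt
  split_ifs <;> omega

theorem wt_pos (k : ℕ) : 1 ≤ wt k := by
  unfold wt
  split_ifs <;> omega

theorem choose_pos (D a : ℕ) : 1 ≤ Nat.choose (D + a) D := Nat.choose_pos (by omega)

theorem bnd_mono {D k l : ℕ} (h : k ≤ l) : bnd D k ≤ bnd D l :=
  Nat.mul_le_mul (wt_mono h) (Nat.choose_le_choose D (by have := Nat.size_le_size h; omega))

theorem bnd_pos (D k : ℕ) : 1 ≤ bnd D k := Nat.mul_pos (wt_pos k) (choose_pos D _)

theorem size_half {k : ℕ} (hk : 0 < k) : Nat.size k = Nat.size (k / 2) + 1 := by
  have h1 : k = Nat.bit (decide (k % 2 = 1)) (k / 2) := by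
    rw [Nat.bit_val]
    rcases Nat.mod_two_eq_zero_or_one k with h | h <;> simp [h] <;> omega
  conv_lhs => rw [h1]
  rw [Nat.size_bit]
  rw [← h1]; omega

theorem bnd_pred {D k : ℕ} (hk : 0 < k) : bnd D (k - 1) + 3 ≤ bnd D k := by
  have h1 : wt (k - 1) + 3 ≤ wt k := by
    unfold wt
    split_ifs <;> omega
  have h2 : Nat.choose (D + Nat.size (k - 1)) D ≤ Nat.choose (D + Nat.size k) D :=
    Nat.choose_le_choose D (by have := Nat.size_le_size (Nat.sub_le k 1); omega)
  have h3 := choose_pos D (Nat.size k)
  unfold bnd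
  calc wt (k - 1) * Nat.choose (D + Nat.size (k - 1)) D + 3
      ≤ wt (k - 1) * Nat.choose (D + Nat.size k) D + 3 * Nat.choose (D + Nat.size k) D :=
        Nat.add_le_add (Nat.mul_le_mul_left _ h2) (by omega)
    _ = (wt (k - 1) + 3) * Nat.choose (D + Nat.size k) D := by ring
    _ ≤ _ := Nat.mul_le_mul_right _ h1

theorem bnd_half {D k : ℕ} (hk : 0 < k) : bnd D (k / 2) + 3 ≤ bnd D k :=
  le_trans (Nat.add_le_add_right (bnd_mono (by omega)) 3) (bnd_pred hk)

theorem bnd_rec {D k : ℕ} (hD : 0 < D) (hk : 0 < k) :
    bnd D (k / 2) + bnd (D - 1) (k - 1) + bnd D (k / 2) + 4 ≤ bnd D k := by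
  obtain ⟨d, rfl⟩ : ∃ d, D = d + 1 := ⟨D - 1, by omega⟩
  set a := Nat.size (k / 2) with ha
  have hs : Nat.size k = a + 1 := size_half hk
  set C1 := Nat.choose (d + 1 + a) (d + 1) with hC1
  set C2 := Nat.choose (d + 1 + a) d with hC2
  have e1 : Nat.choose (d + 1 + Nat.size k) (d + 1) = C1 + C2 := by
    rw [hs, ← add_assoc, Nat.choose_succ_succ, add_comm]
  have e2 : Nat.choose (d + Nat.size (k - 1)) d ≤ C2 := by
    have := Nat.size_le_size (Nat.sub_le k 1)
    exact Nat.choose_le_choose d (by omega)
  have h1 : 1 ≤ C1 := choose_pos (d + 1) a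
  have h2 : 1 ≤ C2 := Nat.choose_pos (by omega)
  have e3 : bnd (d + 1) (k / 2) = wt (k / 2) * C1 := rfl
  have e4 : bnd (d + 1 - 1) (k - 1) ≤ wt (k - 1) * C2 := Nat.mul_le_mul_left _ e2
  have e5 : bnd (d + 1) k = wt k * (C1 + C2) := by unfold bnd; rw [e1]
  rw [e3, e5]
  have e6 : 2 * wt (k / 2) + (if k = 1 then 0 else 1) ≤ wt k := by
    unfold wt
    split_ifs <;> omega
  have e7 : wt (k - 1) + 6 ≤ wt k := by
    unfold wt
    split_ifs <;> omega
  have e8 : wt (k / 2) * C1 + wt (k / 2) * C1 ≤ wt k * C1 := by
    have h3 : 2 * wt (k / 2) ≤ wt k := by omega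
    have := Nat.mul_le_mul_right C1 h3
    nlinarith
  have e9 : wt (k - 1) * C2 + 6 ≤ wt k * C2 := by
    calc wt (k - 1) * C2 + 6 ≤ wt (k - 1) * C2 + 6 * C2 := by omega
      _ = (wt (k - 1) + 6) * C2 := by ring
      _ ≤ _ := Nat.mul_le_mul_right _ e7
  rw [mul_add]
  omega

/-! ### Runs -/

variable {c : List ℤ}

theorem iter_add {s s' s'' : State} {i j : ℕ} (h1 : (step c)^[i] s = s')
    (h2 : (step c)^[j] s' = s'') : (step c)^[i + j] s = s'' := by
  rw [add_comm, Function.iterate_add_apply, h1, h2]

/-- the result of a call -/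
def Result (c : List ℤ) (E I : List (List ℤ)) (v : List ℤ) (P0 : List (List ℤ))
    (st : List Frame) (B L : ℕ) (s : State) : Prop :=
  ∃ (Q : List (List ℤ)) (j : ℕ), j ≤ B ∧ (step c)^[j] s = (Sum.inr (Q ++ v :: P0), st) ∧
    Good c E (jl c I) (Q ++ [v]) ∧ Top c E (jl c I) (hdp (Q ++ [v])) ∧ Q.length ≤ L

theorem Result.trans {E I : List (List ℤ)} {v : List ℤ} {P0 : List (List ℤ)} {st : List Frame}
    {B B' L : ℕ} {s s' : State} {i : ℕ} (h : Result c E I v P0 st B L s')
    (hi : (step c)^[i] s = s') (hB : i + B ≤ B') : Result c E I v P0 st B' L s := by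
  obtain ⟨Q, j, h1, h2, h3, h4, h5⟩ := h
  exact ⟨Q, i + j, by omega, iter_add hi h2, h3, h4, h5⟩

theorem Result.mono {E I : List (List ℤ)} {v : List ℤ} {P0 : List (List ℤ)} {st : List Frame}
    {B B' L L' : ℕ} {s : State} (h : Result c E I v P0 st B L s)
    (hB : B ≤ B') (hL : L ≤ L') : Result c E I v P0 st B' L' s := by
  obtain ⟨Q, j, h1, h2, h3, h4, h5⟩ := h
  exact ⟨Q, j, by omega, h2, h3, h4, by omega⟩

/-- the space of solutions of the equations -/
noncomputable def kerE (c : List ℤ) (E : List (List ℤ)) :
    Submodule ℝ (EuclideanSpace ℝ (Fin c.length)) where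
  carrier := {h | ∀ r ∈ E, rf c.length r h = 0}
  add_mem' := fun ha hb r hr => by rw [map_add, ha r hr, hb r hr, add_zero]
  zero_mem' := fun r _ => map_zero _
  smul_mem' := fun s a ha r hr => by rw [map_smul, ha r hr, smul_zero]

theorem mem_kerE {E : List (List ℤ)} {h : EuclideanSpace ℝ (Fin c.length)} :
    h ∈ kerE c E ↔ ∀ r ∈ E, rf c.length r h = 0 := Iff.rfl

/-- the dimension is at most `D` -/
def DimLe (c : List ℤ) (E : List (List ℤ)) (D : ℕ) : Prop :=
  Module.finrank ℝ (kerE c E) ≤ D + 1

theorem DimLe.cons {E : List (List ℤ)} {D : ℕ} (h : DimLe c E D) (F : List ℤ) :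
    DimLe c (F :: E) D := by
  refine le_trans (Submodule.finrank_mono fun x hx => ?_) h
  exact fun r hr => hx r (List.mem_cons_of_mem _ hr)

/-- a proper facet has smaller dimension -/
theorem DimLe.facet {E : List (List ℤ)} {D : ℕ} (h : DimLe c E D) {F : List ℤ}
    {x y : EuclideanSpace ℝ (Fin c.length)} (hx : x ∈ kerE c E) (hx0 : x ≠ 0)
    (hFx : rf c.length F x = 0) (hy : y ∈ kerE c E) (hFy : rf c.length F y ≠ 0) :
    0 < D ∧ DimLe c (F :: E) (D - 1) := by
  have hlt : kerE c (F :: E) < kerE c E := by
    refine lt_of_le_of_ne (fun z hz r hr => hz r (List.mem_cons_of_mem _ hr)) fun he => ?_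
    rw [← he] at hy
    exact hFy (hy F (by simp))
  have h1 := Submodule.finrank_lt_finrank_of_lt hlt
  have h2 : 0 < Module.finrank ℝ (kerE c (F :: E)) := by
    rw [Module.finrank_pos_iff_exists_ne_zero]
    refine ⟨⟨x, fun r hr => ?_⟩, fun h0 => hx0 (congrArg Subtype.val h0)⟩
    rcases List.mem_cons.1 hr with rfl | hr
    · exact hFx
    · exact hx r hr
  unfold DimLe at *
  omega

/-- the statement proved by induction -/
def CallOK (c : List ℤ) (D k : ℕ) : Prop :=
  ∀ (E I : List (List ℤ)) (v : List ℤ) (P0 : List (List ℤ)) (st : List Frame), I.length ≤ k →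
    DimLe c E D → Len c.length E → Len c.length I → Vx c E (jl c I) v →
    Result c E I v P0 st (bnd D k) (bnd D k) (Sum.inl (E, I, v :: P0), st)

theorem top_ray {E J : List (List ℤ)} {w : List ℤ} (hJ : negV (tau c) ∈ J)
    (h0 : rf c.length (tau c) (lv c.length w) = 0) (hc : 0 < rf c.length c (lv c.length w)) :
    Top c E J w := by
  intro h hh
  have h1 := hh.2 _ hJ
  rw [rf_negV] at h1
  rw [h0, mul_zero]
  exact mul_nonneg hc.le (by linarith)

theorem Top.of_relax {E S J : List (List ℤ)} {w : List ℤ} (hS : ∀ r ∈ S, r ∈ J)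
    (h : Top c E S w) : Top c E J w := fun x hx => h x (hx.to_relax hS)

theorem step_call_ray {E I : List (List ℤ)} {u : List ℤ} {P : List (List ℤ)} {st : List Frame}
    (hu : u.length = c.length) (h : ¬ 0 < rf c.length (tau c) (lv c.length u)) :
    step c (Sum.inl (E, I, u :: P), st) = (Sum.inr (u :: P), st) := by
  have : ¬ 0 < dot (tau c) (hdp (u :: P)) := fun h0 => h (by
    rw [rf_dot (length_tau c) hu]
    exact_mod_cast h0)
  change stepCall c E I (u :: P) st = _
  rw [stepCall, if_pos]
  simp [this]

/-- the rows of a facet -/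
theorem facet_rows {I : List (List ℤ)} {F : List ℤ} :
    (∀ r ∈ jl c I, r = F ∨ r ∈ jl c (I.filter fun r => !decide (r = F))) ∧
      ∀ r ∈ jl c (I.filter fun r => !decide (r = F)), r ∈ jl c I := by
  constructor
  · intro r hr
    rcases mem_jl.1 hr with h | h
    · exact Or.inr (mem_jl.2 (Or.inl h))
    · by_cases hF : r = F
      · exact Or.inl hF
      · exact Or.inr (mem_jl.2 (Or.inr (by simp [h, hF])))
  · exact jl_mono fun r hr => (List.mem_filter.1 hr).1

theorem length_filter_lt {I : List (List ℤ)} {F : List ℤ} (hF : F ∈ I) :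
    (I.filter fun r => !decide (r = F)).length < I.length := by
  refine lt_of_le_of_ne (List.length_filter_le _ _) fun h => ?_
  rw [List.length_filter_eq_length_iff] at h
  have := h F hF
  simp at this

theorem good_cons {E J : List (List ℤ)} {P : List (List ℤ)} (h : Good c E J P) :
    ∃ v P', P = v :: P' := by
  cases P with
  | nil => exact h.elim
  | cons v P' => exact ⟨v, P', rfl⟩

theorem improve_top {E J : List (List ℤ)} {v : List ℤ} (hE : Len c.length E)
    (hJ : Len c.length J) (hv : v.length = c.length) (hτJ : negV (tau c) ∈ J)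
    (hext : Ext (rf c.length) E J (lv c.length v))
    (hτ : 0 < rf c.length (tau c) (lv c.length v)) (h : Top c E J v) :
    improve c E J v = none := by
  cases himp : improve c E J v with
  | none => rfl
  | some u =>
    have hst := improve_some hE hJ hv hτJ hext hτ himp
    have h1 := h _ hst.ext.mem
    have h2 := hst.up
    unfold Up at h2
    linarith

/-- everything after the choice of the facet -/
theorem facet_phase {D D' k : ℕ} (hc : 0 < c.length) (ih1 : CallOK c D' (k - 1))
    (ih2 : CallOK c D (k / 2))
    {E I : List (List ℤ)} {v : List ℤ} {P0 : List (List ℤ)} {st : List Frame}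
    (hIk : I.length = k) (hE : Len c.length E) (hI : Len c.length I) (hD : DimLe c E D)
    {F x : List ℤ} {Qp P : List (List ℤ)} (hD' : DimLe c (F :: E) D')
    (hPe : x :: P = Qp ++ [v]) (hP : Good c E (jl c I) (x :: P))
    (hxτ : 0 < rf c.length (tau c) (lv c.length x)) (hFx : rf c.length F (lv c.length x) = 0)
    (hF : F ∈ upper c E (jl c I) I) :
    Result c E I v P0 st (bnd D' (k - 1) + 1 + bnd D (k / 2))
      (Qp.length + bnd D' (k - 1) + 1 + bnd D (k / 2))
      (callF c E I (x :: (P ++ P0)) st F) := by
  set J := jl c I with hJdef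
  have hJ : Len c.length J := hI.jl
  have hτJ : negV (tau c) ∈ J := tau_mem_jl c I
  have hIJ : ∀ r ∈ I, r ∈ J := fun r hr => mem_jl.2 (Or.inr hr)
  have hFI : F ∈ I := (List.mem_filter.1 hF).1
  have hFJ := hIJ F hFI
  have hk : 0 < k := by
    rw [← hIk]; exact List.length_pos_of_mem hFI
  -- the recursive call in the facet
  obtain ⟨f1, f2⟩ := facet_rows (c := c) (I := I) (F := F)
  have hx := hP.head
  have hx' : Vx c (F :: E) (jl c (I.filter fun r => !decide (r = F))) x :=
    ⟨hx.1, hx.2.to_face f1 f2 hFx, hxτ⟩
  obtain ⟨Q1, j1, hj1, q2, q3, q4, q5⟩ := ih1 (F :: E) (I.filter fun r => !decide (r = F)) x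
    (P ++ P0) (Sum.inr (E, I, upper' c E J I) :: st)
    (by have := length_filter_lt hFI; omega) hD' (hE.cons (hI F hFI)) (hI.filter _) hx'
  unfold callF
  -- the whole path
  have hg1 : Good c E J (Q1 ++ x :: P) := Good.append hP (q3.of_face hFJ f1 f2)
  have e1 : Q1 ++ x :: (P ++ P0) = (Q1 ++ Qp) ++ v :: P0 := by
    have : x :: (P ++ P0) = (x :: P) ++ P0 := rfl
    rw [this, hPe]
    simp
  have hg2 : Good c E J ((Q1 ++ Qp) ++ [v]) := by
    rw [List.append_assoc, ← hPe]
    exact hg1
  have hlen : (Q1 ++ Qp).length ≤ Qp.length + bnd D' (k - 1) := by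
    rw [List.length_append]; omega
  set Q := Q1 ++ Qp with hQ
  obtain ⟨w, Pw, hw⟩ := good_cons hg2
  have hwh := hg2
  rw [hw] at hwh
  have hwl := hwh.head.1
  have hwE := hwh.head.2
  have hw' : hdp (Q1 ++ [x]) = w := by
    have h1 : hdp (Q ++ [v]) = w := by rw [hw]; rfl
    rw [← h1, hQ, List.append_assoc, ← hPe]
    cases Q1 <;> rfl
  have hwp : hdp (Q ++ v :: P0) = w := by
    have h1 : Q ++ v :: P0 = (Q ++ [v]) ++ P0 := by simp
    rw [h1, hw]
    rfl
  rw [hw'] at q4
  have hstep : step c (Sum.inr (Q1 ++ x :: (P ++ P0)), Sum.inr (E, I, upper' c E J I) :: st) =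
      stepTop c E I (upper' c E J I) st (Q ++ v :: P0) := by rw [e1]; rfl
  -- when `w` is optimal
  have hdone : improve c E J w = none → Top c E J w →
      Result c E I v P0 st (bnd D' (k - 1) + 1 + bnd D (k / 2))
      (Qp.length + bnd D' (k - 1) + 1 + bnd D (k / 2))
      (Sum.inl (F :: E, I.filter (fun r => !decide (r = F)), x :: (P ++ P0)),
        Sum.inr (E, I, upper' c E J I) :: st) := by
    intro h1 h2
    refine ⟨Q, j1 + 1, by omega, iter_add q2 ?_, hg2, by rw [hw]; exact h2, by omega⟩
    rw [Function.iterate_one, hstep, stepTop, hwp, h1]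
    rfl
  rcases hwh.head_or hτJ with hwτ | ⟨hwτ, hwc⟩
  swap
  · exact hdone (improve_ray hE hJ hwl hτJ hwτ hwc) (top_ray hτJ hwτ hwc)
  cases himp : improve c E J w with
  | none => exact hdone himp (improve_none hE hJ hwl himp)
  | some u =>
    have hst := improve_some hE hJ hwl hτJ hwE hwτ himp
    set B := upper' c E J I with hB
    have hstep2 : step c (Sum.inr (Q1 ++ x :: (P ++ P0)), Sum.inr (E, I, B) :: st) =
        (Sum.inl (E, B, u :: (Q ++ v :: P0)), st) := by
      rw [hstep, stepTop, hwp, himp]
      rfl
    have hg3 : Good c E J ((u :: Q) ++ [v]) := by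
      rw [List.cons_append, hw]
      exact ⟨hst, hwh⟩
    have hbp := bnd_pos D (k / 2)
    by_cases huτ : 0 < rf c.length (tau c) (lv c.length u)
    swap
    · -- an unbounded edge
      have hu1 := (pos_or hτJ hst.ext.mem hst.up hst.pos)
      have hu0 : rf c.length (tau c) (lv c.length u) = 0 := le_antisymm (not_lt.1 huτ) hu1.1
      have huc : 0 < rf c.length c (lv c.length u) := hu1.2.resolve_left huτ
      refine ⟨u :: Q, (j1 + 1) + 1, by omega, iter_add (iter_add q2 (by
        rw [Function.iterate_one, hstep2])) ?_, hg3, top_ray hτJ hu0 huc, ?_⟩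
      · rw [Function.iterate_one, step_call_ray hst.len huτ]; rfl
      · simp only [List.length_cons]; omega
    · -- the other facets are below `u`
      obtain ⟨hs1, hbest⟩ := upper_spec hc hE hJ hτJ hIJ hF hwl hwE hwτ (fun h hh => by
        have := q4 h (hh.to_relax f2)
        rw [rf_gain hwl]
        linarith)
      have hbelow : ∀ F' ∈ I.filter (fun r => !decide (r ∈ B)), ∀ z,
          InC (rf c.length) E J z → rf c.length F' z = 0 → rf c.length (gain c w) z ≤ 0 := by
        intro F' hF' z hz hz0
        rw [List.mem_filter] at hF'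
        exact hbest F' hF'.1 (by simpa using hF'.2) z (hz.to_face (fun r hr => hr) hz0)
      have hrowsJ : ∀ r ∈ J, r ∈ I.filter (fun r => !decide (r ∈ B)) ∨ r ∈ jl c B := by
        intro r hr
        rcases mem_jl.1 hr with h | h
        · exact Or.inr (mem_jl.2 (Or.inl h))
        · by_cases hrS : r ∈ B
          · exact Or.inr (mem_jl.2 (Or.inr hrS))
          · exact Or.inl (List.mem_filter.2 ⟨h, by simpa using hrS⟩)
      have hBJ : ∀ r ∈ jl c B, r ∈ J := jl_mono fun r hr => (List.mem_filter.1 hr).1
      have huV : Vx c E (jl c B) u := by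
        refine ⟨hst.len, hst.ext.to_relax hBJ fun r hr h0 => ?_, huτ⟩
        rcases hrowsJ r hr with h | h
        · have h1 := hbelow r h _ hst.ext.mem h0
          have h2 := (gain_pos_iff hwl _).2 hst.up
          linarith
        · exact h
      have hBk : B.length ≤ k / 2 := by
        have h1 : 2 * B.length < I.length := (half_spec hE hJ hτJ hIJ).2.1 hs1
        rw [hIk] at h1
        omega
      obtain ⟨Q2, j2, hj2, r2, r3, r4, r5⟩ := ih2 E B u (Q ++ v :: P0) st hBk hD hE
        (hI.filter _) huV
      have hmem := rest_path (tau_mem_jl c B) hrowsJ hwl hwτ hbelow hst.ext.mem hst.up r3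
      have hg4 : Good c E J (Q2 ++ [u]) := r3.of_relax hBJ fun y hy => (hmem y hy).1
      refine ⟨Q2 ++ u :: Q, (j1 + 1) + j2, by omega, ?_, ?_, ?_, ?_⟩
      · have e3 : (Q2 ++ u :: Q) ++ v :: P0 = Q2 ++ u :: (Q ++ v :: P0) := by simp
        rw [e3]
        exact iter_add (iter_add q2 (by rw [Function.iterate_one, hstep2])) r2
      · have e4 : (Q2 ++ u :: Q) ++ [v] = Q2 ++ u :: (Q ++ [v]) := by simp
        rw [e4]
        exact Good.append hg3 hg4
      · have e5 : hdp ((Q2 ++ u :: Q) ++ [v]) = hdp (Q2 ++ [u]) := by cases Q2 <;> rfl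
        rw [e5]
        exact r4.of_relax hBJ
      · simp only [List.length_append, List.length_cons] at hlen ⊢
        omega

/-- a facet containing the whole polyhedron -/
theorem facet_phase_deg {D k : ℕ} (ih1 : CallOK c D (k - 1))
    {E I : List (List ℤ)} {v : List ℤ} {P0 : List (List ℤ)} {st : List Frame}
    (hIk : I.length = k) (hE : Len c.length E) (hI : Len c.length I) (hD : DimLe c E D)
    {F : List ℤ} (hv : Vx c E (jl c I) v) (hF : F ∈ I)
    (hFE : ∀ x, (∀ r ∈ E, rf c.length r x = 0) → rf c.length F x = 0) :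
    Result c E I v P0 st (bnd D (k - 1) + 1) (bnd D (k - 1)) (callF c E I (v :: P0) st F) := by
  set J := jl c I with hJdef
  have hJ : Len c.length J := hI.jl
  have hτJ : negV (tau c) ∈ J := tau_mem_jl c I
  have hFJ : F ∈ J := mem_jl.2 (Or.inr hF)
  obtain ⟨f1, f2⟩ := facet_rows (c := c) (I := I) (F := F)
  have hv' : Vx c (F :: E) (jl c (I.filter fun r => !decide (r = F))) v :=
    ⟨hv.len, hv.ext.to_face f1 f2 (hFE _ hv.ext.mem.1), hv.pos⟩
  obtain ⟨Q, j1, hj1, q2, q3, q4, q5⟩ := ih1 (F :: E) (I.filter fun r => !decide (r = F)) v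
    P0 (Sum.inr (E, I, upper' c E J I) :: st)
    (by have := length_filter_lt hF; omega) (hD.cons F) (hE.cons (hI F hF)) (hI.filter _) hv'
  unfold callF
  have hg : Good c E J (Q ++ [v]) := q3.of_face hFJ f1 f2
  obtain ⟨w, Pw, hw⟩ := good_cons hg
  have hwh := hg
  rw [hw] at hwh q4
  have hwl := hwh.head.1
  have hwE := hwh.head.2
  have hwp : hdp (Q ++ v :: P0) = w := by
    have h1 : Q ++ v :: P0 = (Q ++ [v]) ++ P0 := by simp
    rw [h1, hw]
    rfl
  have htop : Top c E J w := by
    intro h hh
    refine q4 h ⟨fun r hr => ?_, fun r hr => hh.2 r (f2 r hr)⟩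
    rcases List.mem_cons.1 hr with rfl | hr
    · exact hFE _ hh.1
    · exact hh.1 r hr
  have himp : improve c E J w = none := by
    rcases hwh.head_or hτJ with hwτ | ⟨hwτ, hwc⟩
    · exact improve_top hE hJ hwl hτJ hwE hwτ htop
    · exact improve_ray hE hJ hwl hτJ hwτ hwc
  have hstep : step c (Sum.inr (Q ++ v :: P0), Sum.inr (E, I, upper' c E J I) :: st) =
      stepTop c E I (upper' c E J I) st (Q ++ v :: P0) := rfl
  refine ⟨Q, j1 + 1, by omega, iter_add q2 ?_, hg, by rw [hw]; exact htop, by omega⟩
  rw [Function.iterate_one, hstep, stepTop, hwp, himp]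
  rfl

theorem topF_upper {E I : List (List ℤ)} (hE : Len c.length E) (hI : Len c.length I)
    {v F : List ℤ} (h : F ∈ topF c E (jl c I) I v) : F ∈ upper c E (jl c I) I := by
  have hJ : Len c.length (jl c I) := hI.jl
  have hτJ : negV (tau c) ∈ jl c I := tau_mem_jl c I
  have hIJ : ∀ r ∈ I, r ∈ jl c I := fun r hr => mem_jl.2 (Or.inr hr)
  obtain ⟨hFI, hF⟩ := List.mem_filter.1 h
  rw [Bool.and_eq_true] at hF
  refine List.mem_filter.2 ⟨hFI, above_anti hE hJ hτJ _ ?_ (hI F hFI) hF.2⟩
  exact hsearch_le_tsearch hE hJ hτJ hIJ (List.ne_nil_of_mem hFI)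

theorem pickF_some {E I : List (List ℤ)} (hE : Len c.length E) (hI : Len c.length I)
    {v F : List ℤ} (h : pickF c E I v = some F) :
    F ∈ upper c E (jl c I) I ∧ dot F v = 0 := by
  have h1 := List.mem_of_head? (show (topF c E (jl c I) I v ++
    (upper c E (jl c I) I).filter fun r => decide (dot r v = 0)).head? = some F from h)
  rcases List.mem_append.1 h1 with h1 | h1
  · refine ⟨topF_upper hE hI h1, ?_⟩
    have h2 := (List.mem_filter.1 h1).2
    rw [Bool.and_eq_true, decide_eq_true_iff] at h2
    exact h2.1
  · simpa using List.mem_filter.1 h1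

theorem pickF_none {E I : List (List ℤ)} {v : List ℤ} (h : pickF c E I v = none) :
    ∀ F ∈ upper c E (jl c I) I, dot F v ≠ 0 := by
  intro F hF h0
  unfold pickF at h
  rw [List.head?_eq_none_iff, List.append_eq_nil_iff, List.filter_eq_nil_iff] at h
  exact h.2 F hF (by simpa using h0)

theorem pickF_top {E I : List (List ℤ)} {v F : List ℤ} (h : F ∈ topF c E (jl c I) I v) :
    ∃ F' ∈ topF c E (jl c I) I v, pickF c E I v = some F' := by
  unfold pickF
  cases ht : topF c E (jl c I) I v with
  | nil => rw [ht] at h; simp at h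
  | cons a l => exact ⟨a, by simp, by simp⟩

theorem top_of_tight {E I : List (List ℤ)} {v : List ℤ} (hI : Len c.length I)
    (hv : Vx c E (jl c I) v) (h0 : tight I v = []) : Top c E (jl c I) v := by
  intro h hh
  obtain ⟨s, hs⟩ := hv.ext.ker h hh.1 fun r hr hr0 => by
    rw [mem_jl] at hr
    rcases hr with rfl | hr
    · rw [rf_negV] at hr0
      have := hv.pos
      linarith
    · have := (mem_tight hI hv.len).2 ⟨hr, hr0⟩
      rw [h0] at this
      simp at this
  rw [hs, map_smul, map_smul, smul_eq_mul, smul_eq_mul]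
  exact le_of_eq (by ring)

theorem mem_lower {E I : List (List ℤ)} {r : List ℤ} :
    r ∈ lower c E I ↔ r ∈ I ∧ r ∉ upper c E (jl c I) I := by
  simp [lower]

theorem length_lower {E I : List (List ℤ)} :
    (lower c E I).length + (upper c E (jl c I) I).length = I.length := by
  unfold lower
  have h1 : I.filter (fun r => !decide (r ∈ upper c E (jl c I) I)) =
      I.filter fun r => !(above c E (jl c I) (kpar c E (jl c I))
        (hsearch c E (jl c I) I (kpar c E (jl c I))) r) := by
    refine List.filter_congr fun r hr => ?_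
    congr 1
    rw [Bool.eq_iff_iff, decide_eq_true_iff]
    unfold upper aset
    rw [List.mem_filter]
    simp [hr]
  rw [h1]
  have h2 : upper c E (jl c I) I = I.filter fun r => above c E (jl c I) (kpar c E (jl c I))
        (hsearch c E (jl c I) I (kpar c E (jl c I))) r := rfl
  rw [h2, List.length_eq_length_filter_add (fun r => above c E (jl c I) (kpar c E (jl c I))
        (hsearch c E (jl c I) I (kpar c E (jl c I))) r) (l := I)]
  omega

/-- the machine finds an improving path to the optimum -/
theorem run_call (hc : 0 < c.length) (k : ℕ) : ∀ D, CallOK c D k := by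
  induction k using Nat.strong_induction_on with
  | _ k ih =>
    intro D E I v P0 st hIk hD hE hI hv
    have hJ : Len c.length (jl c I) := hI.jl
    have hτJ : negV (tau c) ∈ jl c I := tau_mem_jl c I
    have hIJ : ∀ r ∈ I, r ∈ jl c I := fun r hr => mem_jl.2 (Or.inr hr)
    have hdot : ∀ r ∈ I, ∀ {x : List ℤ}, x.length = c.length →
        (dot r x = 0 ↔ rf c.length r (lv c.length x) = 0) := fun r hr x hx => by
      rw [rf_dot (hI r hr) hx]; exact Int.cast_eq_zero.symm
    have hτ0 : 0 < dot (tau c) v := by
      have := hv.pos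
      rw [rf_dot (length_tau c) hv.len] at this
      exact_mod_cast this
    have hhd : hdp (v :: P0) = v := rfl
    by_cases ht : tight I v = []
    · refine ⟨[], 1, bnd_pos D k, ?_, hv, top_of_tight hI hv ht, Nat.zero_le _⟩
      rw [Function.iterate_one]
      change stepCall c E I (v :: P0) st = _
      rw [stepCall, if_pos (by rw [hhd, ht]; simp)]
      rfl
    · obtain ⟨r0, hr0⟩ := List.exists_mem_of_ne_nil _ ht
      have hr0' := (mem_tight hI hv.len).1 hr0
      have hk0 : 0 < I.length := List.length_pos_of_mem hr0'.1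
      refine Result.mono (B := bnd D I.length) (L := bnd D I.length) ?_ (bnd_mono hIk)
        (bnd_mono hIk)
      have hIk' : I.length ≤ k := hIk
      clear hIk
      set k' := I.length with hk'
      have ih1 : ∀ D, CallOK c D (k' - 1) := ih (k' - 1) (by omega)
      have ih2 : CallOK c D (k' / 2) := ih (k' / 2) (by omega) D
      have hstep : step c (Sum.inl (E, I, v :: P0), st) = (pickF c E I v).elim
          (Sum.inl (E, lower c E I, [v]), Sum.inl (E, I, v :: P0) :: st)
          fun F => callF c E I (v :: P0) st F := by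
        change stepCall c E I (v :: P0) st = _
        rw [stepCall, if_neg]
        · rfl
        · rw [hhd]
          have h3 : (tight I v).isEmpty = false := by
            rw [List.isEmpty_eq_false_iff]; exact ht
          simp [hτ0, h3]
      cases hpick : pickF c E I v with
      | some F =>
        obtain ⟨hFu, hF0⟩ := pickF_some hE hI hpick
        have hFI : F ∈ I := (List.mem_filter.1 hFu).1
        have hFv := (hdot F hFI hv.len).1 hF0
        rw [hpick] at hstep
        by_cases hdeg : ∀ x, (∀ r ∈ E, rf c.length r x = 0) → rf c.length F x = 0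
        · have := bnd_pred (D := D) hk0
          exact ((facet_phase_deg (ih1 D) rfl hE hI hD hv hFI hdeg).trans (i := 1)
            (by rw [Function.iterate_one, hstep]; rfl) le_rfl).mono (by omega) (by omega)
        · push Not at hdeg
          obtain ⟨y, hy, hFy⟩ := hdeg
          obtain ⟨hD0, hD'⟩ := hD.facet (F := F) (x := lv c.length v) (y := y) hv.ext.mem.1
            hv.ext.ne hFv hy hFy
          have := bnd_rec hD0 hk0
          exact ((facet_phase (Qp := []) (P := []) hc (ih1 (D - 1)) ih2 rfl hE hI hD hD' rfl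
            (show Good c E (jl c I) [v] from hv) hv.pos hFv hFu).trans (i := 1)
            (by rw [Function.iterate_one, hstep]; rfl) le_rfl).mono (by omega)
            (by simp only [List.length_nil]; omega)
      | none =>
        have hnone := pickF_none hpick
        rw [hpick] at hstep
        simp only [Option.elim_none] at hstep
        have hS : ∀ r ∈ lower c E I, r ∈ I := fun r hr => (mem_lower.1 hr).1
        have hSJ := jl_mono (c := c) hS
        have hvS : ∀ r ∈ I, rf c.length r (lv c.length v) = 0 → r ∈ lower c E I :=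
          fun r hr h0 => mem_lower.2 ⟨hr, fun hu => hnone r hu ((hdot r hr hv.len).2 h0)⟩
        have hlk : (lower c E I).length ≤ k' / 2 := by
          have h1 := length_lower (c := c) (E := E) (I := I)
          rcases (half_spec hE hJ hτJ hIJ).1 with h2 | h2
          · omega
          · exfalso
            have h3 := h2 r0 hr0'.1 (above_zero hc hE hJ (hIJ r0 hr0'.1) hv.ext hv.pos hr0'.2)
            exact hnone r0 h3 ((hdot r0 hr0'.1 hv.len).2 hr0'.2)
        have hvV : Vx c E (jl c (lower c E I)) v := by
          refine ⟨hv.len, hv.ext.to_relax hSJ fun r hr h0 => ?_, hv.pos⟩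
          rcases mem_jl.1 hr with h | h
          · exact mem_jl.2 (Or.inl h)
          · exact mem_jl.2 (Or.inr (hvS r h h0))
        obtain ⟨Q, j, hj, q1, q2, q3, q4⟩ := ih2 E (lower c E I) v []
          (Sum.inl (E, I, v :: P0) :: st) hlk hD hE (hI.filter _) hvV
        obtain ⟨t1, t2, t3, t4, t5⟩ := trunc_spec hE hI hS hv.ext.mem hvS q2 _ rfl
        have hstep2 : step c (Sum.inr (Q ++ [v]), Sum.inl (E, I, v :: P0) :: st) =
            stepLoopQ c E I (v :: P0) st (trunc c E I (lower c E I) (Q ++ [v])) := rfl
        set s := trunc c E I (lower c E I) (Q ++ [v]) with hs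
        have hb1 := bnd_half (D := D) hk0
        by_cases hf : s.2 = true
        · obtain ⟨x, P, hxP, hxτ, r, hrI, hrS, hrx⟩ := t5 hf
          obtain ⟨Qp, hQp⟩ := t1
          have hxl : x.length = c.length := by
            have := t2
            rw [hxP] at this
            exact this.head.1
          have hhx : hdp s.1 = x := by rw [hxP]; rfl
          have hru : r ∈ upper c E (jl c I) I := by
            by_contra h
            exact hrS (mem_lower.2 ⟨hrI, h⟩)
          cases hpick2 : pickF c E I x with
          | none => exact absurd ((hdot r hrI hxl).2 hrx) (pickF_none hpick2 r hru)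
          | some F =>
            obtain ⟨hFu, hF0⟩ := pickF_some hE hI hpick2
            have hFI : F ∈ I := (List.mem_filter.1 hFu).1
            have hFx := (hdot F hFI hxl).1 hF0
            have hFv : rf c.length F (lv c.length v) ≠ 0 := fun h0 =>
              hnone F hFu ((hdot F hFI hv.len).2 h0)
            have hxE : Ext (rf c.length) E (jl c I) (lv c.length x) := by
              have := t2
              rw [hxP] at this
              exact this.head.2
            obtain ⟨hD0, hD'⟩ := hD.facet (F := F) hxE.mem.1 hxE.ne hFx hv.ext.mem.1 hFv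
            have hQl : Qp.length ≤ bnd D (k' / 2) := by
              rw [hQp] at t3
              simp only [List.length_append, List.length_cons, List.length_nil] at t3
              omega
            have hPP : x :: P = Qp ++ [v] := by rw [← hxP, hQp]
            have hstep3 : step c (Sum.inr (Q ++ [v]), Sum.inl (E, I, v :: P0) :: st) =
                callF c E I (x :: (P ++ P0)) st F := by
              rw [hstep2, stepLoopQ, if_pos hf, hhx, hpick2]
              simp only [Option.elim_some, List.tail_cons]
              rw [hxP]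
              rfl
            have := bnd_rec hD0 hk0
            exact ((facet_phase hc (ih1 (D - 1)) ih2 rfl hE hI hD hD' hPP
              (by rw [← hxP]; exact t2) hxτ hFx hFu (P0 := P0) (st := st)).trans
              (i := 1 + (j + 1)) (iter_add (by rw [Function.iterate_one, hstep])
              (iter_add q1 (by rw [Function.iterate_one, hstep3]))) le_rfl).mono (by omega)
              (by omega)
        · have hf' : s.2 = false := by simpa using hf
          obtain ⟨u1, -⟩ := t4 hf'
          refine ⟨Q, 1 + (j + 1), by omega, iter_add (by rw [Function.iterate_one, hstep])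
            (iter_add q1 ?_), ?_, q3.of_relax hSJ, by omega⟩
          · rw [Function.iterate_one, hstep2, stepLoopQ, if_neg hf, u1]
            simp
          · rw [← u1]; exact t2

end Pool.Agent.Y644.QS
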