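import Pool.Agent.Y644.QS.Supp
set_option autoImplicit false

/-!
# A solution of maximal support of `B y = 0`, `y ≥ 0`

The perceptron on the projections of the unit vectors either finds a positive solution or shows that
one of the (scaled) coordinates is at most `1/2` for all solutions in the unit cube. Then this
coordinate is scaled by two. A coordinate that has been scaled `t` times vanishes on all solutions.
(Chubanov's algorithm.)
-/

namespace Pool.Agent.Y644.QS

open scoped InnerProductSpace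
open Pool.Agent.H687R2.LLL

/-- entrywise product -/
def mulV (u v : List ℤ) : List ℤ := List.zipWith (fun x y => x * y) u v

/-- entrywise sum -/
def addV (u v : List ℤ) : List ℤ := List.zipWith (fun x y => x + y) u v

/-- the scaled system -/
def rowsOf (K t : ℕ) (B : List (List ℤ)) (S : List ℤ) (e : List ℕ) : List (List ℤ) :=
  B.map (fun r => mulV r S) ++
    ((List.range K).filter fun j => decide (t ≤ e.getD j 0)).map (unitV K)

/-- a coordinate which is not positive yet -/
def bad (K t : ℕ) (e : List ℕ) (z : List ℤ) : Option ℕ :=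
  ((List.range K).filter fun j => decide (e.getD j 0 < t) && decide (z.getD j 0 ≤ 0)).head?

/-- a step of the perceptron -/
def pcStep (K t : ℕ) (acc : List (List ℤ × ℕ)) (e : List ℕ) (c : List ℤ) : List ℤ :=
  (bad K t e (proj acc c).1).elim c fun j => addV c (unitV K j)

/-- the perceptron -/
def pc (K t : ℕ) (acc : List (List ℤ × ℕ)) (e : List ℕ) : List ℤ :=
  (pcStep K t acc e)^[4 * K * K * K] (List.replicate K 0)

/-- scale the coordinate `j` -/
def halve (K j : ℕ) (s : List ℤ × List ℕ) : List ℤ × List ℕ :=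
  ((List.range K).map fun i => if i = j then s.1.getD i 0 else 2 * s.1.getD i 0,
    (List.range K).map fun i => if i = j then s.2.getD i 0 + 1 else s.2.getD i 0)

/-- the coordinate to be scaled -/
def pick (K t : ℕ) (e : List ℕ) (c : List ℤ) : Option ℕ :=
  ((List.range K).filter fun j => decide (e.getD j 0 < t) &&
    decide (((4 * K * K : ℕ) : ℤ) ≤ c.getD j 0)).head?

/-- one round, where `acc` and `c` have been computed -/
def roundWith (K t : ℕ) (acc : List (List ℤ × ℕ)) (c : List ℤ) (s : List ℤ × List ℕ) :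
    List ℤ × List ℕ :=
  (bad K t s.2 (proj acc c).1).elim s fun _ => (pick K t s.2 c).elim s fun j => halve K j s

/-- one round -/
def round (K t : ℕ) (B : List (List ℤ)) (s : List ℤ × List ℕ) : List ℤ × List ℕ :=
  roundWith K t (gs (rowsOf K t B s.1 s.2)) (pc K t (gs (rowsOf K t B s.1 s.2)) s.2) s

/-- the solution found at the end -/
def outp (K t : ℕ) (B : List (List ℤ)) (s : List ℤ × List ℕ) : List ℤ :=
  mulV s.1 (proj (gs (rowsOf K t B s.1 s.2)) (pc K t (gs (rowsOf K t B s.1 s.2)) s.2)).1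

/-- a solution of maximal support of `B y = 0`, `y ≥ 0` -/
def maxsupp (K t : ℕ) (B : List (List ℤ)) : List ℤ :=
  outp K t B ((round K t B)^[K * t + 1] (List.replicate K 1, List.replicate K 0))

/-! ### The perceptron -/

theorem head?_filter_none {n : ℕ} {p : ℕ → Bool} (h : ((List.range n).filter p).head? = none) :
    ∀ j < n, p j = false := by
  intro j hj
  rw [List.head?_eq_none_iff] at h
  by_contra hp
  rw [Bool.not_eq_false] at hp
  have : j ∈ (List.range n).filter p := by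
    rw [List.mem_filter]; exact ⟨by simpa using hj, hp⟩
  rw [h] at this
  simp at this

theorem head?_filter_some {n j : ℕ} {p : ℕ → Bool}
    (h : ((List.range n).filter p).head? = some j) : j < n ∧ p j = true := by
  have := List.mem_of_mem_head? (show j ∈ ((List.range n).filter p).head? from h)
  rw [List.mem_filter] at this
  exact ⟨by simpa using this.1, this.2⟩

theorem bad_some {K t j : ℕ} {e : List ℕ} {z : List ℤ} (h : bad K t e z = some j) :
    j < K ∧ e.getD j 0 < t ∧ z.getD j 0 ≤ 0 := by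
  have := head?_filter_some h
  simpa using this

theorem bad_none {K t : ℕ} {e : List ℕ} {z : List ℤ} (h : bad K t e z = none) :
    ∀ j < K, e.getD j 0 < t → 0 < z.getD j 0 := by
  intro j hj hjt
  have := head?_filter_none h j hj
  simp only [hjt, decide_true, Bool.true_and, decide_eq_false_iff_not, not_le] at this
  exact this

theorem getD_addV {K : ℕ} {u v : List ℤ} (hu : u.length = K) (hv : v.length = K) {i : ℕ}
    (hi : i < K) : (addV u v).getD i 0 = u.getD i 0 + v.getD i 0 :=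
  getD_zipWith hu hv _ hi

theorem getD_mulV {K : ℕ} {u v : List ℤ} (hu : u.length = K) (hv : v.length = K) {i : ℕ}
    (hi : i < K) : (mulV u v).getD i 0 = u.getD i 0 * v.getD i 0 :=
  getD_zipWith hu hv _ hi

theorem length_addV {K : ℕ} {u v : List ℤ} (hu : u.length = K) (hv : v.length = K) :
    (addV u v).length = K := by simp [addV, hu, hv]

theorem length_mulV {K : ℕ} {u v : List ℤ} (hu : u.length = K) (hv : v.length = K) :
    (mulV u v).length = K := by simp [mulV, hu, hv]

theorem lv_addV {K : ℕ} {u v : List ℤ} (hu : u.length = K) (hv : v.length = K) :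
    lv K (addV u v) = lv K u + lv K v := by
  ext p
  simp only [lv_apply, PiLp.add_apply]
  rw [getD_addV hu hv p.2]
  push_cast
  ring

theorem pc_inv {K t : ℕ} {R : List (List ℤ)} (hR : ∀ r ∈ R, r.length = K) {e : List ℕ} :
    ∀ n : ℕ, ((pcStep K t (gs R) e)^[n] (List.replicate K 0)).length = K ∧
      (∀ j < K, 0 ≤ ((pcStep K t (gs R) e)^[n] (List.replicate K 0)).getD j 0 ∧
        (t ≤ e.getD j 0 → ((pcStep K t (gs R) e)^[n] (List.replicate K 0)).getD j 0 = 0)) ∧
      (bad K t e (proj (gs R) ((pcStep K t (gs R) e)^[n] (List.replicate K 0))).1 = none ∨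
        (∑ j : Fin K, lv K ((pcStep K t (gs R) e)^[n] (List.replicate K 0)) j = n ∧
          ‖PB K R (lv K ((pcStep K t (gs R) e)^[n] (List.replicate K 0)))‖ ^ 2 ≤ n)) := by
  obtain ⟨D, hD0, -, hproj⟩ := gs_proj hR
  have hDr : (0 : ℝ) < D := by exact_mod_cast hD0
  intro n
  induction n with
  | zero =>
    have h0 : lv K (List.replicate K 0) = 0 := by
      ext p
      rw [lv_apply]
      simp
    refine ⟨by simp, fun j hj => by simp [hj], Or.inr ⟨?_, ?_⟩⟩
    · simp only [Function.iterate_zero, id_eq, h0]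
      simp
    · simp only [Function.iterate_zero, id_eq, h0]
      simp [PB]
  | succ n ih =>
    rw [Function.iterate_succ_apply']
    set c := (pcStep K t (gs R) e)^[n] (List.replicate K 0) with hc
    obtain ⟨h1, h2, h3⟩ := ih
    cases hb : bad K t e (proj (gs R) c).1 with
    | none =>
      have e1 : pcStep K t (gs R) e c = c := by simp [pcStep, hb]
      rw [e1]
      exact ⟨h1, h2, Or.inl hb⟩
    | some j =>
      have e1 : pcStep K t (gs R) e c = addV c (unitV K j) := by simp [pcStep, hb]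
      rw [e1]
      obtain ⟨b1, b2, b3⟩ := bad_some hb
      have hul := length_unitV K j
      refine ⟨length_addV h1 hul, ?_, Or.inr ?_⟩
      · intro i hi
        rw [getD_addV h1 hul hi, getD_unitV hi]
        obtain ⟨h4, h5⟩ := h2 i hi
        by_cases hij : i = j
        · subst hij
          simp only [if_true]
          exact ⟨by omega, fun h => by omega⟩
        · simp only [hij, if_false, add_zero]
          exact ⟨h4, h5⟩
      · rcases h3 with h3 | ⟨h3, h4⟩
        · rw [h3] at hb; cases hb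
        · have hlv := lv_addV h1 hul
          have hun : lv K (unitV K j) = EuclideanSpace.single ⟨j, b1⟩ (1 : ℝ) :=
            lv_unitV ⟨j, b1⟩
          constructor
          · rw [hlv]
            simp only [PiLp.add_apply]
            rw [Finset.sum_add_distrib, h3, hun]
            simp
          · rw [hlv, PB_add]
            obtain ⟨q1, q2⟩ := hproj c h1
            have hz : D * (PB K R (lv K c)) ⟨j, b1⟩ ≤ 0 := by
              have := congrArg (fun v => v ⟨j, b1⟩) q2
              simp only [lv_apply, PiLp.smul_apply, smul_eq_mul] at this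
              rw [← this]
              exact Int.cast_nonpos.2 b3
            have hz' : (PB K R (lv K c)) ⟨j, b1⟩ ≤ 0 := by
              by_contra hcon
              push Not at hcon
              have := mul_pos hDr hcon
              linarith
            have hin : ⟪PB K R (lv K c), PB K R (lv K (unitV K j))⟫_ℝ =
                (PB K R (lv K c)) ⟨j, b1⟩ := by
              rw [PB_inner_PB, real_inner_comm]
              exact inner_unitV ⟨j, b1⟩ _
            have hn1 : ‖PB K R (lv K (unitV K j))‖ ≤ 1 := by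
              refine (PB_norm_le _).trans ?_
              rw [norm_unitV ⟨j, b1⟩]
            rw [norm_add_sq_real, hin]
            have hn2 : ‖PB K R (lv K (unitV K j))‖ ^ 2 ≤ 1 := by
              have := norm_nonneg (PB K R (lv K (unitV K j)))
              nlinarith
            push_cast
            linarith

theorem pc_spec {K t : ℕ} {R : List (List ℤ)} (hR : ∀ r ∈ R, r.length = K) {e : List ℕ} :
    (pc K t (gs R) e).length = K ∧
      (∀ j < K, 0 ≤ (pc K t (gs R) e).getD j 0 ∧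
        (t ≤ e.getD j 0 → (pc K t (gs R) e).getD j 0 = 0)) ∧
      (bad K t e (proj (gs R) (pc K t (gs R) e)).1 = none ∨
        (∑ j : Fin K, lv K (pc K t (gs R) e) j = 4 * K ^ 3 ∧
          ‖PB K R (lv K (pc K t (gs R) e))‖ ^ 2 ≤ 4 * K ^ 3)) := by
  have := pc_inv hR (t := t) (e := e) (4 * K * K * K)
  refine ⟨this.1, this.2.1, ?_⟩
  rcases this.2.2 with h | ⟨h1, h2⟩
  · exact Or.inl h
  · refine Or.inr ⟨?_, ?_⟩
    · rw [show (4 * (K : ℝ) ^ 3) = ((4 * K * K * K : ℕ) : ℝ) by push_cast; ring]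
      exact h1
    · rw [show (4 * (K : ℝ) ^ 3) = ((4 * K * K * K : ℕ) : ℝ) by push_cast; ring]
      exact h2

/-! ### The invariant -/

/-- the invariant of the rounds -/
structure Inv (K t : ℕ) (B : List (List ℤ)) (s : List ℤ × List ℕ) : Prop where
  lenS : s.1.length = K
  lenE : s.2.length = K
  le : ∀ j < K, s.2.getD j 0 ≤ t
  pow : ∃ H : ℕ, ∀ j < K, s.1.getD j 0 * 2 ^ (s.2.getD j 0) = 2 ^ H
  cut : ∀ y : EuclideanSpace ℝ (Fin K), (∀ r ∈ B, ⟪lv K r, y⟫_ℝ = 0) →
    (∀ i, 0 ≤ y i ∧ y i ≤ 1) → ∀ j : Fin K, y j * 2 ^ (s.2.getD j 0) ≤ 1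

theorem Inv.pos {K t : ℕ} {B : List (List ℤ)} {s : List ℤ × List ℕ} (h : Inv K t B s) {j : ℕ}
    (hj : j < K) : 0 < s.1.getD j 0 := by
  obtain ⟨H, hH⟩ := h.pow
  have h1 := hH j hj
  have h2 : (0 : ℤ) < 2 ^ H := by positivity
  have h3 : (0 : ℤ) < 2 ^ (s.2.getD j 0) := by positivity
  rw [← h1] at h2
  exact (mul_pos_iff_of_pos_right h3).1 h2

theorem inv_init (K t : ℕ) (B : List (List ℤ)) :
    Inv K t B (List.replicate K 1, List.replicate K 0) := by
  have h0 : ∀ j < K, (List.replicate K (0 : ℕ)).getD j 0 = 0 := fun j hj => by simp [hj]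
  have h1 : ∀ j < K, (List.replicate K (1 : ℤ)).getD j 0 = 1 := fun j hj => by simp [hj]
  refine ⟨by simp, by simp, fun j hj => by rw [h0 j hj]; omega, ⟨0, fun j hj => ?_⟩, ?_⟩
  · simp only [h0 j hj, h1 j hj]; norm_num
  · intro y _ hy j
    simp only [h0 j j.2, pow_zero, mul_one]
    exact (hy j).2

theorem halve_getD {K j : ℕ} {s : List ℤ × List ℕ} {i : ℕ} (hi : i < K) :
    (halve K j s).1.getD i 0 = (if i = j then s.1.getD i 0 else 2 * s.1.getD i 0) ∧
      (halve K j s).2.getD i 0 = (if i = j then s.2.getD i 0 + 1 else s.2.getD i 0) := by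
  simp [halve, hi]

theorem Inv.halve {K t : ℕ} {B : List (List ℤ)} {s : List ℤ × List ℕ} (h : Inv K t B s) {j : ℕ}
    (hj : j < K) (hjt : s.2.getD j 0 < t)
    (hcut : ∀ y : EuclideanSpace ℝ (Fin K), (∀ r ∈ B, ⟪lv K r, y⟫_ℝ = 0) →
      (∀ i, 0 ≤ y i ∧ y i ≤ 1) → y ⟨j, hj⟩ * 2 ^ (s.2.getD j 0 + 1) ≤ 1) :
    Inv K t B (halve K j s) := by
  obtain ⟨H, hH⟩ := h.pow
  refine ⟨by simp [QS.halve], by simp [QS.halve], ?_, ⟨H + 1, ?_⟩, ?_⟩
  · intro i hi
    rw [(halve_getD hi).2]
    split_ifs with hij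
    · subst hij; omega
    · exact h.le i hi
  · intro i hi
    rw [(halve_getD hi).1, (halve_getD hi).2]
    have := hH i hi
    split_ifs with hij
    · rw [pow_succ, pow_succ, ← mul_assoc, this]
    · rw [pow_succ, ← this]; ring
  · intro y hy hy2 i
    rw [(halve_getD i.2).2]
    split_ifs with hij
    · have := hcut y hy hy2
      have e : i = ⟨j, hj⟩ := Fin.ext hij
      rw [e]
      exact this
    · exact h.cut y hy hy2 i

section

variable {K t : ℕ} {B : List (List ℤ)} {s : List ℤ × List ℕ}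

theorem Inv.forced (h : Inv K t B s) (hB : ∀ r ∈ B, r.length = K) (ht : gprod K B < 2 ^ t)
    {j : Fin K} (hj : t ≤ s.2.getD j 0) (y : EuclideanSpace ℝ (Fin K))
    (hy : ∀ r ∈ B, ⟪lv K r, y⟫_ℝ = 0) (hy0 : ∀ i, 0 ≤ y i) : y j = 0 := by
  by_contra hne
  have hpos : 0 < y j := lt_of_le_of_ne (hy0 j) (Ne.symm hne)
  obtain ⟨y', h1, h2, h3⟩ := supp_bound hB ht j _ y rfl hy hy0 hpos
  have h4 := h.cut y' h1 h2 j
  have h5 : s.2.getD j 0 = t := le_antisymm (h.le j j.2) hj
  rw [h5] at h4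
  linarith

theorem inner_mulV {r S : List ℤ} (hr : r.length = K) (hS : S.length = K)
    (w : EuclideanSpace ℝ (Fin K)) :
    ⟪lv K (mulV r S), w⟫_ℝ =
      ⟪lv K r, (WithLp.toLp 2 fun i => ((S.getD i 0 : ℤ) : ℝ) * w i : EuclideanSpace ℝ (Fin K))⟫_ℝ := by
  rw [PiLp.inner_apply, PiLp.inner_apply]
  refine Finset.sum_congr rfl fun i _ => ?_
  rw [lv_apply, lv_apply, getD_mulV hr hS i.2]
  simp
  ring

theorem Inv.len (h : Inv K t B s) (hB : ∀ r ∈ B, r.length = K) :
    ∀ r ∈ rowsOf K t B s.1 s.2, r.length = K := by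
  intro r hr
  rw [rowsOf, List.mem_append, List.mem_map, List.mem_map] at hr
  rcases hr with ⟨r, hr, rfl⟩ | ⟨i, _, rfl⟩
  · exact length_mulV (hB r hr) h.lenS
  · exact length_unitV K i

/-- the scaled vector solves the scaled system -/
theorem Inv.scaled (h : Inv K t B s) (hB : ∀ r ∈ B, r.length = K) (ht : gprod K B < 2 ^ t)
    (y : EuclideanSpace ℝ (Fin K)) (hy : ∀ r ∈ B, ⟪lv K r, y⟫_ℝ = 0) (hy0 : ∀ i, 0 ≤ y i) :
    ∀ r ∈ rowsOf K t B s.1 s.2, ⟪lv K r,
      (WithLp.toLp 2 fun i => y i * 2 ^ (s.2.getD i 0) : EuclideanSpace ℝ (Fin K))⟫_ℝ = 0 := by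
  obtain ⟨H, hH⟩ := h.pow
  intro r hr
  rw [rowsOf, List.mem_append, List.mem_map, List.mem_map] at hr
  rcases hr with ⟨r, hr, rfl⟩ | ⟨i, hi, rfl⟩
  · rw [inner_mulV (hB r hr) h.lenS]
    have e : (WithLp.toLp 2 fun i : Fin K => ((s.1.getD i 0 : ℤ) : ℝ) *
        (WithLp.toLp 2 fun i : Fin K => y i * 2 ^ (s.2.getD i 0) : EuclideanSpace ℝ (Fin K)) i :
          EuclideanSpace ℝ (Fin K)) = (2 ^ H : ℝ) • y := by
      ext i
      simp only [PiLp.smul_apply, smul_eq_mul]
      have h1 : ((s.1.getD i 0 : ℤ) : ℝ) * 2 ^ (s.2.getD i 0) = 2 ^ H := by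
        exact_mod_cast hH i i.2
      rw [← h1]; ring
    rw [e, inner_smul_right, hy r hr, mul_zero]
  · rw [List.mem_filter] at hi
    have hiK : i < K := by simpa using hi.1
    have hit : t ≤ s.2.getD i 0 := by simpa using hi.2
    rw [inner_unitV (K := K) ⟨i, hiK⟩]
    have := h.forced hB ht (j := ⟨i, hiK⟩) hit y hy hy0
    simp [this]

/-- the cut -/
theorem Inv.newcut (h : Inv K t B s) (hB : ∀ r ∈ B, r.length = K) (ht : gprod K B < 2 ^ t)
    (hbad : bad K t s.2 (proj (gs (rowsOf K t B s.1 s.2))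
      (pc K t (gs (rowsOf K t B s.1 s.2)) s.2)).1 ≠ none) {j : ℕ} (hjK : j < K)
    (hj : ((4 * K * K : ℕ) : ℤ) ≤ (pc K t (gs (rowsOf K t B s.1 s.2)) s.2).getD j 0)
    (y : EuclideanSpace ℝ (Fin K)) (hy : ∀ r ∈ B, ⟪lv K r, y⟫_ℝ = 0)
    (hy2 : ∀ i, 0 ≤ y i ∧ y i ≤ 1) : y ⟨j, hjK⟩ * 2 ^ (s.2.getD j 0 + 1) ≤ 1 := by
  set R := rowsOf K t B s.1 s.2 with hR
  set c := pc K t (gs R) s.2 with hc
  obtain ⟨c1, c2, c3⟩ := pc_spec (t := t) (e := s.2) (h.len hB)
  rw [← hR, ← hc] at c1 c2 c3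
  rcases c3 with c3 | ⟨c3, c4⟩
  · exact absurd c3 hbad
  set w : EuclideanSpace ℝ (Fin K) := WithLp.toLp 2 fun i => y i * 2 ^ (s.2.getD i 0) with hw
  have hwi : ∀ i : Fin K, w i = y i * 2 ^ (s.2.getD i 0) := fun i => rfl
  have hw0 : ∀ i, 0 ≤ w i := fun i => by
    rw [hwi]; exact mul_nonneg (hy2 i).1 (by positivity)
  have hw1 : ∀ i, w i ≤ 1 := fun i => by
    rw [hwi]; exact h.cut y hy hy2 i
  have hrow := h.scaled hB ht y hy fun i => (hy2 i).1
  rw [← hR, ← hw] at hrow
  have h1 : ⟪lv K c, w⟫_ℝ = ⟪PB K R (lv K c), w⟫_ℝ := (PB_inner_of_rows hrow _).symm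
  have h2 : ⟪PB K R (lv K c), w⟫_ℝ ≤ ‖PB K R (lv K c)‖ * ‖w‖ := real_inner_le_norm _ _
  have h3 : ‖w‖ ^ 2 ≤ K := by
    rw [normSq_eq]
    calc ∑ i, w i ^ 2 ≤ ∑ _i : Fin K, (1 : ℝ) := by
          refine Finset.sum_le_sum fun i _ => ?_
          have := hw0 i
          have := hw1 i
          nlinarith
      _ = K := by simp
  have h4 : lv K c ⟨j, hjK⟩ * w ⟨j, hjK⟩ ≤ ⟪lv K c, w⟫_ℝ := by
    rw [PiLp.inner_apply]
    have : ∀ i : Fin K, 0 ≤ ⟪(lv K c) i, w i⟫_ℝ := by
      intro i
      simp only [RCLike.inner_apply, conj_trivial]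
      refine mul_nonneg (hw0 i) ?_
      rw [lv_apply]
      exact_mod_cast (c2 i i.2).1
    refine le_trans (le_of_eq ?_) (Finset.single_le_sum (fun i _ => this i)
      (Finset.mem_univ ⟨j, hjK⟩))
    simp only [RCLike.inner_apply, conj_trivial]
    ring
  have h5 : (4 * K * K : ℝ) ≤ lv K c ⟨j, hjK⟩ := by
    rw [lv_apply]
    exact_mod_cast hj
  have hK : (1 : ℝ) ≤ K := by exact_mod_cast (show 1 ≤ K by omega)
  have h6 : (lv K c ⟨j, hjK⟩ * w ⟨j, hjK⟩) ^ 2 ≤ (4 * K ^ 3) * K := by
    have h7 : 0 ≤ lv K c ⟨j, hjK⟩ * w ⟨j, hjK⟩ := mul_nonneg (by nlinarith) (hw0 _)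
    have h8 : lv K c ⟨j, hjK⟩ * w ⟨j, hjK⟩ ≤ ‖PB K R (lv K c)‖ * ‖w‖ := by linarith
    calc (lv K c ⟨j, hjK⟩ * w ⟨j, hjK⟩) ^ 2 ≤ (‖PB K R (lv K c)‖ * ‖w‖) ^ 2 :=
          pow_le_pow_left₀ h7 h8 2
      _ = ‖PB K R (lv K c)‖ ^ 2 * ‖w‖ ^ 2 := by ring
      _ ≤ (4 * K ^ 3) * K := mul_le_mul c4 h3 (by positivity) (by positivity)
  have h9 : w ⟨j, hjK⟩ ≤ 1 / 2 := by
    by_contra hcon
    push Not at hcon
    have h10 : (4 * K * K : ℝ) * (1 / 2) < lv K c ⟨j, hjK⟩ * w ⟨j, hjK⟩ := by
      have : (0 : ℝ) < 4 * K * K := by positivity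
      nlinarith
    have h11 : ((4 * K * K : ℝ) * (1 / 2)) ^ 2 < (lv K c ⟨j, hjK⟩ * w ⟨j, hjK⟩) ^ 2 :=
      pow_lt_pow_left₀ h10 (by positivity) (by norm_num)
    have h12 : ((4 * K * K : ℝ) * (1 / 2)) ^ 2 = (4 * K ^ 3) * K := by ring
    linarith
  rw [hwi] at h9
  simp only at h9
  rw [pow_succ]
  linarith

theorem sum_getD_eq (c : List ℤ) (_hc : c.length = K) (hb : ∑ j : Fin K, lv K c j = 4 * K ^ 3)
    (hK : 0 < K) : ∃ j < K, ((4 * K * K : ℕ) : ℤ) ≤ c.getD j 0 := by
  by_contra hcon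
  push Not at hcon
  have h1 : ∑ j : Fin K, lv K c j < ∑ _j : Fin K, (4 * K * K : ℝ) := by
    apply Finset.sum_lt_sum_of_nonempty ⟨⟨0, hK⟩, Finset.mem_univ _⟩
    intro i _
    rw [lv_apply]
    have := hcon i i.2
    exact_mod_cast this
  rw [hb] at h1
  simp only [Finset.sum_const, Finset.card_univ, Fintype.card_fin, nsmul_eq_mul] at h1
  have : (K : ℝ) * (4 * K * K) = 4 * K ^ 3 := by ring
  linarith

/-- one round -/
theorem Inv.round (h : Inv K t B s) (hB : ∀ r ∈ B, r.length = K) (ht : gprod K B < 2 ^ t) :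
    Inv K t B (round K t B s) ∧
      (bad K t s.2 (proj (gs (rowsOf K t B s.1 s.2))
        (pc K t (gs (rowsOf K t B s.1 s.2)) s.2)).1 = none ∧ QS.round K t B s = s ∨
      ∑ j : Fin K, (QS.round K t B s).2.getD j 0 = ∑ j : Fin K, s.2.getD j 0 + 1) := by
  cases hb : bad K t s.2 (proj (gs (rowsOf K t B s.1 s.2))
        (pc K t (gs (rowsOf K t B s.1 s.2)) s.2)).1 with
  | none =>
    have e : QS.round K t B s = s := by simp [QS.round, roundWith, hb]
    rw [e]
    exact ⟨h, Or.inl ⟨rfl, rfl⟩⟩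
  | some i =>
    have hiK := (bad_some hb).1
    obtain ⟨c1, c2, c3⟩ := pc_spec (t := t) (e := s.2) (h.len hB)
    rcases c3 with c3 | ⟨c3, c4⟩
    · rw [c3] at hb; cases hb
    obtain ⟨j, hj, hj2⟩ := sum_getD_eq _ c1 c3 (by omega)
    have hjt : s.2.getD j 0 < t := by
      by_contra hcon
      push Not at hcon
      have := (c2 j hj).2 hcon
      rw [this] at hj2
      have h4 : (0 : ℤ) < ((4 * K * K : ℕ) : ℤ) := by
        have : 0 < K := by omega
        positivity
      omega
    cases hp : pick K t s.2 (pc K t (gs (rowsOf K t B s.1 s.2)) s.2) with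
    | none =>
      have := head?_filter_none hp j hj
      simp only [hjt, decide_true, Bool.true_and, decide_eq_false_iff_not] at this
      exact absurd hj2 this
    | some p =>
      have hp2 := head?_filter_some hp
      simp only [Bool.and_eq_true, decide_eq_true_eq] at hp2
      obtain ⟨p1, p2, p3⟩ := hp2
      have e : QS.round K t B s = QS.halve K p s := by simp [QS.round, roundWith, hb, hp]
      rw [e]
      refine ⟨h.halve p1 p2 fun y hy hy2 =>
        h.newcut hB ht (by rw [hb]; simp) p1 p3 y hy hy2, Or.inr ?_⟩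
      have h1 : ∀ i : Fin K, (QS.halve K p s).2.getD i 0 =
          s.2.getD i 0 + if i = ⟨p, p1⟩ then 1 else 0 := by
        intro i
        rw [(halve_getD i.2).2]
        by_cases hip : (i : ℕ) = p
        · have : i = ⟨p, p1⟩ := Fin.ext hip
          simp [hip, this]
        · have : i ≠ ⟨p, p1⟩ := fun h' => hip (by rw [h'])
          simp [hip, this]
      simp only [h1]
      rw [Finset.sum_add_distrib]
      simp

/-- after enough rounds the perceptron succeeds -/
theorem Inv.iter (h : Inv K t B s) (hB : ∀ r ∈ B, r.length = K) (ht : gprod K B < 2 ^ t)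
    (n : ℕ) : Inv K t B ((QS.round K t B)^[n] s) ∧
      (bad K t ((QS.round K t B)^[n] s).2 (proj (gs (rowsOf K t B ((QS.round K t B)^[n] s).1
          ((QS.round K t B)^[n] s).2)) (pc K t (gs (rowsOf K t B ((QS.round K t B)^[n] s).1
            ((QS.round K t B)^[n] s).2)) ((QS.round K t B)^[n] s).2)).1 = none ∨
      n ≤ ∑ j : Fin K, ((QS.round K t B)^[n] s).2.getD j 0) := by
  induction n with
  | zero => exact ⟨h, Or.inr (Nat.zero_le _)⟩
  | succ n ih =>
    rw [Function.iterate_succ_apply']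
    obtain ⟨h1, h2⟩ := ih
    obtain ⟨h3, h4⟩ := h1.round hB ht
    refine ⟨h3, ?_⟩
    rcases h4 with ⟨h4, h5⟩ | h4
    · rw [h5]; exact Or.inl h4
    · rcases h2 with h2 | h2
      · have e : QS.round K t B ((QS.round K t B)^[n] s) = (QS.round K t B)^[n] s := by
          conv_lhs => rw [QS.round, roundWith, h2]
          rfl
        rw [e]; exact Or.inl h2
      · right
        rw [h4]; omega

end

/-- the algorithm finds a solution of maximal support -/
theorem maxsupp_spec {K t : ℕ} {B : List (List ℤ)} (hB : ∀ r ∈ B, r.length = K)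
    (ht : gprod K B < 2 ^ t) :
    (maxsupp K t B).length = K ∧ (∀ r ∈ B, ⟪lv K r, lv K (maxsupp K t B)⟫_ℝ = 0) ∧
      (∀ i : Fin K, 0 ≤ lv K (maxsupp K t B) i) ∧
      ∀ w : EuclideanSpace ℝ (Fin K), (∀ r ∈ B, ⟪lv K r, w⟫_ℝ = 0) → (∀ i, 0 ≤ w i) →
        ∀ j : Fin K, lv K (maxsupp K t B) j = 0 → w j = 0 := by
  obtain ⟨h, h2⟩ := (inv_init K t B).iter hB ht (K * t + 1)
  rw [maxsupp]
  set s := (round K t B)^[K * t + 1] (List.replicate K 1, List.replicate K 0) with hs
  have hb : bad K t s.2 (proj (gs (rowsOf K t B s.1 s.2))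
      (pc K t (gs (rowsOf K t B s.1 s.2)) s.2)).1 = none := by
    rcases h2 with h2 | h2
    · exact h2
    · exfalso
      have : ∑ j : Fin K, s.2.getD j 0 ≤ ∑ _j : Fin K, t :=
        Finset.sum_le_sum fun j _ => h.le j j.2
      simp only [Finset.sum_const, Finset.card_univ, Fintype.card_fin, smul_eq_mul] at this
      omega
  set R := rowsOf K t B s.1 s.2 with hR
  obtain ⟨c1, -, -⟩ := pc_spec (t := t) (e := s.2) (h.len hB)
  rw [← hR] at c1
  obtain ⟨D, hD0, -, hproj⟩ := gs_proj (h.len hB)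
  rw [← hR] at hproj
  obtain ⟨q1, q2⟩ := hproj _ c1
  set z := (proj (gs R) (pc K t (gs R) s.2)).1 with hz
  have hout : outp K t B s = mulV s.1 z := rfl
  rw [hout]
  have hzR : ∀ r ∈ R, ⟪lv K r, lv K z⟫_ℝ = 0 := by
    intro r hr
    rw [q2, inner_smul_right, real_inner_comm, PB_row hr, mul_zero]
  have hval : ∀ i : Fin K, lv K (mulV s.1 z) i = (s.1.getD i 0 : ℤ) * lv K z i := by
    intro i
    rw [lv_apply, getD_mulV h.lenS q1 i.2, lv_apply]
    push_cast
    ring
  have hforced : ∀ i : Fin K, t ≤ s.2.getD i 0 → lv K z i = 0 := by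
    intro i hi
    have : unitV K i ∈ R := by
      rw [hR, rowsOf, List.mem_append, List.mem_map, List.mem_map]
      exact Or.inr ⟨i, by rw [List.mem_filter]; exact ⟨by simp, by simpa using hi⟩, rfl⟩
    have := hzR _ this
    rwa [inner_unitV] at this
  have hpos : ∀ i : Fin K, s.2.getD i 0 < t → 0 < lv K z i := by
    intro i hi
    rw [lv_apply]
    exact Int.cast_pos.2 (bad_none hb i i.2 hi)
  have hS : ∀ i : Fin K, (0 : ℝ) < (s.1.getD i 0 : ℤ) := fun i => by
    exact_mod_cast h.pos i.2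
  refine ⟨length_mulV h.lenS q1, ?_, ?_, ?_⟩
  · intro r hr
    have h1 : mulV r s.1 ∈ R := by
      rw [hR, rowsOf, List.mem_append, List.mem_map]
      exact Or.inl ⟨r, hr, rfl⟩
    have h3 := hzR _ h1
    rw [inner_mulV (hB r hr) h.lenS] at h3
    rw [← h3]
    congr 1
    ext i
    rw [hval]
  · intro i
    rw [hval]
    rcases Nat.lt_or_ge (s.2.getD i 0) t with hi | hi
    · exact (mul_pos (hS i) (hpos i hi)).le
    · rw [hforced i hi, mul_zero]
  · intro w hw hw0 j hj
    rw [hval] at hj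
    rcases Nat.lt_or_ge (s.2.getD j 0) t with hi | hi
    · exact absurd hj (mul_pos (hS j) (hpos j hi)).ne'
    · exact h.forced hB ht hi w hw hw0

end Pool.Agent.Y644.QS
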