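import Pool.Agent.Y644.QS.Half
set_option autoImplicit false

/-!
# Improving paths, in reverse order, and their truncation
-/

namespace Pool.Agent.Y644.QS

open scoped InnerProductSpace
open Pool.Agent.H687R2.LLL Pool.Agent.NPC

/-- a vertex, as an integer vector in homogeneous coordinates -/
structure Vx (c : List ℤ) (E J : List (List ℤ)) (v : List ℤ) : Prop where
  len : v.length = c.length
  ext : Ext (rf c.length) E J (lv c.length v)
  pos : 0 < rf c.length (tau c) (lv c.length v)

/-- improving paths, in reverse order -/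
def Good (c : List ℤ) (E J : List (List ℤ)) : List (List ℤ) → Prop
  | [] => False
  | [v] => Vx c E J v
  | w :: v :: P => Step c E J v w ∧ Good c E J (v :: P)

/-- all inequalities -/
def jl (c : List ℤ) (I : List (List ℤ)) : List (List ℤ) := negV (tau c) :: I

variable {c : List ℤ} {E J : List (List ℤ)}

theorem Good.head {w : List ℤ} {P : List (List ℤ)} (h : Good c E J (w :: P)) :
    w.length = c.length ∧ Ext (rf c.length) E J (lv c.length w) := by
  cases P with
  | nil => exact ⟨h.len, h.ext⟩
  | cons v P => exact ⟨h.1.len, h.1.ext⟩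

theorem Good.last {v : List ℤ} : ∀ {Q : List (List ℤ)}, Good c E J (Q ++ [v]) → Vx c E J v
  | [], h => h
  | [_], h => h.2
  | _ :: b :: Q, h => Good.last (Q := b :: Q) h.2

theorem Good.append {v : List ℤ} {P : List (List ℤ)} (hP : Good c E J (v :: P)) :
    ∀ {Q : List (List ℤ)}, Good c E J (Q ++ [v]) → Good c E J (Q ++ v :: P)
  | [], _ => hP
  | [_], h => ⟨h.1, hP⟩
  | _ :: b :: Q, h => ⟨h.1, Good.append hP (Q := b :: Q) h.2⟩

/-- the last point of a path is a vertex or an improving ray -/
theorem Good.head_or (hJ : negV (tau c) ∈ J) {w : List ℤ} {P : List (List ℤ)}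
    (h : Good c E J (w :: P)) : 0 < rf c.length (tau c) (lv c.length w) ∨
      (rf c.length (tau c) (lv c.length w) = 0 ∧ 0 < rf c.length c (lv c.length w)) := by
  cases P with
  | nil => exact Or.inl h.pos
  | cons v P =>
    obtain ⟨h1, h2⟩ := pos_or hJ h.1.ext.mem h.1.up h.1.pos
    rcases h1.lt_or_eq with h3 | h3
    · exact Or.inl h3
    · rcases h2 with h2 | h2
      · exact Or.inl h2
      · exact Or.inr ⟨h3.symm, h2⟩

theorem Vx.of_face {F : List ℤ} (hF : F ∈ J) {J' : List (List ℤ)}
    (hJ : ∀ r ∈ J, r = F ∨ r ∈ J') (hJ' : ∀ r ∈ J', r ∈ J) {v : List ℤ}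
    (h : Vx c (F :: E) J' v) : Vx c E J v := ⟨h.len, h.ext.of_face hF hJ hJ', h.pos⟩

theorem Good.of_face {F : List ℤ} (hF : F ∈ J) {J' : List (List ℤ)}
    (hJ : ∀ r ∈ J, r = F ∨ r ∈ J') (hJ' : ∀ r ∈ J', r ∈ J) :
    ∀ {P : List (List ℤ)}, Good c (F :: E) J' P → Good c E J P
  | [], h => h
  | [_], h => Vx.of_face hF hJ hJ' h
  | _ :: v :: P, h => by
    have h0 := Good.of_face hF hJ hJ' (P := v :: P) h.2
    refine ⟨⟨h.1.len, h.1.pos, h.1.ext.of_face hF hJ hJ', ?_, h.1.up⟩, h0⟩
    exact h.1.adj.of_face hF hJ' ((Good.head h.2).2.mem.1 F (by simp))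
      (h.1.ext.mem.1 F (by simp))

theorem Good.of_relax {S : List (List ℤ)} (hS : ∀ r ∈ S, r ∈ J) :
    ∀ {P : List (List ℤ)}, Good c E S P → (∀ w ∈ P, InC (rf c.length) E J (lv c.length w)) →
      Good c E J P
  | [], h, _ => h
  | [v], h, hP => ⟨h.len, h.ext.of_relax hS (hP v (by simp)), h.pos⟩
  | w :: v :: P, h, hP => by
    have h0 := Good.of_relax hS (P := v :: P) h.2 fun x hx => hP x (by simp [hx])
    exact ⟨⟨h.1.len, h.1.pos, h.1.ext.of_relax hS (hP w (by simp)), h.1.adj.of_relax hS,
      h.1.up⟩, h0⟩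

/-! ### Truncation -/

/-- does `u` satisfy all inequalities? -/
def inside (J : List (List ℤ)) (u : List ℤ) : Bool := J.all fun r => decide (dot r u ≤ 0)

/-- is `u` a vertex on a facet which is not in `S`? -/
def hits (c : List ℤ) (I S : List (List ℤ)) (u : List ℤ) : Bool :=
  decide (0 < dot (tau c) u) && I.any fun r => !decide (r ∈ S) && decide (dot r u = 0)

/-- process one more point -/
def tstep (c : List ℤ) (E I S : List (List ℤ)) (u : List ℤ) (s : List (List ℤ) × Bool) :
    List (List ℤ) × Bool :=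
  if s.2 = true then s
  else if inside (jl c I) u = true then (u :: s.1, hits c I S u)
  else (normV c E (jl c I) (other (jl c I) (s.1.head?.getD []) u) :: s.1, true)

/-- follow a path of the relaxation `S` until it leaves the polyhedron or reaches a new facet -/
def trunc (c : List ℤ) (E I S : List (List ℤ)) (p : List (List ℤ)) : List (List ℤ) × Bool :=
  p.foldr (tstep c E I S) ([], false)

theorem inside_iff {N : ℕ} (hJ : Len N J) {u : List ℤ} (hu : u.length = N) :
    inside J u = true ↔ ∀ r ∈ J, rf N r (lv N u) ≤ 0 := by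
  rw [inside, List.all_eq_true]
  refine forall₂_congr fun r hr => ?_
  rw [decide_eq_true_iff, rf_dot (hJ r hr) hu]
  exact Int.cast_nonpos.symm

theorem hits_iff {I S : List (List ℤ)} (hI : Len c.length I) {u : List ℤ}
    (hu : u.length = c.length) : hits c I S u = true ↔ 0 < rf c.length (tau c) (lv c.length u) ∧
      ∃ r ∈ I, r ∉ S ∧ rf c.length r (lv c.length u) = 0 := by
  rw [hits, Bool.and_eq_true, decide_eq_true_iff, List.any_eq_true, rf_dot (length_tau c) hu]
  refine and_congr Int.cast_pos.symm (exists_congr fun r => and_congr_right fun hr => ?_)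
  rw [Bool.and_eq_true, Bool.not_eq_true', decide_eq_false_iff_not, decide_eq_true_iff,
    rf_dot (hI r hr) hu]
  exact and_congr_right fun _ => Int.cast_eq_zero.symm

theorem mem_jl {I : List (List ℤ)} {r : List ℤ} : r ∈ jl c I ↔ r = negV (tau c) ∨ r ∈ I :=
  List.mem_cons

theorem tau_mem_jl (c : List ℤ) (I : List (List ℤ)) : negV (tau c) ∈ jl c I := by simp [jl]

theorem Len.jl {I : List (List ℤ)} (h : Len c.length I) : Len c.length (jl c I) :=
  h.cons (length_negV (length_tau c))

theorem jl_mono {S I : List (List ℤ)} (h : ∀ r ∈ S, r ∈ I) : ∀ r ∈ jl c S, r ∈ jl c I := by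
  intro r hr
  rcases mem_jl.1 hr with hr | hr
  · exact mem_jl.2 (Or.inl hr)
  · exact mem_jl.2 (Or.inr (h r hr))

theorem trunc_spec {I S : List (List ℤ)} (hE : Len c.length E) (hI : Len c.length I)
    (hS : ∀ r ∈ S, r ∈ I) {v : List ℤ} (hv : InC (rf c.length) E (jl c I) (lv c.length v))
    (hvS : ∀ r ∈ I, rf c.length r (lv c.length v) = 0 → r ∈ S) :
    ∀ {Q : List (List ℤ)}, Good c E (jl c S) (Q ++ [v]) →
      ∀ s, s = trunc c E I S (Q ++ [v]) →
      (∃ Q', s.1 = Q' ++ [v]) ∧ Good c E (jl c I) s.1 ∧ s.1.length ≤ (Q ++ [v]).length ∧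
      (s.2 = false → s.1 = Q ++ [v] ∧ ∀ x P, s.1 = x :: P →
        0 < rf c.length (tau c) (lv c.length x) →
        ∀ r ∈ I, rf c.length r (lv c.length x) = 0 → r ∈ S) ∧
      (s.2 = true → ∃ x P, s.1 = x :: P ∧ 0 < rf c.length (tau c) (lv c.length x) ∧
        ∃ r ∈ I, r ∉ S ∧ rf c.length r (lv c.length x) = 0) := by
  have hJ : Len c.length (jl c I) := hI.jl
  have hSJ : ∀ r ∈ jl c S, r ∈ jl c I := jl_mono hS
  have hτJ := tau_mem_jl c I
  intro Q
  induction Q with
  | nil =>
    rintro hg s rfl
    have hg' : Vx c E (jl c S) v := hg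
    have h1 : inside (jl c I) v = true := (inside_iff hJ hg'.len).2 hv.2
    have h2 : hits c I S v = false := by
      rw [Bool.eq_false_iff]
      intro hc
      obtain ⟨-, r, hr, h3, h4⟩ := (hits_iff hI hg'.len).1 hc
      exact h3 (hvS r hr h4)
    have e : trunc c E I S ([] ++ [v]) = ([v], false) := by
      simp [trunc, tstep, h1, h2]
    rw [e]
    refine ⟨⟨[], rfl⟩, ⟨hg'.len, hg'.ext.of_relax hSJ hv, hg'.pos⟩, le_rfl, fun _ => ⟨rfl, ?_⟩,
      by simp⟩
    intro x P hx _ r hr h0
    simp only [List.cons.injEq] at hx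
    rw [← hx.1] at h0
    exact hvS r hr h0
  | cons u Q ih =>
    rintro hg s rfl
    obtain ⟨x, P, hxP⟩ : ∃ x P, Q ++ [v] = x :: P := by
      cases Q with
      | nil => exact ⟨v, [], rfl⟩
      | cons a Q => exact ⟨a, Q ++ [v], rfl⟩
    rw [List.cons_append, hxP] at hg ⊢
    obtain ⟨hst, hg2⟩ := hg
    rw [hxP] at ih
    obtain ⟨i1, i2, i3, i4, i5⟩ := ih hg2 _ rfl
    have e : trunc c E I S (u :: x :: P) = tstep c E I S u (trunc c E I S (x :: P)) := rfl
    rw [e]
    set s0 := trunc c E I S (x :: P) with hs0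
    unfold tstep
    by_cases hf : s0.2 = true
    · rw [if_pos hf]
      refine ⟨i1, i2, by simp only [List.length_cons] at i3 ⊢; omega, fun h => ?_, i5⟩
      rw [hf] at h
      exact absurd h (by simp)
    · rw [if_neg hf]
      rw [Bool.not_eq_true] at hf
      obtain ⟨j1, j2⟩ := i4 hf
      have hx1 := j2 x P j1 hst.pos
      rw [j1] at i1 i2
      rw [j1]
      have hxl := (Good.head hg2).1
      have hxE := (Good.head i2).2
      by_cases hin : inside (jl c I) u = true
      · rw [if_pos hin]
        have hu := (inside_iff hJ hst.len).1 hin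
        have huC : InC (rf c.length) E (jl c I) (lv c.length u) := ⟨hst.ext.mem.1, hu⟩
        obtain ⟨Q', hQ'⟩ := i1
        refine ⟨⟨u :: Q', by rw [hQ']; rfl⟩, ⟨⟨hst.len, hst.pos, hst.ext.of_relax hSJ huC,
          hst.adj.of_relax hSJ, hst.up⟩, i2⟩, by simp, fun h => ⟨rfl, ?_⟩, fun h => ?_⟩
        · intro y P' hy hτy r hr h0
          simp only [List.cons.injEq] at hy
          rw [← hy.1] at hτy h0
          by_contra hrS
          have : hits c I S u = true := (hits_iff hI hst.len).2 ⟨hτy, r, hr, hrS, h0⟩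
          exact absurd (this.symm.trans h) (by simp)
        · exact ⟨u, _, rfl, (hits_iff hI hst.len).1 h⟩
      · rw [if_neg hin]
        have hT : ∀ q ∈ jl c I, rf c.length q (lv c.length x) = 0 →
            rf c.length q (lv c.length u) ≤ 0 := by
          intro q hq h0
          rcases mem_jl.1 hq with rfl | hq
          · exact hst.ext.mem.2 _ (tau_mem_jl c S)
          · exact hst.ext.mem.2 _ (mem_jl.2 (Or.inr (hx1 q hq h0)))
        have hneg : rf c.length (negV (tau c)) (lv c.length x) < 0 := by
          rw [rf_negV]; have := hst.pos; linarith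
        obtain ⟨o1, r, hr, hrx, o2, o3⟩ := other_spec hJ hxl hst.len hxE.mem hT
          ⟨_, hτJ, hneg⟩
        obtain ⟨b1, b2⟩ := blocked_ext hxE.mem.1 hst.ext.mem.1 hst.up.not_smul
          (hst.adj.of_relax hSJ) hr hrx o3
        have b3 := blocked_up (b := rf c.length r (lv c.length u)) (neg_pos.2 hrx) hst.up
        have b4 : 0 ≤ rf c.length r (lv c.length u) :=
          blocked_relax hSJ (hxE.mem.to_relax hSJ) hst.ext hst.up hrx o3
        have b5 : 0 < rf c.length r (lv c.length u) := by
          refine lt_of_le_of_ne b4 fun h0 => hin ?_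
          rw [inside_iff hJ hst.len]
          intro q hq
          have := o3 q hq
          rw [← h0, zero_smul, add_zero, map_smul, smul_eq_mul] at this
          nlinarith
        have hrS : r ∉ jl c S := fun h => by
          have := hst.ext.mem.2 r h
          linarith
        have hrI : r ∈ I := by
          rcases mem_jl.1 hr with rfl | h
          · exact absurd (tau_mem_jl c S) hrS
          · exact h
        have hτ : 0 < rf c.length (tau c) ((-(rf c.length r (lv c.length x))) • lv c.length u +
            (rf c.length r (lv c.length u)) • lv c.length x) := by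
          have h1 := hst.ext.mem.2 _ (tau_mem_jl c S)
          rw [rf_negV] at h1
          simp only [map_add, map_smul, smul_eq_mul]
          have h2 := mul_pos b5 hst.pos
          nlinarith
        have hrw : rf c.length r ((-(rf c.length r (lv c.length x))) • lv c.length u +
            (rf c.length r (lv c.length u)) • lv c.length x) = 0 := blocked_row
        rw [← o2] at b1 b2 b3 hτ hrw
        have e2 : ((x :: P).head?.getD []) = x := rfl
        rw [e2]
        obtain ⟨n1, t, ht, n2⟩ := normV_spec hE hJ o1 b1 (Or.inl hτ)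
        obtain ⟨Q', hQ'⟩ := i1
        refine ⟨⟨_ :: Q', by rw [hQ']; rfl⟩, ⟨⟨n1, hst.pos, by rw [n2]; exact b1.smul ht,
          by rw [n2]; exact b2.smul_right ht.ne', by rw [n2]; exact b3.smul_right ht⟩, i2⟩,
          by simp, fun h => absurd h (by simp), fun _ => ⟨_, _, rfl, ?_, r, hrI, ?_, ?_⟩⟩
        · rw [n2, map_smul, smul_eq_mul]; exact mul_pos ht hτ
        · exact fun h => hrS (mem_jl.2 (Or.inr h))
        · rw [n2, map_smul, hrw, smul_zero]

/-! ### Paths above the tops of the facets in `S` -/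

theorem up_trans (hJ : negV (tau c) ∈ J) {x y z : EuclideanSpace ℝ (Fin c.length)}
    (hz : InC (rf c.length) E J z) (hx : 0 < rf c.length (tau c) x)
    (hy : 0 < rf c.length (tau c) y) (h1 : Up (rf c.length (tau c)) (rf c.length c) x y)
    (h2 : Up (rf c.length (tau c)) (rf c.length c) y z) :
    Up (rf c.length (tau c)) (rf c.length c) x z := by
  have h3 := hz.2 _ hJ
  rw [rf_negV] at h3
  unfold Up at *
  have h4 : (rf c.length c x * rf c.length (tau c) y) * rf c.length (tau c) z ≤
      (rf c.length c y * rf c.length (tau c) x) * rf c.length (tau c) z :=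
    mul_le_mul_of_nonneg_right h1.le (by linarith)
  have h5 : (rf c.length c y * rf c.length (tau c) z) * rf c.length (tau c) x <
      (rf c.length c z * rf c.length (tau c) y) * rf c.length (tau c) x :=
    mul_lt_mul_of_pos_right h2 hx
  have h6 : (rf c.length c x * rf c.length (tau c) z) * rf c.length (tau c) y <
      (rf c.length c z * rf c.length (tau c) x) * rf c.length (tau c) y := by linarith
  exact lt_of_mul_lt_mul_right h6 hy.le

theorem rest_path {J' S : List (List ℤ)} (hτJ : negV (tau c) ∈ J')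
    (hJ : ∀ r ∈ J, r ∈ S ∨ r ∈ J') {w u : List ℤ} (hw : w.length = c.length)
    (hwτ : 0 < rf c.length (tau c) (lv c.length w))
    (hS : ∀ F ∈ S, ∀ z, InC (rf c.length) E J z → rf c.length F z = 0 →
      rf c.length (gain c w) z ≤ 0)
    (hu : InC (rf c.length) E J (lv c.length u))
    (hup : Up (rf c.length (tau c)) (rf c.length c) (lv c.length w) (lv c.length u)) :
    ∀ {Q : List (List ℤ)}, Good c E J' (Q ++ [u]) → ∀ x ∈ Q ++ [u],
      InC (rf c.length) E J (lv c.length x) ∧
      Up (rf c.length (tau c)) (rf c.length c) (lv c.length w) (lv c.length x) := by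
  intro Q
  induction Q with
  | nil =>
    intro _ x hx
    simp only [List.nil_append, List.mem_singleton] at hx
    subst hx
    exact ⟨hu, hup⟩
  | cons y Q ih =>
    intro hg x hx
    obtain ⟨a, P, haP⟩ : ∃ a P, Q ++ [u] = a :: P := by
      cases Q with
      | nil => exact ⟨u, [], rfl⟩
      | cons a Q => exact ⟨a, Q ++ [u], rfl⟩
    rw [List.cons_append, haP] at hg hx
    obtain ⟨hst, hg2⟩ := hg
    rw [haP] at ih
    have ih' := ih hg2
    rcases List.mem_cons.1 hx with rfl | hx
    · obtain ⟨a1, a2⟩ := ih' a (by simp)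
      have hup2 := up_trans hτJ hst.ext.mem hwτ hst.pos a2 hst.up
      exact ⟨rest_mem (g := rf c.length (gain c w)) hJ hS a1 ((gain_pos_iff hw _).2 a2)
        hst.ext.mem ((gain_pos_iff hw _).2 hup2), hup2⟩
    · exact ih' x hx

end Pool.Agent.Y644.QS
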