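import Pool.Agent.H671R2.PolyAuto
import Pool.Agent.Y644.QS.Machine
set_option autoImplicit false

/-!
# Polynomial time: tools, projections
-/

namespace Pool.Agent.NPC

open Pool.Agent.H687R2.LLL Pool.Agent.Y644.QS

attribute [fun_prop] UPoly UPoly.range UPoly.length UPoly.add UPoly.mul UPoly.comp UPoly.const
  Poly.vdot Poly.comb Poly.divV Poly.ilt Poly.ile Poly.iadd Poly.isub Poly.imul Poly.ineg
  Poly.toNat Poly.zipWith Poly.isum Poly.natAbs

variable {α β γ δ σ : Type} [TEnc α] [TEnc β] [TEnc γ] [TEnc δ] [TEnc σ]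

theorem Poly.bitsList {f : α → β} (hf : Poly f) : Poly (fun a => (bits (f a) : List Bool)) := by
  have h : Poly (fun b : β => (bits b : List Bool)) := by
    obtain ⟨c, p, h⟩ := PC.ofBits
    exact ⟨c, p, fun b => h (bits b)⟩
  exact h.comp hf

theorem UPoly.sz {f : α → β} (hf : Poly f) : UPoly (fun a => sz (f a)) :=
  (UPoly.length hf.bitsList)

theorem Poly.replicateU {n : α → ℕ} {x : α → β} (hn : UPoly n) (hx : Poly x) :
    Poly (fun a => List.replicate (n a) (x a)) := by
  have h : Poly (fun a => (List.range (n a)).map fun _ => x a) := by fun_prop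
  exact h.congr fun a => by simp

theorem Poly.iterU {n : α → ℕ} {s : α → σ} {F : α → σ → σ} (hn : UPoly n) (hs : Poly s)
    (hF : Poly (fun p : α × σ => F p.1 p.2)) (q : Polynomial ℕ)
    (hq : ∀ a, ∀ k ≤ n a, sz ((F a)^[k] (s a)) ≤ q.eval (NPC.sz a)) :
    Poly (fun a => (F a)^[n a] (s a)) := by
  refine (Poly.iterLen (l := fun a => List.replicate (n a) ()) hn hs hF q ?_).congr fun a => by
    simp
  intro a k hk
  exact hq a k (by simpa using hk)

attribute [fun_prop] UPoly.sz Poly.replicateU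

theorem Poly.unitV {K j : α → ℕ} (hK : UPoly K) (hj : Poly j) :
    Poly (fun a => Y644.QS.unitV (K a) (j a)) := by
  unfold Y644.QS.unitV
  fun_prop

theorem Poly.mulV {u v : α → List ℤ} (hu : Poly u) (hv : Poly v) :
    Poly (fun a => Y644.QS.mulV (u a) (v a)) := by
  unfold Y644.QS.mulV
  fun_prop

theorem Poly.addV {u v : α → List ℤ} (hu : Poly u) (hv : Poly v) :
    Poly (fun a => Y644.QS.addV (u a) (v a)) := by
  unfold Y644.QS.addV
  fun_prop

theorem Poly.fixL {N : α → ℕ} {r : α → List ℤ} (hN : UPoly N) (hr : Poly r) :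
    Poly (fun a => Y644.QS.fixL (N a) (r a)) := by
  unfold Y644.QS.fixL
  fun_prop

attribute [fun_prop] Poly.unitV Poly.mulV Poly.addV Poly.fixL

theorem Poly.fixR {N : α → ℕ} {L : α → List (List ℤ)} (hN : UPoly N) (hL : Poly L) :
    Poly (fun a => Y644.QS.fixR (N a) (L a)) := by
  unfold Y644.QS.fixR
  fun_prop

attribute [fun_prop] Poly.fixR

end Pool.Agent.NPC

namespace Pool.Agent.NPC.Y644

open Pool.Agent.Y644.QS Pool.Agent.H687R2.LLL

/-! ### Projections -/

theorem nrm_pStep {x : List ℤ} {s : List ℤ × ℕ} {t : List ℤ × ℕ} {M : ℕ}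
    (h : nrm s.1 < 2 ^ M) : nrm (pStep x s t).1 < 2 ^ (M + 2 * sz t + sz x) := by
  obtain ⟨v, d⟩ := t
  simp only [pStep]
  refine lt_of_le_of_lt (nrm_divV _ _) (lt_of_le_of_lt (nrm_comb _ _ _ _) ?_)
  have h1 := natAbs_dot_le x v
  have h2 := nrm_lt v
  have h3 := nrm_lt x
  have h4 := nat_lt_two_pow d
  rw [Int.natAbs_natCast]
  simp only [sz_pair]
  have h5 : d * nrm s.1 < 2 ^ (sz d + M) := by rw [pow_add]; exact Nat.mul_lt_mul'' h4 h
  have h6 : (dot x v).natAbs * nrm v ≤ 2 ^ (sz x + sz v + sz v) := by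
    rw [pow_add, pow_add]
    exact Nat.mul_le_mul (h1.trans (Nat.mul_le_mul h3.le h2.le)) h2.le
  have h7 : 2 ^ (sz d + M) ≤ 2 ^ (M + 2 * (sz v + sz d) + 1 + sz x) :=
    Nat.pow_le_pow_right (by norm_num) (by omega)
  have h8 : 2 ^ (sz x + sz v + sz v) ≤ 2 ^ (M + 2 * (sz v + sz d) + 1 + sz x) :=
    Nat.pow_le_pow_right (by norm_num) (by omega)
  have h9 : 2 ^ (M + 2 * (sz v + sz d + 1) + sz x) =
      2 ^ (M + 2 * (sz v + sz d) + 1 + sz x) * 2 := by
    rw [← pow_succ]; congr 1; ring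
  rw [h9]
  omega

theorem pFold_bound (x : List ℤ) : ∀ (l : List (List ℤ × ℕ)) (s : List ℤ × ℕ) (M : ℕ),
    nrm s.1 < 2 ^ M → nrm (l.foldl (pStep x) s).1 < 2 ^ (M + 2 * sz l + l.length * sz x) ∧
      (l.foldl (pStep x) s).1.length ≤ s.1.length ∧
      sz (l.foldl (pStep x) s).2 ≤ sz s.2 + sz l := by
  intro l
  induction l with
  | nil =>
    intro s M h
    refine ⟨lt_of_lt_of_le h (Nat.pow_le_pow_right (by norm_num) (by omega)), le_rfl, by simp⟩
  | cons t l ih =>
    intro s M h
    rw [List.foldl_cons]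
    obtain ⟨h1, h2, h3⟩ := ih _ _ (nrm_pStep (x := x) (t := t) h)
    refine ⟨lt_of_lt_of_le h1 (Nat.pow_le_pow_right (by norm_num) ?_), h2.trans ?_, h3.trans ?_⟩
    · simp only [sz_list_cons, List.length_cons]; nlinarith
    · simp only [pStep, divV, List.length_map]; exact length_comb_le _ _ _ _
    · obtain ⟨v, d⟩ := t
      simp only [pStep, sz_list_cons, sz_pair]
      omega

theorem poly_proj0 : Poly (fun p : List (List ℤ × ℕ) × List ℤ => proj p.1 p.2) := by
  unfold proj
  have hF : Poly (fun q : (List (List ℤ × ℕ) × List ℤ) × (List ℤ × ℕ) × (List ℤ × ℕ) =>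
      pStep q.1.2 q.2.1 q.2.2) := by
    unfold pStep
    fun_prop
  refine Poly.foldl (α := List (List ℤ × ℕ) × List ℤ) (β := List ℤ × ℕ)
    (σ := List ℤ × ℕ) (l := fun p => p.1) (s := fun p => (p.2, 1))
    (F := fun p s t => pStep p.2 s t) (by fun_prop) (by fun_prop) hF
    (Polynomial.X * (Polynomial.C 4 * (Polynomial.C 3 * Polynomial.X +
      Polynomial.X * Polynomial.X) + Polynomial.C 6) + Polynomial.X + Polynomial.C 10) ?_
  rintro ⟨acc, bi⟩ k hk
  simp only
  obtain ⟨e1, e2, e3⟩ := pFold_bound bi (acc.take k) (bi, 1) (sz bi) (nrm_lt bi)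
  have e4 := sz_of_nrm e1
  have e5 := Poly.sz_take_le acc k
  have e6 : (acc.take k).length ≤ acc.length := by simp
  have e7 := length_lt_sz acc
  have e8 := length_lt_sz bi
  have e9 : sz (1 : ℕ) ≤ 5 := sz_nat_of_lt (M := 1) (by norm_num)
  set R := (acc.take k).foldl (pStep bi) (bi, 1)
  rw [show sz R = sz R.1 + sz R.2 + 1 from sz_pair _ _]
  simp only [sz_pair, Polynomial.eval_add, Polynomial.eval_mul, Polynomial.eval_C,
    Polynomial.eval_X]
  simp only at e2 e3
  have e10 : (acc.take k).length * sz bi ≤ (sz acc + sz bi + 1) * (sz acc + sz bi + 1) :=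
    Nat.mul_le_mul (by omega) (by omega)
  have e11 : R.1.length * (4 * (sz bi + 2 * sz (acc.take k) + (acc.take k).length * sz bi) + 6)
    ≤ (sz acc + sz bi + 1) * (4 * (3 * (sz acc + sz bi + 1) +
      (sz acc + sz bi + 1) * (sz acc + sz bi + 1)) + 6) :=
    Nat.mul_le_mul (by omega) (by omega)
  omega

variable {α : Type} [TEnc α]

theorem poly_proj {acc : α → List (List ℤ × ℕ)} {x : α → List ℤ} (ha : Poly acc) (hx : Poly x) :
    Poly (fun a => proj (acc a) (x a)) :=
  Poly.comp (g := fun p : List (List ℤ × ℕ) × List ℤ => proj p.1 p.2)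
    (f := fun a => (acc a, x a)) poly_proj0 (Poly.pair ha hx)

attribute [fun_prop] poly_proj

theorem poly_addRow {acc : α → List (List ℤ × ℕ)} {x : α → List ℤ} (ha : Poly acc)
    (hx : Poly x) : Poly (fun a => addRow (acc a) (x a)) := by
  unfold addRow
  fun_prop

attribute [fun_prop] poly_addRow

/-- the entries of `gs` are bounded -/
theorem gs_entry {N b : ℕ} {B : List (List ℤ)} (hB : Len N B) (hb : ∀ r ∈ B, sz r ≤ b) :
    ∀ t ∈ gs B, t.1.length = N ∧ nrm t.1 ≤ N * 2 ^ (2 * b * B.length) ∧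
      t.2 ≤ 2 ^ (2 * b * B.length) := by
  obtain ⟨v, h1, h2, h3, h4, h5⟩ := gs_spec N B hB
  intro t ht
  obtain ⟨j, hj, rfl⟩ := List.getElem_of_mem ht
  obtain ⟨t1, t2, t3⟩ := h3 j hj
  have hprod : (B.map fun r => max 1 (‖lv N r‖ ^ 2)).prod ≤ 2 ^ (2 * b * B.length) :=
    gprod_le (K := N) (b := 2 * b) (B := B) fun r hr => normSq_lv_le (hb r hr)
  have g0 := (h5 j hj.le).trans hprod
  have g1 := (h5 (j + 1) hj).trans hprod
  have p0 := h2 j hj.le
  have p1 := h2 (j + 1) hj
  refine ⟨t1, ?_, ?_⟩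
  · have hn : ‖lv N ((gs B)[j]).1‖ ≤ 2 ^ (2 * b * B.length) := by
      have e1 : ‖lv N ((gs B)[j]).1‖ ^ 2 = gd v j * gd v (j + 1) := by
        rw [t2, norm_smul, mul_pow, Real.norm_eq_abs, sq_abs, gd_succ p0.ne']
        ring
      have e2 : ‖lv N ((gs B)[j]).1‖ ^ 2 ≤ (2 ^ (2 * b * B.length)) ^ 2 := by
        rw [e1, pow_two ((2 : ℝ) ^ (2 * b * B.length))]
        exact mul_le_mul g0 g1 p1.le (by positivity)
      exact (abs_le_of_sq_le_sq' e2 (by positivity)).2
    have hc : ∀ i : Fin N, (((gs B)[j]).1.getD i 0).natAbs ≤ 2 ^ (2 * b * B.length) := by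
      intro i
      have e3 := (PiLp.norm_apply_le (lv N ((gs B)[j]).1) i).trans hn
      rw [lv_apply, Real.norm_eq_abs] at e3
      have e4 : ((((gs B)[j]).1.getD i 0).natAbs : ℝ) ≤ 2 ^ (2 * b * B.length) := by
        rw [Nat.cast_natAbs, Int.cast_abs]; exact e3
      exact_mod_cast e4
    have key : ∀ (l : List ℤ) (G : ℕ), (∀ x ∈ l, x.natAbs ≤ G) → nrm l ≤ l.length * G := by
      intro l G
      induction l with
      | nil => simp
      | cons x l ih =>
        intro h
        have := ih fun y hy => h y (by simp [hy])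
        have := h x (by simp)
        rw [nrm_cons, List.length_cons, Nat.succ_mul]
        omega
    rw [← t1] at hc ⊢
    refine key _ _ fun x hx => ?_
    obtain ⟨i, hi, rfl⟩ := List.getElem_of_mem hx
    have := hc ⟨i, hi⟩
    rwa [List.getD_eq_getElem _ _ hi] at this
  · have e1 : ((((gs B)[j]).2 : ℕ) : ℝ) ≤ 2 ^ (2 * b * B.length) := by rw [t3]; exact g1
    exact_mod_cast e1

theorem gs_length (B : List (List ℤ)) : (gs B).length ≤ B.length := by
  induction B using List.reverseRecOn with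
  | nil => simp [gs]
  | append_singleton B a ih =>
    rw [gs_append, addRow]
    split_ifs
    · simp; omega
    · simp only [List.length_append, List.length_cons, List.length_nil]; omega

theorem sz_gs {N b : ℕ} {B : List (List ℤ)} (hB : Len N B) (hb : ∀ r ∈ B, sz r ≤ b) :
    sz (gs B) ≤ B.length * ((N * (4 * (N + 2 * b * B.length + 1) + 6) + 1) +
      (4 * (2 * b * B.length + 1) + 1) + 2) + 1 := by
  refine (sz_le_length_mul (gs B) ((N * (4 * (N + 2 * b * B.length + 1) + 6) + 1) +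
      (4 * (2 * b * B.length + 1) + 1) + 1) fun t ht => ?_).trans ?_
  · obtain ⟨h1, h2, h3⟩ := gs_entry hB hb t ht
    have e1 : nrm t.1 < 2 ^ (N + 2 * b * B.length + 1) := by
      refine lt_of_le_of_lt h2 ?_
      rw [add_assoc, pow_add, pow_succ]
      have : N < 2 ^ N := Nat.lt_two_pow_self
      have h5 : 0 < 2 ^ (2 * b * B.length) := by positivity
      nlinarith
    have e2 := sz_of_nrm e1
    rw [h1] at e2
    have e3 : t.2 < 2 ^ (2 * b * B.length + 1) := by
      rw [pow_succ]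
      have h5 : 0 < 2 ^ (2 * b * B.length) := by positivity
      omega
    have e4 := sz_nat_of_lt e3
    rw [show sz t = sz t.1 + sz t.2 + 1 from sz_pair _ _]
    omega
  · have := gs_length B
    exact Nat.add_le_add_right (Nat.mul_le_mul this le_rfl) 1

theorem poly_gsF {N : α → ℕ} {B : α → List (List ℤ)} (hN : UPoly N) (hB : Poly B) :
    Poly (fun a => gs (fixR (N a) (B a))) := by
  have hR : Poly (fun a => fixR (N a) (B a)) := by fun_prop
  obtain ⟨q, hq⟩ := hR.sz_le
  obtain ⟨r, hr⟩ := (UPoly.toPoly hN).sz_le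
  obtain ⟨w, hw⟩ := Poly.sz_le (show Poly (fun a => List.replicate (N a) ()) from hN)
  unfold gs
  refine Poly.foldl (l := fun a => fixR (N a) (B a)) (s := fun _ => ([] : List (List ℤ × ℕ)))
    (F := fun _ acc x => addRow acc x) hR (Poly.const _) (by fun_prop)
    (q * ((w * (Polynomial.C 4 * (w + Polynomial.C 2 * q * q + 1) + 6) + 1) +
      (4 * (2 * q * q + 1) + 1) + 2) + 1) ?_
  intro a k hk
  have h1 : ((fixR (N a) (B a)).take k).foldl (fun acc x => addRow acc x) [] =
      gs ((fixR (N a) (B a)).take k) := rfl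
  rw [h1]
  have hl : Len (N a) ((fixR (N a) (B a)).take k) := fun x hx =>
    len_fixR _ _ x (List.mem_of_mem_take hx)
  refine (sz_gs hl (b := q.eval (sz a)) fun x hx => ?_).trans ?_
  · exact (sz_le_of_mem (List.mem_of_mem_take hx)).le.trans (hq a)
  · have h2 : ((fixR (N a) (B a)).take k).length ≤ q.eval (sz a) := by
      have := length_lt_sz (fixR (N a) (B a))
      have := hq a
      simp
      omega
    have h3 : N a ≤ w.eval (sz a) := by
      have := length_lt_sz (List.replicate (N a) ())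
      rw [List.length_replicate] at this
      have := hw a
      omega
    simp only [Polynomial.eval_add, Polynomial.eval_mul, Polynomial.eval_C, Polynomial.eval_one,
      Polynomial.eval_ofNat]
    gcongr

attribute [fun_prop] poly_gsF

end Pool.Agent.NPC.Y644
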