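import Pool.Agent.Y644.QS.Conv
set_option autoImplicit false

/-!
# The computed path, as a sequence of rational vertices
-/

namespace Pool.Agent.Y644.QS

open scoped InnerProductSpace
open Pool.Agent.H687R2.LLL Pool.Agent.NPC Pool.Agent.NPC.H532.RP

/-- `x` and `y` are joined by an edge of `P`, on which the objective function increases -/
def ImprovingEdge {n : ℕ} (P : Set (Fin n → ℝ)) (c x y : Fin n → ℚ) : Prop :=
  IsExposed ℝ P (segment ℝ (re x) (re y)) ∧ obj c (re x) < obj c (re y)

/-- `P` has an unbounded edge at `x` in the direction `d`, on which the objective function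
increases -/
def UnboundedEdge {n : ℕ} (P : Set (Fin n → ℝ)) (c x d : Fin n → ℚ) : Prop :=
  IsExposed ℝ P {z | ∃ t : ℝ, 0 ≤ t ∧ z = re x + t • re d} ∧ 0 < obj c (re d)

/-- the rational point with homogeneous coordinates `w` -/
def xq (n : ℕ) (w : List ℤ) : Fin n → ℚ := fun j => (w.getD j 0 : ℚ) / (w.getD n 0 : ℚ)

/-- the direction with homogeneous coordinates `w` -/
def dq (n : ℕ) (w : List ℤ) : Fin n → ℚ := fun j => (w.getD j 0 : ℚ)

section

variable {n N : ℕ} (hN : N = n + 1)

theorem lv_xq {w : List ℤ} (h : 0 < w.getD n 0) :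
    lv N w = (w.getD n 0 : ℝ) • eN hN (re (xq n w), 1) := by
  rw [lv_eN hN, ← map_smul]
  congr 1
  have h0 : (w.getD n 0 : ℝ) ≠ 0 := by exact_mod_cast h.ne'
  refine Prod.ext (funext fun j => ?_) ?_
  · simp only [re, xq, Prod.smul_mk, Pi.smul_apply, smul_eq_mul]
    push_cast
    field_simp
  · simp

theorem lv_dq {w : List ℤ} (h : w.getD n 0 = 0) : lv N w = eN hN (re (dq n w), 0) := by
  rw [lv_eN hN]
  congr 1
  refine Prod.ext (funext fun j => ?_) ?_
  · simp [re, dq]
  · simp only [h, Int.cast_zero]

theorem rf_tau_lv {C : List ℤ} (hN : C.length = n + 1) (w : List ℤ) :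
    rf C.length (tau C) (lv C.length w) = (w.getD n 0 : ℝ) := by
  rw [lv_eN hN, rf_tau]

end

variable {m n : ℕ} {A : Fin m → Fin n → ℚ} {b : Fin m → ℚ} {c v : Fin n → ℚ}

/-- all inequalities of the linear program -/
def rowsJ (x : Inp) : List (List ℤ) := jl (crow x) (rowsI x)

theorem vertex_of_ext {w : List ℤ} (hw : Ext (rf (crow (inp A b c v)).length) [] (rowsJ (inp A b c v)) (lv (crow (inp A b c v)).length w))
    (h : 0 < w.getD n 0) : re (xq n w) ∈ Set.extremePoints ℝ (polyhedron A b) := by
  rw [← PP_eq (A := A) (b := b) (c := c) (v := v)]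
  refine extreme_of_ext ?_
  have h0 : (0 : ℝ) < w.getD n 0 := by exact_mod_cast h
  have h1 := hw.smul (inv_pos.2 h0)
  rw [lv_xq length_crow h, smul_smul, inv_mul_cancel₀ h0.ne', one_smul] at h1
  exact h1

theorem startV_inp : startV (inp A b c v) = zrow (List.ofFn v ++ [1]) := rfl

theorem getD_startV : 0 < (startV (inp A b c v)).getD n 0 := by
  have h1 := getD_zrow (List.ofFn v ++ [1]) n
  rw [getD_ofFn_append_last, mul_one] at h1
  rw [startV_inp]
  have h2 : (0 : ℚ) < zden (List.ofFn v ++ [1]) := by exact_mod_cast zden_pos _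
  rw [← h1] at h2
  exact_mod_cast h2

theorem xq_startV : xq n (startV (inp A b c v)) = v := by
  funext j
  unfold xq
  rw [startV_inp, getD_zrow, getD_zrow, getD_ofFn_append_last, getD_ofFn_append, mul_one]
  have h2 : (zden (List.ofFn v ++ [1]) : ℚ) ≠ 0 := by exact_mod_cast (zden_pos _).ne'
  field_simp

theorem start_vx (hv : re v ∈ Set.extremePoints ℝ (polyhedron A b)) :
    Vx (crow (inp A b c v)) [] (rowsJ (inp A b c v)) (startV (inp A b c v)) := by
  refine ⟨by simp [startV_inp, length_zrow, length_crow], ?_, ?_⟩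
  · rw [lv_xq length_crow getD_startV, xq_startV]
    refine Ext.smul ?_ (by exact_mod_cast getD_startV)
    refine ext_of_extreme ?_
    rw [rowsJ, PP_eq]
    exact hv
  · rw [rf_tau_lv length_crow]
    exact_mod_cast getD_startV

theorem improving_of_step {w u : List ℤ} (hw : Ext (rf (crow (inp A b c v)).length) [] (rowsJ (inp A b c v)) (lv (crow (inp A b c v)).length w))
    (h : Step (crow (inp A b c v)) [] (rowsJ (inp A b c v)) w u) (hu : 0 < u.getD n 0) :
    ImprovingEdge (polyhedron A b) c (xq n w) (xq n u) := by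
  have hwτ := h.pos
  rw [rf_tau_lv length_crow] at hwτ
  have hw0 : 0 < w.getD n 0 := by exact_mod_cast hwτ
  have hu0 : (0 : ℝ) < u.getD n 0 := by exact_mod_cast hu
  have e1 : eN length_crow (re (xq n w), 1) = (w.getD n 0 : ℝ)⁻¹ • lv (crow (inp A b c v)).length w := by
    rw [lv_xq length_crow hw0, smul_smul, inv_mul_cancel₀ hwτ.ne', one_smul]
  have e2 : eN length_crow (re (xq n u), 1) = (u.getD n 0 : ℝ)⁻¹ • lv (crow (inp A b c v)).length u := by
    rw [lv_xq length_crow hu, smul_smul, inv_mul_cancel₀ hu0.ne', one_smul]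
  constructor
  · rw [← PP_eq (A := A) (b := b) (c := c) (v := v)]
    refine edge_exposed ?_ ?_ ?_
    · rw [e1]; exact hw.smul (inv_pos.2 hwτ)
    · rw [e2]; exact h.ext.smul (inv_pos.2 hu0)
    · rw [e1, e2]
      exact (h.adj.smul_left (inv_pos.2 hwτ).ne').smul_right (inv_pos.2 hu0).ne'
  · have h1 := (h.up.smul_left (inv_pos.2 hwτ)).smul_right (inv_pos.2 hu0)
    rw [← e1, ← e2] at h1
    unfold Up at h1
    rw [rf_crow, rf_crow, rf_tau, rf_tau, mul_one, mul_one] at h1
    exact lt_of_mul_lt_mul_left h1 (by positivity)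

theorem unbounded_of_step {w u : List ℤ} (hw : Ext (rf (crow (inp A b c v)).length) [] (rowsJ (inp A b c v)) (lv (crow (inp A b c v)).length w))
    (h : Step (crow (inp A b c v)) [] (rowsJ (inp A b c v)) w u) (hu : u.getD n 0 = 0) :
    UnboundedEdge (polyhedron A b) c (xq n w) (dq n u) := by
  have hwτ := h.pos
  rw [rf_tau_lv length_crow] at hwτ
  have hw0 : 0 < w.getD n 0 := by exact_mod_cast hwτ
  have e1 : eN length_crow (re (xq n w), 1) = (w.getD n 0 : ℝ)⁻¹ • lv (crow (inp A b c v)).length w := by
    rw [lv_xq length_crow hw0, smul_smul, inv_mul_cancel₀ hwτ.ne', one_smul]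
  have e2 : eN length_crow (re (dq n u), 0) = lv (crow (inp A b c v)).length u := by
    rw [lv_dq length_crow hu]
  constructor
  · rw [← PP_eq (A := A) (b := b) (c := c) (v := v)]
    refine ray_exposed ?_ ?_ ?_
    · rw [e1]; exact hw.smul (inv_pos.2 hwτ)
    · rw [e2]; exact h.ext
    · rw [e1, e2]
      exact h.adj.smul_left (inv_pos.2 hwτ).ne'
  · have h1 := h.up.smul_left (inv_pos.2 hwτ)
    rw [← e1, ← e2] at h1
    unfold Up at h1
    rw [rf_crow, rf_crow, rf_tau, rf_tau, mul_zero, mul_one] at h1
    exact (mul_pos_iff_of_pos_left (by exact_mod_cast zden_pos _)).1 h1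

theorem optimal_of_top {w : List ℤ} (hw : 0 < w.getD n 0) (h : Top (crow (inp A b c v)) [] (rowsJ (inp A b c v)) w) :
    ∀ y ∈ polyhedron A b, obj c y ≤ obj c (re (xq n w)) := by
  intro y hy
  have hw0 : (0 : ℝ) < w.getD n 0 := by exact_mod_cast hw
  have h1 := h (eN length_crow (y, 1)) ⟨by simp, (jl_nonpos_iff y 1).2
    ⟨zero_le_one, fun i => by rw [mul_one]; exact hy.1 i, hy.2⟩⟩
  rw [lv_xq length_crow hw, map_smul, map_smul, rf_crow, rf_crow, rf_tau, rf_tau, smul_eq_mul,
    smul_eq_mul, mul_one, mul_one] at h1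
  have h2 : (0 : ℝ) < zden (List.ofFn c ++ [0]) := by exact_mod_cast zden_pos _
  have h3 : (w.getD n 0 : ℝ) * ((zden (List.ofFn c ++ [0]) : ℝ) * obj c y) ≤
      (w.getD n 0 : ℝ) * ((zden (List.ofFn c ++ [0]) : ℝ) * obj c (re (xq n w))) := by linarith
  exact le_of_mul_le_mul_left (le_of_mul_le_mul_left h3 hw0) h2

/-! ### The output -/

theorem Good.getD_ext {C : List ℤ} {E J : List (List ℤ)} : ∀ {p : List (List ℤ)} {i : ℕ},
    Good C E J p → i < p.length → Ext (rf C.length) E J (lv C.length (p.getD i []))
  | [], _, h, _ => h.elim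
  | w :: P, 0, h, _ => h.head.2
  | [_], i + 1, _, hi => by simp at hi
  | _ :: v :: P, i + 1, h, hi => by
    rw [List.getD_cons_succ]
    exact Good.getD_ext (p := v :: P) h.2 (by simpa using hi)

theorem Good.getD_step {C : List ℤ} {E J : List (List ℤ)} : ∀ {p : List (List ℤ)} {i : ℕ},
    Good C E J p → i + 1 < p.length → Step C E J (p.getD (i + 1) []) (p.getD i [])
  | [], _, _, hi => by simp at hi
  | [_], _, _, hi => by simp at hi
  | _ :: v :: P, 0, h, _ => h.1
  | _ :: v :: P, i + 1, h, hi => by
    rw [List.getD_cons_succ, List.getD_cons_succ]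
    exact Good.getD_step (p := v :: P) h.2 (by simpa using hi)

/-- `x 0, …, x N` is a path of improving edges of `P` from the vertex `v`; it ends at a vertex
maximising the objective function (`d = none`), or at a vertex with an unbounded improving edge
in the direction `d` -/
def IsSimplexPath {n : ℕ} (P : Set (Fin n → ℝ)) (c v : Fin n → ℚ) (N : ℕ)
    (x : ℕ → Fin n → ℚ) (d : Option (Fin n → ℚ)) : Prop :=
  x 0 = v ∧ (∀ k ≤ N, re (x k) ∈ Set.extremePoints ℝ P) ∧
    (∀ k < N, ImprovingEdge P c (x k) (x (k + 1))) ∧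
    (d = none → ∀ y ∈ P, obj c y ≤ obj c (re (x N))) ∧
    ∀ e, d = some e → UnboundedEdge P c (x N) e

/-- the output: the path, and the direction of the unbounded edge -/
abbrev Outp : Type := List (List ℚ) × Option (List ℚ)

/-- the output for the path `p` -/
def lpOut (n : ℕ) (p : List (List ℤ)) : Outp :=
  ((p.filter fun w => decide (0 < w.getD n 0)).reverse.map fun w =>
      (List.range n).map fun j => mkRat (w.getD j 0) (w.getD n 0).toNat,
    if 0 < (hdp p).getD n 0 then none
    else some ((List.range n).map fun j => mkRat ((hdp p).getD j 0) 1))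

theorem ofFn_xq {w : List ℤ} (h : 0 < w.getD n 0) : List.ofFn (xq n w) =
    (List.range n).map fun j => mkRat (w.getD j 0) (w.getD n 0).toNat := by
  refine List.ext_getElem (by simp) fun i h1 h2 => ?_
  simp only [List.getElem_ofFn, List.getElem_map, List.getElem_range, xq]
  rw [Rat.mkRat_eq_div]
  congr 1
  have : ((w.getD n 0).toNat : ℤ) = w.getD n 0 := Int.toNat_of_nonneg h.le
  exact_mod_cast this.symm

theorem ofFn_dq {w : List ℤ} : List.ofFn (dq n w) =
    (List.range n).map fun j => mkRat (w.getD j 0) 1 := by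
  refine List.ext_getElem (by simp) fun i h1 h2 => ?_
  simp only [List.getElem_ofFn, List.getElem_map, List.getElem_range, dq]
  rw [Rat.mkRat_eq_div]
  simp

theorem path_map {p : List (List ℤ)} (h0 : p ≠ []) (hp : ∀ w ∈ p, 0 < w.getD n 0) :
    (p.reverse.map fun w => (List.range n).map fun j => mkRat (w.getD j 0) (w.getD n 0).toNat) =
      (List.range (p.length - 1 + 1)).map fun k =>
        List.ofFn (xq n (p.getD (p.length - 1 - k) [])) := by
  have hl := List.length_pos_of_ne_nil h0
  refine List.ext_getElem (by simp; omega) fun i h1 h2 => ?_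
  simp only [List.length_map, List.length_reverse, List.length_range] at h1 h2
  have h3 : p.getD (p.length - 1 - i) [] = p[p.length - 1 - i]'(by omega) :=
    List.getD_eq_getElem _ _ (by omega)
  rw [List.getElem_map, List.getElem_map, List.getElem_range, List.getElem_reverse, h3,
    ofFn_xq (hp _ (List.getElem_mem _))]

theorem good_seq {p : List (List ℤ)}
    (hp : Good (crow (inp A b c v)) [] (rowsJ (inp A b c v)) p)
    (hτ : ∀ w ∈ p, 0 < w.getD n 0) :
    (∀ k ≤ p.length - 1, re (xq n (p.getD (p.length - 1 - k) [])) ∈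
      Set.extremePoints ℝ (polyhedron A b)) ∧
    ∀ k < p.length - 1, ImprovingEdge (polyhedron A b) c (xq n (p.getD (p.length - 1 - k) []))
      (xq n (p.getD (p.length - 1 - (k + 1)) [])) := by
  have hne : p ≠ [] := by rintro rfl; exact hp
  have hl := List.length_pos_of_ne_nil hne
  have hget : ∀ i < p.length, 0 < (p.getD i []).getD n 0 := fun i hi => by
    rw [List.getD_eq_getElem _ _ hi]
    exact hτ _ (List.getElem_mem _)
  refine ⟨fun k hk => ?_, fun k hk => ?_⟩
  · exact vertex_of_ext (c := c) (v := v) (hp.getD_ext (by omega)) (hget _ (by omega))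
  · have h1 : p.length - 1 - k = p.length - 1 - (k + 1) + 1 := by omega
    rw [h1]
    exact improving_of_step (v := v) (hp.getD_ext (by omega)) (hp.getD_step (by omega))
      (hget _ (by omega))

theorem good_tail_pos {w : List ℤ} {P : List (List ℤ)}
    (hp : Good (crow (inp A b c v)) [] (rowsJ (inp A b c v)) (w :: P)) :
    ∀ u ∈ P, 0 < u.getD n 0 := by
  intro u hu
  obtain ⟨i, hi, rfl⟩ := List.getElem_of_mem hu
  have h1 := (hp.getD_step (i := i) (by simpa using hi)).pos
  rw [List.getD_cons_succ, List.getD_eq_getElem _ _ hi, rf_tau_lv length_crow] at h1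
  exact_mod_cast h1

theorem lpOut_spec {p Q : List (List ℤ)} (hpQ : p = Q ++ [startV (inp A b c v)])
    (hg : Good (crow (inp A b c v)) [] (rowsJ (inp A b c v)) p)
    (ht : Top (crow (inp A b c v)) [] (rowsJ (inp A b c v)) (hdp p)) :
    ∃ (N : ℕ) (x : ℕ → Fin n → ℚ) (d : Option (Fin n → ℚ)),
      lpOut n p = ((List.range (N + 1)).map (fun k => List.ofFn (x k)), d.map List.ofFn) ∧
      IsSimplexPath (polyhedron A b) c v N x d ∧ N ≤ Q.length := by
  obtain ⟨w, P, rfl⟩ := good_cons hg
  have hP := good_tail_pos hg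
  have hhd : hdp (w :: P) = w := rfl
  rw [hhd] at ht
  have hlast : ∀ (q : List (List ℤ)), q ≠ [] → (∃ Q', q = Q' ++ [startV (inp A b c v)]) →
      xq n (q.getD (q.length - 1 - 0) []) = v := by
    rintro q hq ⟨Q', rfl⟩
    have : (Q' ++ [startV (inp A b c v)]).getD
        ((Q' ++ [startV (inp A b c v)]).length - 1 - 0) [] = startV (inp A b c v) := by
      rw [List.getD_eq_getElem _ _ (by simp)]
      rw [List.getElem_append_right (by simp)]
      simp
    rw [this, xq_startV]
  by_cases hw : 0 < w.getD n 0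
  · -- the last point is a vertex
    have hall : ∀ u ∈ w :: P, 0 < u.getD n 0 := by
      intro u hu
      rcases List.mem_cons.1 hu with rfl | hu
      · exact hw
      · exact hP u hu
    obtain ⟨s1, s2⟩ := good_seq hg hall
    refine ⟨(w :: P).length - 1, fun k => xq n ((w :: P).getD ((w :: P).length - 1 - k) []), none,
      ?_, ⟨hlast _ (by simp) ⟨Q, hpQ⟩, s1, s2, fun _ => ?_, fun e he => by simp at he⟩, ?_⟩
    · unfold lpOut
      rw [hhd, if_pos hw, List.filter_eq_self.2 fun u hu => by simpa using hall u hu,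
        path_map (by simp) hall]
      rfl
    · simp only [Nat.sub_self]
      exact optimal_of_top (v := v) hw ht
    · have h1 : (w :: P).length = Q.length + 1 := by rw [hpQ]; simp
      omega
  · -- an unbounded edge
    have hw0 : w.getD n 0 = 0 := by
      rcases hg.head_or (tau_mem_jl _ _) with h1 | ⟨h1, -⟩
      · rw [rf_tau_lv length_crow] at h1
        exact absurd (by exact_mod_cast h1) hw
      · rw [rf_tau_lv length_crow] at h1
        exact_mod_cast h1
    cases P with
    | nil =>
      have h1 : w = startV (inp A b c v) := by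
        have h2 : Q = [] := by
          cases Q with
          | nil => rfl
          | cons a Q => simp at hpQ
        rw [h2] at hpQ
        simpa using hpQ
      rw [h1] at hw
      exact absurd getD_startV hw
    | cons u P =>
      have hg2 : Good (crow (inp A b c v)) [] (rowsJ (inp A b c v)) (u :: P) := hg.2
      obtain ⟨s1, s2⟩ := good_seq hg2 hP
      obtain ⟨Q', hQ'⟩ : ∃ Q', Q = w :: Q' := by
        cases Q with
        | nil => simp at hpQ
        | cons a Q' =>
          rw [List.cons_append, List.cons.injEq] at hpQ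
          exact ⟨Q', by rw [hpQ.1]⟩
      have hQ2 : u :: P = Q' ++ [startV (inp A b c v)] := by
        rw [hQ', List.cons_append, List.cons.injEq] at hpQ
        exact hpQ.2
      refine ⟨(u :: P).length - 1, fun k => xq n ((u :: P).getD ((u :: P).length - 1 - k) []),
        some (dq n w), ?_, ⟨hlast _ (by simp) ⟨Q', hQ2⟩, s1, s2, fun h => by simp at h,
        fun e he => ?_⟩, ?_⟩
      · unfold lpOut
        rw [hhd, if_neg hw, List.filter_cons_of_neg (by simpa using hw0.le),
          List.filter_eq_self.2 fun x hx => by simpa using hP x hx, path_map (by simp) hP,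
          Option.map_some, ofFn_dq]
      · rw [Option.some.injEq] at he
        rw [← he]
        simp only [Nat.sub_self]
        exact unbounded_of_step (v := v) hg2.head.2 hg.1 hw0
      · have h1 : (u :: P).length = Q'.length + 1 := by rw [hQ2]; simp
        have h2 : Q.length = Q'.length + 1 := by rw [hQ', List.length_cons]
        omega

end Pool.Agent.Y644.QS
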