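import Pool.Agent.Y644.QS.PolyIter
import Pool.Agent.Y644.QS.Seq
import Pool.Agent.ER.Rat
set_option autoImplicit false

/-!
# Polynomial time: input and output
-/

namespace Pool.Agent.NPC.Y644

open Pool.Agent.Y644.QS Pool.Agent.H687R2.LLL Pool.Agent.NPC.H532.RP

variable {α β : Type} [TEnc α] [TEnc β]

theorem poly_mkRat {n : α → ℤ} {d : α → ℕ} (hn : Poly n) (hd : Poly d) :
    Poly (fun a => mkRat (n a) (d a)) := by
  have hg : Poly (fun a => Nat.gcd (n a).natAbs (d a)) := NPC.Poly.gcd (NPC.Poly.natAbs hn) hd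
  have h0 : Poly (fun a => decide (d a = 0)) := NPC.Poly.decide_eq hd (NPC.Poly.const 0)
  have h1 : Poly (fun a => if d a = 0 then (0 : ℤ) else n a / (Nat.gcd (n a).natAbs (d a) : ℤ)) :=
    NPC.Poly.ite h0 (NPC.Poly.const 0) (NPC.Poly.idiv hn hg)
  have h2 : Poly (fun a => if d a = 0 then 1 else d a / Nat.gcd (n a).natAbs (d a)) :=
    NPC.Poly.ite h0 (NPC.Poly.const 1) (NPC.Poly.div hd hg)
  have h3 : Poly (fun a => ((mkRat (n a) (d a)).num, (mkRat (n a) (d a)).den)) := by
    refine (NPC.Poly.pair h1 h2).congr fun a => ?_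
    rw [Rat.mkRat_def]
    split_ifs with h
    · rfl
    · rw [Rat.normalize_eq]
  exact h3

theorem poly_negQ {f : α → ℚ} (hf : Poly f) : Poly (fun a => - f a) :=
  (poly_mkRat (NPC.Poly.ineg (Poly_num hf)) (Poly_den hf)).congr fun a => by
    rw [Rat.mkRat_eq_div]
    push_cast
    rw [neg_div, Rat.num_div_den]

attribute [fun_prop] poly_mkRat poly_negQ

theorem poly_zrow {l : α → List ℚ} (hl : Poly l) : Poly (fun a => zrow (l a)) := by
  unfold zrow
  have h1 : Poly (fun a => ((l a).map Rat.den).prod) :=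
    Poly_prodN (Poly.map (F := fun _ q => Rat.den q) hl (Poly_den (Poly.snd Poly.id)))
  exact Poly.map (F := fun a q => zq ((l a).map Rat.den).prod q) hl
    (Poly_zq (h1.comp (Poly.fst Poly.id)) (Poly.snd Poly.id))

attribute [fun_prop] poly_zrow

theorem poly_crow : Poly crow := by
  unfold crow
  fun_prop

theorem poly_rowsA : Poly rowsA := by
  unfold rowsA
  fun_prop

theorem poly_rowsN : Poly rowsN := by
  unfold rowsN
  have h0 : UPoly (fun x : Inp => x.2.2.1.length) := by fun_prop
  have h1 : Poly (fun p : Inp × ℕ => negV (unitV (p.1.2.2.1.length + 1) p.2)) := by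
    fun_prop
  exact Poly.map (F := fun (x : Inp) j => negV (unitV (x.2.2.1.length + 1) j)) h0.range h1

theorem poly_rowsI : Poly rowsI := by
  unfold rowsI
  exact Poly.append poly_rowsA poly_rowsN

theorem poly_startV : Poly startV := by
  unfold startV
  fun_prop

theorem poly_lpOut {n : α → ℕ} {p : α → List (List ℤ)} (hn : UPoly n) (hp : Poly p) :
    Poly (fun a => lpOut (n a) (p a)) := by
  have hnP : Poly n := hn.toPoly
  unfold lpOut
  have h1 : Poly (fun q : α × List ℤ => (List.range (n q.1)).map fun j =>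
      mkRat (q.2.getD j 0) (q.2.getD (n q.1) 0).toNat) := by
    have h2 : Poly (fun q : (α × List ℤ) × ℕ => mkRat (q.1.2.getD q.2 0)
        (q.1.2.getD (n q.1.1) 0).toNat) := by fun_prop
    exact Poly.map (F := fun (q : α × List ℤ) j => mkRat (q.2.getD j 0)
      (q.2.getD (n q.1) 0).toNat) (UPoly.range (by fun_prop)) h2
  have h3 : Poly (fun a => (List.range (n a)).map fun j =>
      mkRat ((hdp (p a)).getD j 0) 1) := by
    have h2 : Poly (fun q : α × ℕ => mkRat ((hdp (p q.1)).getD q.2 0) 1) := by fun_prop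
    exact Poly.map (F := fun a j => mkRat ((hdp (p a)).getD j 0) 1) (UPoly.range (by fun_prop)) h2
  have h4 : Poly (fun a => ((p a).filter fun w => decide (0 < w.getD (n a) 0)).reverse) := by
    fun_prop
  have h5 : Poly (fun a => (((p a).filter fun w => decide (0 < w.getD (n a) 0)).reverse.map
      fun w => (List.range (n a)).map fun j => mkRat (w.getD j 0) (w.getD (n a) 0).toNat)) :=
    Poly.map (F := fun a w => (List.range (n a)).map fun j =>
      mkRat (w.getD j 0) (w.getD (n a) 0).toNat) h4 h1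
  have h6 : Poly (fun a => decide (0 < (hdp (p a)).getD (n a) 0)) := by fun_prop
  have h7 : Poly (fun a => if 0 < (hdp (p a)).getD (n a) 0 then none
    else some ((List.range (n a)).map fun j => mkRat ((hdp (p a)).getD j 0) 1)) :=
    Poly.ite h6 (Poly.const none) (Poly.some h3)
  exact Poly.pair h5 h7

end Pool.Agent.NPC.Y644
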