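import Pool.Agent.Y644.QS.PolyStep
set_option autoImplicit false

/-!
# The size of the states of the machine
-/

namespace Pool.Agent.NPC.Y644

open Pool.Agent.Y644.QS Pool.Agent.H687R2.LLL

/-- all vectors are small -/
def Sm (β : ℕ) (p : List (List ℤ)) : Prop := ∀ x ∈ p, sz x ≤ β

/-- bounded frames -/
def FrB (M β : ℕ) : Frame → Prop
  | Sum.inl (E, I, P) => sz E + sz I ≤ M ∧ Sm β P
  | Sum.inr (E, I, B) => sz E + sz I ≤ M ∧ sz E + sz B ≤ M

/-- bounded states -/
def StB (M β : ℕ) : State → Prop
  | (Sum.inl (E, I, P), st) => (sz E + sz I ≤ M ∧ Sm β P) ∧ ∀ f ∈ st, FrB M β f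
  | (Sum.inr p, st) => Sm β p ∧ ∀ f ∈ st, FrB M β f

/-- `β` bounds the new vertices -/
def VB (c : List ℤ) (M β : ℕ) : Prop :=
  1 ≤ β ∧ ∀ (E I : List (List ℤ)) (w : List ℤ), sz E + sz I ≤ M → sz (normV c E (jl c I) w) ≤ β

variable {c : List ℤ} {M β : ℕ}

theorem sz_tail_le {α : Type} [TEnc α] (l : List α) : sz l.tail ≤ sz l := by
  cases l with
  | nil => simp
  | cons a l => simp only [List.tail_cons, sz_list_cons]; omega

theorem hdp_small (hβ : 1 ≤ β) {P : List (List ℤ)} (h : Sm β P) : sz (hdp P) ≤ β := by
  cases P with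
  | nil => exact hβ
  | cons x P => exact h x (by simp)

theorem tail_small {P : List (List ℤ)} (h : Sm β P) : Sm β P.tail := fun x hx =>
  h x (List.mem_of_mem_tail hx)

theorem append_small {P Q : List (List ℤ)} (h : Sm β P) (h' : Sm β Q) : Sm β (P ++ Q) := by
  intro x hx
  rcases List.mem_append.1 hx with hx | hx
  · exact h x hx
  · exact h' x hx

theorem cons_small {P : List (List ℤ)} {u : List ℤ} (hu : sz u ≤ β) (h : Sm β P) :
    Sm β (u :: P) := by
  intro x hx
  rcases List.mem_cons.1 hx with rfl | hx
  · exact hu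
  · exact h x hx

theorem sz_append_le {α : Type} [TEnc α] (l l' : List α) : sz (l ++ l') ≤ sz l + sz l' := by
  have := sz_append l l'
  omega

theorem filter_ne {I : List (List ℤ)} {F : List ℤ} (hF : F ∈ I) :
    sz F + 1 + sz (I.filter fun r => !decide (r = F)) ≤ sz I := by
  induction I with
  | nil => simp at hF
  | cons a I ih =>
    rw [List.filter_cons]
    by_cases h : a = F
    · subst h
      have := sz_filter_le I fun r => !decide (r = a)
      simp only [decide_true, Bool.not_true, Bool.false_eq_true, if_false, sz_list_cons]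
      omega
    · have h1 : F ∈ I := by
        rcases List.mem_cons.1 hF with h2 | h2
        · exact absurd h2.symm h
        · exact h2
      have := ih h1
      simp only [h, decide_false, Bool.not_false, if_true, sz_list_cons]
      omega

theorem pickF_mem {E I : List (List ℤ)} {v F : List ℤ} (h : pickF c E I v = some F) : F ∈ I := by
  have h1 := List.mem_of_head? (show (topF c E (jl c I) I v ++
    (upper c E (jl c I) I).filter fun r => decide (dot r v = 0)).head? = some F from h)
  rcases List.mem_append.1 h1 with h1 | h1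
  · exact (List.mem_filter.1 h1).1
  · exact (List.mem_filter.1 (List.mem_filter.1 h1).1).1

theorem trunc_small (hV : VB c M β) {E I S : List (List ℤ)} (hM : sz E + sz I ≤ M)
    {L : List (List ℤ)} (hL : Sm β L) : Sm β (trunc c E I S L).1 ∧
      sz (trunc c E I S L).1 ≤ sz L + β + 1 ∧
      ((trunc c E I S L).2 = false → sz (trunc c E I S L).1 ≤ sz L) := by
  unfold trunc
  induction L with
  | nil => exact ⟨fun x hx => by simp at hx, by simp, by simp⟩
  | cons u L ih =>
    obtain ⟨i1, i2, i3⟩ := ih fun x hx => hL x (by simp [hx])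
    rw [List.foldr_cons]
    set s := L.foldr (tstep c E I S) ([], false)
    unfold tstep
    by_cases h1 : s.2 = true
    · rw [if_pos h1]
      refine ⟨i1, ?_, fun h2 => ?_⟩
      · simp only [sz_list_cons]; omega
      · rw [h1] at h2; exact absurd h2 (by simp)
    · rw [if_neg h1]
      have h2 := i3 (by simpa using h1)
      split_ifs
      · refine ⟨cons_small (hL u (by simp)) i1, ?_, fun _ => ?_⟩ <;>
          simp only [sz_list_cons] <;> omega
      · have h3 := hV.2 E I (other (jl c I) (s.1.head?.getD []) u) hM
        refine ⟨cons_small h3 i1, ?_, fun h => absurd h (by simp)⟩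
        simp only [sz_list_cons]; omega

theorem callF_bound {E I P : List (List ℤ)} {F : List ℤ} (hF : F ∈ I)
    {st : List Frame} (hM : sz E + sz I ≤ M) (hP : Sm β P)
    (hst : ∀ f ∈ st, FrB M β f) : StB M β (callF c E I P st F) ∧
      sz (callF c E I P st F) ≤ sz P + sz st + 3 * M + 20 := by
  unfold callF
  have h1 := filter_ne hF
  have h2 : sz (upper' c E (jl c I) I) ≤ sz I := sz_filter_le _ _
  have hp1 := sz_pos P
  have hp3 := sz_pos st
  refine ⟨⟨⟨by simp only [sz_list_cons]; omega, hP⟩, fun f hf => ?_⟩, ?_⟩
  · rcases List.mem_cons.1 hf with rfl | hf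
    · exact ⟨hM, by omega⟩
    · exact hst f hf
  · simp only [sz_pair, sz_inl, sz_inr, sz_list_cons]
    omega

theorem step_bound (hV : VB c M β) {s : State} (hs : StB M β s) :
    StB M β (step c s) ∧ sz (step c s) ≤ sz s + (3 * M + 3 * β + 60) := by
  obtain ⟨s, st⟩ := s
  have hp3 := sz_pos st
  cases s with
  | inl x =>
    obtain ⟨E, I, P⟩ := x
    obtain ⟨⟨hM, hP⟩, hst⟩ := hs
    have hp1 := sz_pos P
    change StB M β (stepCall c E I P st) ∧ sz (stepCall c E I P st) ≤ _
    unfold stepCall
    split_ifs
    · refine ⟨⟨hP, hst⟩, ?_⟩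
      simp only [sz_pair, sz_inl, sz_inr]
      omega
    · have h1 := hdp_small hV.1 hP
      cases hb : pickF c E I (hdp P) with
      | none =>
        simp only [Option.elim_none]
        have h2 : sz (lower c E I) ≤ sz I := sz_filter_le _ _
        refine ⟨⟨⟨by omega, cons_small h1 fun x hx => by simp at hx⟩, fun f hf => ?_⟩, ?_⟩
        · rcases List.mem_cons.1 hf with rfl | hf
          · exact ⟨hM, hP⟩
          · exact hst f hf
        · simp only [sz_pair, sz_inl, sz_list_cons, sz_list_nil]
          omega
      | some F =>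
        simp only [Option.elim_some]
        obtain ⟨h2, h3⟩ := callF_bound (c := c) (pickF_mem hb) hM hP hst
        refine ⟨h2, h3.trans ?_⟩
        simp only [sz_pair, sz_inl]
        omega
  | inr p =>
    obtain ⟨hp, hst⟩ := hs
    have hp1 := sz_pos p
    cases st with
    | nil => exact ⟨⟨hp, hst⟩, Nat.le_add_right _ _⟩
    | cons f st =>
      have hp4 := sz_pos st
      have hst' : ∀ f ∈ st, FrB M β f := fun f hf => hst f (by simp [hf])
      have hf := hst f (by simp)
      cases f with
      | inl y =>
        obtain ⟨E, I, P⟩ := y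
        obtain ⟨hM, hP⟩ := hf
        obtain ⟨t1, t2, -⟩ := trunc_small (S := lower c E I) hV hM hp
        change StB M β (stepLoopQ c E I P st (trunc c E I (lower c E I) p)) ∧
          sz (stepLoopQ c E I P st (trunc c E I (lower c E I) p)) ≤ _
        have h3 := sz_append_le (trunc c E I (lower c E I) p).1 P.tail
        have h4 := sz_tail_le P
        have h5 := sz_pos P
        unfold stepLoopQ
        split_ifs
        · cases hb : pickF c E I (hdp (trunc c E I (lower c E I) p).1) with
          | none =>
            simp only [Option.elim_none]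
            refine ⟨⟨hP, hst'⟩, ?_⟩
            simp only [sz_pair, sz_inl, sz_inr, sz_list_cons]
            omega
          | some F =>
            simp only [Option.elim_some]
            obtain ⟨h6, h7⟩ := callF_bound (c := c) (pickF_mem hb) hM
              (append_small t1 (tail_small hP)) hst'
            refine ⟨h6, h7.trans ?_⟩
            simp only [sz_pair, sz_inl, sz_inr, sz_list_cons]
            omega
        · refine ⟨⟨append_small t1 (tail_small hP), hst'⟩, ?_⟩
          simp only [sz_pair, sz_inl, sz_inr, sz_list_cons]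
          omega
      | inr y =>
        obtain ⟨E, I, B⟩ := y
        obtain ⟨hM, hB⟩ := hf
        change StB M β (stepTop c E I B st p) ∧ sz (stepTop c E I B st p) ≤ _
        unfold stepTop
        cases himp : improve c E (jl c I) (hdp p) with
        | none =>
          simp only [Option.elim_none]
          refine ⟨⟨hp, hst'⟩, ?_⟩
          simp only [sz_pair, sz_inr, sz_list_cons]
          omega
        | some u =>
          simp only [Option.elim_some]
          have hu : sz u ≤ β := by
            unfold improve at himp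
            split_ifs at himp with hc
            rw [Option.some.injEq] at himp
            rw [← himp]
            exact hV.2 _ _ _ hM
          refine ⟨⟨⟨hB, cons_small hu hp⟩, hst'⟩, ?_⟩
          simp only [sz_pair, sz_inl, sz_inr, sz_list_cons]
          omega

theorem iter_bound (hV : VB c M β) {s : State} (hs : StB M β s) (n : ℕ) :
    StB M β ((step c)^[n] s) ∧ sz ((step c)^[n] s) ≤ sz s + n * (3 * M + 3 * β + 60) := by
  induction n with
  | zero => exact ⟨hs, by simp⟩
  | succ n ih =>
    rw [Function.iterate_succ_apply']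
    obtain ⟨h1, h2⟩ := step_bound hV ih.1
    refine ⟨h1, h2.trans ?_⟩
    generalize 3 * M + 3 * β + 60 = G at *
    rw [Nat.succ_mul]
    omega

/-- a polynomial bound for the vertices -/
theorem exists_VB : ∃ p : Polynomial ℕ, ∀ (c : List ℤ) (M : ℕ),
    VB c M (p.eval (sz c + M)) := by
  obtain ⟨p, hp⟩ := normV_bound
  have hjl : Poly (fun q : List ℤ × List (List ℤ) => jl q.1 q.2) := by fun_prop
  obtain ⟨r, hr⟩ := hjl.sz_le
  refine ⟨p.comp (Polynomial.X + r.comp (Polynomial.X + 1)) + 1, fun c M => ⟨?_, ?_⟩⟩
  · simp
  · intro E I w hM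
    refine (hp c E (jl c I) w).trans ?_
    rw [Polynomial.eval_add, Polynomial.eval_comp]
    refine le_trans (eval_mono p ?_) (Nat.le_add_right _ _)
    have h1 := hr (c, I)
    simp only [sz_pair] at h1
    simp only [Polynomial.eval_add, Polynomial.eval_comp, Polynomial.eval_X,
      Polynomial.eval_one]
    have h2 : r.eval (sz c + sz I + 1) ≤ r.eval (sz c + M + 1) := eval_mono r (by omega)
    omega

variable {α : Type} [TEnc α]

/-- the machine, run for a unary number of steps -/
theorem poly_run {c v : α → List ℤ} {I : α → List (List ℤ)} {n : α → ℕ} (hc : Poly c)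
    (hI : Poly I) (hv : Poly v) (hn : UPoly n) :
    Poly (fun a => (step (c a))^[n a] ((Sum.inl ([], I a, [v a]), []) : State)) := by
  obtain ⟨p, hp⟩ := exists_VB
  obtain ⟨q1, hq1⟩ := hc.sz_le
  obtain ⟨q2, hq2⟩ := hI.sz_le
  obtain ⟨q3, hq3⟩ := hv.sz_le
  obtain ⟨w, hw⟩ := Poly.sz_le (show Poly (fun a => List.replicate (n a) ()) from hn)
  have hF : Poly (fun x : α × State => step (c x.1) x.2) :=
    Poly.comp (g := fun x : List ℤ × State => step x.1 x.2)
      (f := fun x : α × State => (c x.1, x.2)) poly_step (by fun_prop)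
  have hs : Poly (fun a => ((Sum.inl ([], I a, [v a]), []) : State)) := by fun_prop
  obtain ⟨q4, hq4⟩ := hs.sz_le
  refine Poly.iterU (F := fun a s => step (c a) s) hn hs hF
    (q4 + w * (3 * (q2 + 1) + 3 * (p.comp (q1 + (q2 + 1)) + q3) + 60)) ?_
  intro a k hk
  have hVB := hp (c a) (sz (I a) + 1)
  set β0 := p.eval (sz (c a) + (sz (I a) + 1)) with hβ0
  have hV : VB (c a) (sz (I a) + 1) (β0 + sz (v a)) :=
    ⟨hVB.1.trans (Nat.le_add_right _ _), fun E I w h => (hVB.2 E I w h).trans
      (Nat.le_add_right _ _)⟩
  have hS : StB (sz (I a) + 1) (β0 + sz (v a)) ((Sum.inl ([], I a, [v a]), []) : State) := by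
    refine ⟨⟨by simp; omega, fun x hx => ?_⟩, fun f hf => by simp at hf⟩
    rw [List.mem_singleton] at hx
    subst hx
    omega
  refine (iter_bound hV hS k).2.trans ?_
  have h1 := hq1 a
  have h2 := hq2 a
  have h3 := hq3 a
  have h4 := hq4 a
  have h5 : n a ≤ w.eval (sz a) := by
    have := length_lt_sz (List.replicate (n a) ())
    rw [List.length_replicate] at this
    have := hw a
    omega
  have h6 : β0 ≤ (p.comp (q1 + (q2 + 1))).eval (sz a) := by
    rw [Polynomial.eval_comp]
    refine eval_mono p ?_
    simp only [Polynomial.eval_add, Polynomial.eval_one]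
    omega
  simp only [Polynomial.eval_add, Polynomial.eval_mul, Polynomial.eval_one,
    Polynomial.eval_ofNat]
  refine Nat.add_le_add h4 (Nat.mul_le_mul (hk.trans h5) ?_)
  omega

end Pool.Agent.NPC.Y644
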