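import Pool.Agent.Y644.QS.PolyBase
set_option autoImplicit false

/-!
# Polynomial time: relatively interior points
-/

namespace Pool.Agent.NPC.Y644

open Pool.Agent.Y644.QS Pool.Agent.H687R2.LLL

variable {α β γ : Type} [TEnc α] [TEnc β] [TEnc γ]

theorem poly_rowsOf {K t : α → ℕ} {B : α → List (List ℤ)} {S : α → List ℤ} {e : α → List ℕ}
    (hK : UPoly K) (ht : Poly t) (hB : Poly B) (hS : Poly S) (he : Poly e) :
    Poly (fun a => rowsOf (K a) (t a) (B a) (S a) (e a)) := by
  unfold rowsOf
  have h1 : Poly (fun a => (B a).map fun r => mulV r (S a)) := by fun_prop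
  have h2 : Poly (fun a => ((List.range (K a)).filter fun j => decide (t a ≤ (e a).getD j 0))) := by
    fun_prop
  have h3 : Poly (fun a => ((List.range (K a)).filter fun j =>
      decide (t a ≤ (e a).getD j 0)).map (unitV (K a))) := by
    refine Poly.map (F := fun a j => unitV (K a) j) h2 ?_
    fun_prop
  exact Poly.append h1 h3

theorem poly_bad {K t : α → ℕ} {e : α → List ℕ} {z : α → List ℤ} (hK : UPoly K) (ht : Poly t)
    (he : Poly e) (hz : Poly z) : Poly (fun a => bad (K a) (t a) (e a) (z a)) := by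
  unfold bad
  fun_prop

theorem poly_pick {K t : α → ℕ} {e : α → List ℕ} {z : α → List ℤ} (hK : UPoly K) (ht : Poly t)
    (he : Poly e) (hz : Poly z) : Poly (fun a => pick (K a) (t a) (e a) (z a)) := by
  unfold pick
  have hK' : Poly K := hK.toPoly
  fun_prop

attribute [fun_prop] poly_rowsOf poly_bad poly_pick

theorem poly_pcStep {K t : α → ℕ} {acc : α → List (List ℤ × ℕ)} {e : α → List ℕ}
    {c : α → List ℤ} (hK : UPoly K) (ht : Poly t) (ha : Poly acc) (he : Poly e) (hc : Poly c) :
    Poly (fun a => pcStep (K a) (t a) (acc a) (e a) (c a)) := by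
  unfold pcStep
  fun_prop

attribute [fun_prop] poly_pcStep

theorem nrm_addV (u v : List ℤ) : nrm (addV u v) ≤ nrm u + nrm v := by
  induction u generalizing v with
  | nil => simp [addV]
  | cons x u ih =>
    cases v with
    | nil => simp [addV]
    | cons y v =>
      have h1 := ih v
      have h2 := Int.natAbs_add_le x y
      simp only [addV, List.zipWith_cons_cons, nrm_cons] at h1 ⊢
      omega

theorem nrm_unitV (K j : ℕ) : nrm (unitV K j) ≤ 1 := by
  have h : ∀ K, nrm (unitV K j) ≤ if j < K then 1 else 0 := by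
    intro K
    induction K with
    | zero => simp [unitV]
    | succ K ih =>
      have e : unitV (K + 1) j = unitV K j ++ [if K = j then 1 else 0] := by
        simp [unitV, List.range_succ]
      have e2 : ∀ u v : List ℤ, nrm (u ++ v) = nrm u + nrm v := by
        intro u v
        simp [nrm]
      rw [e, e2]
      split_ifs at ih ⊢ <;> simp only [nrm_cons, nrm_nil, Int.natAbs_one, Int.natAbs_zero] <;>
        omega
  refine (h K).trans ?_
  split_ifs <;> omega

theorem pcStep_bound {K t : ℕ} {acc : List (List ℤ × ℕ)} {e : List ℕ} {c : List ℤ} {m : ℕ}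
    (h1 : c.length ≤ K) (h2 : nrm c ≤ m) :
    (pcStep K t acc e c).length ≤ K ∧ nrm (pcStep K t acc e c) ≤ m + 1 := by
  unfold pcStep
  cases bad K t e (proj acc c).1 with
  | none => exact ⟨h1, h2.trans (Nat.le_succ m)⟩
  | some j =>
    simp only [Option.elim_some]
    refine ⟨by simp [addV, h1], ?_⟩
    have := nrm_addV c (unitV K j)
    have := nrm_unitV K j
    omega

theorem pc_bound {K t : ℕ} {acc : List (List ℤ × ℕ)} {e : List ℕ} (k : ℕ) :
    ((pcStep K t acc e)^[k] (List.replicate K 0)).length ≤ K ∧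
      nrm ((pcStep K t acc e)^[k] (List.replicate K 0)) ≤ k := by
  induction k with
  | zero =>
    refine ⟨by simp, ?_⟩
    rw [Function.iterate_zero_apply, nrm]
    simp
  | succ k ih =>
    rw [Function.iterate_succ_apply']
    exact pcStep_bound ih.1 ih.2

theorem poly_pc {K t : α → ℕ} {acc : α → List (List ℤ × ℕ)} {e : α → List ℕ}
    (hK : UPoly K) (ht : Poly t) (ha : Poly acc) (he : Poly e) :
    Poly (fun a => pc (K a) (t a) (acc a) (e a)) := by
  unfold pc
  obtain ⟨w, hw⟩ := Poly.sz_le (show Poly (fun a => List.replicate (K a) ()) from hK)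
  refine Poly.iterU (n := fun a => 4 * K a * K a * K a) (s := fun a => List.replicate (K a) 0)
    (F := fun a c => pcStep (K a) (t a) (acc a) (e a) c) (by fun_prop) (by fun_prop)
    (by fun_prop) (w * (4 * (4 * w * w * w + 1) + 6) + 1) ?_
  intro a k hk
  obtain ⟨h1, h2⟩ := pc_bound (K := K a) (t := t a) (acc := acc a) (e := e a) k
  have h3 : K a ≤ w.eval (sz a) := by
    have := length_lt_sz (List.replicate (K a) ())
    rw [List.length_replicate] at this
    have := hw a
    omega
  have h4 : k < 2 ^ (k + 1) :=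
    lt_of_lt_of_le Nat.lt_two_pow_self (Nat.pow_le_pow_right (by norm_num) (by omega))
  have h5 := sz_of_nrm (lt_of_le_of_lt h2 h4)
  refine h5.trans ?_
  have h6 : k ≤ 4 * w.eval (sz a) * w.eval (sz a) * w.eval (sz a) := hk.trans (by gcongr)
  have h7 := h1.trans h3
  simp only [Polynomial.eval_add, Polynomial.eval_mul, Polynomial.eval_one,
    Polynomial.eval_ofNat]
  gcongr

attribute [fun_prop] poly_pc

theorem poly_halve {K j : α → ℕ} {s : α → List ℤ × List ℕ} (hK : UPoly K) (hj : Poly j)
    (hs : Poly s) : Poly (fun a => halve (K a) (j a) (s a)) := by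
  unfold halve
  fun_prop

attribute [fun_prop] poly_halve

theorem poly_roundWith {K t : α → ℕ} {acc : α → List (List ℤ × ℕ)} {c : α → List ℤ}
    {s : α → List ℤ × List ℕ} (hK : UPoly K) (ht : Poly t) (ha : Poly acc) (hc : Poly c)
    (hs : Poly s) : Poly (fun a => roundWith (K a) (t a) (acc a) (c a) (s a)) := by
  unfold roundWith
  have h1 : Poly (fun p : α × ℕ => (pick (K p.1) (t p.1) (s p.1).2 (c p.1)).elim (s p.1)
      fun j => halve (K p.1) j (s p.1)) := by
    refine Poly.optElim (h := fun (p : α × ℕ) j => halve (K p.1) j (s p.1)) ?_ ?_ ?_ <;> fun_prop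
  refine Poly.optElim (h := fun a _ => (pick (K a) (t a) (s a).2 (c a)).elim (s a)
      fun j => halve (K a) j (s a)) ?_ ?_ h1 <;> fun_prop

attribute [fun_prop] poly_roundWith

theorem poly_roundF {K t : α → ℕ} {B : α → List (List ℤ)}
    {s : α → List ℤ × List ℕ} (hK : UPoly K) (ht : Poly t) (hB : Poly B)
    (hs : Poly s) : Poly (fun a => roundF (K a) (t a) (B a) (s a)) := by
  unfold roundF
  have h1 : Poly (fun a => rowsOf (K a) (t a) (B a) (s a).1 (s a).2) := by fun_prop
  have h2 : Poly (fun a => gs (fixR (K a) (rowsOf (K a) (t a) (B a) (s a).1 (s a).2))) :=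
    poly_gsF hK h1
  have h3 : Poly (fun a => pc (K a) (t a) (gs (fixR (K a) (rowsOf (K a) (t a) (B a) (s a).1
      (s a).2))) (s a).2) := poly_pc hK ht h2 (by fun_prop)
  exact poly_roundWith hK ht h2 h3 hs

theorem poly_outpF {K t : α → ℕ} {B : α → List (List ℤ)}
    {s : α → List ℤ × List ℕ} (hK : UPoly K) (ht : Poly t) (hB : Poly B)
    (hs : Poly s) : Poly (fun a => outpF (K a) (t a) (B a) (s a)) := by
  unfold outpF
  have h1 : Poly (fun a => rowsOf (K a) (t a) (B a) (s a).1 (s a).2) := by fun_prop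
  have h2 : Poly (fun a => gs (fixR (K a) (rowsOf (K a) (t a) (B a) (s a).1 (s a).2))) :=
    poly_gsF hK h1
  have h3 : Poly (fun a => pc (K a) (t a) (gs (fixR (K a) (rowsOf (K a) (t a) (B a) (s a).1
      (s a).2))) (s a).2) := poly_pc hK ht h2 (by fun_prop)
  have h4 := poly_proj h2 h3
  exact Poly.mulV (by fun_prop) (Poly.fst h4)

attribute [fun_prop] poly_roundF poly_outpF

/-- a bound for the states of the rounds -/
structure Bd (K m : ℕ) (s : List ℤ × List ℕ) : Prop where
  l1 : s.1.length ≤ K
  l2 : s.2.length ≤ K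
  b1 : ∀ x ∈ s.1, x.natAbs ≤ 2 ^ m
  b2 : ∀ x ∈ s.2, x ≤ m

theorem Bd.succ {K m : ℕ} {s : List ℤ × List ℕ} (h : Bd K m s) : Bd K (m + 1) s :=
  ⟨h.l1, h.l2, fun x hx => (h.b1 x hx).trans (Nat.pow_le_pow_right (by norm_num) (by omega)),
    fun x hx => (h.b2 x hx).trans (by omega)⟩

theorem getD_le {l : List ℤ} {i m : ℕ} (h : ∀ x ∈ l, x.natAbs ≤ m) : (l.getD i 0).natAbs ≤ m := by
  by_cases hi : i < l.length
  · rw [List.getD_eq_getElem _ _ hi]
    exact h _ (List.getElem_mem _)
  · rw [List.getD_eq_default _ _ (by omega)]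
    simp

theorem getD_leN {l : List ℕ} {i m : ℕ} (h : ∀ x ∈ l, x ≤ m) : l.getD i 0 ≤ m := by
  by_cases hi : i < l.length
  · rw [List.getD_eq_getElem _ _ hi]
    exact h _ (List.getElem_mem _)
  · rw [List.getD_eq_default _ _ (by omega)]
    simp

theorem Bd.halve {K m : ℕ} {s : List ℤ × List ℕ} (h : Bd K m s) (j : ℕ) :
    Bd K (m + 1) (halve K j s) := by
  refine ⟨by simp [Pool.Agent.Y644.QS.halve], by simp [Pool.Agent.Y644.QS.halve], fun x hx => ?_, fun x hx => ?_⟩
  · simp only [Pool.Agent.Y644.QS.halve, List.mem_map] at hx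
    obtain ⟨i, -, rfl⟩ := hx
    have h1 := getD_le (i := i) h.b1
    split_ifs
    · rw [pow_succ]; omega
    · rw [Int.natAbs_mul, pow_succ]
      have : (2 : ℤ).natAbs = 2 := rfl
      rw [this]; omega
  · simp only [Pool.Agent.Y644.QS.halve, List.mem_map] at hx
    obtain ⟨i, -, rfl⟩ := hx
    have h1 := getD_leN (i := i) h.b2
    split_ifs <;> omega

theorem Bd.roundF {K t m : ℕ} {B : List (List ℤ)} {s : List ℤ × List ℕ} (h : Bd K m s) :
    Bd K (m + 1) (Pool.Agent.Y644.QS.roundF K t B s) := by
  unfold Pool.Agent.Y644.QS.roundF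
  generalize gs (fixR K (rowsOf K t B s.1 s.2)) = acc
  unfold roundWith
  cases bad K t s.2 (proj acc (pc K t acc s.2)).1 with
  | none => exact h.succ
  | some i =>
    simp only [Option.elim_some]
    cases pick K t s.2 (pc K t acc s.2) with
    | none => exact h.succ
    | some j => exact h.halve j

theorem Bd.iter {K t : ℕ} {B : List (List ℤ)} (n : ℕ) :
    Bd K n ((Pool.Agent.Y644.QS.roundF K t B)^[n] (List.replicate K 1, List.replicate K 0)) := by
  induction n with
  | zero =>
    refine ⟨by simp, by simp, fun x hx => ?_, fun x hx => ?_⟩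
    · simp only [Function.iterate_zero_apply] at hx
      rw [List.eq_of_mem_replicate hx]; simp
    · simp only [Function.iterate_zero_apply] at hx
      rw [List.eq_of_mem_replicate hx]
  | succ n ih =>
    rw [Function.iterate_succ_apply']
    exact ih.roundF

theorem Bd.sz_le {K m : ℕ} {s : List ℤ × List ℕ} (h : Bd K m s) :
    sz s ≤ 2 * (K * (4 * (m + 1) + 6) + 1) + 1 := by
  have h1 : sz s.1 ≤ K * (4 * (m + 1) + 6) + 1 := by
    refine (sz_le_length_mul s.1 (4 * (m + 1) + 5) fun x hx => ?_).trans ?_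
    · refine sz_of_lt (lt_of_le_of_lt (h.b1 x hx) ?_)
      exact Nat.pow_lt_pow_right (by norm_num) (by omega)
    · exact Nat.add_le_add_right (Nat.mul_le_mul h.l1 le_rfl) 1
  have h2 : sz s.2 ≤ K * (4 * (m + 1) + 6) + 1 := by
    refine (sz_le_length_mul s.2 (4 * (m + 1) + 5) fun x hx => ?_).trans ?_
    · refine (sz_nat_of_lt (M := m + 1) (lt_of_le_of_lt (h.b2 x hx) ?_)).trans (by omega)
      exact lt_of_lt_of_le Nat.lt_two_pow_self (Nat.pow_le_pow_right (by norm_num) (by omega))
    · exact Nat.add_le_add_right (Nat.mul_le_mul h.l2 le_rfl) 1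
  rw [show sz s = sz s.1 + sz s.2 + 1 from sz_pair _ _]
  omega

theorem poly_maxsuppF {K t : α → ℕ} {B : α → List (List ℤ)} (hK : UPoly K) (ht : UPoly t)
    (hB : Poly B) : Poly (fun a => maxsuppF (K a) (t a) (B a)) := by
  unfold maxsuppF
  have ht' := ht.toPoly
  obtain ⟨w, hw⟩ := Poly.sz_le (show Poly (fun a => List.replicate (K a) ()) from hK)
  obtain ⟨w', hw'⟩ := Poly.sz_le (show Poly (fun a => List.replicate (t a) ()) from ht)
  have h1 : Poly (fun a => (roundF (K a) (t a) (B a))^[K a * t a + 1]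
      (List.replicate (K a) 1, List.replicate (K a) 0)) := by
    refine Poly.iterU (n := fun a => K a * t a + 1)
      (s := fun a => (List.replicate (K a) (1 : ℤ), List.replicate (K a) 0))
      (F := fun a s => roundF (K a) (t a) (B a) s) (by fun_prop) (by fun_prop)
      (by fun_prop) (2 * (w * (4 * ((w * w' + 1) + 1) + 6) + 1) + 1) ?_
    intro a k hk
    have h3 : K a ≤ w.eval (sz a) := by
      have := length_lt_sz (List.replicate (K a) ())
      rw [List.length_replicate] at this
      have := hw a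
      omega
    have h4 : t a ≤ w'.eval (sz a) := by
      have := length_lt_sz (List.replicate (t a) ())
      rw [List.length_replicate] at this
      have := hw' a
      omega
    refine (Bd.iter k).sz_le.trans ?_
    have h5 : k ≤ w.eval (sz a) * w'.eval (sz a) + 1 := hk.trans (by gcongr)
    simp only [Polynomial.eval_add, Polynomial.eval_mul, Polynomial.eval_one,
      Polynomial.eval_ofNat]
    gcongr
  exact poly_outpF hK ht' hB h1

theorem poly_negV {u : α → List ℤ} (hu : Poly u) : Poly (fun a => negV (u a)) := by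
  unfold negV
  fun_prop

attribute [fun_prop] poly_negV

theorem poly_sysRow {r u : α → List ℤ} (hr : Poly r) (hu : Poly u) :
    Poly (fun a => sysRow (r a) (u a)) := by
  unfold sysRow
  fun_prop

attribute [fun_prop] poly_sysRow

theorem poly_sys {E J : α → List (List ℤ)} (hE : Poly E) (hJ : Poly J) :
    Poly (fun a => sys (E a) (J a)) := by
  unfold sys
  fun_prop

theorem poly_diffPart {N : α → ℕ} {y : α → List ℤ} (hN : UPoly N) (hy : Poly y) :
    Poly (fun a => diffPart (N a) (y a)) := by
  unfold diffPart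
  have hN' := hN.toPoly
  fun_prop

theorem poly_relint {N t : α → ℕ} {E J : α → List (List ℤ)} (hN : UPoly N) (ht : UPoly t)
    (hE : Poly E) (hJ : Poly J) : Poly (fun a => relint (N a) (t a) (E a) (J a)) := by
  unfold relint
  have hK : UPoly (fun a => N a + (N a + (J a).length)) := by fun_prop
  exact poly_diffPart hN (poly_maxsuppF hK ht (poly_sys hE hJ))

attribute [fun_prop] poly_relint

end Pool.Agent.NPC.Y644
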