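import Pool.Agent.Y644.QS.PolyRel
set_option autoImplicit false

/-!
# Polynomial time: one step of the machine
-/

namespace Pool.Agent.NPC.Y644

open Pool.Agent.Y644.QS Pool.Agent.H687R2.LLL

variable {α β γ : Type} [TEnc α] [TEnc β] [TEnc γ]

theorem poly_tau {c : α → List ℤ} (hc : Poly c) : Poly (fun a => tau (c a)) := by
  unfold tau
  have h : Poly (fun a => (c a).length - 1) := by fun_prop
  exact Poly.unitV (by fun_prop) h

attribute [fun_prop] poly_tau

theorem upoly_tpar {E J : α → List (List ℤ)} (hE : Poly E) (hJ : Poly J) :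
    UPoly (fun a => tpar (E a) (J a)) := by
  unfold tpar
  fun_prop

attribute [fun_prop] upoly_tpar

theorem poly_face {c g : α → List ℤ} {E J : α → List (List ℤ)} (hc : Poly c) (hE : Poly E)
    (hJ : Poly J) (hg : Poly g) : Poly (fun a => face (c a) (E a) (J a) (g a)) := by
  unfold face
  fun_prop

attribute [fun_prop] poly_face

theorem poly_feas {c g : α → List ℤ} {E J : α → List (List ℤ)} (hc : Poly c) (hE : Poly E)
    (hJ : Poly J) (hg : Poly g) : Poly (fun a => feas (c a) (E a) (J a) (g a)) := by
  unfold feas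
  fun_prop

attribute [fun_prop] poly_feas

theorem poly_blockV {v h r : α → List ℤ} (hv : Poly v) (hh : Poly h) (hr : Poly r) :
    Poly (fun a => blockV (v a) (h a) (r a)) := by
  unfold blockV
  fun_prop

attribute [fun_prop] poly_blockV

theorem poly_otherC {v h : α → List ℤ} {J : α → List (List ℤ)} (hJ : Poly J) (hv : Poly v)
    (hh : Poly h) : Poly (fun a => otherC (J a) (v a) (h a)) := by
  unfold otherC
  have h1 : Poly (fun a => ((J a).filter fun r => decide (dot r (v a) < 0))) := by fun_prop
  have h2 : Poly (fun a => ((J a).filter fun r => decide (dot r (v a) < 0)).map fun r =>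
      blockV (v a) (h a) r) := Poly.map (F := fun a r => blockV (v a) (h a) r) h1 (by fun_prop)
  have h3 : Poly (fun p : α × List ℤ => (J p.1).all fun q => decide (dot q p.2 ≤ 0)) := by
    fun_prop
  exact Poly.filter (p := fun a w => (J a).all fun q => decide (dot q w ≤ 0)) h2 h3

attribute [fun_prop] poly_otherC

theorem poly_other {v h : α → List ℤ} {J : α → List (List ℤ)} (hJ : Poly J) (hv : Poly v)
    (hh : Poly h) : Poly (fun a => other (J a) (v a) (h a)) := by
  unfold other
  fun_prop

theorem poly_tight {w : α → List ℤ} {J : α → List (List ℤ)} (hJ : Poly J) (hw : Poly w) :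
    Poly (fun a => tight (J a) (w a)) := by
  unfold tight
  fun_prop

attribute [fun_prop] poly_other poly_tight

theorem poly_normV {c w : α → List ℤ} {E J : α → List (List ℤ)} (hc : Poly c) (hE : Poly E)
    (hJ : Poly J) (hw : Poly w) : Poly (fun a => normV (c a) (E a) (J a) (w a)) := by
  unfold normV
  have h1 : Poly (fun a => E a ++ tight (J a) (w a)) := by fun_prop
  have h2 : Poly (fun a => gs (fixR (c a).length (E a ++ tight (J a) (w a)))) :=
    poly_gsF (by fun_prop) h1
  have h3 : Poly (fun a => if 0 < dot (tau (c a)) (w a) then tau (c a) else c a) := by fun_prop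
  exact Poly.fst (poly_proj h2 h3)

attribute [fun_prop] poly_normV

theorem sz_filter_le {β : Type} [TEnc β] (l : List β) (p : β → Bool) : sz (l.filter p) ≤ sz l := by
  induction l with
  | nil => simp
  | cons r J ih =>
    rw [List.filter_cons]
    split_ifs <;> simp only [sz_list_cons] <;> omega

/-- the part of `normV` which does not depend on the size of the vector -/
theorem normV_bound : ∃ p : Polynomial ℕ, ∀ (c : List ℤ) (E J : List (List ℤ)) (w : List ℤ),
    sz (normV c E J w) ≤ p.eval (sz c + sz E + sz J) := by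
  have h : Poly (fun p : List ℤ × List (List ℤ) × List (List ℤ) × Bool =>
      (proj (gs (fixR p.1.length (p.2.1 ++ p.2.2.1)))
        (if p.2.2.2 = true then tau p.1 else p.1)).1) := by
    have h1 : Poly (fun p : List ℤ × List (List ℤ) × List (List ℤ) × Bool =>
      p.2.1 ++ p.2.2.1) := by fun_prop
    have h2 : Poly (fun p : List ℤ × List (List ℤ) × List (List ℤ) × Bool =>
      gs (fixR p.1.length (p.2.1 ++ p.2.2.1))) := poly_gsF (by fun_prop) h1
    have h3 : Poly (fun p : List ℤ × List (List ℤ) × List (List ℤ) × Bool =>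
      if p.2.2.2 = true then tau p.1 else p.1) := by fun_prop
    exact Poly.fst (poly_proj h2 h3)
  obtain ⟨q, hq⟩ := h.sz_le
  refine ⟨q.comp (Polynomial.X + 6), fun c E J w => ?_⟩
  have h1 := hq (c, E, tight J w, decide (0 < dot (tau c) w))
  simp only [decide_eq_true_eq] at h1
  have e : normV c E J w = (proj (gs (fixR c.length (E ++ tight J w)))
      (if 0 < dot (tau c) w then tau c else c)).1 := rfl
  rw [e]
  refine h1.trans ?_
  rw [Polynomial.eval_comp]
  refine eval_mono q ?_
  have h2 : sz (tight J w) ≤ sz J := sz_filter_le _ _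
  have h3 := sz_bool_le (decide (0 < dot (tau c) w))
  simp only [sz_pair, Polynomial.eval_add, Polynomial.eval_X, Polynomial.eval_ofNat]
  omega

theorem sz_greedy (c : List ℤ) (E T : List (List ℤ)) (g : List ℤ) (L : List (List ℤ)) :
    sz (L.foldr (fun r E' => if feas c (r :: E') T g = true then r :: E' else E') E) ≤
      sz E + sz L := by
  induction L with
  | nil => simp
  | cons r L ih =>
    rw [List.foldr_cons]
    split_ifs
    · simp only [sz_list_cons] at ih ⊢; omega
    · simp only [sz_list_cons]; omega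

theorem poly_greedy {c g : α → List ℤ} {E T : α → List (List ℤ)} (hc : Poly c) (hE : Poly E)
    (hT : Poly T) (hg : Poly g) : Poly (fun a => greedy (c a) (E a) (T a) (g a)) := by
  unfold greedy
  obtain ⟨p, hp⟩ := hE.sz_le
  obtain ⟨q, hq⟩ := hT.sz_le
  have hF : Poly (fun p : α × List ℤ × List (List ℤ) =>
      if feas (c p.1) (p.2.1 :: p.2.2) (T p.1) (g p.1) = true then p.2.1 :: p.2.2 else p.2.2) := by
    fun_prop
  refine Poly.foldr (l := T) (s := E)
    (F := fun a r E' => if feas (c a) (r :: E') (T a) (g a) = true then r :: E' else E')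
    hT hE hF (p + q) ?_
  intro a k _
  refine (sz_greedy _ _ _ _ _).trans ?_
  have h1 := hp a
  have h2 := hq a
  have h3 := Poly.sz_drop_le (T a) k
  rw [Polynomial.eval_add]
  omega

theorem poly_gain {c v : α → List ℤ} (hc : Poly c) (hv : Poly v) :
    Poly (fun a => gain (c a) (v a)) := by
  unfold gain
  fun_prop

attribute [fun_prop] poly_greedy poly_gain

theorem poly_improve {c v : α → List ℤ} {E J : α → List (List ℤ)} (hc : Poly c) (hE : Poly E)
    (hJ : Poly J) (hv : Poly v) : Poly (fun a => improve (c a) (E a) (J a) (v a)) := by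
  unfold improve
  have h1 : Poly (fun a => greedy (c a) (E a) (tight (J a) (v a)) (gain (c a) (v a))) := by
    fun_prop
  have h2 : Poly (fun a => face (c a) (greedy (c a) (E a) (tight (J a) (v a))
      (gain (c a) (v a))) (tight (J a) (v a)) (gain (c a) (v a))) := by fun_prop
  have h3 : Poly (fun a => normV (c a) (E a) (J a) (other (J a) (v a) (face (c a)
      (greedy (c a) (E a) (tight (J a) (v a)) (gain (c a) (v a))) (tight (J a) (v a))
      (gain (c a) (v a))))) := by fun_prop
  have h4 : Poly (fun a => feas (c a) (E a) (tight (J a) (v a)) (gain (c a) (v a))) := by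
    fun_prop
  exact Poly.ite (Poly.decide_bool h4) (Poly.some h3) (Poly.const none)

attribute [fun_prop] poly_improve

/-! ### The best facet -/

theorem upoly_kpar {c : α → List ℤ} {E J : α → List (List ℤ)} (hc : Poly c) (hE : Poly E)
    (hJ : Poly J) : UPoly (fun a => kpar (c a) (E a) (J a)) := by
  unfold kpar bpar
  fun_prop

theorem poly_thr {c : α → List ℤ} {K s : α → ℕ} (hc : Poly c) (hK : UPoly K) (hs : Poly s) :
    Poly (fun a => thr (c a) (K a) (s a)) := by
  unfold thr
  have h1 : Poly (fun a => (2 : ℤ) ^ (K a)) := Poly.ipow (Poly.const 2) hK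
  have h2 : Poly (fun a => (2 : ℤ) ^ (2 * K a)) :=
    Poly.ipow (Poly.const 2) (UPoly.mul (UPoly.const 2) hK)
  fun_prop

attribute [fun_prop] upoly_kpar poly_thr

theorem poly_above {c F : α → List ℤ} {E J : α → List (List ℤ)} {K s : α → ℕ} (hc : Poly c)
    (hE : Poly E) (hJ : Poly J) (hK : UPoly K) (hs : Poly s) (hF : Poly F) :
    Poly (fun a => above (c a) (E a) (J a) (K a) (s a) (F a)) := by
  unfold above
  fun_prop

attribute [fun_prop] poly_above

theorem poly_aset {c : α → List ℤ} {E J I : α → List (List ℤ)} {K s : α → ℕ} (hc : Poly c)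
    (hE : Poly E) (hJ : Poly J) (hI : Poly I) (hK : UPoly K) (hs : Poly s) :
    Poly (fun a => aset (c a) (E a) (J a) (I a) (K a) (s a)) := by
  unfold aset
  exact Poly.filter (p := fun a F => above (c a) (E a) (J a) (K a) (s a) F) hI (by fun_prop)

attribute [fun_prop] poly_aset

theorem poly_half {c : α → List ℤ} {E J I : α → List (List ℤ)} {K s : α → ℕ} (hc : Poly c)
    (hE : Poly E) (hJ : Poly J) (hI : Poly I) (hK : UPoly K) (hs : Poly s) :
    Poly (fun a => half (c a) (E a) (J a) (I a) (K a) (s a)) := by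
  unfold half
  fun_prop

attribute [fun_prop] poly_half

theorem bs_bound {A : ℕ → Bool} {m : ℕ} (L : List ℕ) :
    L.foldr (fun i s => if A (s + 2 ^ min i m) = true then s + 2 ^ min i m else s) 0 ≤
      L.length * 2 ^ m := by
  induction L with
  | nil => simp
  | cons i L ih =>
    rw [List.foldr_cons, List.length_cons]
    have h1 : 2 ^ min i m ≤ 2 ^ m := Nat.pow_le_pow_right (by norm_num) (min_le_right _ _)
    rw [Nat.succ_mul]
    refine (ite_le_sup _ _ _).trans (sup_le ?_ ?_)
    · exact Nat.add_le_add ih h1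
    · exact ih.trans (Nat.le_add_right _ _)

theorem poly_search {A : α → ℕ → Bool} {K : α → ℕ} (hK : UPoly K)
    (hA : Poly (fun p : α × ℕ => A p.1 p.2)) :
    Poly (fun a => (List.range (2 * K a + 1)).foldr
      (fun i s => if A a (s + 2 ^ min i (2 * K a)) = true then s + 2 ^ min i (2 * K a)
        else s) 0) := by
  obtain ⟨w, hw⟩ := Poly.sz_le (show Poly (fun a => List.replicate (K a) ()) from hK)
  have hm : UPoly (fun p : α × ℕ × ℕ => min p.2.1 (2 * K p.1)) := by
    refine UPoly.of_le (n := fun p => 2 * K p.1) ?_ (by fun_prop) fun p => min_le_right _ _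
    have : Poly (fun p : α × ℕ × ℕ => 2 * K p.1) := UPoly.toPoly (by fun_prop)
    fun_prop
  have h2 : Poly (fun p : α × ℕ × ℕ => 2 ^ min p.2.1 (2 * K p.1)) := Poly.npow (Poly.const 2) hm
  have h3 : Poly (fun p : α × ℕ × ℕ => p.2.2 + 2 ^ min p.2.1 (2 * K p.1)) := by fun_prop
  have hF : Poly (fun p : α × ℕ × ℕ => if A p.1
      (p.2.2 + 2 ^ min p.2.1 (2 * K p.1)) = true then p.2.2 + 2 ^ min p.2.1 (2 * K p.1)
      else p.2.2) := by
    have h4 : Poly (fun p : α × ℕ × ℕ => A p.1 (p.2.2 + 2 ^ min p.2.1 (2 * K p.1))) :=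
      Poly.comp (g := fun p : α × ℕ => A p.1 p.2)
        (f := fun p : α × ℕ × ℕ => (p.1, p.2.2 + 2 ^ min p.2.1 (2 * K p.1))) hA
        (Poly.pair (by fun_prop) h3)
    exact Poly.ite (Poly.decide_bool h4) h3 (by fun_prop)
  refine Poly.foldr (l := fun a => List.range (2 * K a + 1)) (s := fun _ => 0)
    (F := fun a i s => if A a
      (s + 2 ^ min i (2 * K a)) = true then s + 2 ^ min i (2 * K a) else s)
    (by fun_prop) (by fun_prop) hF (4 * (4 * w + 1) + 1) ?_
  intro a k hk
  have h5 := bs_bound (A := fun s => A a s) (m := 2 * K a)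
    ((List.range (2 * K a + 1)).drop k)
  have h6 : K a ≤ w.eval (sz a) := by
    have := length_lt_sz (List.replicate (K a) ())
    rw [List.length_replicate] at this
    have := hw a
    omega
  have h7 : ((List.range (2 * K a + 1)).drop k).length ≤ 2 * K a + 1 := by simp
  have h8 : ((List.range (2 * K a + 1)).drop k).length * 2 ^ (2 * K a) < 2 ^ (4 * K a + 1) := by
    have h9 : 2 * K a + 1 < 2 ^ (2 * K a + 1) := Nat.lt_two_pow_self
    have h10 : 2 ^ (4 * K a + 1) = 2 ^ (2 * K a + 1) * 2 ^ (2 * K a) := by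
      rw [← pow_add]; congr 1; ring
    rw [h10]
    exact Nat.mul_lt_mul_of_pos_right (by omega) (by positivity)
  refine (sz_nat_of_lt (lt_of_le_of_lt h5 h8)).trans ?_
  simp only [Polynomial.eval_add, Polynomial.eval_mul, Polynomial.eval_one,
    Polynomial.eval_ofNat]
  gcongr

theorem poly_hsearch {c : α → List ℤ} {E J I : α → List (List ℤ)} {K : α → ℕ} (hc : Poly c)
    (hE : Poly E) (hJ : Poly J) (hI : Poly I) (hK : UPoly K) :
    Poly (fun a => hsearch (c a) (E a) (J a) (I a) (K a)) := by
  unfold hsearch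
  exact poly_search (A := fun a s => half (c a) (E a) (J a) (I a) (K a) s) hK (by fun_prop)

theorem poly_tsearch {c : α → List ℤ} {E J : α → List (List ℤ)} {K : α → ℕ} (hc : Poly c)
    (hE : Poly E) (hJ : Poly J) (hK : UPoly K) :
    Poly (fun a => tsearch (c a) (E a) (J a) (K a)) := by
  unfold tsearch
  exact poly_search (A := fun a s => feas (c a) (E a) (J a) (thr (c a) (K a) s)) hK
    (by fun_prop)

attribute [fun_prop] poly_hsearch poly_tsearch

theorem poly_upper {c : α → List ℤ} {E J I : α → List (List ℤ)} (hc : Poly c)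
    (hE : Poly E) (hJ : Poly J) (hI : Poly I) :
    Poly (fun a => upper (c a) (E a) (J a) (I a)) := by
  unfold upper
  have h1 : Poly (fun a => hsearch (c a) (E a) (J a) (I a) (kpar (c a) (E a) (J a))) := by
    fun_prop
  exact poly_aset hc hE hJ hI (by fun_prop) h1

theorem poly_upper' {c : α → List ℤ} {E J I : α → List (List ℤ)} (hc : Poly c)
    (hE : Poly E) (hJ : Poly J) (hI : Poly I) :
    Poly (fun a => upper' (c a) (E a) (J a) (I a)) := by
  unfold upper'
  have h1 : Poly (fun a => hsearch (c a) (E a) (J a) (I a) (kpar (c a) (E a) (J a))) := by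
    fun_prop
  exact poly_aset (s := fun a => hsearch (c a) (E a) (J a) (I a) (kpar (c a) (E a) (J a)) + 1)
    hc hE hJ hI (by fun_prop) (Poly.succ h1)

attribute [fun_prop] poly_upper poly_upper'

theorem poly_topF {c v : α → List ℤ} {E J I : α → List (List ℤ)} (hc : Poly c)
    (hE : Poly E) (hJ : Poly J) (hI : Poly I) (hv : Poly v) :
    Poly (fun a => topF (c a) (E a) (J a) (I a) (v a)) := by
  unfold topF
  have h1 : Poly (fun a => tsearch (c a) (E a) (J a) (kpar (c a) (E a) (J a))) := by
    fun_prop
  have h2 : Poly (fun p : α × List ℤ => tsearch (c p.1) (E p.1) (J p.1)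
    (kpar (c p.1) (E p.1) (J p.1))) := h1.comp (Poly.fst Poly.id)
  have h3 : Poly (fun p : α × List ℤ => above (c p.1) (E p.1) (J p.1)
    (kpar (c p.1) (E p.1) (J p.1)) (tsearch (c p.1) (E p.1) (J p.1)
      (kpar (c p.1) (E p.1) (J p.1))) p.2) :=
    poly_above (by fun_prop) (by fun_prop) (by fun_prop) (by fun_prop) h2 (by fun_prop)
  refine Poly.filter (p := fun a r => decide (dot r (v a) = 0) &&
    above (c a) (E a) (J a) (kpar (c a) (E a) (J a)) (tsearch (c a) (E a) (J a)
      (kpar (c a) (E a) (J a))) r) hI ?_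
  fun_prop

attribute [fun_prop] poly_topF

/-! ### Truncation -/

theorem poly_jl {c : α → List ℤ} {I : α → List (List ℤ)} (hc : Poly c) (hI : Poly I) :
    Poly (fun a => jl (c a) (I a)) := by
  unfold jl
  fun_prop

theorem poly_inside {u : α → List ℤ} {J : α → List (List ℤ)} (hJ : Poly J) (hu : Poly u) :
    Poly (fun a => inside (J a) (u a)) := by
  unfold inside
  fun_prop

theorem poly_hits {c u : α → List ℤ} {I S : α → List (List ℤ)} (hc : Poly c) (hI : Poly I)
    (hS : Poly S) (hu : Poly u) : Poly (fun a => hits (c a) (I a) (S a) (u a)) := by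
  unfold hits
  fun_prop

attribute [fun_prop] poly_jl poly_inside poly_hits

theorem poly_tstep {c u : α → List ℤ} {E I S : α → List (List ℤ)}
    {s : α → List (List ℤ) × Bool} (hc : Poly c) (hE : Poly E) (hI : Poly I) (hS : Poly S)
    (hu : Poly u) (hs : Poly s) :
    Poly (fun a => tstep (c a) (E a) (I a) (S a) (u a) (s a)) := by
  unfold tstep
  fun_prop

attribute [fun_prop] poly_tstep

theorem trunc_bound : ∃ p : Polynomial ℕ, ∀ (c : List ℤ) (E I S L : List (List ℤ)),
    sz (L.foldr (tstep c E I S) ([], false)).1 ≤ sz L + p.eval (sz c + sz E + sz I) ∧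
      ((L.foldr (tstep c E I S) ([], false)).2 = false →
        sz (L.foldr (tstep c E I S) ([], false)).1 ≤ sz L) := by
  obtain ⟨p, hp⟩ := normV_bound
  have hjl : Poly (fun q : List ℤ × List (List ℤ) => jl q.1 q.2) := by fun_prop
  obtain ⟨r, hr⟩ := hjl.sz_le
  refine ⟨p.comp (Polynomial.X + r.comp (Polynomial.X + 1)) + 1, fun c E I S L => ?_⟩
  have hb : ∀ w, sz (normV c E (jl c I) w) ≤
      (p.comp (Polynomial.X + r.comp (Polynomial.X + 1))).eval (sz c + sz E + sz I) := by
    intro w
    refine (hp c E (jl c I) w).trans ?_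
    rw [Polynomial.eval_comp]
    refine eval_mono p ?_
    have h1 := hr (c, I)
    simp only [sz_pair] at h1
    simp only [Polynomial.eval_add, Polynomial.eval_comp, Polynomial.eval_X,
      Polynomial.eval_one]
    have h2 : r.eval (sz c + sz I + 1) ≤ r.eval (sz c + sz E + sz I + 1) :=
      eval_mono r (by omega)
    omega
  induction L with
  | nil => simp
  | cons u L ih =>
    rw [List.foldr_cons]
    set s := L.foldr (tstep c E I S) ([], false)
    simp only [Polynomial.eval_add, Polynomial.eval_one] at ih ⊢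
    unfold tstep
    by_cases h1 : s.2 = true
    · rw [if_pos h1]
      refine ⟨?_, fun h2 => ?_⟩
      · simp only [sz_list_cons]; omega
      · rw [h1] at h2; exact absurd h2 (by simp)
    · rw [if_neg h1]
      have h2 := ih.2 (by simpa using h1)
      split_ifs
      · simp only [sz_list_cons]
        exact ⟨by omega, fun _ => by omega⟩
      · simp only [sz_list_cons]
        have := hb (other (jl c I) (s.1.head?.getD []) u)
        exact ⟨by omega, fun h => absurd h (by simp)⟩

theorem poly_trunc {c : α → List ℤ} {E I S p : α → List (List ℤ)} (hc : Poly c) (hE : Poly E)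
    (hI : Poly I) (hS : Poly S) (hp : Poly p) :
    Poly (fun a => trunc (c a) (E a) (I a) (S a) (p a)) := by
  unfold trunc
  obtain ⟨b, hb⟩ := trunc_bound
  obtain ⟨q1, hq1⟩ := hp.sz_le
  obtain ⟨q2, hq2⟩ := hc.sz_le
  obtain ⟨q3, hq3⟩ := hE.sz_le
  obtain ⟨q4, hq4⟩ := hI.sz_le
  have hF : Poly (fun x : α × List ℤ × (List (List ℤ) × Bool) =>
      tstep (c x.1) (E x.1) (I x.1) (S x.1) x.2.1 x.2.2) := by fun_prop
  refine Poly.foldr (l := p) (s := fun _ => (([], false) : List (List ℤ) × Bool))
    (F := fun a u s => tstep (c a) (E a) (I a) (S a) u s) hp (Poly.const _) hF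
    (q1 + b.comp (q2 + q3 + q4) + 4) ?_
  intro a k _
  have h1 := (hb (c a) (E a) (I a) (S a) ((p a).drop k)).1
  have h2 : b.eval (sz (c a) + sz (E a) + sz (I a)) ≤
      (b.comp (q2 + q3 + q4)).eval (sz a) := by
    rw [Polynomial.eval_comp]
    refine eval_mono b ?_
    have := hq2 a
    have := hq3 a
    have := hq4 a
    simp only [Polynomial.eval_add]
    omega
  have h3 := Poly.sz_drop_le (p a) k
  have h4 := hq1 a
  set R := ((p a).drop k).foldr (fun u s => tstep (c a) (E a) (I a) (S a) u s) ([], false)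
  have h5 := sz_bool_le R.2
  rw [show sz R = sz R.1 + sz R.2 + 1 from sz_pair _ _]
  have h6 : sz R.1 ≤ sz ((p a).drop k) + b.eval (sz (c a) + sz (E a) + sz (I a)) := h1
  simp only [Polynomial.eval_add, Polynomial.eval_ofNat]
  omega

attribute [fun_prop] poly_trunc

/-! ### The machine -/

theorem poly_hdp {p : α → List (List ℤ)} (hp : Poly p) : Poly (fun a => hdp (p a)) := by
  unfold hdp
  fun_prop

attribute [fun_prop] poly_hdp

theorem poly_pickF {c v : α → List ℤ} {E I : α → List (List ℤ)} (hc : Poly c)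
    (hE : Poly E) (hI : Poly I) (hv : Poly v) :
    Poly (fun a => pickF (c a) (E a) (I a) (v a)) := by
  unfold pickF
  have h1 : Poly (fun a => upper (c a) (E a) (jl (c a) (I a)) (I a)) := by fun_prop
  have h2 : Poly (fun a => (upper (c a) (E a) (jl (c a) (I a)) (I a)).filter fun r =>
      decide (dot r (v a) = 0)) :=
    Poly.filter (p := fun a r => decide (dot r (v a) = 0)) h1 (by fun_prop)
  have h3 : Poly (fun a => topF (c a) (E a) (jl (c a) (I a)) (I a) (v a)) := by fun_prop
  fun_prop

theorem poly_lower {c : α → List ℤ} {E I : α → List (List ℤ)} (hc : Poly c)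
    (hE : Poly E) (hI : Poly I) : Poly (fun a => lower (c a) (E a) (I a)) := by
  unfold lower
  have h1 : Poly (fun a => upper (c a) (E a) (jl (c a) (I a)) (I a)) := by fun_prop
  have h2 : Poly (fun p : α × List ℤ => upper (c p.1) (E p.1) (jl (c p.1) (I p.1)) (I p.1)) :=
    h1.comp (Poly.fst Poly.id)
  exact Poly.filter (p := fun a r => !decide (r ∈ upper (c a) (E a) (jl (c a) (I a)) (I a)))
    hI (by fun_prop)

attribute [fun_prop] poly_pickF poly_lower

theorem poly_callF {c F : α → List ℤ} {E I P : α → List (List ℤ)}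
    {st : α → List Frame} (hc : Poly c) (hE : Poly E) (hI : Poly I) (hP : Poly P)
    (hst : Poly st) (hF : Poly F) :
    Poly (fun a => callF (c a) (E a) (I a) (P a) (st a) (F a)) := by
  unfold callF
  have h1 : Poly (fun a => (I a).filter (fun r => !decide (r = F a))) := by fun_prop
  have h2 : Poly (fun a => upper' (c a) (E a) (jl (c a) (I a)) (I a)) := by fun_prop
  fun_prop

attribute [fun_prop] poly_callF

theorem poly_stepCall {c : α → List ℤ} {E I P : α → List (List ℤ)}
    {st : α → List Frame} (hc : Poly c) (hE : Poly E) (hI : Poly I) (hP : Poly P)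
    (hst : Poly st) : Poly (fun a => stepCall (c a) (E a) (I a) (P a) (st a)) := by
  unfold stepCall
  have h1 : Poly (fun a => pickF (c a) (E a) (I a) (hdp (P a))) := by fun_prop
  have h2 : Poly (fun a => ((Sum.inl (E a, lower (c a) (E a) (I a), [hdp (P a)]),
      Sum.inl (E a, I a, P a) :: st a) : State)) := by fun_prop
  have h3 : Poly (fun a => (pickF (c a) (E a) (I a) (hdp (P a))).elim
      ((Sum.inl (E a, lower (c a) (E a) (I a), [hdp (P a)]),
      Sum.inl (E a, I a, P a) :: st a) : State)
      fun F => callF (c a) (E a) (I a) (P a) (st a) F) :=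
    Poly.optElim (h := fun a F => callF (c a) (E a) (I a) (P a) (st a) F) h1 h2 (by fun_prop)
  have h4 : Poly (fun a => ((tight (I a) (hdp (P a))).isEmpty ||
      !decide (0 < dot (tau (c a)) (hdp (P a))))) := by fun_prop
  exact Poly.ite (Poly.decide_bool h4) (by fun_prop) h3

theorem poly_stepLoopQ {c : α → List ℤ} {E I P : α → List (List ℤ)}
    {st : α → List Frame} {q : α → List (List ℤ) × Bool}
    (hc : Poly c) (hE : Poly E) (hI : Poly I) (hP : Poly P)
    (hst : Poly st) (hq : Poly q) :
    Poly (fun a => stepLoopQ (c a) (E a) (I a) (P a) (st a) (q a)) := by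
  unfold stepLoopQ
  have h1 : Poly (fun a => pickF (c a) (E a) (I a) (hdp (q a).1)) := by fun_prop
  have h2 : Poly (fun a => ((Sum.inr (P a), st a) : State)) := by fun_prop
  have h3 : Poly (fun a => (pickF (c a) (E a) (I a) (hdp (q a).1)).elim
      ((Sum.inr (P a), st a) : State)
      fun F => callF (c a) (E a) (I a) ((q a).1 ++ (P a).tail) (st a) F) :=
    Poly.optElim (h := fun a F => callF (c a) (E a) (I a) ((q a).1 ++ (P a).tail) (st a) F)
      h1 h2 (by fun_prop)
  exact Poly.ite (Poly.decide_bool (by fun_prop)) h3 (by fun_prop)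

theorem poly_stepTop {c : α → List ℤ} {E I B p : α → List (List ℤ)}
    {st : α → List Frame} (hc : Poly c) (hE : Poly E) (hI : Poly I) (hB : Poly B)
    (hst : Poly st) (hp : Poly p) :
    Poly (fun a => stepTop (c a) (E a) (I a) (B a) (st a) (p a)) := by
  unfold stepTop
  have h1 : Poly (fun a => improve (c a) (E a) (jl (c a) (I a)) (hdp (p a))) := by fun_prop
  have h2 : Poly (fun x : α × List ℤ => ((Sum.inl (E x.1, B x.1, x.2 :: p x.1),
      st x.1) : State)) := by fun_prop
  exact Poly.optElim (h := fun a u => ((Sum.inl (E a, B a, u :: p a), st a) : State)) h1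
    (by fun_prop) h2

attribute [fun_prop] poly_stepCall poly_stepLoopQ poly_stepTop

theorem poly_step : Poly (fun x : List ℤ × State => step x.1 x.2) := by
  have h1 : Poly (fun x : (List ℤ × State) × (List (List ℤ) × List (List ℤ) × List (List ℤ)) =>
      stepCall x.1.1 x.2.1 x.2.2.1 x.2.2.2 x.1.2.2) := by fun_prop
  have h2 : Poly (fun x : (((List ℤ × State) × List (List ℤ)) × Frame × List Frame) ×
      (List (List ℤ) × List (List ℤ) × List (List ℤ)) =>
      stepLoopQ x.1.1.1.1 x.2.1 x.2.2.1 x.2.2.2 x.1.2.2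
        (trunc x.1.1.1.1 x.2.1 x.2.2.1 (lower x.1.1.1.1 x.2.1 x.2.2.1) x.1.1.2)) := by fun_prop
  have h3 : Poly (fun x : (((List ℤ × State) × List (List ℤ)) × Frame × List Frame) ×
      (List (List ℤ) × List (List ℤ) × List (List ℤ)) =>
      stepTop x.1.1.1.1 x.2.1 x.2.2.1 x.2.2.2 x.1.2.2 x.1.1.2) := by fun_prop
  have h4 : Poly (fun x : ((List ℤ × State) × List (List ℤ)) × Frame × List Frame =>
      Sum.elim (fun y : List (List ℤ) × List (List ℤ) × List (List ℤ) =>
        stepLoopQ x.1.1.1 y.1 y.2.1 y.2.2 x.2.2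
        (trunc x.1.1.1 y.1 y.2.1 (lower x.1.1.1 y.1 y.2.1) x.1.2))
        (fun y : List (List ℤ) × List (List ℤ) × List (List ℤ) =>
          stepTop x.1.1.1 y.1 y.2.1 y.2.2 x.2.2 x.1.2) x.2.1) :=
    Poly.sumElim (o := fun x : ((List ℤ × State) × List (List ℤ)) × Frame × List Frame => x.2.1)
      (by fun_prop) h2 h3
  have h5 : Poly (fun x : (List ℤ × State) × List (List ℤ) =>
      step x.1.1 (Sum.inr x.2, x.1.2.2)) := by
    refine (Poly.listCases (l := fun x : (List ℤ × State) × List (List ℤ) => x.1.2.2)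
      (g := fun x => ((Sum.inr x.2, []) : State))
      (h := fun x f st => Sum.elim
        (fun y : List (List ℤ) × List (List ℤ) × List (List ℤ) =>
        stepLoopQ x.1.1 y.1 y.2.1 y.2.2 st
        (trunc x.1.1 y.1 y.2.1 (lower x.1.1 y.1 y.2.1) x.2))
        (fun y : List (List ℤ) × List (List ℤ) × List (List ℤ) =>
          stepTop x.1.1 y.1 y.2.1 y.2.2 st x.2) f) (by fun_prop) (by fun_prop) h4).congr ?_
    rintro ⟨⟨c, s, st⟩, p⟩
    cases st with
    | nil => rfl
    | cons f st => cases f <;> rfl
  have h6 := Poly.sumElim (o := fun x : List ℤ × State => x.2.1)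
    (g := fun x y => stepCall x.1 y.1 y.2.1 y.2.2 x.2.2)
    (h := fun (x : List ℤ × State) (p : List (List ℤ)) => step x.1 (Sum.inr p, x.2.2))
    (by fun_prop) h1 h5
  refine h6.congr ?_
  rintro ⟨c, s, st⟩
  cases s with
  | inl x => rfl
  | inr p => rfl

end Pool.Agent.NPC.Y644
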