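import Pool.Agent.H687R2.LLLAlg
set_option autoImplicit false

/-!
# Orthogonal projections in integer arithmetic

`proj (gs B) x` computes `D P x`, where `P` is the orthogonal projection onto the orthogonal
complement of the rows of `B` (which may be dependent) and `D` is the Gram determinant of a basis.
-/

namespace Pool.Agent.Y644.QS

open scoped InnerProductSpace
open Pool.Agent.H687R2.LLL

/-- one projection step -/
def pStep (x : List ℤ) (s : List ℤ × ℕ) (t : List ℤ × ℕ) : List ℤ × ℕ :=
  (divV (comb t.2 s.1 (dot x t.1) t.1) s.2, t.2)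

/-- the scaled projection of `x` -/
def proj (acc : List (List ℤ × ℕ)) (x : List ℤ) : List ℤ × ℕ := acc.foldl (pStep x) (x, 1)

/-- process one row -/
def addRow (acc : List (List ℤ × ℕ)) (a : List ℤ) : List (List ℤ × ℕ) :=
  if dot (proj acc a).1 a = 0 then acc
  else acc ++ [((proj acc a).1, (dot (proj acc a).1 a).toNat)]

/-- the integral Gram-Schmidt vectors of a maximal independent subfamily, with the Gram
determinants -/
def gs (B : List (List ℤ)) : List (List ℤ × ℕ) := B.foldl addRow []

/-- specification of the entries of `gs` -/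
structure Tri (N : ℕ) (b : ℕ → EuclideanSpace ℝ (Fin N)) (j : ℕ) (t : List ℤ × ℕ) : Prop where
  len : t.1.length = N
  v_eq : lv N t.1 = gd b j • g b j
  d_eq : (t.2 : ℝ) = gd b (j + 1)

section

variable {N : ℕ} {b : ℕ → EuclideanSpace ℝ (Fin N)}

theorem proj_spec (hb : ∀ j, IsInt (b j)) {i : ℕ} (hp : Pos b i) {acc : List (List ℤ × ℕ)}
    (hacc : acc.length = i) (hspec : ∀ j (hj : j < acc.length), Tri N b j acc[j])
    {x : List ℤ} (hx : x.length = N) :
    ∀ j ≤ i, ((acc.take j).foldl (pStep x) (x, 1)).1.length = N ∧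
      lv N ((acc.take j).foldl (pStep x) (x, 1)).1 = gd b j • P b j (lv N x) ∧
      (((acc.take j).foldl (pStep x) (x, 1)).2 : ℝ) = gd b j := by
  intro j
  induction j with
  | zero =>
    intro _
    simp [hx, gd_zero, P_zero]
  | succ j ih =>
    intro hj
    obtain ⟨h1, h2, h3⟩ := ih (by omega)
    have hj' : j < acc.length := by omega
    rw [List.take_succ_eq_append_getElem hj', List.foldl_append, List.foldl_cons, List.foldl_nil]
    set s := (acc.take j).foldl (pStep x) (x, 1)
    have sp := hspec j hj'
    obtain ⟨u, hu, hu2⟩ := exists_lv (isInt_gd_smul_P (b := b) (i := j + 1) (x := lv N x)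
      (fun p _ => hb p) (isInt_lv N x))
    have hgj := hp j (by omega)
    have hgj1 := hp (j + 1) (by omega)
    have hg := hp.g_pos (j := j) (by omega)
    have h4 : divV (comb acc[j].2 s.1 (dot x acc[j].1) acc[j].1) s.2 = u := by
      refine divV_eq (N := N) (length_comb h1 sp.len _ _) hu ?_ ?_
      · intro h0
        rw [h0] at h3
        simp at h3
        exact hgj.ne h3
      · rw [lv_comb h1 sp.len, dot_eq hx sp.len, h2, sp.v_eq, hu2, h3, P_succ,
          inner_smul_right, Int.cast_natCast, sp.d_eq, real_inner_comm]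
        have e1 : gd b (j + 1) = gd b j * ‖g b j‖ ^ 2 := gd_succ hgj.ne'
        have hn : ‖g b j‖ ≠ 0 := fun h => by rw [h] at hg; simp at hg
        rw [e1]
        simp only [smul_sub, smul_smul]
        congr 1
        · congr 1; ring
        · congr 1; field_simp
    refine ⟨?_, ?_, ?_⟩
    · change (divV _ _).length = N
      rw [h4, hu]
    · change lv N (divV _ _) = _
      rw [h4, hu2]
    · exact sp.d_eq

theorem proj_full (hb : ∀ j, IsInt (b j)) {acc : List (List ℤ × ℕ)} (hp : Pos b acc.length)
    (hspec : ∀ j (hj : j < acc.length), Tri N b j acc[j]) {x : List ℤ} (hx : x.length = N) :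
    (proj acc x).1.length = N ∧ lv N (proj acc x).1 = gd b acc.length • P b acc.length (lv N x) ∧
      ((proj acc x).2 : ℝ) = gd b acc.length := by
  have := proj_spec hb hp rfl hspec hx acc.length le_rfl
  rwa [List.take_of_length_le le_rfl] at this

end

/-- the span of the rows -/
def Rs (N : ℕ) (B : List (List ℤ)) : Submodule ℝ (EuclideanSpace ℝ (Fin N)) :=
  Submodule.span ℝ (lv N '' {r | r ∈ B})

theorem Rs_append (N : ℕ) (B : List (List ℤ)) (a : List ℤ) :
    Rs N (B ++ [a]) = Rs N B ⊔ Submodule.span ℝ {lv N a} := by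
  unfold Rs
  rw [← Submodule.span_union, ← Set.image_singleton, ← Set.image_union]
  congr 2
  ext r
  simp only [List.mem_append, List.mem_singleton, Set.mem_setOf_eq, Set.mem_union,
    Set.mem_singleton_iff]

theorem gs_append (B : List (List ℤ)) (a : List ℤ) : gs (B ++ [a]) = addRow (gs B) a := by
  simp [gs]

/-- the specification of the Gram-Schmidt process -/
theorem gs_spec (N : ℕ) (B : List (List ℤ)) (hB : ∀ r ∈ B, r.length = N) :
    ∃ b : ℕ → EuclideanSpace ℝ (Fin N), (∀ j, IsInt (b j)) ∧ Pos b (gs B).length ∧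
      (∀ j (hj : j < (gs B).length), Tri N b j (gs B)[j]) ∧ W b (gs B).length = Rs N B ∧
      ∀ j ≤ (gs B).length, gd b j ≤ (B.map fun r => max 1 (‖lv N r‖ ^ 2)).prod := by
  induction B using List.reverseRecOn with
  | nil =>
    refine ⟨fun _ => 0, fun j k => ⟨0, by simp⟩, ?_, ?_, ?_, ?_⟩
    · intro j hj
      simp only [gs, List.foldl_nil, List.length_nil, Nat.le_zero] at hj
      subst hj
      rw [gd_zero]; norm_num
    · intro j hj; simp [gs] at hj
    · simp [gs, W, Rs]
    · intro j hj
      simp only [gs, List.foldl_nil, List.length_nil, Nat.le_zero] at hj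
      subst hj
      simp [gd_zero]
  | append_singleton B a ih =>
    obtain ⟨b, h1, h2, h3, h4, h5⟩ := ih fun r hr => hB r (by simp [hr])
    have ha : a.length = N := hB a (by simp)
    obtain ⟨p1, p2, p3⟩ := proj_full h1 h2 h3 ha
    set acc := gs B with hacc
    set k := acc.length with hk
    rw [gs_append, Rs_append, ← h4]
    have hprod : ∀ B : List (List ℤ), (0 : ℝ) ≤ (B.map fun r => max 1 (‖lv N r‖ ^ 2)).prod := by
      intro B
      apply List.prod_nonneg
      intro x hx
      rw [List.mem_map] at hx
      obtain ⟨r, _, rfl⟩ := hx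
      positivity
    have hmap : ((B ++ [a]).map fun r => max 1 (‖lv N r‖ ^ 2)).prod =
        (B.map fun r => max 1 (‖lv N r‖ ^ 2)).prod * max 1 (‖lv N a‖ ^ 2) := by simp
    have hd : ((dot (proj acc a).1 a : ℤ) : ℝ) = gd b k * ‖P b k (lv N a)‖ ^ 2 := by
      rw [dot_eq p1 ha, p2, inner_smul_left, ← inner_P_P, real_inner_self_eq_norm_sq]
      rfl
    have hgk := h2 k le_rfl
    by_cases h0 : dot (proj acc a).1 a = 0
    · have e : addRow acc a = acc := by simp [addRow, h0]
      rw [e]
      refine ⟨b, h1, h2, h3, ?_, ?_⟩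
      · have hP : P b k (lv N a) = 0 := by
          rw [h0, Int.cast_zero] at hd
          have : ‖P b k (lv N a)‖ ^ 2 = 0 := by
            rcases mul_eq_zero.1 hd.symm with h | h
            · exact absurd h hgk.ne'
            · exact h
          simpa using this
        have hmem : lv N a ∈ W b k := by
          have := sub_P_mem (b := b) (i := k) (lv N a)
          rwa [hP, sub_zero] at this
        rw [eq_comm, sup_eq_left, Submodule.span_singleton_le_iff_mem]
        exact hmem
      · intro j hj
        rw [hmap]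
        calc gd b j ≤ (B.map fun r => max 1 (‖lv N r‖ ^ 2)).prod := h5 j hj
          _ = (B.map fun r => max 1 (‖lv N r‖ ^ 2)).prod * 1 := by ring
          _ ≤ _ := mul_le_mul_of_nonneg_left (le_max_left _ _) (hprod B)
    · have e : addRow acc a = acc ++ [((proj acc a).1, (dot (proj acc a).1 a).toNat)] := by
        simp [addRow, h0]
      rw [e]
      set b' : ℕ → EuclideanSpace ℝ (Fin N) := Function.update b k (lv N a) with hb'
      have hbb : ∀ j < k, b' j - b j ∈ W b j := by
        intro j hj
        rw [hb', Function.update_of_ne (by omega), sub_self]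
        exact Submodule.zero_mem _
      have hbk : b' k = lv N a := by rw [hb', Function.update_self]
      have hW := W_eq_of_sub_mem hbb
      have hgd := gd_eq_of_sub_mem hbb h2
      have hg := g_eq_of_sub_mem hbb
      have hPk : ∀ x, P b' k x = P b k x := fun x => P_congr (hW k le_rfl) x
      have hgk' : gd b' k = gd b k := hgd k le_rfl
      have hgk1 : gd b' (k + 1) = (dot (proj acc a).1 a : ℤ) := by
        rw [gd_succ (by rw [hgk']; exact hgk.ne'), hgk', hd, g, hPk, hbk]
      have hpos : 0 < gd b k * ‖P b k (lv N a)‖ ^ 2 := by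
        refine lt_of_le_of_ne (by positivity) ?_
        rw [← hd]
        exact fun h => h0 (by exact_mod_cast h.symm)
      have hInt : ∀ j, IsInt (b' j) := by
        intro j
        by_cases hj : j = k
        · rw [hj, hbk]; exact isInt_lv _ _
        · rw [hb', Function.update_of_ne hj]; exact h1 j
      refine ⟨b', hInt, ?_, ?_, ?_, ?_⟩
      · intro j hj
        simp only [List.length_append, List.length_cons, List.length_nil] at hj
        rcases Nat.lt_or_ge k j with h | h
        · have : j = k + 1 := by omega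
          rw [this, hgk1, hd]; exact hpos
        · rw [hgd j h]; exact h2 j h
      · intro j hj
        simp only [List.length_append, List.length_cons, List.length_nil] at hj
        rcases Nat.lt_or_ge j k with h | h
        · rw [List.getElem_append_left (by omega)]
          have sp := h3 j (by omega)
          exact ⟨sp.len, by rw [sp.v_eq, hgd j (by omega), hg j h],
            by rw [sp.d_eq, hgd (j + 1) (by omega)]⟩
        · have hj' : j = k := by omega
          subst hj'
          rw [List.getElem_append_right (by omega)]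
          simp only [hk, Nat.sub_self, List.getElem_cons_zero]
          refine ⟨p1, ?_, ?_⟩
          · change lv N (proj acc a).1 = gd b' k • g b' k
            rw [p2, hgk', g, hPk, hbk]
          · change (((dot (proj acc a).1 a).toNat : ℕ) : ℝ) = gd b' (k + 1)
            rw [hgk1]
            have h6 : (0 : ℝ) ≤ (dot (proj acc a).1 a : ℤ) := by rw [hd]; positivity
            have h7 : 0 ≤ dot (proj acc a).1 a := by exact_mod_cast h6
            have h8 := Int.toNat_of_nonneg h7
            exact_mod_cast congrArg (fun z : ℤ => (z : ℝ)) h8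
      · simp only [List.length_append, List.length_cons, List.length_nil, zero_add]
        change W b' (k + 1) = _
        rw [W_succ, hW k le_rfl, hbk]
      · intro j hj
        rw [hmap]
        simp only [List.length_append, List.length_cons, List.length_nil, zero_add] at hj
        rcases Nat.lt_or_ge k j with hkj | hkj
        swap
        · rw [hgd j hkj]
          calc gd b j ≤ (B.map fun r => max 1 (‖lv N r‖ ^ 2)).prod := h5 j hkj
            _ = (B.map fun r => max 1 (‖lv N r‖ ^ 2)).prod * 1 := by ring
            _ ≤ _ := mul_le_mul_of_nonneg_left (le_max_left _ _) (hprod B)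
        have hjk : j = k + 1 := by omega
        subst hjk
        rw [hgk1, hd]
        refine mul_le_mul (h5 k le_rfl) ?_ (by positivity) (hprod B)
        refine le_trans ?_ (le_max_right _ _)
        exact pow_le_pow_left₀ (norm_nonneg _) (norm_P_le _) 2

/-- the orthogonal projection onto the orthogonal complement of the rows -/
noncomputable def PB (N : ℕ) (B : List (List ℤ)) (x : EuclideanSpace ℝ (Fin N)) :
    EuclideanSpace ℝ (Fin N) := x - (Rs N B).starProjection x

section PB

variable {N : ℕ} {B : List (List ℤ)}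

theorem PB_add (x y : EuclideanSpace ℝ (Fin N)) : PB N B (x + y) = PB N B x + PB N B y := by
  simp only [PB, map_add]; abel

theorem PB_inner_mem {y : EuclideanSpace ℝ (Fin N)} (hy : y ∈ Rs N B)
    (x : EuclideanSpace ℝ (Fin N)) : ⟪PB N B x, y⟫_ℝ = 0 :=
  Submodule.starProjection_inner_eq_zero x y hy

theorem PB_row {r : List ℤ} (hr : r ∈ B) (x : EuclideanSpace ℝ (Fin N)) :
    ⟪PB N B x, lv N r⟫_ℝ = 0 :=
  PB_inner_mem (Submodule.subset_span ⟨r, hr, rfl⟩) x

theorem sub_PB_mem (x : EuclideanSpace ℝ (Fin N)) : x - PB N B x ∈ Rs N B := by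
  simp only [PB, sub_sub_cancel]
  exact Submodule.starProjection_apply_mem _ _

theorem inner_zero_of_rows {y : EuclideanSpace ℝ (Fin N)} (h : ∀ r ∈ B, ⟪lv N r, y⟫_ℝ = 0) :
    ∀ z ∈ Rs N B, ⟪z, y⟫_ℝ = 0 := by
  intro z hz
  refine Submodule.span_induction (p := fun z _ => ⟪z, y⟫_ℝ = 0) ?_ ?_ ?_ ?_ hz
  · rintro _ ⟨r, hr, rfl⟩
    exact h r hr
  · simp
  · intro u v _ _ hu hv
    rw [inner_add_left, hu, hv, add_zero]
  · intro c u _ hu
    rw [inner_smul_left, hu, mul_zero]

/-- if `y` is orthogonal to the rows then the projection does not change the inner product -/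
theorem PB_inner_of_rows {y : EuclideanSpace ℝ (Fin N)} (h : ∀ r ∈ B, ⟪lv N r, y⟫_ℝ = 0)
    (x : EuclideanSpace ℝ (Fin N)) : ⟪PB N B x, y⟫_ℝ = ⟪x, y⟫_ℝ := by
  have := inner_zero_of_rows h _ (sub_PB_mem x)
  rw [inner_sub_left] at this
  linarith

theorem PB_inner_PB (x y : EuclideanSpace ℝ (Fin N)) :
    ⟪PB N B x, PB N B y⟫_ℝ = ⟪PB N B x, y⟫_ℝ := by
  have := PB_inner_mem (sub_PB_mem (B := B) y) x
  rw [inner_sub_right] at this
  linarith

theorem PB_norm_le (x : EuclideanSpace ℝ (Fin N)) : ‖PB N B x‖ ≤ ‖x‖ := by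
  have h1 : ‖PB N B x‖ ^ 2 ≤ ‖PB N B x‖ * ‖x‖ := by
    rw [← real_inner_self_eq_norm_sq, PB_inner_PB]
    exact real_inner_le_norm _ _
  by_cases h : ‖PB N B x‖ = 0
  · rw [h]; exact norm_nonneg _
  · have : 0 < ‖PB N B x‖ := lt_of_le_of_ne (norm_nonneg _) (Ne.symm h)
    nlinarith

/-- the algorithm computes an integral multiple of the projection -/
theorem gs_proj (hB : ∀ r ∈ B, r.length = N) :
    ∃ D : ℕ, 0 < D ∧ (D : ℝ) ≤ (B.map fun r => max 1 (‖lv N r‖ ^ 2)).prod ∧
      ∀ x : List ℤ, x.length = N → (proj (gs B) x).1.length = N ∧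
        lv N (proj (gs B) x).1 = (D : ℝ) • PB N B (lv N x) := by
  obtain ⟨b, h1, h2, h3, h4, h5⟩ := gs_spec N B hB
  obtain ⟨z, hz⟩ := gd_int (b := b) (i := (gs B).length) fun p _ => h1 p
  have hpos := h2 _ le_rfl
  have hz0 : 0 < z := by rw [hz] at hpos; exact_mod_cast hpos
  refine ⟨z.toNat, by omega, ?_, fun x hx => ?_⟩
  · have e : ((z.toNat : ℕ) : ℝ) = z := by exact_mod_cast Int.toNat_of_nonneg hz0.le
    rw [e, ← hz]; exact h5 _ le_rfl
  · obtain ⟨p1, p2, -⟩ := proj_full h1 h2 h3 hx
    refine ⟨p1, ?_⟩
    have e : ((z.toNat : ℕ) : ℝ) = z := by exact_mod_cast Int.toNat_of_nonneg hz0.le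
    rw [p2, hz, e]
    congr 1
    simp only [P, PB, h4]

end PB

end Pool.Agent.Y644.QS
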