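import Pool.Agent.Y644.QS.Fix
set_option autoImplicit false

/-!
# Relatively interior points of polyhedral cones
-/

namespace Pool.Agent.Y644.QS

open scoped InnerProductSpace
open Pool.Agent.H687R2.LLL

/-- negation -/
def negV (u : List ℤ) : List ℤ := u.map fun x => -x

/-- a row of the system in the variables `h⁺, h⁻`, slacks -/
def sysRow (r u : List ℤ) : List ℤ := r ++ (negV r ++ u)

/-- the system in standard form -/
def sys (E J : List (List ℤ)) : List (List ℤ) :=
  E.map (fun r => sysRow r (List.replicate J.length 0)) ++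
    J.zipIdx.map fun p => sysRow p.1 (unitV J.length p.2)

/-- `h⁺ - h⁻` -/
def diffPart (N : ℕ) (y : List ℤ) : List ℤ :=
  (List.range N).map fun i => y.getD i 0 - y.getD (N + i) 0

/-- a relatively interior point of the cone `E h = 0`, `J h ≤ 0` -/
def relint (N t : ℕ) (E J : List (List ℤ)) : List ℤ :=
  diffPart N (maxsuppF (N + (N + J.length)) t (sys E J))

theorem length_negV {K : ℕ} {u : List ℤ} (hu : u.length = K) : (negV u).length = K := by
  simp [negV, hu]

theorem getD_negV {u : List ℤ} (i : ℕ) : (negV u).getD i 0 = -(u.getD i 0) := by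
  rw [negV, List.getD_eq_getElem?_getD, List.getD_eq_getElem?_getD, List.getElem?_map]
  cases u[i]? <;> simp

theorem lv_negV (K : ℕ) (u : List ℤ) : lv K (negV u) = - lv K u := by
  ext p
  simp only [lv_apply, getD_negV, PiLp.neg_apply]
  push_cast
  ring

theorem length_sysRow {N m : ℕ} {r u : List ℤ} (hr : r.length = N) (hu : u.length = m) :
    (sysRow r u).length = N + (N + m) := by
  simp [sysRow, hr, hu, length_negV hr]

theorem sysRow_getD {N m : ℕ} {r u : List ℤ} (hr : r.length = N) (hu : u.length = m) :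
    (∀ i < N, (sysRow r u).getD i 0 = r.getD i 0) ∧
      (∀ i < N, (sysRow r u).getD (N + i) 0 = -(r.getD i 0)) ∧
      (∀ i < m, (sysRow r u).getD (N + (N + i)) 0 = u.getD i 0) := by
  have hn := length_negV hr
  refine ⟨fun i hi => ?_, fun i hi => ?_, fun i hi => ?_⟩
  · rw [sysRow, List.getD_append _ _ _ _ (by omega)]
  · rw [sysRow, List.getD_append_right _ _ _ _ (by omega), hr, Nat.add_sub_cancel_left,
      List.getD_append _ _ _ _ (by omega), getD_negV]
  · rw [sysRow, List.getD_append_right _ _ _ _ (by omega), hr, Nat.add_sub_cancel_left,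
      List.getD_append_right _ _ _ _ (by omega), hn, Nat.add_sub_cancel_left]

/-- the part `h⁺ - h⁻` of a vector -/
noncomputable def dp {N m : ℕ} (w : EuclideanSpace ℝ (Fin (N + (N + m)))) :
    EuclideanSpace ℝ (Fin N) :=
  WithLp.toLp 2 fun i => w (Fin.castAdd _ i) - w (Fin.natAdd N (Fin.castAdd m i))

/-- the slacks -/
noncomputable def sp {N m : ℕ} (w : EuclideanSpace ℝ (Fin (N + (N + m)))) :
    EuclideanSpace ℝ (Fin m) :=
  WithLp.toLp 2 fun i => w (Fin.natAdd N (Fin.natAdd N i))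

theorem inner_sysRow {N m : ℕ} {r u : List ℤ} (hr : r.length = N) (hu : u.length = m)
    (w : EuclideanSpace ℝ (Fin (N + (N + m)))) :
    ⟪lv (N + (N + m)) (sysRow r u), w⟫_ℝ = ⟪lv N r, dp w⟫_ℝ + ⟪lv m u, sp w⟫_ℝ := by
  obtain ⟨h1, h2, h3⟩ := sysRow_getD hr hu
  rw [PiLp.inner_apply, PiLp.inner_apply, PiLp.inner_apply, Fin.sum_univ_add, Fin.sum_univ_add,
    ← add_assoc, ← Finset.sum_add_distrib]
  congr 1
  · refine Finset.sum_congr rfl fun i _ => ?_
    simp only [lv_apply, RCLike.inner_apply, conj_trivial, dp, Fin.val_castAdd, Fin.val_natAdd]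
    rw [h1 i i.2, h2 i i.2]
    push_cast
    ring
  · refine Finset.sum_congr rfl fun i _ => ?_
    simp only [lv_apply, RCLike.inner_apply, conj_trivial, sp, Fin.val_natAdd]
    rw [h3 i i.2]

theorem mem_sys {E J : List (List ℤ)} {r : List ℤ} :
    r ∈ sys E J ↔ (∃ a ∈ E, r = sysRow a (List.replicate J.length 0)) ∨
      ∃ (i : ℕ) (hi : i < J.length), r = sysRow J[i] (unitV J.length i) := by
  rw [sys, List.mem_append, List.mem_map, List.mem_map]
  constructor
  · rintro (⟨a, ha, rfl⟩ | ⟨⟨a, i⟩, ha, rfl⟩)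
    · exact Or.inl ⟨a, ha, rfl⟩
    · rw [List.mem_zipIdx_iff_getElem?] at ha
      simp only at ha
      obtain ⟨hi, he⟩ := List.getElem?_eq_some_iff.1 ha
      exact Or.inr ⟨i, hi, by rw [he]⟩
  · rintro (⟨a, ha, rfl⟩ | ⟨i, hi, rfl⟩)
    · exact Or.inl ⟨a, ha, rfl⟩
    · refine Or.inr ⟨(J[i], i), ?_, rfl⟩
      rw [List.mem_zipIdx_iff_getElem?]
      simp [hi]

theorem lv_zero (K m : ℕ) : lv K (List.replicate m 0) = 0 := by
  ext p
  rw [lv_apply]
  have : (List.replicate m (0 : ℤ)).getD p 0 = 0 := by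
    rw [List.getD_eq_getElem?_getD, List.getElem?_replicate]
    split_ifs <;> rfl
  rw [this]; simp

theorem length_diffPart (N : ℕ) (y : List ℤ) : (diffPart N y).length = N := by simp [diffPart]

theorem lv_diffPart {N m : ℕ} (y : List ℤ) :
    lv N (diffPart N y) = dp (m := m) (lv (N + (N + m)) y) := by
  ext p
  simp only [lv_apply, dp, Fin.val_castAdd, Fin.val_natAdd, diffPart]
  rw [List.getD_eq_getElem _ _ (by simp)]
  simp

theorem relint_spec {N t : ℕ} {E J : List (List ℤ)} (hE : ∀ r ∈ E, r.length = N)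
    (hJ : ∀ r ∈ J, r.length = N) (ht : gprod (N + (N + J.length)) (sys E J) < 2 ^ t) :
    (relint N t E J).length = N ∧ (∀ r ∈ E, ⟪lv N r, lv N (relint N t E J)⟫_ℝ = 0) ∧
      (∀ r ∈ J, ⟪lv N r, lv N (relint N t E J)⟫_ℝ ≤ 0) ∧
      ∀ h : EuclideanSpace ℝ (Fin N), (∀ r ∈ E, ⟪lv N r, h⟫_ℝ = 0) →
        (∀ r ∈ J, ⟪lv N r, h⟫_ℝ ≤ 0) → ∀ r ∈ J, ⟪lv N r, lv N (relint N t E J)⟫_ℝ = 0 →
        ⟪lv N r, h⟫_ℝ = 0 := by
  set m := J.length with hm
  have hlen : ∀ r ∈ sys E J, r.length = N + (N + m) := by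
    intro r hr
    rcases mem_sys.1 hr with ⟨a, ha, rfl⟩ | ⟨i, hi, rfl⟩
    · exact length_sysRow (hE a ha) (by simp [hm])
    · exact length_sysRow (hJ _ (List.getElem_mem _)) (length_unitV _ _)
  obtain ⟨h1, h2, h3, h4⟩ := maxsupp_spec hlen ht
  rw [relint, ← hm, maxsuppF_eq hlen]
  set y := maxsupp (N + (N + m)) t (sys E J) with hy
  have e0 : lv N (diffPart N y) = dp (lv (N + (N + m)) y) := lv_diffPart y
  rw [e0]
  have rowE : ∀ a ∈ E, ∀ w : EuclideanSpace ℝ (Fin (N + (N + m))),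
      ⟪lv (N + (N + m)) (sysRow a (List.replicate m 0)), w⟫_ℝ = ⟪lv N a, dp w⟫_ℝ := by
    intro a ha w
    rw [inner_sysRow (hE a ha) (by simp), lv_zero]
    simp
  have rowJ : ∀ (i : ℕ) (hi : i < m), ∀ w : EuclideanSpace ℝ (Fin (N + (N + m))),
      ⟪lv (N + (N + m)) (sysRow J[i] (unitV m i)), w⟫_ℝ = ⟪lv N J[i], dp w⟫_ℝ + sp w ⟨i, hi⟩ := by
    intro i hi w
    rw [inner_sysRow (hJ _ (List.getElem_mem _)) (length_unitV _ _)]
    congr 1
    exact inner_unitV ⟨i, hi⟩ _
  have hsp : ∀ (w : EuclideanSpace ℝ (Fin (N + (N + m)))) (i : Fin m),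
      sp w i = w (Fin.natAdd N (Fin.natAdd N i)) := fun w i => rfl
  have keyJ : ∀ (i : ℕ) (hi : i < m), ⟪lv N J[i], dp (lv (N + (N + m)) y)⟫_ℝ =
      - sp (lv (N + (N + m)) y) ⟨i, hi⟩ := by
    intro i hi
    have := h2 _ (mem_sys.2 (Or.inr ⟨i, hi, rfl⟩))
    rw [rowJ i hi] at this
    linarith
  refine ⟨length_diffPart _ _, ?_, ?_, ?_⟩
  · intro r hr
    have := h2 _ (mem_sys.2 (Or.inl ⟨r, hr, rfl⟩))
    rwa [← hm, rowE r hr] at this
  · intro r hr
    obtain ⟨i, hi, rfl⟩ := List.getElem_of_mem hr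
    rw [keyJ i hi, hsp]
    have := h3 (Fin.natAdd N (Fin.natAdd N ⟨i, hi⟩))
    linarith
  · intro h hh1 hh2 r hr hr0
    obtain ⟨i, hi, rfl⟩ := List.getElem_of_mem hr
    rw [keyJ i hi, hsp] at hr0
    -- the vector in the big space
    set w : EuclideanSpace ℝ (Fin (N + (N + m))) := WithLp.toLp 2
      (Fin.append (fun i => max (h i) 0) (Fin.append (fun i => max (-(h i)) 0)
        (fun i : Fin m => - ⟪lv N J[(i : ℕ)], h⟫_ℝ))) with hw
    have hdp : dp w = h := by
      ext p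
      simp only [dp, hw, Fin.append_left, Fin.append_right]
      rcases le_total 0 (h p) with hp | hp
      · rw [max_eq_left hp, max_eq_right (by linarith)]; ring
      · rw [max_eq_right hp, max_eq_left (by linarith)]; ring
    have hspw : ∀ i : Fin m, sp w i = - ⟪lv N J[(i : ℕ)], h⟫_ℝ := by
      intro i
      simp only [sp, hw, Fin.append_right]
    have hw1 : ∀ r ∈ sys E J, ⟪lv (N + (N + m)) r, w⟫_ℝ = 0 := by
      intro r hr
      rcases mem_sys.1 hr with ⟨a, ha, rfl⟩ | ⟨i, hi, rfl⟩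
      · rw [← hm, rowE a ha, hdp, hh1 a ha]
      · rw [← hm, rowJ i hi, hdp, hspw]; ring
    have hw2 : ∀ i, 0 ≤ w i := by
      intro i
      simp only [hw]
      refine Fin.addCases (fun i => ?_) (fun i => ?_) i
      · rw [Fin.append_left]; exact le_max_right _ _
      · rw [Fin.append_right]
        refine Fin.addCases (fun i => ?_) (fun i => ?_) i
        · rw [Fin.append_left]; exact le_max_right _ _
        · rw [Fin.append_right]
          have := hh2 J[(i : ℕ)] (List.getElem_mem _)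
          linarith
    have h5 := h4 w hw1 hw2 (Fin.natAdd N (Fin.natAdd N ⟨i, hi⟩)) (by linarith)
    have h6 := hspw ⟨i, hi⟩
    rw [hsp, h5] at h6
    simp only at h6
    linarith

/-! ### Size of the system -/

theorem norm_sysRow {N m : ℕ} {r u : List ℤ} (hr : r.length = N) (hu : u.length = m) :
    ‖lv (N + (N + m)) (sysRow r u)‖ ^ 2 = 2 * ‖lv N r‖ ^ 2 + ‖lv m u‖ ^ 2 := by
  obtain ⟨h1, h2, h3⟩ := sysRow_getD hr hu
  rw [normSq_eq, normSq_eq, normSq_eq, Fin.sum_univ_add, Fin.sum_univ_add, two_mul, add_assoc]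
  congr 1
  · refine Finset.sum_congr rfl fun i _ => ?_
    simp only [lv_apply, Fin.val_castAdd]
    rw [h1 i i.2]
  congr 1
  · refine Finset.sum_congr rfl fun i _ => ?_
    simp only [lv_apply, Fin.val_castAdd, Fin.val_natAdd]
    rw [h2 i i.2]
    push_cast
    ring
  · refine Finset.sum_congr rfl fun i _ => ?_
    simp only [lv_apply, Fin.val_natAdd]
    rw [h3 i i.2]

theorem gprod_le {K b : ℕ} {B : List (List ℤ)} (h : ∀ r ∈ B, ‖lv K r‖ ^ 2 ≤ 2 ^ b) :
    gprod K B ≤ 2 ^ (b * B.length) := by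
  induction B with
  | nil => simp [gprod]
  | cons r B ih =>
    have h1 := ih fun r hr => h r (List.mem_cons_of_mem _ hr)
    have h2 := h r (by simp)
    have e : gprod K (r :: B) = max 1 (‖lv K r‖ ^ 2) * gprod K B := by simp [gprod]
    have h3 : 0 ≤ gprod K B := by
      unfold gprod
      apply List.prod_nonneg
      intro x hx
      rw [List.mem_map] at hx
      obtain ⟨r, _, rfl⟩ := hx
      positivity
    rw [e, List.length_cons, mul_add, mul_one, pow_add, mul_comm]
    refine mul_le_mul h1 (max_le (one_le_pow₀ (by norm_num)) h2) (by positivity) (by positivity)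

theorem gprod_sys_le {N b : ℕ} {E J : List (List ℤ)} (hE : ∀ r ∈ E, r.length = N)
    (hJ : ∀ r ∈ J, r.length = N) (hbE : ∀ r ∈ E, ‖lv N r‖ ^ 2 ≤ 2 ^ b)
    (hbJ : ∀ r ∈ J, ‖lv N r‖ ^ 2 ≤ 2 ^ b) :
    gprod (N + (N + J.length)) (sys E J) ≤ 2 ^ ((b + 2) * (E.length + J.length)) := by
  have h1 : ∀ r ∈ sys E J, ‖lv (N + (N + J.length)) r‖ ^ 2 ≤ 2 ^ (b + 2) := by
    intro r hr
    have hb1 : (1 : ℝ) ≤ 2 ^ b := one_le_pow₀ (by norm_num)
    rcases mem_sys.1 hr with ⟨a, ha, rfl⟩ | ⟨i, hi, rfl⟩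
    · rw [norm_sysRow (hE a ha) (by simp), lv_zero, norm_zero, pow_add]
      have := hbE a ha
      nlinarith
    · rw [norm_sysRow (hJ _ (List.getElem_mem _)) (length_unitV _ _), pow_add,
        norm_unitV ⟨i, hi⟩]
      have := hbJ _ (List.getElem_mem hi)
      nlinarith
  have h2 := gprod_le h1
  have h3 : (sys E J).length = E.length + J.length := by simp [sys]
  rwa [h3] at h2

end Pool.Agent.Y644.QS
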