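import Pool.Agent.Y644.QS.Proj
set_option autoImplicit false

/-!
# Elementary vectors of integral systems have large entries
-/

namespace Pool.Agent.Y644.QS

open scoped InnerProductSpace
open Pool.Agent.H687R2.LLL

/-- unit vector -/
def unitV (K j : ℕ) : List ℤ := (List.range K).map fun i => if i = j then 1 else 0

theorem length_unitV (K j : ℕ) : (unitV K j).length = K := by simp [unitV]

theorem getD_unitV {K i : ℕ} (hi : i < K) (j : ℕ) :
    (unitV K j).getD i 0 = if i = j then 1 else 0 := by
  simp [unitV, hi]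

theorem lv_unitV {K : ℕ} (j : Fin K) : lv K (unitV K j) = EuclideanSpace.single j (1 : ℝ) := by
  ext p
  rw [lv_apply, getD_unitV p.2]
  by_cases h : p = j
  · subst h; simp
  · have : (p : ℕ) ≠ (j : ℕ) := fun h' => h (Fin.ext h')
    simp [this, h]

theorem inner_unitV {K : ℕ} (j : Fin K) (y : EuclideanSpace ℝ (Fin K)) :
    ⟪lv K (unitV K j), y⟫_ℝ = y j := by
  rw [lv_unitV]
  simp [EuclideanSpace.inner_single_left]

theorem norm_unitV {K : ℕ} (j : Fin K) : ‖lv K (unitV K j)‖ = 1 := by
  rw [lv_unitV]
  simp

theorem normSq_eq {K : ℕ} (y : EuclideanSpace ℝ (Fin K)) : ‖y‖ ^ 2 = ∑ i, y i ^ 2 := by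
  rw [EuclideanSpace.real_norm_sq_eq]

/-- the product bounding Gram determinants -/
noncomputable def gprod (K : ℕ) (B : List (List ℤ)) : ℝ :=
  (B.map fun r => max 1 (‖lv K r‖ ^ 2)).prod

theorem gprod_append (K : ℕ) (B C : List (List ℤ)) :
    gprod K (B ++ C) = gprod K B * gprod K C := by
  simp [gprod]

theorem gprod_unit (K : ℕ) (l : List ℕ) (hl : ∀ j ∈ l, j < K) :
    gprod K (l.map (unitV K)) = 1 := by
  induction l with
  | nil => simp [gprod]
  | cons j l ih =>
    have h1 := norm_unitV (K := K) ⟨j, hl j (by simp)⟩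
    have h2 := ih fun i hi => hl i (List.mem_cons_of_mem _ hi)
    simp only [gprod] at h2 ⊢
    simp only [List.map_cons, List.prod_cons, h2]
    simp only at h1
    rw [h1]
    norm_num

theorem supp_bound {K : ℕ} {B : List (List ℤ)} (hB : ∀ r ∈ B, r.length = K) {t : ℕ}
    (ht : gprod K B < 2 ^ t) (j : Fin K) :
    ∀ (s : ℕ) (y : EuclideanSpace ℝ (Fin K)), (Finset.univ.filter fun i => y i ≠ 0).card = s →
      (∀ r ∈ B, ⟪lv K r, y⟫_ℝ = 0) → (∀ i, 0 ≤ y i) → 0 < y j →
      ∃ y' : EuclideanSpace ℝ (Fin K), (∀ r ∈ B, ⟪lv K r, y'⟫_ℝ = 0) ∧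
        (∀ i, 0 ≤ y' i ∧ y' i ≤ 1) ∧ 1 < y' j * 2 ^ t := by
  classical
  intro s
  induction s using Nat.strong_induction_on with
  | _ s ih =>
    intro y hs hy hy0 hj
    by_cases hz : ∃ z : EuclideanSpace ℝ (Fin K), (∀ r ∈ B, ⟪lv K r, z⟫_ℝ = 0) ∧
        (∀ i, y i = 0 → z i = 0) ∧ ∀ a : ℝ, z ≠ a • y
    · -- reduce the support
      obtain ⟨z, hz1, hz2, hz3⟩ := hz
      have key : ∀ w : EuclideanSpace ℝ (Fin K), (∀ r ∈ B, ⟪lv K r, w⟫_ℝ = 0) →
          (∀ i, y i = 0 → w i = 0) → w j = 0 → (∃ i, w i < 0) →
          ∃ y' : EuclideanSpace ℝ (Fin K), (∀ r ∈ B, ⟪lv K r, y'⟫_ℝ = 0) ∧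
            (∀ i, 0 ≤ y' i ∧ y' i ≤ 1) ∧ 1 < y' j * 2 ^ t := by
        intro w hw1 hw2 hwj ⟨i0, hi0⟩
        obtain ⟨i1, hi1, hmin⟩ := Finset.exists_min_image (Finset.univ.filter fun i => w i < 0)
          (fun i => y i / (-w i)) ⟨i0, by simp [hi0]⟩
        rw [Finset.mem_filter] at hi1
        have hw1' : w i1 < 0 := hi1.2
        set a := y i1 / (-w i1) with ha
        have ha0 : 0 ≤ a := div_nonneg (hy0 _) (by linarith)
        have hval : ∀ i, (y + a • w) i = y i + a * w i := fun i => by simp
        have hnn : ∀ i, 0 ≤ (y + a • w) i := by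
          intro i
          rw [hval]
          by_cases hi : w i < 0
          · have h1 := hmin i (by simp [hi])
            rw [le_div_iff₀ (by linarith)] at h1
            linarith
          · push Not at hi
            have := mul_nonneg ha0 hi
            linarith [hy0 i]
        have hzero : (y + a • w) i1 = 0 := by
          rw [hval, ha, div_neg, neg_mul, div_mul_cancel₀ _ hw1'.ne]
          ring
        have hy1 : y i1 ≠ 0 := fun h => by
          have := hw2 i1 h
          linarith
        refine ih _ ?_ (y + a • w) rfl ?_ hnn ?_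
        · rw [← hs]
          apply Finset.card_lt_card
          rw [Finset.ssubset_iff_of_subset]
          · exact ⟨i1, by simp [hy1], by simp only [Finset.mem_filter, not_and, not_not]; exact fun _ => hzero⟩
          · intro i hi
            rw [Finset.mem_filter] at hi ⊢
            refine ⟨hi.1, fun h => hi.2 ?_⟩
            rw [hval, h, hw2 i h]; ring
        · intro r hr
          rw [inner_add_right, inner_smul_right, hy r hr, hw1 r hr]; ring
        · rw [hval, hwj]; linarith
      set z' := z - (z j / y j) • y with hz'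
      have e1 : ∀ r ∈ B, ⟪lv K r, z'⟫_ℝ = 0 := by
        intro r hr
        rw [hz', inner_sub_right, inner_smul_right, hy r hr, hz1 r hr]; ring
      have hval' : ∀ i, z' i = z i - (z j / y j) * y i := fun i => by simp [hz']
      have e2 : ∀ i, y i = 0 → z' i = 0 := by
        intro i hi
        rw [hval', hz2 i hi, hi]; ring
      have e3 : z' j = 0 := by
        rw [hval']; field_simp; ring
      have e4 : ∃ i, z' i ≠ 0 := by
        by_contra hcon
        push Not at hcon
        apply hz3 (z j / y j)
        ext i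
        have := hcon i
        rw [hval'] at this
        simp only [PiLp.smul_apply, smul_eq_mul]
        linarith
      obtain ⟨i, hi⟩ := e4
      rcases lt_or_gt_of_ne hi with h | h
      · exact key z' e1 e2 e3 ⟨i, h⟩
      · refine key (-z') ?_ ?_ ?_ ⟨i, ?_⟩
        · intro r hr; rw [inner_neg_right, e1 r hr, neg_zero]
        · intro i hi; simp [e2 i hi]
        · simp [e3]
        · simp; exact h
    · -- the kernel is one-dimensional
      push Not at hz
      set l : List ℕ := (List.range K).filter fun i => decide (∃ h : i < K, y ⟨i, h⟩ = 0) with hl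
      have hlK : ∀ i ∈ l, i < K := fun i hi => by
        rw [hl, List.mem_filter] at hi
        simpa using hi.1
      have hyl : ∀ i : Fin K, (i : ℕ) ∈ l ↔ y i = 0 := by
        intro i
        rw [hl, List.mem_filter]
        simp [i.2]
      set B' := B ++ l.map (unitV K) with hB'
      have hB'l : ∀ r ∈ B', r.length = K := by
        intro r hr
        rw [hB', List.mem_append, List.mem_map] at hr
        rcases hr with hr | ⟨i, _, rfl⟩
        · exact hB r hr
        · exact length_unitV K i
      obtain ⟨D, hD0, hD, hproj⟩ := gs_proj hB'l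
      change (D : ℝ) ≤ gprod K B' at hD
      rw [hB', gprod_append, gprod_unit K l hlK, mul_one] at hD
      have hrows : ∀ r ∈ B', ⟪lv K r, y⟫_ℝ = 0 := by
        intro r hr
        rw [hB', List.mem_append, List.mem_map] at hr
        rcases hr with hr | ⟨i, hi, rfl⟩
        · exact hy r hr
        · have := inner_unitV (K := K) ⟨i, hlK i hi⟩ y
          rw [this]
          exact (hyl ⟨i, hlK i hi⟩).1 hi
      obtain ⟨a, ha⟩ := hz (PB K B' (lv K (unitV K j)))
        (fun r hr => by
          rw [real_inner_comm]; exact PB_row (by rw [hB']; exact List.mem_append_left _ hr) _)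
        (fun i hi => by
          have := PB_row (N := K) (B := B') (r := unitV K i) (by
            rw [hB', List.mem_append, List.mem_map]
            exact Or.inr ⟨i, (hyl i).2 hi, rfl⟩) (lv K (unitV K j))
          rwa [real_inner_comm, inner_unitV] at this)
      have h1 := PB_inner_of_rows hrows (lv K (unitV K j))
      rw [ha, inner_smul_left, real_inner_self_eq_norm_sq, inner_unitV] at h1
      simp only [conj_trivial] at h1
      have hny : 0 < ‖y‖ := by
        rw [norm_pos_iff]
        rintro rfl
        simp at hj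
      have hny2 : 0 < ‖y‖ ^ 2 := by positivity
      obtain ⟨p1, p2⟩ := hproj (unitV K j) (length_unitV K j)
      have h2 := congrArg (fun v => v j) p2
      simp only [lv_apply, PiLp.smul_apply, smul_eq_mul, ha] at h2
      have ha' : a = y j / ‖y‖ ^ 2 := by
        rw [eq_div_iff hny2.ne']; linarith
      have h3 : (((proj (gs B') (unitV K j)).1.getD j 0 : ℤ) : ℝ) =
          D * (y j ^ 2 / ‖y‖ ^ 2) := by
        rw [h2, ha']; ring
      have hDr : (0 : ℝ) < D := by exact_mod_cast hD0
      have h4 : (0 : ℝ) < (((proj (gs B') (unitV K j)).1.getD j 0 : ℤ) : ℝ) := by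
        rw [h3]; positivity
      have h5 : (1 : ℝ) ≤ (((proj (gs B') (unitV K j)).1.getD j 0 : ℤ) : ℝ) := by
        have : 0 < (proj (gs B') (unitV K j)).1.getD j 0 := by exact_mod_cast h4
        exact_mod_cast this
      rw [h3] at h5
      have hyle : ∀ i, y i ≤ ‖y‖ := by
        intro i
        have : y i ^ 2 ≤ ‖y‖ ^ 2 := by
          rw [normSq_eq]
          exact Finset.single_le_sum (f := fun i => y i ^ 2) (fun _ _ => by positivity)
            (Finset.mem_univ i)
        exact le_of_sq_le_sq this hny.le
      refine ⟨(‖y‖)⁻¹ • y, ?_, ?_, ?_⟩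
      · intro r hr
        rw [inner_smul_right, hy r hr, mul_zero]
      · intro i
        simp only [PiLp.smul_apply, smul_eq_mul]
        refine ⟨mul_nonneg (by positivity) (hy0 i), ?_⟩
        rw [inv_mul_le_iff₀ hny, mul_one]
        exact hyle i
      · simp only [PiLp.smul_apply, smul_eq_mul]
        set w := (‖y‖)⁻¹ * y j with hw
        have hw2 : y j ^ 2 / ‖y‖ ^ 2 = w ^ 2 := by
          rw [hw]; field_simp
        rw [hw2] at h5
        have hw0 : 0 < w := by positivity
        have hw1 : w ≤ 1 := by
          rw [hw, inv_mul_le_iff₀ hny, mul_one]; exact hyle j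
        have hlt : (D : ℝ) < 2 ^ t := lt_of_le_of_lt hD ht
        have h6 : w ^ 2 ≤ w := by nlinarith
        calc (1 : ℝ) ≤ D * w ^ 2 := h5
          _ ≤ D * w := mul_le_mul_of_nonneg_left h6 hDr.le
          _ < 2 ^ t * w := mul_lt_mul_of_pos_right hlt hw0
          _ = w * 2 ^ t := by ring

end Pool.Agent.Y644.QS
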